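import Mathlib

/-!
[H99 RO STG]  THEOREM G (MP_8923e7_nt): the two clauses of the final statement, as propositions.
-/

namespace Pool.Agent.H99.RO

open Finset

open Classical in
/-- Clause (2) of THEOREM G: for every scale `L` between `L₀` and `(log x)^A` at least `(1/3 - ε) L` of the `n ≤ L` are such that `N`, `N + 2 n` are prime
(and consecutive primes, if `L ≤ lam log x`) for at least `c min(1, L/log x)^K x/(log x)^2` of the `N ≤ x` -/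
def TG2 : Prop :=
  ∀ ε : ℝ, 0 < ε → ∃ K : ℕ, ∀ A : ℝ, 0 < A → ∃ c lam L₀ x₀ : ℝ, 0 < c ∧ 0 < lam ∧ ∀ x : ℝ, x₀ ≤ x → ∀ L : ℕ,
    L₀ ≤ L → (L : ℝ) ≤ Real.log x ^ A →
    (1 / 3 - ε) * L ≤ (((Icc 1 L).filter fun n => c * min 1 ((L : ℝ) / Real.log x) ^ K * x / Real.log x ^ 2 ≤
      (((Icc 1 ⌊x⌋₊).filter fun N => N.Prime ∧ (N + 2 * n).Prime ∧ ((L : ℝ) ≤ lam * Real.log x →
        ∀ y : ℕ, N < y → y < N + 2 * n → ¬ y.Prime)).card : ℝ)).card : ℝ)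

open Classical in
/-- Clause (1) of THEOREM G: for every scale `L` between `L₀` and `(log x)^A` at least `((13/50)^k - ε) L^k` of the `n ∈ [1,L]^k` are such that
`N`, `N + Q n_1`, …, `N + Q n_k` are prime for at least `c min(1, L/log x)^K x/(log x)^(k+1)` of the `N ≤ x` -/
def TG1 : Prop :=
  ∀ (k : ℕ) (ε : ℝ), 1 ≤ k → 0 < ε → ∃ (q K : ℕ), 0 < q ∧ ∀ Q : ℕ, 0 < Q → q ∣ Q → ∀ A : ℝ, 0 < A →
    ∃ c L₀ x₀ : ℝ, 0 < c ∧ ∀ x : ℝ, x₀ ≤ x → ∀ L : ℕ, L₀ ≤ L → (L : ℝ) ≤ Real.log x ^ A →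
    ((13 / 50 : ℝ) ^ k - ε) * (L : ℝ) ^ k ≤ (((Fintype.piFinset fun _ : Fin k => Icc 1 L).filter fun n =>
      c * min 1 ((L : ℝ) / Real.log x) ^ K * x / Real.log x ^ (k + 1) ≤
      (((Icc 1 ⌊x⌋₊).filter fun N => N.Prime ∧ ∀ i, (N + Q * n i).Prime).card : ℝ)).card : ℝ)

end Pool.Agent.H99.RO
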