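import Pool.Agent.H99.RO.Fn

/-!
[H99 RO CNT]  Counting the linear configuration with `M^2` edges.

Vertices `(j, a)`, `j < m`, `a ∈ ZMod M`; edges `q = (q.1, q.2) ∈ ZMod M × ZMod M` with the vertices `(j, q.1 + j q.2)`; `M` prime, `m ≤ M`.

Proof.  Let `I = Fin m × ZMod M`, `X = piFinset (fun p : I => U p.1)`, `ed q x = fun j => x (j, q.1 + j * q.2)`, `d = den f U` (`0 ≤ d ≤ 1`),
`Π = ∏ j |U j|`.  If some `U j` is empty both sides are `0` (`M ≥ 1`; the left sum is empty, and the right side has the factor `0 ^ M = 0`).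
For a finset `E` of edges let `T E = ∑_{x ∈ X} (∏_{q ∈ E} f (ed q x))`.
STEP.  For `q ∉ E`: `|T (insert q E) - d * T E| ≤ e * |X|`, `|X| = ∏ j |U j|^M`.
 For `x ∈ X` and `y ∈ piFinset U` let `x[y]` be `x` with the values at the vertices of `q` replaced by `y`
 (`x[y] p = if p.2 = q.1 + p.1 * q.2 then y p.1 else x p`).  For every `F`: `∑_{x ∈ X} F x * Π = ∑_{x ∈ X} ∑_{y ∈ piFinset U} F (x[y])`, because
 `(x, y) ↦ (x[y], ed q x)` is an involution of `X × piFinset U`.  Apply this to `F x = (f (ed q x) - d) ∏_{q' ∈ E} f (ed q' x)`.  `ed q (x[y]) = y`.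
 For `q' ≠ q` the edges `q`, `q'` have at most one common vertex: if `q.1 + j q.2 = q'.1 + j q'.2` and `q.1 + j' q.2 = q'.1 + j' q'.2` with
 `j ≠ j'` then `(j - j') (q.2 - q'.2) = 0` in the field `ZMod M` and `(j : ZMod M) ≠ j'` (`j, j' < m ≤ M`), so `q.2 = q'.2`, `q.1 = q'.1`.
 Hence for fixed `x` the function `y ↦ f (ed q' (x[y]))` is constant or depends only on one `y j`; so `∏_{q' ∈ E} f (ed q' (x[y])) = κ ∏_j a_j (y j)`
 with `κ, a_j ∈ [0,1]` (`a_j v` = product over the `q' ∈ E` whose common vertex with `q` is the one with index `j` of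
 `f (ed q' (x with that vertex replaced by v))`; `κ` = product over the `q'` disjoint from `q`).  `reg_fun` gives
 `|∑_y F (x[y])| ≤ e Π`.  Sum over `x` and divide by `Π > 0`.
By induction on `E`: `T E ≤ (d^|E| + |E| e) |X|`  (`T (insert q E) ≤ d T E + e |X|`, `d ≤ 1`).  `E = univ` has `M^2` elements.
-/

set_option linter.unusedSectionVars false

namespace Pool.Agent.H99.RO

open Finset

variable {V P ι : Type} [Fintype P] [DecidableEq P] {m : ℕ}

/-- the edge tuple -/
def et (E : Fin m → P) (x : Fin m × P → V) : Fin m → V := fun j => x (j, E j)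

/-- replace the vertices of an edge -/
def upd (E : Fin m → P) (x : Fin m × P → V) (y : Fin m → V) : Fin m × P → V :=
  fun p => if p.2 = E p.1 then y p.1 else x p

theorem et_upd (E : Fin m → P) (x : Fin m × P → V) (y : Fin m → V) : et E (upd E x y) = y := by
  funext j; simp [et, upd]

theorem upd_upd (E : Fin m → P) (x : Fin m × P → V) (y : Fin m → V) :
    upd E (upd E x y) (et E x) = x := by
  funext p
  obtain ⟨j, a⟩ := p
  by_cases h : a = E j
  · subst h; simp [et, upd]
  · simp [et, upd, h]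

theorem upd_mem (E : Fin m → P) {U : Fin m → Finset V} {x : Fin m × P → V} {y : Fin m → V}
    (hx : x ∈ Fintype.piFinset (fun p : Fin m × P => U p.1)) (hy : y ∈ Fintype.piFinset U) :
    upd E x y ∈ Fintype.piFinset (fun p : Fin m × P => U p.1) := by
  rw [Fintype.mem_piFinset] at hx hy ⊢
  intro p
  unfold upd
  split_ifs
  · exact hy p.1
  · exact hx p

theorem et_mem (E : Fin m → P) {U : Fin m → Finset V} {x : Fin m × P → V}
    (hx : x ∈ Fintype.piFinset (fun p : Fin m × P => U p.1)) : et E x ∈ Fintype.piFinset U := by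
  rw [Fintype.mem_piFinset] at hx ⊢
  intro j
  exact hx (j, E j)

/-- the involution: a sum over the box as a sum over (box) × (edge tuples) -/
theorem sum_upd (E : Fin m → P) (U : Fin m → Finset V) (G : (Fin m × P → V) → ℝ) :
    ∑ x ∈ Fintype.piFinset (fun p : Fin m × P => U p.1), ∑ y ∈ Fintype.piFinset U, G (upd E x y) =
      ((Fintype.piFinset U).card : ℝ) * ∑ x ∈ Fintype.piFinset (fun p : Fin m × P => U p.1), G x := by
  rw [← Finset.sum_product', mul_comm, Finset.sum_mul]
  have h1 : ∀ x ∈ Fintype.piFinset (fun p : Fin m × P => U p.1),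
      G x * ((Fintype.piFinset U).card : ℝ) = ∑ y ∈ Fintype.piFinset U, G x := by
    intro x _
    rw [Finset.sum_const, nsmul_eq_mul, mul_comm]
  rw [Finset.sum_congr rfl h1, ← Finset.sum_product']
  refine Finset.sum_nbij' (fun p => (upd E p.1 p.2, et E p.1)) (fun p => (upd E p.1 p.2, et E p.1)) ?_ ?_ ?_ ?_ ?_
  · rintro ⟨x, y⟩ h
    rw [Finset.mem_product] at h ⊢
    exact ⟨upd_mem E h.1 h.2, et_mem E h.1⟩
  · rintro ⟨x, y⟩ h
    rw [Finset.mem_product] at h ⊢
    exact ⟨upd_mem E h.1 h.2, et_mem E h.1⟩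
  · rintro ⟨x, y⟩ _
    simp only [upd_upd, et_upd]
  · rintro ⟨x, y⟩ _
    simp only [upd_upd, et_upd]
  · rintro ⟨x, y⟩ _
    rfl

/-- an edge meets the other one in at most one vertex: the value splits -/
theorem et_split (E E' : Fin m → P) (hl : ∀ j j', E' j = E j → E' j' = E j' → j = j')
    (f : (Fin m → V) → ℝ) (x : Fin m × P → V) (y : Fin m → V) :
    f (et E' (upd E x y)) = (if ∃ j, E' j = E j then 1 else f (et E' x)) *
      ∏ j, (if E' j = E j then f (Function.update (et E' x) j (y j)) else 1) := by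
  by_cases h : ∃ j, E' j = E j
  · obtain ⟨j0, hj0⟩ := h
    rw [if_pos ⟨j0, hj0⟩, one_mul, Finset.prod_eq_single j0]
    · rw [if_pos hj0]
      congr 1
      funext j
      unfold et upd
      by_cases hj : j = j0
      · subst hj; simp [hj0]
      · rw [Function.update_of_ne hj]
        have h1 : E' j ≠ E j := fun h2 => hj (hl j j0 h2 hj0)
        simp [h1]
    · intro j _ hj
      rw [if_neg fun h2 => hj (hl j j0 h2 hj0)]
    · intro h; exact absurd (Finset.mem_univ j0) h
  · rw [if_neg h]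
    push Not at h
    rw [Finset.prod_eq_one fun j _ => by rw [if_neg (h j)], mul_one]
    congr 1
    funext j
    unfold et upd
    simp [h j]

/-- one edge is replaced by its density -/
theorem one_edge (E : ι → Fin m → P) (S : Finset ι) (k : ι)
    (hl : ∀ i ∈ S, ∀ j j', E i j = E k j → E i j' = E k j' → j = j')
    {f : (Fin m → V) → ℝ} (f0 : ∀ x, 0 ≤ f x) (f1 : ∀ x, f x ≤ 1) (U : Fin m → Finset V) {d e : ℝ}
    (h : ∀ u : Fin m → V → ℝ, (∀ j v, 0 ≤ u j v) → (∀ j v, u j v ≤ 1) →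
      |∑ y ∈ Fintype.piFinset U, (f y - d) * ∏ j, u j (y j)| ≤ e * ((Fintype.piFinset U).card : ℝ)) :
    |∑ x ∈ Fintype.piFinset (fun p : Fin m × P => U p.1),
      (∏ i ∈ S, f (et (E i) x)) * (f (et (E k) x) - d)| ≤
        e * ((Fintype.piFinset (fun p : Fin m × P => U p.1)).card : ℝ) := by
  set X := Fintype.piFinset (fun p : Fin m × P => U p.1) with hX
  rcases X.eq_empty_or_nonempty with hB | ⟨x0, hx0⟩
  · rw [hB]; simp
  have hY : 0 < ((Fintype.piFinset U).card : ℝ) := by
    have : 0 < (Fintype.piFinset U).card := Finset.card_pos.2 ⟨et (E k) x0, et_mem (E k) hx0⟩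
    exact_mod_cast this
  have key : ∀ x ∈ X, |∑ y ∈ Fintype.piFinset U,
      (∏ i ∈ S, f (et (E i) (upd (E k) x y))) * (f (et (E k) (upd (E k) x y)) - d)| ≤
      e * ((Fintype.piFinset U).card : ℝ) := by
    intro x _
    set κ : ℝ := ∏ i ∈ S, (if ∃ j, E i j = E k j then 1 else f (et (E i) x)) with hκ
    set u : Fin m → V → ℝ := fun j v => ∏ i ∈ S,
      (if E i j = E k j then f (Function.update (et (E i) x) j v) else 1) with hu
    have hκ0 : 0 ≤ κ := Finset.prod_nonneg fun i _ => by split_ifs; exacts [zero_le_one, f0 _]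
    have hκ1 : κ ≤ 1 := Finset.prod_le_one (fun i _ => by split_ifs; exacts [zero_le_one, f0 _])
      (fun i _ => by split_ifs; exacts [le_refl _, f1 _])
    have h1 : ∀ y : Fin m → V, (∏ i ∈ S, f (et (E i) (upd (E k) x y))) *
        (f (et (E k) (upd (E k) x y)) - d) = κ * ((f y - d) * ∏ j, u j (y j)) := by
      intro y
      rw [et_upd]
      have h2 : ∏ i ∈ S, f (et (E i) (upd (E k) x y)) = κ * ∏ j, u j (y j) := by
        rw [Finset.prod_congr rfl fun i hi => et_split (E k) (E i)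
          (hl i hi) f x y, Finset.prod_mul_distrib, Finset.prod_comm]
      rw [h2]
      ring
    simp only [h1]
    rw [← Finset.mul_sum, abs_mul, abs_of_nonneg hκ0]
    have h3 := h u (fun j v => Finset.prod_nonneg fun i _ => by split_ifs; exacts [f0 _, zero_le_one])
      (fun j v => Finset.prod_le_one (fun i _ => by split_ifs; exacts [f0 _, zero_le_one])
        (fun i _ => by split_ifs; exacts [f1 _, le_refl _]))
    calc κ * |∑ y ∈ Fintype.piFinset U, (f y - d) * ∏ j, u j (y j)| ≤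
        1 * |∑ y ∈ Fintype.piFinset U, (f y - d) * ∏ j, u j (y j)| :=
          mul_le_mul_of_nonneg_right hκ1 (abs_nonneg _)
      _ ≤ _ := by rw [one_mul]; exact h3
  have h4 := sum_upd (E k) U (fun x => (∏ i ∈ S, f (et (E i) x)) * (f (et (E k) x) - d))
  rw [← hX] at h4
  have h5 : ((Fintype.piFinset U).card : ℝ) *
      |∑ x ∈ X, (∏ i ∈ S, f (et (E i) x)) * (f (et (E k) x) - d)| ≤
      ((Fintype.piFinset U).card : ℝ) * (e * (X.card : ℝ)) := by
    rw [← abs_of_pos hY, ← abs_mul, ← h4, abs_of_pos hY]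
    calc _ ≤ ∑ x ∈ X, |∑ y ∈ Fintype.piFinset U,
          (∏ i ∈ S, f (et (E i) (upd (E k) x y))) * (f (et (E k) (upd (E k) x y)) - d)| :=
          Finset.abs_sum_le_sum_abs _ _
      _ ≤ ∑ x ∈ X, e * ((Fintype.piFinset U).card : ℝ) := Finset.sum_le_sum key
      _ = _ := by rw [Finset.sum_const, nsmul_eq_mul]; ring
  exact le_of_mul_le_mul_left h5 hY

/-- COUNTING: the number of tuples with all edges in the hypergraph -/
theorem count (E : ι → Fin m → P) (S : Finset ι)
    (hl : ∀ k, ∀ i, i ≠ k → ∀ j j', E i j = E k j → E i j' = E k j' → j = j')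
    {f : (Fin m → V) → ℝ} (f0 : ∀ x, 0 ≤ f x) (f1 : ∀ x, f x ≤ 1) (U : Fin m → Finset V) {d e : ℝ}
    (d0 : 0 ≤ d) (d1 : d ≤ 1) (he : 0 ≤ e)
    (h : ∀ u : Fin m → V → ℝ, (∀ j v, 0 ≤ u j v) → (∀ j v, u j v ≤ 1) →
      |∑ y ∈ Fintype.piFinset U, (f y - d) * ∏ j, u j (y j)| ≤ e * ((Fintype.piFinset U).card : ℝ)) :
    ∑ x ∈ Fintype.piFinset (fun p : Fin m × P => U p.1), (∏ i ∈ S, f (et (E i) x)) ≤
      (d ^ S.card + S.card * e) * ((Fintype.piFinset (fun p : Fin m × P => U p.1)).card : ℝ) := by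
  classical
  induction S using Finset.induction_on with
  | empty => simp
  | insert k S hk ih =>
    have h1 := one_edge E S k (fun i hi => hl k i (fun h => hk (h ▸ hi))) f0 f1 U h
    set B : ℝ := ((Fintype.piFinset (fun p : Fin m × P => U p.1)).card : ℝ) with hB
    have hB0 : 0 ≤ B := Nat.cast_nonneg _
    have h3 : ∑ x ∈ Fintype.piFinset (fun p : Fin m × P => U p.1), (∏ i ∈ insert k S, f (et (E i) x)) =
        ∑ x ∈ Fintype.piFinset (fun p : Fin m × P => U p.1),
          (∏ i ∈ S, f (et (E i) x)) * (f (et (E k) x) - d) +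
          d * ∑ x ∈ Fintype.piFinset (fun p : Fin m × P => U p.1), (∏ i ∈ S, f (et (E i) x)) := by
      rw [Finset.mul_sum, ← Finset.sum_add_distrib]
      refine Finset.sum_congr rfl fun x _ => ?_
      rw [Finset.prod_insert hk]
      ring
    rw [h3, Finset.card_insert_of_notMem hk]
    have h4 := (le_abs_self _).trans h1
    have h5 := mul_le_mul_of_nonneg_left ih d0
    have h6 : d * (((S.card : ℕ) : ℝ) * e * B) ≤ 1 * (((S.card : ℕ) : ℝ) * e * B) :=
      mul_le_mul_of_nonneg_right d1 (by positivity)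
    push_cast
    calc _ ≤ e * B + d * ((d ^ S.card + S.card * e) * B) := add_le_add h4 h5
      _ = d ^ (S.card + 1) * B + e * B + d * (((S.card : ℕ) : ℝ) * e * B) := by ring
      _ ≤ d ^ (S.card + 1) * B + e * B + 1 * (((S.card : ℕ) : ℝ) * e * B) := by linarith
      _ = _ := by ring

/-- the edge with index `q` -/
def lin {m M : ℕ} (q : ZMod M × ZMod M) : Fin m → ZMod M := fun j => q.1 + (j : ℕ) * q.2

theorem lin_inj {m M : ℕ} [hM : Fact M.Prime] (hm : m ≤ M) (k i : ZMod M × ZMod M) (hik : i ≠ k)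
    (j j' : Fin m) (h1 : (lin i : Fin m → ZMod M) j = lin k j)
    (h2 : (lin i : Fin m → ZMod M) j' = lin k j') : j = j' := by
  unfold lin at h1 h2
  by_contra hj
  have h3 : (((j : ℕ) : ZMod M) - ((j' : ℕ) : ZMod M)) * (i.2 - k.2) = 0 := by linear_combination h1 - h2
  have h4 : ((j : ℕ) : ZMod M) ≠ ((j' : ℕ) : ZMod M) := by
    intro h5
    rw [ZMod.natCast_eq_natCast_iff'] at h5
    rw [Nat.mod_eq_of_lt (lt_of_lt_of_le j.2 hm), Nat.mod_eq_of_lt (lt_of_lt_of_le j'.2 hm)] at h5
    exact hj (Fin.ext h5)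
  have h5 : i.2 = k.2 := by
    rcases mul_eq_zero.1 h3 with h | h
    · exact absurd (sub_eq_zero.1 h) h4
    · exact sub_eq_zero.1 h
  refine hik (Prod.ext ?_ h5)
  rw [h5] at h1
  exact add_right_cancel h1

theorem count_le {V : Type} (m M : ℕ) [hM : Fact M.Prime] (hm : m ≤ M) (e : ℝ) (he : 0 ≤ e)
    (f : (Fin m → V) → ℝ) (hf : ∀ x, 0 ≤ f x ∧ f x ≤ 1) (U : Fin m → Finset V) (h : Reg e f U) :
    ∑ x ∈ Fintype.piFinset (fun p : Fin m × ZMod M => U p.1),
        ∏ q : ZMod M × ZMod M, f (fun j => x (j, q.1 + (j : ℕ) * q.2)) ≤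
      (den f U ^ (M ^ 2) + (M : ℝ) ^ 2 * e) * ∏ j, ((U j).card : ℝ) ^ M := by
  have hd : 0 ≤ den f U ∧ den f U ≤ 1 := by
    unfold den
    have h1 : ∏ j, ((U j).card : ℝ) = ((Fintype.piFinset U).card : ℝ) := by
      rw [Fintype.card_piFinset]; push_cast; rfl
    rw [h1]
    constructor
    · exact div_nonneg (Finset.sum_nonneg fun x _ => (hf x).1) (Nat.cast_nonneg _)
    · refine div_le_one_of_le₀ ?_ (Nat.cast_nonneg _)
      calc _ ≤ ∑ x ∈ Fintype.piFinset U, (1 : ℝ) := Finset.sum_le_sum fun x _ => (hf x).2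
        _ = _ := by simp
  have h2 := count (V := V) (P := ZMod M) (lin : ZMod M × ZMod M → Fin m → ZMod M) univ
    (fun k i hik j j' => lin_inj hm k i hik j j') (f := f) (fun x => (hf x).1) (fun x => (hf x).2) U
    hd.1 hd.2 he (fun u u0 u1 => by
      have h3 := reg_fun e f U h u (fun j v => ⟨u0 j v, u1 j v⟩)
      rw [Fintype.card_piFinset]
      push_cast
      exact h3)
  have h4 : ((Fintype.piFinset (fun p : Fin m × ZMod M => U p.1)).card : ℝ) =
      ∏ j, ((U j).card : ℝ) ^ M := by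
    rw [Fintype.card_piFinset]
    push_cast
    rw [Fintype.prod_prod_type]
    refine Finset.prod_congr rfl fun j _ => ?_
    show ∏ _y : ZMod M, ((U j).card : ℝ) = _
    rw [Finset.prod_const, Finset.card_univ, ZMod.card]
  have h5 : (univ : Finset (ZMod M × ZMod M)).card = M ^ 2 := by
    rw [Finset.card_univ, Fintype.card_prod, ZMod.card, sq]
  rw [h4, h5] at h2
  push_cast at h2
  exact h2

end Pool.Agent.H99.RO
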