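import Pool.Agent.H99.RO.P2
import Pool.Agent.H5.PNT.PNT

/-!
[H99 RO MGT]  Monochromatic prime tuples: the case `L ≥ C log X` (from `part2` for the densest colour class).
-/

namespace Pool.Agent.H99.RO

open Finset Filter

open Classical in
theorem col_class (r : ℕ) (hr : 1 ≤ r) (η : ℝ) (hη : 0 < η) : ∃ X0 : ℕ, ∀ X : ℕ, X0 ≤ X →
    ∀ χ : ℕ → Fin r, ∃ i : Fin r, (1 - η) / r * X / Real.log X ≤
      (((Icc 1 X).filter fun p => p.Prime ∧ χ p = i).card : ℝ) := by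
  have h := Pool.Agent.H5.PNT.pi_tendsto.comp (tendsto_natCast_atTop_atTop (R := ℝ))
  have h1 := h.eventually (lt_mem_nhds (show 1 - η < 1 by linarith))
  have h2 := (tendsto_natCast_atTop_atTop (R := ℝ)).eventually_ge_atTop 2
  obtain ⟨X0, hX0⟩ := eventually_atTop.1 (h1.and h2)
  refine ⟨X0, fun X hX χ => ?_⟩
  obtain ⟨h3, h4⟩ := hX0 X hX
  simp only [Function.comp, Nat.floor_natCast] at h3
  have hlog : 0 < Real.log X := Real.log_pos (by linarith)
  have hX0' : (0 : ℝ) < X := by linarith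
  have hr0 : (0 : ℝ) < r := by exact_mod_cast hr
  by_contra hcon
  push Not at hcon
  have h5 : (Nat.primeCounting X : ℝ) = ∑ i : Fin r, (((Icc 1 X).filter fun p => p.Prime ∧ χ p = i).card : ℝ) := by
    have h6 : Nat.primeCounting X = ((Icc 1 X).filter Nat.Prime).card := by
      rw [Nat.primeCounting, Nat.primeCounting', Nat.count_eq_card_filter_range]
      congr 1
      ext p
      simp only [mem_filter, mem_range, mem_Icc]
      constructor
      · rintro ⟨a, b⟩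
        exact ⟨⟨b.one_lt.le, by omega⟩, b⟩
      · rintro ⟨a, b⟩
        exact ⟨by omega, b⟩
    rw [h6, card_eq_sum_card_fiberwise (f := χ) (t := univ) (fun _ _ => mem_univ _)]
    push_cast
    apply sum_congr rfl
    intro i _
    rw [filter_filter]
  have h7 : ∑ i : Fin r, (((Icc 1 X).filter fun p => p.Prime ∧ χ p = i).card : ℝ) <
      ∑ _i : Fin r, (1 - η) / r * X / Real.log X := by
    apply sum_lt_sum_of_nonempty
    · exact ⟨⟨0, hr⟩, mem_univ _⟩
    · intro i _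
      exact hcon i
  rw [← h5, sum_const, card_univ, Fintype.card_fin, nsmul_eq_mul] at h7
  have h8 : (r : ℝ) * ((1 - η) / r * X / Real.log X) = (1 - η) * (X / Real.log X) := by
    field_simp
  rw [h8] at h7
  rw [lt_div_iff₀ hX0'] at h3
  have h9 : (1 - η) * (X / Real.log X) = (1 - η) * X / Real.log X := by ring
  rw [h9, lt_div_iff₀ hlog] at h7
  linarith

open Classical in
theorem tup_big (k : ℕ) (hk : 1 ≤ k) (r : ℕ) (hr : 1 ≤ r) (ε : ℝ) (hε : 0 < ε) : ∃ Q0 : ℕ, 0 < Q0 ∧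
    ∀ Q : ℕ, 0 < Q → Q0 ∣ Q → ∃ (c C δ : ℝ) (X0 : ℕ), 0 < c ∧ 0 < C ∧ 0 < δ ∧ ∀ X : ℕ, X0 ≤ X →
      ∀ χ : ℕ → Fin r, ∀ L : ℕ, C * Real.log X ≤ L → (L : ℝ) ≤ (X : ℝ) ^ δ →
      ∃ i : Fin r, ((13 / (50 * r) : ℝ) ^ k - ε) * (L : ℝ) ^ k ≤
        (((Fintype.piFinset fun _ : Fin k => Icc 1 L).filter (fun n =>
          c * (X / Real.log X ^ (k + 1)) ≤ (((Icc 1 X).filter fun N => N.Prime ∧ χ N = i ∧
            ∀ j, (N + Q * n j).Prime ∧ χ (N + Q * n j) = i).card : ℝ))).card : ℝ) := by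
  have hr0 : (0 : ℝ) < r := by exact_mod_cast hr
  have hr1 : (1 : ℝ) ≤ r := by exact_mod_cast hr
  have hk0 : (0 : ℝ) < k := by exact_mod_cast hk
  obtain ⟨η, hη⟩ : ∃ η : ℝ, η = min (1 / 2) (ε / (2 * k)) := ⟨_, rfl⟩
  have hη0 : 0 < η := by
    rw [hη]
    positivity
  have hη1 : η ≤ 1 / 2 := by
    rw [hη]
    exact min_le_left _ _
  have hη2 : k * η ≤ ε / 2 := by
    have h1 : η ≤ ε / (2 * k) := by
      rw [hη]
      exact min_le_right _ _
    calc k * η ≤ k * (ε / (2 * k)) := mul_le_mul_of_nonneg_left h1 hk0.le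
      _ = ε / 2 := by
        field_simp
  have hα0 : 0 < (1 - η) / r := div_pos (by linarith) hr0
  have hα1 : (1 - η) / r ≤ 1 := by
    rw [div_le_one hr0]
    linarith
  obtain ⟨q, hq, h2⟩ := part2 k hk ((1 - η) / r) (ε / 2) hα0 hα1 (by positivity)
  refine ⟨q, hq, fun Q hQ hqQ => ?_⟩
  obtain ⟨c, C, δ, x0, hc, hC, hδ, h3⟩ := h2 Q hQ hqQ
  obtain ⟨X0, hX0⟩ := col_class r hr η hη0
  obtain ⟨n0, hn0⟩ := exists_nat_ge x0
  refine ⟨c, C, δ, max X0 n0, hc, hC, hδ, fun X hX χ L hL1 hL2 => ?_⟩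
  obtain ⟨i, hi⟩ := hX0 X ((le_max_left _ _).trans hX) χ
  refine ⟨i, ?_⟩
  have hXx : x0 ≤ (X : ℝ) := by
    have : n0 ≤ X := (le_max_right _ _).trans hX
    exact hn0.trans (by exact_mod_cast this)
  have h4 := h3 X hXx ((Icc 1 X).filter fun p => p.Prime ∧ χ p = i) (by
    intro p hp
    rw [mem_filter, mem_Icc] at hp
    exact ⟨hp.2.1, by exact_mod_cast hp.1.2⟩) hi L hL1 hL2
  have h5 : (13 / (50 * r) : ℝ) ^ k - ε ≤ (13 * ((1 - η) / r) / 50) ^ k - ε / 2 := by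
    have e1 : 13 * ((1 - η) / r) / 50 = 13 / (50 * r) * (1 - η) := by
      field_simp
    rw [e1, mul_pow]
    have e2 : 1 - k * η ≤ (1 - η) ^ k := by
      have := one_add_mul_le_pow (show (-2 : ℝ) ≤ -η by linarith) k
      have e3 : 1 + (k : ℝ) * -η = 1 - k * η := by ring
      rw [e3] at this
      rw [sub_eq_add_neg 1 η]
      exact this
    have e4 : (13 / (50 * r) : ℝ) ^ k ≤ 1 := by
      apply pow_le_one₀ (by positivity)
      rw [div_le_one (by positivity)]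
      linarith
    have e5 : (0 : ℝ) ≤ (13 / (50 * r) : ℝ) ^ k := by positivity
    nlinarith
  refine (mul_le_mul_of_nonneg_right h5 (by positivity)).trans (h4.trans ?_)
  rw [Nat.cast_le]
  apply card_le_card
  intro n hn
  rw [mem_filter] at hn ⊢
  refine ⟨hn.1, ?_⟩
  have h6 := hn.2
  rw [mul_div_assoc] at h6
  refine h6.trans ?_
  rw [Nat.cast_le]
  apply card_le_card
  intro N hN
  simp only [mem_filter] at hN ⊢
  exact ⟨hN.1.1, hN.1.2.1, hN.1.2.2, fun j => (hN.2 j).2⟩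

end Pool.Agent.H99.RO
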