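import Pool.Agent.H99.RO.En

/-!
[H99 RO RL]  The regularity lemma for `m`-ary functions and partitions of the vertices.

Proof.  Claim by induction on `r`: for all `t0` there is `t1` (depending on `m`, `r`, `t0` only) such that for all `V, f, c0 : V → Fin t0` there is
`c : V → Fin t1` which refines `c0` and which satisfies the conclusion or has `en f c ≥ r e^3 |V|^m`.  `r = 0`: `c = c0` (`en_nonneg`).  Step: given `c : V → Fin t1`
for `r`; if it satisfies the conclusion transport it (`Fin t1 → Fin t2` injection; see below).  Otherwise the total weight of the irregular `t` is `> e |V|^m` and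
`en_step` gives `c' : V → T'` with `en f c' ≥ en f c + e^2 e |V|^m`.  `T' ≃ Fin t2`, `t2 = Fintype.card T'` (`Fintype.equivFin`; `t2 ≥ t1` because
`T'` is a product with a nonempty type).
The energy, `wt`, `Reg` of the cells do not change under an injective renaming `σ : T → T'` of the colours: `cell (σ ∘ c) (σ t) = cell c t`, and `cell (σ ∘ c) t'` is empty
if `t'` is not in the range of `σ` (then `wt = 0`, `m ≥ 1`).  It may be easier to let both alternatives be produced at `t2` by renaming (`σ` an injection `Fin t1 → Fin t2`,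
e.g. `Fin.castLE`); for `m ≥ 1` the sum over the irregular `t' : Fin m → Fin t2` is the sum over the `t` since the other boxes have weight `0`.
Take `r = ⌈1/e^3⌉ + 1`: the second alternative contradicts `en_le` if `|V| > 0`; if `|V| = 0` the conclusion is trivial (`m ≥ 1`: all weights are `0`).
-/

namespace Pool.Agent.H99.RO

open Finset

theorem sum_boxes {V : Type} [Fintype V] {T : Type} [Fintype T] {m : ℕ} (c : V → T)
    (F : (Fin m → Finset V) → ℝ) :
    ∑ t : Fin m → T, wt c t * F (fun j => cell c (t j)) =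
      ∑ x : Fin m → V, F (fun j => cell c (c (x j))) := by
  classical
  rw [← Finset.sum_fiberwise (univ : Finset (Fin m → V)) (fun x j => c (x j))]
  refine Finset.sum_congr rfl fun t _ => ?_
  have h1 : (univ.filter fun x : Fin m → V => (fun j => c (x j)) = t) =
      Fintype.piFinset (fun j => cell c (t j)) := by
    ext x
    rw [mem_box]
    simp
  rw [h1]
  have h2 : ∀ x ∈ Fintype.piFinset (fun j => cell c (t j)),
      F (fun j => cell c (c (x j))) = F (fun j => cell c (t j)) := by
    intro x hx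
    rw [mem_box] at hx
    subst hx
    rfl
  rw [Finset.sum_congr rfl h2, Finset.sum_const, nsmul_eq_mul, card_box]

theorem cell_comp {V : Type} [Fintype V] {T T' : Type} (c : V → T) (σ : T → T')
    (hσ : Function.Injective σ) (s : T) : cell (fun v => σ (c v)) (σ s) = cell c s := by
  ext v
  rw [mem_cell, mem_cell]
  exact hσ.eq_iff

theorem sum_rename {V : Type} [Fintype V] {T T' : Type} [Fintype T] [Fintype T'] {m : ℕ} (c : V → T)
    (σ : T → T') (hσ : Function.Injective σ) (F : (Fin m → Finset V) → ℝ) :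
    ∑ t : Fin m → T', wt (fun v => σ (c v)) t * F (fun j => cell (fun v => σ (c v)) (t j)) =
      ∑ t : Fin m → T, wt c t * F (fun j => cell c (t j)) := by
  rw [sum_boxes, sum_boxes]
  simp only [cell_comp c σ hσ]

open Classical in
/-- the weight of the irregular boxes -/
noncomputable def irr {V : Type} [Fintype V] {T : Type} [Fintype T] {m : ℕ} (e : ℝ)
    (f : (Fin m → V) → ℝ) (c : V → T) : ℝ :=
  ∑ t ∈ univ.filter (fun t : Fin m → T => ¬ Reg e f (fun j => cell c (t j))), wt c t

theorem irr_eq {V : Type} [Fintype V] {T : Type} [Fintype T] {m : ℕ} (e : ℝ)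
    (f : (Fin m → V) → ℝ) (c : V → T) : irr e f c =
      ∑ t : Fin m → T, wt c t * (open Classical in if ¬ Reg e f (fun j => cell c (t j)) then 1 else 0) := by
  unfold irr
  rw [Finset.sum_filter]
  refine Finset.sum_congr rfl fun t _ => ?_
  split_ifs <;> simp

theorem irr_rename {V : Type} [Fintype V] {T T' : Type} [Fintype T] [Fintype T'] {m : ℕ} (e : ℝ)
    (f : (Fin m → V) → ℝ) (c : V → T) (σ : T → T') (hσ : Function.Injective σ) :
    irr e f (fun v => σ (c v)) = irr e f c := by
  rw [irr_eq, irr_eq]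
  exact sum_rename c σ hσ (fun U => open Classical in if ¬ Reg e f U then 1 else 0)

theorem en_rename {V : Type} [Fintype V] {T T' : Type} [Fintype T] [Fintype T'] {m : ℕ}
    (f : (Fin m → V) → ℝ) (c : V → T) (σ : T → T') (hσ : Function.Injective σ) :
    en f (fun v => σ (c v)) = en f c :=
  sum_rename c σ hσ (fun U => den f U ^ 2)

theorem en_step2 {V : Type} [Fintype V] {T : Type} [Fintype T] {m : ℕ}
    [I : Fintype (T × ((Fin m → T) → Fin m → Bool))] (e : ℝ) (he : 0 < e)
    (f : (Fin m → V) → ℝ) (c : V → T) :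
    ∃ c' : V → T × ((Fin m → T) → Fin m → Bool), (∀ v, (c' v).1 = c v) ∧
      en f c + e ^ 2 * irr e f c ≤ en f c' := by
  obtain ⟨c', h1, h2⟩ := en_step e he f c
  refine ⟨c', h1, ?_⟩
  unfold irr
  refine h2.trans (le_of_eq ?_)
  congr
  exact Subsingleton.elim _ _

theorem reg_iter (m : ℕ) (e : ℝ) (he : 0 < e) (t0 : ℕ) (r : ℕ) : ∃ t1 : ℕ, ∀ (V : Type) [Fintype V]
    (f : (Fin m → V) → ℝ) (c0 : V → Fin t0),
    ∃ c : V → Fin t1, (∀ u v, c u = c v → c0 u = c0 v) ∧
      (irr e f c ≤ e * (Fintype.card V : ℝ) ^ m ∨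
        r * (e ^ 3 * (Fintype.card V : ℝ) ^ m) ≤ en f c) := by
  induction r with
  | zero =>
    refine ⟨t0, fun V _ f c0 => ⟨c0, fun _ _ h => h, Or.inr ?_⟩⟩
    have := en_nonneg f c0
    simpa using this
  | succ r ih =>
    obtain ⟨t1, h⟩ := ih
    set T' := Fin t1 × ((Fin m → Fin t1) → Fin m → Bool) with hT'
    refine ⟨t1 + Fintype.card T', fun V _ f c0 => ?_⟩
    obtain ⟨c, hc, h2⟩ := h V f c0
    by_cases hg : irr e f c ≤ e * (Fintype.card V : ℝ) ^ m
    · refine ⟨fun v => Fin.castAdd _ (c v), fun u v huv => hc u v (Fin.castAdd_injective _ _ huv), Or.inl ?_⟩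
      rw [irr_rename e f c _ (Fin.castAdd_injective _ _)]
      exact hg
    · have h3 := h2.resolve_left hg
      push Not at hg
      obtain ⟨c', hc', h4⟩ := en_step2 e he f c
      have hσ : Function.Injective (fun s : T' => Fin.natAdd t1 (Fintype.equivFin T' s)) := fun a b hab =>
        (Fintype.equivFin T').injective (Fin.natAdd_injective _ _ hab)
      refine ⟨fun v => Fin.natAdd t1 (Fintype.equivFin T' (c' v)), fun u v huv => ?_, Or.inr ?_⟩
      · have h5 : c' u = c' v := hσ huv
        refine hc u v ?_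
        rw [← hc' u, ← hc' v, h5]
      · rw [en_rename f c' _ hσ]
        have h6 : en f c + e ^ 2 * irr e f c ≤ en f c' := h4
        have h7 : e ^ 2 * (e * (Fintype.card V : ℝ) ^ m) ≤ e ^ 2 * irr e f c :=
          mul_le_mul_of_nonneg_left hg.le (by positivity)
        push_cast
        have h8 : e ^ 2 * (e * (Fintype.card V : ℝ) ^ m) = e ^ 3 * (Fintype.card V : ℝ) ^ m := by ring
        linarith

open Classical in
theorem reg_lemma (m : ℕ) (hm : 1 ≤ m) (e : ℝ) (he : 0 < e) (t0 : ℕ) : ∃ t1 : ℕ, ∀ (V : Type) [Fintype V]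
    (f : (Fin m → V) → ℝ) (c0 : V → Fin t0), (∀ x, 0 ≤ f x ∧ f x ≤ 1) →
    ∃ c : V → Fin t1, (∀ u v, c u = c v → c0 u = c0 v) ∧
      ∑ t ∈ univ.filter (fun t : Fin m → Fin t1 => ¬ Reg e f (fun j => cell c (t j))), wt c t ≤
        e * (Fintype.card V : ℝ) ^ m := by
  obtain ⟨t1, h⟩ := reg_iter m e he t0 (⌈1 / e ^ 3⌉₊ + 1)
  refine ⟨t1, fun V _ f c0 hf => ?_⟩
  obtain ⟨c, hc, h2⟩ := h V f c0
  refine ⟨c, hc, ?_⟩
  have hn : 0 ≤ (Fintype.card V : ℝ) ^ m := by positivity
  rcases h2 with h2 | h2
  · exact h2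
  · have h3 := h2.trans (en_le f hf c)
    rcases hn.eq_or_lt with h4 | h4
    · refine le_trans (Finset.sum_le_sum_of_subset_of_nonneg (Finset.filter_subset _ _)
        fun _ _ _ => wt_nonneg _ _) ?_
      rw [sum_wt, ← h4]
      simp
    · exfalso
      have h5 := Nat.le_ceil (1 / e ^ 3)
      have h6 : 0 < e ^ 3 := by positivity
      rw [div_le_iff₀ h6] at h5
      push_cast at h3
      have h7 : (1:ℝ) < ((⌈1 / e ^ 3⌉₊ : ℝ) + 1) * e ^ 3 := by linarith
      have h8 : ((⌈1 / e ^ 3⌉₊ : ℝ) + 1) * (e ^ 3 * (Fintype.card V : ℝ) ^ m) =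
        (((⌈1 / e ^ 3⌉₊ : ℝ) + 1) * e ^ 3) * (Fintype.card V : ℝ) ^ m := by ring
      rw [h8] at h3
      nlinarith

end Pool.Agent.H99.RO
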