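import Pool.Agent.H61.GD.OneC
import Pool.Agent.H99.RO.MgT

/-!
[H99 RO MG2]  THEOREM G and T2 together: monochromatic prime tuples at all scales `L₀ ≤ L ≤ X^δ`.
-/

namespace Pool.Agent.H99.RO

open Finset Filter

open Classical in
/-- **tuples of primes of one colour at all scales** -/
theorem tuples_all (hU : Pool.Agent.H61.UL.BlkU) (k r : ℕ) (hk : 1 ≤ k) (hr : 1 ≤ r) (ε : ℝ)
    (hε : 0 < ε) : ∃ K Q0 : ℕ, 0 < Q0 ∧ ∀ Q : ℕ, 0 < Q → Q0 ∣ Q →
    ∃ (c δ : ℝ) (L0 X0 : ℕ), 0 < c ∧ 0 < δ ∧ ∀ X : ℕ, X0 ≤ X → ∀ L : ℕ, L0 ≤ L →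
      (L : ℝ) ≤ (X : ℝ) ^ δ → ∀ χ : ℕ → Fin r,
      ((13 / (50 * r) : ℝ) ^ k - ε) * (L : ℝ) ^ k ≤
        (((Fintype.piFinset fun _ : Fin k => Icc 1 L).filter (fun n =>
          c * (min 1 ((L : ℝ) / Real.log X)) ^ K * (X / Real.log X ^ (k + 1)) ≤
            (((Icc 1 X).filter fun N => N.Prime ∧ ∀ i, (N + Q * n i).Prime ∧
              χ (N + Q * n i) = χ N).card : ℝ))).card : ℝ) := by
  obtain ⟨K, q1, hq1, h1⟩ := Pool.Agent.H61.GD.oneC hU k r hk hr ε hε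
  obtain ⟨q2, hq2, h2⟩ := tup_big k hk r hr ε hε
  refine ⟨K, q1 * q2, Nat.mul_pos hq1 hq2, fun Q hQ hqQ => ?_⟩
  obtain ⟨c1, L1, X1, hc1, h1⟩ := h1 Q 2 hQ ((Dvd.intro _ rfl).trans hqQ) (by norm_num)
  obtain ⟨c2, C, δ, X2, hc2, hC, hδ, h2⟩ := h2 Q hQ ((Dvd.intro_left _ rfl).trans hqQ)
  have hl := Real.tendsto_log_atTop.comp (tendsto_natCast_atTop_atTop (R := ℝ))
  obtain ⟨X0, hX0⟩ := eventually_atTop.1 ((hl.eventually_ge_atTop (max 1 C)))
  refine ⟨min c1 c2, δ, L1, max X1 (max X2 X0), by positivity, hδ, fun X hX L hL hLδ χ => ?_⟩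
  have d1 : X1 ≤ X := (le_max_left _ _).trans hX
  have d2 : X2 ≤ X := (le_max_left _ _).trans ((le_max_right _ _).trans hX)
  have d0 : X0 ≤ X := (le_max_right _ _).trans ((le_max_right _ _).trans hX)
  have a0 := hX0 X d0
  simp only [Function.comp] at a0
  have a1 : 1 ≤ Real.log X := (le_max_left _ _).trans a0
  have a2 : C ≤ Real.log X := (le_max_right _ _).trans a0
  have hlog : 0 < Real.log X := by linarith
  have hmin0 : 0 ≤ min 1 ((L : ℝ) / Real.log X) := le_min zero_le_one (by positivity)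
  have hmin1 : (min 1 ((L : ℝ) / Real.log X)) ^ K ≤ 1 := pow_le_one₀ hmin0 (min_le_left _ _)
  have hmK : 0 ≤ (min 1 ((L : ℝ) / Real.log X)) ^ K := pow_nonneg hmin0 K
  have hXl : 0 ≤ (X : ℝ) / Real.log X ^ (k + 1) := by positivity
  rcases le_or_gt (L : ℝ) (Real.log X ^ (2 : ℝ)) with hA | hA
  · refine (h1 X d1 L hL hA χ).trans ?_
    rw [Nat.cast_le]
    apply card_le_card
    intro n hn
    rw [mem_filter] at hn ⊢
    refine ⟨hn.1, ?_⟩
    have e1 : min c1 c2 * (min 1 ((L : ℝ) / Real.log X)) ^ K * (X / Real.log X ^ (k + 1)) ≤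
        c1 * (min 1 ((L : ℝ) / Real.log X)) ^ K * (X / Real.log X ^ (k + 1)) := by
      apply mul_le_mul_of_nonneg_right _ hXl
      exact mul_le_mul_of_nonneg_right (min_le_left _ _) hmK
    exact e1.trans hn.2
  · rw [Real.rpow_two] at hA
    obtain ⟨i, hi⟩ := h2 X d2 χ L (by nlinarith) hLδ
    refine hi.trans ?_
    rw [Nat.cast_le]
    apply card_le_card
    intro n hn
    rw [mem_filter] at hn ⊢
    refine ⟨hn.1, ?_⟩
    have e1 : min c1 c2 * (min 1 ((L : ℝ) / Real.log X)) ^ K * (X / Real.log X ^ (k + 1)) ≤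
        c2 * (X / Real.log X ^ (k + 1)) := by
      apply mul_le_mul_of_nonneg_right _ hXl
      calc min c1 c2 * (min 1 ((L : ℝ) / Real.log X)) ^ K ≤ min c1 c2 * 1 :=
            mul_le_mul_of_nonneg_left hmin1 (by positivity)
        _ ≤ c2 := by
            rw [mul_one]
            exact min_le_right _ _
    refine (e1.trans hn.2).trans ?_
    rw [Nat.cast_le]
    apply card_le_card
    intro N hN
    rw [mem_filter] at hN ⊢
    exact ⟨hN.1, hN.2.1, fun j => ⟨(hN.2.2.2 j).1, (hN.2.2.2 j).2.trans hN.2.2.1.symm⟩⟩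

end Pool.Agent.H99.RO
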