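import Mathlib

/-!
[H99 RO CST]  Choice of the prime `M`.

Proof.  With `R = m M`: the logarithm of `(A R)^R (1-p)^(M^2) / kap^R` is `m M log(A m M) + m M log(1/kap) + M^2 log(1-p) → -∞` as `M → ∞`
(`log(1-p) < 0`; `M log M = o(M^2)`).  So the inequality holds for all large `M`; take a prime (`Nat.exists_infinite_primes`).
Elementary form: it suffices that `(A m M / kap)^m * (1-p)^M ≤ 1/2` (then the `M`-th power is `≤ 2^(-M)`, `< p/16` for `M` large):
`(A m M/kap)^m (1-p)^M → 0` (`tendsto_pow_const_mul_const_pow_of_abs_lt_one`).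
-/

namespace Pool.Agent.H99.RO

theorem exists_M (m : ℕ) (hm : 1 ≤ m) (A kap p : ℝ) (hA : 1 ≤ A) (hkap : 0 < kap) (hkap1 : kap ≤ 1)
    (hp : 0 < p) (hp1 : p < 1) : ∃ M : ℕ, M.Prime ∧ m ≤ M ∧
      (A * ((m * M : ℕ) : ℝ)) ^ (m * M) * (1 - p) ^ (M ^ 2) < p / 16 * kap ^ (m * M) := by
  have h1 : Filter.Tendsto (fun n : ℕ => (n : ℝ) ^ m * (1 - p) ^ n) Filter.atTop (nhds 0) :=
    tendsto_pow_const_mul_const_pow_of_abs_lt_one m (by
      rw [abs_lt]
      constructor <;> linarith)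
  have h2 : Filter.Tendsto (fun n : ℕ => (A * m / kap) ^ m * ((n : ℝ) ^ m * (1 - p) ^ n))
      Filter.atTop (nhds 0) := by
    have := h1.const_mul ((A * m / kap) ^ m)
    rwa [mul_zero] at this
  have h3 : Filter.Tendsto (fun n : ℕ => (1 / 2 : ℝ) ^ n) Filter.atTop (nhds 0) :=
    tendsto_pow_atTop_nhds_zero_of_lt_one (by norm_num) (by norm_num)
  have h4 := (h2.eventually_le_const (by norm_num : (0 : ℝ) < 1 / 2)).and
    (h3.eventually_lt_const (by positivity : (0 : ℝ) < p / 16))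
  obtain ⟨N, hN⟩ := Filter.eventually_atTop.1 h4
  obtain ⟨M, hM, hMp⟩ := Nat.exists_infinite_primes (max N m)
  refine ⟨M, hMp, le_trans (le_max_right _ _) hM, ?_⟩
  obtain ⟨h5, h6⟩ := hN M (le_trans (le_max_left _ _) hM)
  have h1p : (0 : ℝ) ≤ 1 - p := by linarith
  have h7 : (A * ((m * M : ℕ) : ℝ)) ^ (m * M) * (1 - p) ^ (M ^ 2) =
      kap ^ (m * M) * ((A * m / kap) ^ m * ((M : ℝ) ^ m * (1 - p) ^ M)) ^ M := by
    have e1 : (A * ((m * M : ℕ) : ℝ)) = kap * (A * m / kap * M) := by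
      push_cast
      field_simp
    rw [e1, mul_pow, mul_pow, mul_pow, mul_pow, pow_mul, pow_mul, pow_mul, ← pow_mul (1 - p) M M,
      sq]
    ring
  rw [h7, mul_comm]
  have h8 : (0 : ℝ) < kap ^ (m * M) := by positivity
  apply mul_lt_mul_of_pos_right _ h8
  refine lt_of_le_of_lt (pow_le_pow_left₀ (by positivity) h5 M) h6

end Pool.Agent.H99.RO
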