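import Pool.Agent.H99.RO.Hy

/-!
[H99 RO OCC]  How often a large cell is well occupied.

Proof.  `μ = lam |U| > 0` (`|U| ≥ 1` because `de |V| > 0`).  `∑_{N ∈ Om} occ W U N = ∑_{u ∈ U} hit Om W (fun _ => u) ≥ al μ |Om|` (`h1`; exchange the sums).
For every `N`: `occ ≤ kap μ + K μ 1_{occ ≥ kap μ} + max (occ - K μ) 0` (if `occ < kap μ` clear; else `occ ≤ K μ + max (occ - K μ) 0`).  Sum over `N`, `h2`:
`al μ |Om| ≤ kap μ |Om| + K μ #{occ ≥ kap μ} + ta μ |Om|`: this is `occ_lower`.  `occ_upper`: `max (occ - K μ) 0 ≥ K μ` if `occ > 2 K μ`, so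
`K μ #{occ > 2 K μ} ≤ ta μ |Om|`.
-/

namespace Pool.Agent.H99.RO

open Finset

theorem sum_occ {V : Type} (Om : Finset ℕ) (W : ℕ → V → Prop) (U : Finset V) :
    ∑ N ∈ Om, occ W U N = ∑ u ∈ U, hit Om W (fun _ : Unit => u) := by
  classical
  have h1 : ∀ N, occ W U N = ∑ u ∈ U, if W N u then (1 : ℝ) else 0 := by
    intro N
    unfold occ
    rw [Finset.card_filter]
    push_cast
    rfl
  have h2 : ∀ u, hit Om W (fun _ : Unit => u) = ∑ N ∈ Om, if W N u then (1 : ℝ) else 0 := by
    intro u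
    unfold hit
    rw [Finset.card_filter]
    push_cast
    apply Finset.sum_congr rfl
    intro N _
    by_cases h : W N u
    · rw [if_pos h, if_pos fun _ => h]
    · rw [if_neg h, if_neg fun h' => h (h' ())]
  simp only [h1, h2]
  exact Finset.sum_comm

private theorem mu_pos {V : Type} [Fintype V] {Om : Finset ℕ} {W : ℕ → V → Prop}
    {lam al K : ℝ} {R : ℕ} {C de ta C0 : ℝ} (h : Hyp V Om W lam al K R C de ta C0)
    (hde : 0 < de) (hC0 : 0 < C0) (U : Finset V) (hU : de * Fintype.card V ≤ U.card) :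
    0 < lam * U.card := by
  have h1 : 0 < lam * Fintype.card V := hC0.trans_le h.size
  have h2 : (0 : ℝ) < Fintype.card V := pos_of_mul_pos_right h1 h.lam_pos.le
  have h3 : (0 : ℝ) < U.card := lt_of_lt_of_le (mul_pos hde h2) hU
  exact mul_pos h.lam_pos h3

open Classical in
theorem occ_lower {V : Type} [Fintype V] {Om : Finset ℕ} {W : ℕ → V → Prop} {lam al K : ℝ} {R : ℕ}
    {C de ta C0 : ℝ} (h : Hyp V Om W lam al K R C de ta C0) (hK : 1 ≤ K) (hde : 0 < de) (hC0 : 0 < C0)
    (kap : ℝ) (hkap : 0 ≤ kap) (U : Finset V) (hU : de * Fintype.card V ≤ U.card) :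
    (al - kap - ta) * Om.card ≤
      K * ((Om.filter fun N => kap * lam * U.card ≤ occ W U N).card : ℝ) := by
  have hmu := mu_pos h hde hC0 U hU
  have h1 : al * lam * Om.card * U.card ≤ ∑ N ∈ Om, occ W U N := by
    rw [sum_occ]
    have h2 : ∑ u ∈ U, al * lam * Om.card ≤ ∑ u ∈ U, hit Om W (fun _ : Unit => u) :=
      Finset.sum_le_sum fun u _ => h.h1 u
    rw [Finset.sum_const, nsmul_eq_mul] at h2
    linarith
  have h3 : ∀ N ∈ Om, occ W U N ≤ kap * (lam * U.card) +
      K * (lam * U.card) * (if kap * lam * U.card ≤ occ W U N then (1 : ℝ) else 0) +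
      max (occ W U N - K * lam * U.card) 0 := by
    intro N _
    have h4 := le_max_left (occ W U N - K * lam * U.card) 0
    have h5 := le_max_right (occ W U N - K * lam * U.card) 0
    have h6 : 0 ≤ kap * (lam * U.card) := mul_nonneg hkap hmu.le
    by_cases h7 : kap * lam * U.card ≤ occ W U N
    · rw [if_pos h7]
      nlinarith
    · rw [if_neg h7]
      push Not at h7
      nlinarith
  have h4 := Finset.sum_le_sum h3
  rw [Finset.sum_add_distrib, Finset.sum_add_distrib, Finset.sum_const, nsmul_eq_mul,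
    ← Finset.mul_sum, Finset.sum_ite, Finset.sum_const_zero, add_zero, Finset.sum_const,
    nsmul_eq_mul, mul_one] at h4
  have h5 := h.h2 U hU
  have h6 : (lam * U.card) * ((al - kap - ta) * Om.card) ≤
      (lam * U.card) * (K * ((Om.filter fun N => kap * lam * U.card ≤ occ W U N).card : ℝ)) := by
    nlinarith
  exact le_of_mul_le_mul_left h6 hmu

open Classical in
theorem occ_upper {V : Type} [Fintype V] {Om : Finset ℕ} {W : ℕ → V → Prop} {lam al K : ℝ} {R : ℕ}
    {C de ta C0 : ℝ} (h : Hyp V Om W lam al K R C de ta C0) (hK : 1 ≤ K) (hde : 0 < de) (hC0 : 0 < C0)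
    (U : Finset V) (hU : de * Fintype.card V ≤ U.card) :
    K * ((Om.filter fun N => 2 * K * lam * U.card < occ W U N).card : ℝ) ≤ ta * Om.card := by
  have hmu := mu_pos h hde hC0 U hU
  have h1 := h.h2 U hU
  have h3 : ∀ N ∈ Om, K * (lam * U.card) *
      (if 2 * K * lam * U.card < occ W U N then (1 : ℝ) else 0) ≤
      max (occ W U N - K * lam * U.card) 0 := by
    intro N _
    have h4 := le_max_left (occ W U N - K * lam * U.card) 0
    have h5 := le_max_right (occ W U N - K * lam * U.card) 0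
    by_cases h7 : 2 * K * lam * U.card < occ W U N
    · rw [if_pos h7]
      nlinarith
    · rw [if_neg h7]
      nlinarith
  have h4 := Finset.sum_le_sum h3
  rw [← Finset.mul_sum, Finset.sum_ite, Finset.sum_const_zero, add_zero, Finset.sum_const,
    nsmul_eq_mul, mul_one] at h4
  have h6 : (lam * U.card) * (K * ((Om.filter fun N => 2 * K * lam * U.card < occ W U N).card : ℝ))
      ≤ (lam * U.card) * (ta * Om.card) := by
    nlinarith
  exact le_of_mul_le_mul_left h6 hmu

end Pool.Agent.H99.RO
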