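import Pool.Agent.H99.RO.Key
import Pool.Agent.H99.RO.Cst
import Pool.Agent.H99.RO.Occ
import Pool.Agent.H99.RO.Rl

/-!
[H99 RO ABS]  The abstract clique theorem.

Proof.  Replace `e` by `min e 1` (the conclusion for a smaller `e` is stronger); `n = |V|`.  Constants: `p = e^2/2 < 1`, `kap = e/2`, `M` from `exists_M` for `m, A, kap, p`,
`R = m M`, `C = (A R)^R ≥ 1`; `c = p kap^R/(8 M^2 (2K)^R)`; `e4 > 0` with `e4 ≤ e^2/2`, `C M^2 e4 ≤ (p/32) kap^R`; `t1` from `reg_lemma` (`e4`, `t0`);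
`de = e/(t1+1)`; `ta > 0` with `ta ≤ e/2`, `m ta ≤ p/2`, `C ta/de^R ≤ (p/32) kap^R`; `C0 = 4 R^2/(kap de)`.
Given the data let `f = popf Om W lam c`, `c1 : V → Fin t1` from `reg_lemma` (refines `c0`).  For `N` let
`S N` = the set of the `v` whose cell `Y = cell c1 (c1 v)` satisfies `de n ≤ |Y|` and `kap lam |Y| ≤ occ W Y N`.
(i) Fix `s : Fin t0`.  If `al/K - e < 0` the left side is `≤ 0`.  The cells with a point in `cell c0 s` lie in `cell c0 s`.  `∑_N #{v ∈ S N : c0 v = s} = ∑_{large cells Y in cell c0 s} |Y| #{N : kap lam |Y| ≤ occ W Y N}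
 ≥ ∑_{large Y} |Y| ((al - kap - ta)/K) |Om|` (`occ_lower`) and `(al - kap - ta)/K ≥ al/K - e` (`kap + ta ≤ e`, `K ≥ 1`), `∑_{large Y in cell c0 s} |Y| ≥ |cell c0 s| - t1 de n ≥ |cell c0 s| - e n`,
 and `(al/K - e) e n ≤ e n`.
(ii) Let `B` = the set of the `N ∈ Om` with `e n^m ≤ #{x ∈ (S N)^m : ¬ Pop x}` and suppose `|B| > e |Om|`.  Then
 `e^2 n^m |Om| < ∑_{N ∈ Om} #{x ∈ (S N)^m : ¬ Pop x} = ∑_{t : Fin m → Fin t1, all cells large} wt c1 t (1 - den f (cells t)) #{N ∈ Om : kap lam |cell t j| ≤ occ (cell t j) N for all j}`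
 (for a nonempty box of cells `#{x ∈ box : ¬ Pop x} = wt (1 - den)`).  The `t` with `¬ Reg e4` contribute at most `e4 n^m |Om| ≤ (e^2/2) n^m |Om|`.  Since `∑_t wt = n^m` (`sum_wt`)
 some `t` with `Reg e4`, all cells large, has `(1 - den) #{..} > p |Om|`, so `1 - den > p` (as `#{..} ≤ |Om|`) and `#{..} > p |Om|` (as `den ≥ 0`).
 `U j = cell c1 (t j)`; `E` = the `N ∈ Om` with `kap lam |U j| ≤ occ ≤ 2 K lam |U j|` for all `j`: `|E| ≥ p |Om| - m ta |Om| ≥ (p/2) |Om|` (`occ_upper`, `K ≥ 1`).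
 `key`: `(p/4) kap^R ≤ C ((1-p)^(M^2) + M^2 e4 + ta/de^R) < (p/16 + p/32 + p/32) kap^R`: contradiction.
-/

namespace Pool.Agent.H99.RO

open Finset

/-- the cell of `v` -/
noncomputable def cl {V : Type} [Fintype V] {T : Type} (c : V → T) (v : V) : Finset V := cell c (c v)

open Classical in
/-- the random set -/
noncomputable def SS {V : Type} [Fintype V] {T : Type} (W : ℕ → V → Prop) (lam kap de : ℝ) (c : V → T)
    (N : ℕ) : Finset V :=
  univ.filter fun v => de * Fintype.card V ≤ ((cl c v).card : ℝ) ∧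
    kap * lam * (cl c v).card ≤ occ W (cl c v) N

open Classical in
theorem small_cells {V : Type} [Fintype V] {t1 : ℕ} (c : V → Fin t1) (x : ℝ) (hx : 0 ≤ x) :
    ((univ.filter fun v => ((cl c v).card : ℝ) < x).card : ℝ) ≤ t1 * x := by
  have h1 : (univ.filter fun v => ((cl c v).card : ℝ) < x) ⊆
      (univ.filter fun t : Fin t1 => ((cell c t).card : ℝ) < x).biUnion fun t => cell c t := by
    intro v hv
    rw [Finset.mem_biUnion]
    refine ⟨c v, ?_, (mem_cell c (c v) v).2 rfl⟩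
    rw [Finset.mem_filter] at hv ⊢
    exact ⟨Finset.mem_univ _, hv.2⟩
  have h2 : ((univ.filter fun v => ((cl c v).card : ℝ) < x).card : ℝ) ≤
      ∑ t ∈ univ.filter (fun t : Fin t1 => ((cell c t).card : ℝ) < x), ((cell c t).card : ℝ) := by
    exact_mod_cast (Finset.card_le_card h1).trans Finset.card_biUnion_le
  calc _ ≤ _ := h2
    _ ≤ ∑ t ∈ univ.filter (fun t : Fin t1 => ((cell c t).card : ℝ) < x), x :=
        Finset.sum_le_sum fun t ht => (Finset.mem_filter.1 ht).2.le
    _ = ((univ.filter (fun t : Fin t1 => ((cell c t).card : ℝ) < x)).card : ℝ) * x := by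
        rw [Finset.sum_const, nsmul_eq_mul]
    _ ≤ t1 * x := by
        refine mul_le_mul_of_nonneg_right ?_ hx
        have := Finset.card_filter_le (univ : Finset (Fin t1)) (fun t => ((cell c t).card : ℝ) < x)
        rw [Finset.card_univ, Fintype.card_fin] at this
        exact_mod_cast this

open Classical in
theorem abs_part1 {V : Type} [Fintype V] {Om : Finset ℕ} {W : ℕ → V → Prop} {lam al K : ℝ} {R : ℕ}
    {C de ta C0 : ℝ} (h : Hyp V Om W lam al K R C de ta C0) (hK : 1 ≤ K) (hde : 0 < de) (hC0 : 0 < C0)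
    (kap e : ℝ) (hkap : 0 ≤ kap) (hta : 0 < ta) (hkt : kap + ta ≤ e) (hal1 : al ≤ 1) (hal : 0 < al)
    (t0 t1 : ℕ) (c1 : V → Fin t1) (hdt : t1 * de ≤ e) (c0 : V → Fin t0) (s : Fin t0) :
    (al / K - e) * ((cell c0 s).card : ℝ) * Om.card - e * Fintype.card V * Om.card ≤
      ∑ N ∈ Om, (((SS W lam kap de c1 N).filter fun v => c0 v = s).card : ℝ) := by
  have he : 0 < e := by linarith
  have hK0 : 0 < K := by linarith
  have hR0 : 0 ≤ ∑ N ∈ Om, (((SS W lam kap de c1 N).filter fun v => c0 v = s).card : ℝ) :=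
    Finset.sum_nonneg fun _ _ => Nat.cast_nonneg _
  have hc0 : (0:ℝ) ≤ ((cell c0 s).card : ℝ) := Nat.cast_nonneg _
  have hom0 : (0:ℝ) ≤ (Om.card : ℝ) := Nat.cast_nonneg _
  have hn0 : (0:ℝ) ≤ (Fintype.card V : ℝ) := Nat.cast_nonneg _
  rcases lt_or_ge (al / K - e) 0 with hneg | hpos
  · have h1 : (al / K - e) * ((cell c0 s).card : ℝ) * Om.card ≤ 0 :=
      mul_nonpos_of_nonpos_of_nonneg (mul_nonpos_of_nonpos_of_nonneg hneg.le hc0) hom0
    have h2 : 0 ≤ e * Fintype.card V * Om.card := by positivity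
    linarith
  set L := (cell c0 s).filter fun v => de * Fintype.card V ≤ ((cl c1 v).card : ℝ) with hL
  have hsum : ∑ N ∈ Om, (((SS W lam kap de c1 N).filter fun v => c0 v = s).card : ℝ) =
      ∑ v ∈ cell c0 s, ((Om.filter fun N => v ∈ SS W lam kap de c1 N).card : ℝ) := by
    have h1 : ∀ N ∈ Om, (((SS W lam kap de c1 N).filter fun v => c0 v = s).card : ℝ) =
        ∑ v ∈ cell c0 s, if v ∈ SS W lam kap de c1 N then (1:ℝ) else 0 := by
      intro N _
      rw [Finset.sum_boole]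
      refine congrArg (fun s : Finset V => (s.card : ℝ)) ?_
      ext v
      rw [Finset.mem_filter, Finset.mem_filter, mem_cell]
      exact and_comm
    rw [Finset.sum_congr rfl h1, Finset.sum_comm]
    refine Finset.sum_congr rfl fun v _ => ?_
    rw [Finset.sum_boole]
  rw [hsum]
  have hLs : L ⊆ cell c0 s := Finset.filter_subset _ _
  have hv : ∀ v ∈ L, (al / K - e) * Om.card ≤
      ((Om.filter fun N => v ∈ SS W lam kap de c1 N).card : ℝ) := by
    intro v hv
    have hv2 : de * Fintype.card V ≤ ((cl c1 v).card : ℝ) := (Finset.mem_filter.1 hv).2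
    have h2 := occ_lower h hK hde hC0 kap hkap (cl c1 v) hv2
    have h3 : ((Om.filter fun N => kap * lam * (cl c1 v).card ≤ occ W (cl c1 v) N).card : ℝ) =
        ((Om.filter fun N => v ∈ SS W lam kap de c1 N).card : ℝ) := by
      refine congrArg (fun s : Finset ℕ => (s.card : ℝ)) ?_
      ext N
      rw [Finset.mem_filter, Finset.mem_filter]
      unfold SS
      rw [Finset.mem_filter]
      constructor
      · rintro ⟨a, b⟩
        exact ⟨a, Finset.mem_univ _, hv2, b⟩
      · rintro ⟨a, _, _, b⟩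
        exact ⟨a, b⟩
    rw [h3] at h2
    have h4 : (al - kap - ta) * Om.card / K ≤
        ((Om.filter fun N => v ∈ SS W lam kap de c1 N).card : ℝ) := by
      rw [div_le_iff₀ hK0, mul_comm _ K]
      exact h2
    refine le_trans ?_ h4
    rw [mul_div_right_comm]
    refine mul_le_mul_of_nonneg_right ?_ hom0
    rw [sub_sub, sub_div]
    have h5 : (kap + ta) / K ≤ e := by
      rw [div_le_iff₀ hK0]
      nlinarith
    linarith
  have hLc : ((cell c0 s).card : ℝ) - e * Fintype.card V ≤ (L.card : ℝ) := by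
    have h1 : cell c0 s ⊆ L ∪ (univ.filter fun v => ((cl c1 v).card : ℝ) < de * Fintype.card V) := by
      intro v hv
      rw [Finset.mem_union]
      rcases le_or_gt (de * Fintype.card V) ((cl c1 v).card : ℝ) with h | h
      · exact Or.inl (Finset.mem_filter.2 ⟨hv, h⟩)
      · exact Or.inr (Finset.mem_filter.2 ⟨Finset.mem_univ _, h⟩)
    have h2 : ((cell c0 s).card : ℝ) ≤ L.card +
        ((univ.filter fun v => ((cl c1 v).card : ℝ) < de * Fintype.card V).card : ℝ) := by
      exact_mod_cast (Finset.card_le_card h1).trans (Finset.card_union_le _ _)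
    have h3 := small_cells c1 (de * Fintype.card V) (by positivity)
    have h4 : (t1 : ℝ) * (de * Fintype.card V) ≤ e * Fintype.card V := by
      rw [← mul_assoc]
      exact mul_le_mul_of_nonneg_right hdt hn0
    linarith
  have hfin : (L.card : ℝ) * ((al / K - e) * Om.card) ≤
      ∑ v ∈ cell c0 s, ((Om.filter fun N => v ∈ SS W lam kap de c1 N).card : ℝ) := by
    calc (L.card : ℝ) * ((al / K - e) * Om.card) = ∑ v ∈ L, (al / K - e) * Om.card := by
          rw [Finset.sum_const, nsmul_eq_mul]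
      _ ≤ ∑ v ∈ L, ((Om.filter fun N => v ∈ SS W lam kap de c1 N).card : ℝ) := Finset.sum_le_sum hv
      _ ≤ _ := Finset.sum_le_sum_of_subset_of_nonneg hLs fun _ _ _ => Nat.cast_nonneg _
  have h6 : (((cell c0 s).card : ℝ) - e * Fintype.card V) * ((al / K - e) * Om.card) ≤
      (L.card : ℝ) * ((al / K - e) * Om.card) :=
    mul_le_mul_of_nonneg_right hLc (mul_nonneg hpos hom0)
  have h7 : al / K - e ≤ 1 := by
    have : al / K ≤ 1 := by
      rw [div_le_one hK0]; linarith
    linarith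
  have h8 : (al / K - e) * (e * Fintype.card V * Om.card) ≤ 1 * (e * Fintype.card V * Om.card) :=
    mul_le_mul_of_nonneg_right h7 (by positivity)
  have h9 : (((cell c0 s).card : ℝ) - e * Fintype.card V) * ((al / K - e) * Om.card) =
      (al / K - e) * ((cell c0 s).card : ℝ) * Om.card -
        (al / K - e) * (e * Fintype.card V * Om.card) := by ring
  linarith

open Classical in
/-- the number of the `N` for which all the sets of the box are large and well occupied -/
noncomputable def gg {V : Type} [Fintype V] {m : ℕ} (Om : Finset ℕ) (W : ℕ → V → Prop)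
    (lam kap de : ℝ) (U : Fin m → Finset V) : ℝ :=
  ((Om.filter fun N => ∀ j, de * Fintype.card V ≤ ((U j).card : ℝ) ∧
    kap * lam * (U j).card ≤ occ W (U j) N).card : ℝ)

theorem gg_nonneg {V : Type} [Fintype V] {m : ℕ} (Om : Finset ℕ) (W : ℕ → V → Prop)
    (lam kap de : ℝ) (U : Fin m → Finset V) : 0 ≤ gg Om W lam kap de U := Nat.cast_nonneg _

theorem gg_le {V : Type} [Fintype V] {m : ℕ} (Om : Finset ℕ) (W : ℕ → V → Prop)
    (lam kap de : ℝ) (U : Fin m → Finset V) : gg Om W lam kap de U ≤ Om.card := by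
  unfold gg
  exact_mod_cast Finset.card_filter_le _ _

theorem popf_mem {V : Type} {m : ℕ} (Om : Finset ℕ) (W : ℕ → V → Prop) (lam c : ℝ)
    (x : Fin m → V) : 0 ≤ popf Om W lam c x ∧ popf Om W lam c x ≤ 1 := by
  unfold popf
  split_ifs <;> norm_num

open Classical in
/-- a regular box -/
theorem reg_box {V : Type} [Fintype V] (m M : ℕ) [hM : Fact M.Prime] (hm : 1 ≤ m) (hmM : m ≤ M)
    (Om : Finset ℕ) (W : ℕ → V → Prop) (lam al K C c p kap e4 de ta C0 : ℝ)
    (h : Hyp V Om W lam al K (m * M) C de ta C0) (hK : 1 ≤ K) (hC : 0 < C)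
    (hc : 0 < c) (hp : 0 < p) (hp1 : p < 1) (hkap : 0 < kap) (hkap1 : kap ≤ 1) (he4 : 0 < e4)
    (hde : 0 < de) (hta : 0 < ta) (hC00 : 0 < C0)
    (hC0 : 4 * ((m * M : ℕ) : ℝ) ^ 2 ≤ C0 * kap * de)
    (hcc : c * (M : ℝ) ^ 2 * (2 * K) ^ (m * M) ≤ p * kap ^ (m * M) / 8)
    (hCM : C * (1 - p) ^ (M ^ 2) < p / 16 * kap ^ (m * M))
    (hCe : C * ((M : ℝ) ^ 2 * e4) ≤ p / 32 * kap ^ (m * M))
    (hCt : C * (ta / de ^ (m * M)) ≤ p / 32 * kap ^ (m * M))
    (hmt : m * ta ≤ p / 2)
    (U : Fin m → Finset V) (hreg : Reg e4 (popf Om W lam c) U) :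
    gg Om W lam kap de U * (1 - den (popf Om W lam c) U) ≤ p * Om.card := by
  by_contra hcon
  push Not at hcon
  have hd := den_mem (popf Om W lam c) (popf_mem Om W lam c) U
  set d := den (popf Om W lam c) U with hd'
  have hom : (0:ℝ) < Om.card := by exact_mod_cast Finset.card_pos.2 h.om
  have hg0 := gg_nonneg Om W lam kap de U
  have hg1 := gg_le Om W lam kap de U
  set g := gg Om W lam kap de U with hg
  have h1 : p < 1 - d := by
    have : g * (1 - d) ≤ Om.card * (1 - d) := mul_le_mul_of_nonneg_right hg1 (by linarith [hd.2])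
    have h2 : p * Om.card < (1 - d) * Om.card := by linarith
    exact lt_of_mul_lt_mul_right h2 hom.le
  have h2 : p * Om.card < g := by
    have : g * (1 - d) ≤ g * 1 := mul_le_mul_of_nonneg_left (by linarith [hd.1]) hg0
    linarith
  set F := Om.filter fun N => ∀ j, de * Fintype.card V ≤ ((U j).card : ℝ) ∧
    kap * lam * (U j).card ≤ occ W (U j) N with hF
  have hgF : g = (F.card : ℝ) := rfl
  have hU : ∀ j, de * Fintype.card V ≤ ((U j).card : ℝ) := by
    have h3 : (0:ℝ) < F.card := by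
      rw [← hgF]
      have : 0 ≤ p * (Om.card : ℝ) := by positivity
      linarith
    have h4 : 0 < F.card := by exact_mod_cast h3
    obtain ⟨N, hN⟩ := Finset.card_pos.1 h4
    exact fun j => ((Finset.mem_filter.1 hN).2 j).1
  set E := F.filter fun N => ∀ j, occ W (U j) N ≤ 2 * K * lam * (U j).card with hE
  have hEO : E ⊆ Om := (Finset.filter_subset _ _).trans (Finset.filter_subset _ _)
  have hEc : p / 2 * Om.card ≤ (E.card : ℝ) := by
    have h3 : F ⊆ E ∪ (univ : Finset (Fin m)).biUnion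
        fun j => Om.filter fun N => 2 * K * lam * (U j).card < occ W (U j) N := by
      intro N hN
      rw [Finset.mem_union]
      by_cases h4 : ∀ j, occ W (U j) N ≤ 2 * K * lam * (U j).card
      · exact Or.inl (Finset.mem_filter.2 ⟨hN, h4⟩)
      · push Not at h4
        obtain ⟨j, hj⟩ := h4
        exact Or.inr (Finset.mem_biUnion.2 ⟨j, Finset.mem_univ _,
          Finset.mem_filter.2 ⟨(Finset.mem_filter.1 hN).1, hj⟩⟩)
    have h4 : (F.card : ℝ) ≤ E.card + ∑ j : Fin m,
        ((Om.filter fun N => 2 * K * lam * (U j).card < occ W (U j) N).card : ℝ) := by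
      have := (Finset.card_le_card h3).trans ((Finset.card_union_le _ _).trans
        (Nat.add_le_add_left Finset.card_biUnion_le _))
      exact_mod_cast this
    have h5 : ∀ j ∈ (univ : Finset (Fin m)),
        ((Om.filter fun N => 2 * K * lam * (U j).card < occ W (U j) N).card : ℝ) ≤ ta * Om.card := by
      intro j _
      have h6 := occ_upper h hK hde hC00 (U j) (hU j)
      have h7 : (0:ℝ) ≤ ((Om.filter fun N => 2 * K * lam * (U j).card < occ W (U j) N).card : ℝ) :=
        Nat.cast_nonneg _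
      nlinarith
    have h6 := Finset.sum_le_sum h5
    rw [Finset.sum_const, nsmul_eq_mul, Finset.card_univ, Fintype.card_fin] at h6
    have h7 : (m : ℝ) * (ta * Om.card) ≤ p / 2 * Om.card := by
      rw [← mul_assoc]
      exact mul_le_mul_of_nonneg_right hmt hom.le
    rw [hgF] at h2
    have h8 : p * (Om.card : ℝ) = p / 2 * Om.card + p / 2 * Om.card := by ring
    linarith
  have hocc : ∀ N ∈ E, ∀ j, kap * lam * (U j).card ≤ occ W (U j) N ∧
      occ W (U j) N ≤ 2 * K * lam * (U j).card := by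
    intro N hN j
    exact ⟨((Finset.mem_filter.1 (Finset.mem_filter.1 hN).1).2 j).2, (Finset.mem_filter.1 hN).2 j⟩
  have hkey := key m M hm hmM Om W lam al K C c p kap e4 de ta C0 h hK hC hc hp hkap hkap1 he4 hde
    hta hC00 hC0 hcc U hU hreg E hEO hEc hocc
  have h9 : C * d ^ (M ^ 2) ≤ C * (1 - p) ^ (M ^ 2) :=
    mul_le_mul_of_nonneg_left (pow_le_pow_left₀ hd.1 (by linarith) _) hC.le
  have h10 : C * (d ^ (M ^ 2) + (M : ℝ) ^ 2 * e4 + ta / de ^ (m * M)) =
      C * d ^ (M ^ 2) + C * ((M : ℝ) ^ 2 * e4) + C * (ta / de ^ (m * M)) := by ring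
  have h11 : p / 4 * kap ^ (m * M) ≤
      C * (d ^ (M ^ 2) + (M : ℝ) ^ 2 * e4 + ta / de ^ (m * M)) := hkey
  rw [h10] at h11
  have h12 : 0 < p * kap ^ (m * M) := by positivity
  nlinarith

theorem box_sum {V : Type} [Fintype V] {T : Type} {m : ℕ} (f : (Fin m → V) → ℝ) (c : V → T)
    (t : Fin m → T) : ∑ x ∈ Fintype.piFinset (fun j => cell c (t j)), (1 - f x) =
      wt c t * (1 - den f (fun j => cell c (t j))) := by
  rw [Finset.sum_sub_distrib, Finset.sum_const, nsmul_eq_mul, mul_one, card_box]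
  unfold den
  have h1 : ∏ j, ((cell c (t j)).card : ℝ) = wt c t := rfl
  rw [h1]
  by_cases h : wt c t = 0
  · have h2 : Fintype.piFinset (fun j => cell c (t j)) = ∅ := by
      have h3 := card_box c t
      rw [h] at h3
      rw [← Finset.card_eq_zero]
      exact_mod_cast h3
    rw [h2, h]
    simp
  · field_simp

open Classical in
theorem part2_sum {V : Type} [Fintype V] {T : Type} [Fintype T] {m : ℕ} (Om : Finset ℕ)
    (W : ℕ → V → Prop) (lam c kap de : ℝ) (c1 : V → T) :
    ∑ N ∈ Om, (((Fintype.piFinset fun _ : Fin m => SS W lam kap de c1 N).filter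
      fun x => ¬ Pop Om W lam c x).card : ℝ) =
    ∑ t : Fin m → T, gg Om W lam kap de (fun j => cell c1 (t j)) *
      (wt c1 t * (1 - den (popf Om W lam c) (fun j => cell c1 (t j)))) := by
  have h1 : ∀ N ∈ Om, (((Fintype.piFinset fun _ : Fin m => SS W lam kap de c1 N).filter
      fun x => ¬ Pop Om W lam c x).card : ℝ) =
      ∑ x : Fin m → V, (if (∀ j, x j ∈ SS W lam kap de c1 N) then (1:ℝ) else 0) *
        (1 - popf Om W lam c x) := by
    intro N _
    have h2 : ∀ x : Fin m → V, (if (∀ j, x j ∈ SS W lam kap de c1 N) then (1:ℝ) else 0) *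
        (1 - popf Om W lam c x) =
        if (x ∈ (Fintype.piFinset fun _ : Fin m => SS W lam kap de c1 N).filter
          fun x => ¬ Pop Om W lam c x) then 1 else 0 := by
      intro x
      unfold popf
      have hmem : x ∈ (Fintype.piFinset fun _ : Fin m => SS W lam kap de c1 N).filter
          (fun x => ¬ Pop Om W lam c x) ↔ (∀ j, x j ∈ SS W lam kap de c1 N) ∧ ¬ Pop Om W lam c x := by
        rw [Finset.mem_filter, Fintype.mem_piFinset]
      by_cases a : ∀ j, x j ∈ SS W lam kap de c1 N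
      · by_cases b : Pop Om W lam c x
        · rw [if_pos a, if_pos b, if_neg (fun h => (hmem.1 h).2 b)]; norm_num
        · rw [if_pos a, if_neg b, if_pos (hmem.2 ⟨a, b⟩)]; norm_num
      · rw [if_neg a, if_neg (fun h => a (hmem.1 h).1)]; norm_num
    simp only [h2]
    rw [Finset.sum_boole]
    congr 2
    ext x
    simp
  rw [Finset.sum_congr rfl h1, Finset.sum_comm]
  have h3 : ∀ x : Fin m → V, ∑ N ∈ Om, (if (∀ j, x j ∈ SS W lam kap de c1 N) then (1:ℝ) else 0) *
        (1 - popf Om W lam c x) =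
      gg Om W lam kap de (fun j => cell c1 (c1 (x j))) * (1 - popf Om W lam c x) := by
    intro x
    rw [← Finset.sum_mul, Finset.sum_boole]
    congr 1
    unfold gg
    refine congrArg (fun s : Finset ℕ => (s.card : ℝ)) ?_
    ext N
    rw [Finset.mem_filter, Finset.mem_filter]
    unfold SS
    simp only [Finset.mem_filter, Finset.mem_univ, true_and]
    rfl
  simp only [h3]
  rw [← Finset.sum_fiberwise (univ : Finset (Fin m → V)) (fun x j => c1 (x j))]
  refine Finset.sum_congr rfl fun t _ => ?_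
  have h4 : (univ.filter fun x : Fin m → V => (fun j => c1 (x j)) = t) =
      Fintype.piFinset (fun j => cell c1 (t j)) := by
    ext x
    rw [mem_box]
    simp
  rw [h4, ← box_sum, Finset.mul_sum]
  refine Finset.sum_congr rfl fun x hx => ?_
  rw [mem_box] at hx
  subst hx
  rfl

open Classical in
theorem abs_part2 {V : Type} [Fintype V] (m : ℕ) (Om : Finset ℕ) (hOm : Om.Nonempty)
    (W : ℕ → V → Prop) (lam c kap de e e4 p : ℝ) (hp : 0 ≤ p) (hpe : p = e ^ 2 / 2)
    (he4 : e4 ≤ e ^ 2 / 2) (hn : 0 < (Fintype.card V : ℝ)) (he : 0 < e)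
    {t1 : ℕ} (c1 : V → Fin t1)
    (hirr : ∑ t ∈ univ.filter (fun t : Fin m → Fin t1 =>
      ¬ Reg e4 (popf Om W lam c) (fun j => cell c1 (t j))), wt c1 t ≤
        e4 * (Fintype.card V : ℝ) ^ m)
    (hbox : ∀ U : Fin m → Finset V, Reg e4 (popf Om W lam c) U →
      gg Om W lam kap de U * (1 - den (popf Om W lam c) U) ≤ p * Om.card) :
    ((Om.filter fun N => e * (Fintype.card V : ℝ) ^ m ≤
      (((Fintype.piFinset fun _ : Fin m => SS W lam kap de c1 N).filter
        fun x => ¬ Pop Om W lam c x).card : ℝ)).card : ℝ) ≤ e * Om.card := by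
  by_contra hcon
  push Not at hcon
  set B := Om.filter fun N => e * (Fintype.card V : ℝ) ^ m ≤
      (((Fintype.piFinset fun _ : Fin m => SS W lam kap de c1 N).filter
        fun x => ¬ Pop Om W lam c x).card : ℝ) with hB
  have hnm : 0 < (Fintype.card V : ℝ) ^ m := pow_pos hn m
  have hom : (0:ℝ) < Om.card := by exact_mod_cast Finset.card_pos.2 hOm
  have h1 : e * Om.card * (e * (Fintype.card V : ℝ) ^ m) <
      ∑ N ∈ Om, (((Fintype.piFinset fun _ : Fin m => SS W lam kap de c1 N).filter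
        fun x => ¬ Pop Om W lam c x).card : ℝ) := by
    calc e * Om.card * (e * (Fintype.card V : ℝ) ^ m) < B.card * (e * (Fintype.card V : ℝ) ^ m) :=
          mul_lt_mul_of_pos_right hcon (by positivity)
      _ = ∑ N ∈ B, e * (Fintype.card V : ℝ) ^ m := by rw [Finset.sum_const, nsmul_eq_mul]
      _ ≤ ∑ N ∈ B, (((Fintype.piFinset fun _ : Fin m => SS W lam kap de c1 N).filter
            fun x => ¬ Pop Om W lam c x).card : ℝ) :=
          Finset.sum_le_sum fun N hN => (Finset.mem_filter.1 hN).2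
      _ ≤ _ := Finset.sum_le_sum_of_subset_of_nonneg (Finset.filter_subset _ _)
          fun _ _ _ => Nat.cast_nonneg _
  rw [part2_sum] at h1
  have h2 : ∑ t : Fin m → Fin t1, gg Om W lam kap de (fun j => cell c1 (t j)) *
      (wt c1 t * (1 - den (popf Om W lam c) (fun j => cell c1 (t j)))) ≤
      ∑ t : Fin m → Fin t1, (p * Om.card * wt c1 t +
        if ¬ Reg e4 (popf Om W lam c) (fun j => cell c1 (t j)) then Om.card * wt c1 t else 0) := by
    refine Finset.sum_le_sum fun t _ => ?_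
    have hw := wt_nonneg c1 t
    have hd := den_mem (popf Om W lam c) (popf_mem Om W lam c) (fun j => cell c1 (t j))
    have hg0 := gg_nonneg Om W lam kap de (fun j => cell c1 (t j))
    have hg1 := gg_le Om W lam kap de (fun j => cell c1 (t j))
    by_cases hr : Reg e4 (popf Om W lam c) (fun j => cell c1 (t j))
    · rw [if_neg (fun h => h hr), add_zero]
      have h3 := mul_le_mul_of_nonneg_right (hbox _ hr) hw
      calc _ = gg Om W lam kap de (fun j => cell c1 (t j)) *
            (1 - den (popf Om W lam c) (fun j => cell c1 (t j))) * wt c1 t := by ring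
        _ ≤ _ := h3
    · rw [if_pos hr]
      have h4 : gg Om W lam kap de (fun j => cell c1 (t j)) *
          (wt c1 t * (1 - den (popf Om W lam c) (fun j => cell c1 (t j)))) ≤
          Om.card * (wt c1 t * 1) := by
        refine mul_le_mul hg1 (mul_le_mul_of_nonneg_left (by linarith [hd.1]) hw) ?_ hom.le
        exact mul_nonneg hw (by linarith [hd.2])
      have h5 : 0 ≤ p * Om.card * wt c1 t := by positivity
      rw [mul_one] at h4
      linarith
  rw [Finset.sum_add_distrib, ← Finset.mul_sum, sum_wt, ← Finset.sum_filter, ← Finset.mul_sum] at h2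
  have h6 : (Om.card : ℝ) * ∑ t ∈ univ.filter (fun t : Fin m → Fin t1 =>
      ¬ Reg e4 (popf Om W lam c) (fun j => cell c1 (t j))), wt c1 t ≤
      Om.card * (e ^ 2 / 2 * (Fintype.card V : ℝ) ^ m) := by
    refine mul_le_mul_of_nonneg_left (hirr.trans ?_) hom.le
    exact mul_le_mul_of_nonneg_right he4 hnm.le
  rw [hpe] at h2
  have h7 : e * Om.card * (e * (Fintype.card V : ℝ) ^ m) =
      e ^ 2 / 2 * Om.card * (Fintype.card V : ℝ) ^ m +
        Om.card * (e ^ 2 / 2 * (Fintype.card V : ℝ) ^ m) := by ring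
  linarith

open Classical in
theorem clique_aux (m : ℕ) (hm : 1 ≤ m) (al K A e : ℝ) (hal : 0 < al) (hal1 : al ≤ 1) (hK : 1 ≤ K)
    (hA : 1 ≤ A) (he : 0 < e) (he1 : e ≤ 1) (t0 : ℕ) :
    ∃ (R : ℕ) (c de ta C0 : ℝ), 1 ≤ R ∧ 0 < c ∧ 0 < de ∧ 0 < ta ∧ 0 < C0 ∧
      ∀ (V : Type) [Fintype V] (Om : Finset ℕ) (W : ℕ → V → Prop) (lam : ℝ),
        Hyp V Om W lam al K R ((A * R) ^ R) de ta C0 → ∀ c0 : V → Fin t0,
        ∃ S : ℕ → Finset V,
          (∀ s : Fin t0, (al / K - e) * ((cell c0 s).card : ℝ) * Om.card -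
              e * Fintype.card V * Om.card ≤
            ∑ N ∈ Om, (((S N).filter fun v => c0 v = s).card : ℝ)) ∧
          ((Om.filter fun N => e * (Fintype.card V : ℝ) ^ m ≤
            (((Fintype.piFinset fun _ : Fin m => S N).filter
              fun x => ¬ Pop Om W lam c x).card : ℝ)).card : ℝ) ≤ e * Om.card := by
  have hp : 0 < e ^ 2 / 2 := by positivity
  have hp1 : e ^ 2 / 2 < 1 := by nlinarith
  have hkap : 0 < e / 2 := by positivity
  have hkap1 : e / 2 ≤ 1 := by linarith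
  obtain ⟨M, hMp, hmM, hMM⟩ := exists_M m hm A (e / 2) (e ^ 2 / 2) hA hkap hkap1 hp hp1
  have : Fact M.Prime := ⟨hMp⟩
  have hM1 : 1 ≤ M := hMp.one_lt.le
  have hR1 : 1 ≤ m * M := Nat.mul_pos hm hM1
  have hRr : (0:ℝ) < ((m * M : ℕ) : ℝ) := by exact_mod_cast hR1
  have hMr : (0:ℝ) < (M : ℝ) := by exact_mod_cast hM1
  have hmr : (0:ℝ) < (m : ℝ) := by exact_mod_cast hm
  obtain ⟨C, hCdef⟩ : ∃ C : ℝ, C = (A * ((m * M : ℕ) : ℝ)) ^ (m * M) := ⟨_, rfl⟩
  have hC : 0 < C := by rw [hCdef]; positivity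
  obtain ⟨kR, hkR⟩ : ∃ kR : ℝ, kR = (e / 2) ^ (m * M) := ⟨_, rfl⟩
  have hkR0 : 0 < kR := by rw [hkR]; positivity
  obtain ⟨c, hcdef⟩ : ∃ c : ℝ, c = e ^ 2 / 2 * kR / (8 * (M : ℝ) ^ 2 * (2 * K) ^ (m * M)) := ⟨_, rfl⟩
  have hK0 : 0 < K := by linarith
  have hc : 0 < c := by rw [hcdef]; positivity
  obtain ⟨e4, he4def⟩ : ∃ e4 : ℝ, e4 = min (e ^ 2 / 2) (e ^ 2 / 2 / 32 * kR / (C * (M : ℝ) ^ 2)) := ⟨_, rfl⟩
  have he4 : 0 < e4 := by rw [he4def]; exact lt_min hp (by positivity)
  have he4a : e4 ≤ e ^ 2 / 2 := by rw [he4def]; exact min_le_left _ _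
  have he4b : C * ((M : ℝ) ^ 2 * e4) ≤ e ^ 2 / 2 / 32 * kR := by
    have h1 : e4 ≤ e ^ 2 / 2 / 32 * kR / (C * (M : ℝ) ^ 2) := by rw [he4def]; exact min_le_right _ _
    rw [le_div_iff₀ (by positivity)] at h1
    calc C * ((M : ℝ) ^ 2 * e4) = e4 * (C * (M : ℝ) ^ 2) := by ring
      _ ≤ _ := h1
  obtain ⟨t1, ht1⟩ := reg_lemma m hm e4 he4 t0
  obtain ⟨de, hdedef⟩ : ∃ de : ℝ, de = e / (t1 + 1) := ⟨_, rfl⟩
  have hde : 0 < de := by rw [hdedef]; positivity
  have hdt : (t1 : ℝ) * de ≤ e := by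
    rw [hdedef, mul_div_assoc', div_le_iff₀ (by positivity)]
    nlinarith
  obtain ⟨ta, htadef⟩ : ∃ ta : ℝ, ta = min (e / 2) (min (e ^ 2 / 2 / 2 / m)
    (e ^ 2 / 2 / 32 * kR / C * de ^ (m * M))) := ⟨_, rfl⟩
  have hta : 0 < ta := by
    rw [htadef]
    exact lt_min hkap (lt_min (by positivity) (by positivity))
  have hta1 : ta ≤ e / 2 := by rw [htadef]; exact min_le_left _ _
  have hta2 : (m : ℝ) * ta ≤ e ^ 2 / 2 / 2 := by
    have h1 : ta ≤ e ^ 2 / 2 / 2 / m := by
      rw [htadef]; exact (min_le_right _ _).trans (min_le_left _ _)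
    rw [le_div_iff₀ hmr] at h1
    linarith
  have hta3 : C * (ta / de ^ (m * M)) ≤ e ^ 2 / 2 / 32 * kR := by
    have h1 : ta ≤ e ^ 2 / 2 / 32 * kR / C * de ^ (m * M) := by
      rw [htadef]; exact (min_le_right _ _).trans (min_le_right _ _)
    have h2 : ta / de ^ (m * M) ≤ e ^ 2 / 2 / 32 * kR / C := by
      rw [div_le_iff₀ (by positivity)]
      exact h1
    rw [le_div_iff₀ hC] at h2
    linarith
  obtain ⟨C0, hC0def⟩ : ∃ C0 : ℝ, C0 = 4 * ((m * M : ℕ) : ℝ) ^ 2 / (e / 2 * de) := ⟨_, rfl⟩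
  have hC0 : 0 < C0 := by rw [hC0def]; positivity
  have hC0' : 4 * ((m * M : ℕ) : ℝ) ^ 2 ≤ C0 * (e / 2) * de := by
    rw [hC0def, mul_assoc, div_mul_cancel₀]
    positivity
  have hcc : c * (M : ℝ) ^ 2 * (2 * K) ^ (m * M) ≤ e ^ 2 / 2 * kR / 8 := by
    have : c * (M : ℝ) ^ 2 * (2 * K) ^ (m * M) = e ^ 2 / 2 * kR / 8 := by
      rw [hcdef]
      field_simp
    rw [this]
  refine ⟨m * M, c, de, ta, C0, hR1, hc, hde, hta, hC0, ?_⟩
  intro V _ Om W lam h c0
  rw [← hCdef] at h
  rw [← hCdef] at hMM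
  obtain ⟨c1, -, hc1⟩ := ht1 V (popf Om W lam c) c0 (popf_mem Om W lam c)
  refine ⟨SS W lam (e / 2) de c1, fun s => ?_, ?_⟩
  · exact abs_part1 h hK hde hC0 (e / 2) e hkap.le hta (by linarith) hal1 hal t0 t1 c1 hdt c0 s
  · have hn : 0 < (Fintype.card V : ℝ) := by
      by_contra h1
      have h2 : (Fintype.card V : ℝ) ≤ 0 := not_lt.1 h1
      have h5 : lam * (Fintype.card V : ℝ) ≤ 0 := mul_nonpos_of_nonneg_of_nonpos h.lam_pos.le h2
      have := h.size
      linarith
    refine abs_part2 m Om h.om W lam c (e / 2) de e e4 (e ^ 2 / 2) hp.le rfl he4a hn he c1 hc1 ?_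
    intro U hU
    rw [hkR] at hcc he4b hta3
    exact reg_box m M hm hmM Om W lam al K C c (e ^ 2 / 2) (e / 2) e4 de ta C0 h hK hC hc hp hp1
      hkap hkap1 he4 hde hta hC0 hC0' hcc hMM he4b hta3 hta2 U hU

open Classical in
theorem clique_abs (m : ℕ) (hm : 1 ≤ m) (al K A e : ℝ) (hal : 0 < al) (hal1 : al ≤ 1) (hK : 1 ≤ K)
    (hA : 1 ≤ A) (he : 0 < e) (t0 : ℕ) :
    ∃ (R : ℕ) (c de ta C0 : ℝ), 1 ≤ R ∧ 0 < c ∧ 0 < de ∧ 0 < ta ∧ 0 < C0 ∧
      ∀ (V : Type) [Fintype V] (Om : Finset ℕ) (W : ℕ → V → Prop) (lam : ℝ),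
        Hyp V Om W lam al K R ((A * R) ^ R) de ta C0 → ∀ c0 : V → Fin t0,
        ∃ S : ℕ → Finset V,
          (∀ s : Fin t0, (al / K - e) * ((cell c0 s).card : ℝ) * Om.card -
              e * Fintype.card V * Om.card ≤
            ∑ N ∈ Om, (((S N).filter fun v => c0 v = s).card : ℝ)) ∧
          ((Om.filter fun N => e * (Fintype.card V : ℝ) ^ m ≤
            (((Fintype.piFinset fun _ : Fin m => S N).filter
              fun x => ¬ Pop Om W lam c x).card : ℝ)).card : ℝ) ≤ e * Om.card := by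
  obtain ⟨R, c, de, ta, C0, hR, hc, hde, hta, hC0, h⟩ := clique_aux m hm al K A (min e 1) hal hal1 hK hA
    (lt_min he one_pos) (min_le_right _ _) t0
  refine ⟨R, c, de, ta, C0, hR, hc, hde, hta, hC0, ?_⟩
  intro V _ Om W lam hH c0
  obtain ⟨S, h1, h2⟩ := h V Om W lam hH c0
  have hle : min e 1 ≤ e := min_le_left _ _
  refine ⟨S, fun s => ?_, ?_⟩
  · refine le_trans ?_ (h1 s)
    have a1 : (al / K - e) * ((cell c0 s).card : ℝ) * Om.card ≤
        (al / K - min e 1) * ((cell c0 s).card : ℝ) * Om.card :=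
      mul_le_mul_of_nonneg_right (mul_le_mul_of_nonneg_right (by linarith) (Nat.cast_nonneg _))
        (Nat.cast_nonneg _)
    have a2 : min e 1 * Fintype.card V * Om.card ≤ e * Fintype.card V * Om.card :=
      mul_le_mul_of_nonneg_right (mul_le_mul_of_nonneg_right hle (Nat.cast_nonneg _))
        (Nat.cast_nonneg _)
    linarith
  · have a3 : ((Om.filter fun N => e * (Fintype.card V : ℝ) ^ m ≤
            (((Fintype.piFinset fun _ : Fin m => S N).filter
              fun x => ¬ Pop Om W lam c x).card : ℝ)).card : ℝ) ≤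
        ((Om.filter fun N => min e 1 * (Fintype.card V : ℝ) ^ m ≤
            (((Fintype.piFinset fun _ : Fin m => S N).filter
              fun x => ¬ Pop Om W lam c x).card : ℝ)).card : ℝ) := by
      refine Nat.cast_le.2 (Finset.card_le_card ?_)
      intro N hN
      rw [Finset.mem_filter] at hN ⊢
      refine ⟨hN.1, le_trans ?_ hN.2⟩
      exact mul_le_mul_of_nonneg_right hle (by positivity)
    refine a3.trans (h2.trans ?_)
    exact mul_le_mul_of_nonneg_right hle (Nat.cast_nonneg _)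

end Pool.Agent.H99.RO
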