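import Pool.Agent.H99.RO.One
import Pool.Agent.H89.P2.Up

/-!
[H99 RO CONC]  Concentration of the majorant: hypothesis (h2) for the primes, with `K = 50/13`.

Proof.  We may assume `ta ≤ 1`.  `e = 1/1000`, `e' = tb = ta^2/1000`, `a1` = minimum of the `a1` of `one_pt`, `two_pt` for `e'` and `1/20`, `a = a1`; `J`, `W` from `upper_final a (1/1000)`
(`H89/P2/Up.lean`), which gives `Wok a e J W`; `w0` = maximum of the two `w0`; `c` = minimum of the two `c` and `1/2`; `C1 = 6400 exp(2/a)/ta^2`.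
Let `g u N = gG x a (a/J) Q W u N ≥ 0`, `m = mv2 W mu * VQ x a Q`, `μ = m |U|`, `l = lam x Q`.  `m ≤ (1 + 1/1000) 6.588 a · l/(1.718 a) ≤ (50/13) l ≤ 4 l` (`vq_up`; `1.001 * 6.588/1.718 = 3.8386 ≤ 3.846`).
POINTWISE: if `N + u` is prime and `N > √x` then `1 ≤ g u N` (no `p ∈ PQ`, `p < x^a < √x`, divides the prime `N + u > √x`; `Wok.maj`).  So for `N > √x`
`#{u ∈ U : N + u prime} ≤ ∑_{u ∈ U} g u N`, and `max (# - (50/13) l |U|) 0 ≤ |∑_u g u N - μ|`; for `N ≤ √x` it is at most `|U|`, and there are at most `√x` such `N`.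
SECOND MOMENT: `∑_{N ∈ Om} (∑_u g u N - μ)^2 = ∑_{u ≠ v} ∑_N g u g v + ∑_u ∑_N g u^2 - 2 μ ∑_u ∑_N g u + μ^2 |Om|`.  First term `≤ (1+e') m^2 |Om| ∑_{u ≠ v} Ph Q 1 (dist u v) ≤ (1+e') m^2 |Om| (1 + tb) |U|^2`
(hypothesis on `U`); second: `g u N ≤ 2 exp(2/a)` (`Wok.bd`, `N + u ≤ x + x^c ≤ x^(1+1/1000)`), so `≤ 2 exp(2/a) (1+e') μ |Om|`; third `≤ -2 (1-e') μ^2 |Om|`.  Total
`≤ |Om| ((4 e' + 2 tb) μ^2 + 4 exp(2/a) μ) ≤ |Om| (l |U|)^2 (6 e' * 16 + 16 exp(2/a)/C1) ≤ |Om| (l |U|)^2 ta^2/4 * ...` (`μ ≤ 4 l |U|`, `l |U| ≥ C1`):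
`96/1000 + 16/6400 < 1/4`... times `ta^2`: `≤ (ta^2/4)(l |U|)^2 |Om|`.
Cauchy-Schwarz: `∑_N |∑ g - μ| ≤ (ta/2) l |U| |Om|`.  The `N ≤ √x` contribute `≤ √x |U| ≤ (ta/2) l |U| |Om|` for large `x` (`l ≥ 1/log x`, `|Om| ≥ x/Q - 2`).
-/

namespace Pool.Agent.H99.RO

open Finset Pool.Agent.H89.P2

theorem wok_exists (a : ℝ) (ha : 0 < a) (ha1 : a ≤ 1 / 20) : ∃ (J : ℕ) (W : List (ℝ × List ℕ × List ℕ)),
    Wok a (1 / 1000) J W := by
  obtain ⟨J, W, h1, _, h3, h4, h5, h6, h7, h8, h9⟩ := upper_final a (1 / 1000) ha ha1 (by norm_num)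
  exact ⟨J, W, h1, ⟨fun w hw j hj => (h3 w hw j hj).2.1, h4⟩,
    fun w hw j hj => lt_of_lt_of_le h1 (h3 w hw j hj).1, h5, h6, h7, h8, h9⟩

private theorem gG_nonneg (x a e : ℝ) (J Q : ℕ) (W : List (ℝ × List ℕ × List ℕ)) (hW : Wok a e J W)
    (h N : ℕ) : 0 ≤ gG x a (a / J) Q W h N := by
  unfold gG
  split_ifs
  · exact hW.nn x (N + h)
  · exact le_rfl

private theorem gG_prime (x a e : ℝ) (J Q : ℕ) (W : List (ℝ × List ℕ × List ℕ)) (hW : Wok a e J W)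
    (hx : 1 < x) (ha : a ≤ 1 / 2) (h N : ℕ) (hN : Real.sqrt x < N) (hp : (N + h).Prime) :
    1 ≤ gG x a (a / J) Q W h N := by
  have hNh : (N : ℝ) ≤ ((N + h : ℕ) : ℝ) := by exact_mod_cast Nat.le_add_right N h
  unfold gG
  rw [if_pos]
  · exact hW.maj x hx (N + h) hp (lt_of_lt_of_le hN hNh)
  · intro p hpP hd
    unfold PQ at hpP
    rw [mem_filter, mem_range, Nat.lt_ceil] at hpP
    have h1 : p = N + h := (Nat.prime_dvd_prime_iff_eq hpP.2.1 hp).1 hd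
    have h2 : x ^ a ≤ Real.sqrt x := by
      rw [Real.sqrt_eq_rpow]
      exact Real.rpow_le_rpow_of_exponent_le hx.le ha
    have h3 : (p : ℝ) < x ^ a := hpP.1
    rw [h1] at h3
    linarith

private theorem conc_asy (Q : ℕ) (hQ : 0 < Q) (t : ℝ) (ht : 0 < t) : ∀ᶠ x : ℝ in Filter.atTop,
    Real.sqrt x * (2 / t) * Real.log x ≤ x / Q - 2 ∧ 1 ≤ Real.log x ∧ 1 < x ∧
      2 * x ≤ x ^ (1 + 1 / 1000 : ℝ) := by
  have hQ0 : (0 : ℝ) < Q := by exact_mod_cast hQ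
  have h3 : ∀ᶠ x : ℝ in Filter.atTop, ‖(Real.log x) ^ (1 : ℝ)‖ ≤ t / (4 * Q) * ‖x ^ ((1 : ℝ) / 2)‖ :=
    (isLittleO_log_rpow_rpow_atTop (1 : ℝ) (by norm_num : (0 : ℝ) < 1 / 2)).def (by positivity)
  have h4 : Filter.Tendsto (fun x : ℝ => x ^ (1 / 1000 : ℝ)) Filter.atTop Filter.atTop :=
    tendsto_rpow_atTop (by norm_num)
  filter_upwards [h3, h4.eventually_ge_atTop 2, Filter.eventually_ge_atTop (4 * (Q : ℝ)),
    Filter.eventually_ge_atTop (3 : ℝ)] with x hx1 hx4 hx2 hx3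
  have hx0 : 0 < x := by linarith
  have hl : 1 ≤ Real.log x := by
    rw [Real.le_log_iff_exp_le hx0]
    linarith [Real.exp_one_lt_d9]
  have h5 : 4 ≤ x / Q := by
    rw [le_div_iff₀ hQ0]
    exact hx2
  rw [Real.norm_of_nonneg (Real.rpow_nonneg (by linarith) _),
    Real.norm_of_nonneg (Real.rpow_nonneg hx0.le _), ← Real.sqrt_eq_rpow, Real.rpow_one] at hx1
  refine ⟨?_, hl, by linarith, ?_⟩
  · have h6 : Real.sqrt x * Real.sqrt x = x := Real.mul_self_sqrt hx0.le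
    have h7 : Real.sqrt x * (2 / t) * Real.log x ≤ Real.sqrt x * (2 / t) * (t / (4 * Q) * Real.sqrt x) :=
      mul_le_mul_of_nonneg_left hx1 (by positivity)
    have h8 : Real.sqrt x * (2 / t) * (t / (4 * Q) * Real.sqrt x) = x / Q / 2 := by
      have h9 : Real.sqrt x * (2 / t) * (t / (4 * Q) * Real.sqrt x) =
          (Real.sqrt x * Real.sqrt x) * (2 / t * (t / (4 * Q))) := by ring
      rw [h9, h6]
      field_simp
      norm_num
    linarith
  · rw [Real.rpow_add hx0, Real.rpow_one, mul_comm]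
    exact mul_le_mul_of_nonneg_left hx4 hx0.le

open Classical in
theorem conc (ta : ℝ) (hta : 0 < ta) : ∃ (w0 : ℕ) (tb C1 c : ℝ), 0 < tb ∧ 0 < C1 ∧ 0 < c ∧ ∀ Q : ℕ, 0 < Q →
    primorial w0 ∣ Q → ∃ x0 : ℝ, ∀ x : ℝ, x0 ≤ x → ∀ U : Finset ℕ,
      (∀ u ∈ U, (u : ℝ) ≤ x ^ c ∧ Nat.Coprime u Q) → C1 ≤ lam x Q * U.card →
      ∑ u ∈ U, ∑ v ∈ U.erase u, (Ph Q 1 (Nat.dist u v) - 1) ≤ tb * (U.card : ℝ) ^ 2 →
      ∑ N ∈ Om x Q, max (((U.filter fun u => (N + u).Prime).card : ℝ) -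
          50 / 13 * lam x Q * U.card) 0 ≤ ta * lam x Q * U.card * (Om x Q).card := by
  obtain ⟨t, ht⟩ : ∃ t : ℝ, t = min ta 1 := ⟨_, rfl⟩
  have ht0 : 0 < t := by rw [ht]; exact lt_min hta zero_lt_one
  have ht1 : t ≤ 1 := by rw [ht]; exact min_le_right _ _
  have htta : t ≤ ta := by rw [ht]; exact min_le_left _ _
  obtain ⟨w1, H1⟩ := one_pt
  obtain ⟨w2, H2⟩ := two_pt
  obtain ⟨e', he'⟩ : ∃ e' : ℝ, e' = t ^ 2 / 1000 := ⟨_, rfl⟩
  have ht2 : t ^ 2 ≤ 1 := by nlinarith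
  have he0 : 0 < e' := by rw [he']; positivity
  have he1 : e' ≤ 1 / 1000 := by rw [he']; linarith
  obtain ⟨a1, ha1, H1⟩ := H1 e' he0
  obtain ⟨a2, ha2, H2⟩ := H2 e' he0
  obtain ⟨a, ha⟩ : ∃ a : ℝ, a = min (min a1 a2) (1 / 20) := ⟨_, rfl⟩
  have ha0 : 0 < a := by
    rw [ha]
    exact lt_min (lt_min ha1 ha2) (by norm_num)
  have haa1 : a ≤ a1 := by rw [ha]; exact (min_le_left _ _).trans (min_le_left _ _)
  have haa2 : a ≤ a2 := by rw [ha]; exact (min_le_left _ _).trans (min_le_right _ _)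
  have ha20 : a ≤ 1 / 20 := by rw [ha]; exact min_le_right _ _
  obtain ⟨J, W, hW⟩ := wok_exists a ha0 ha20
  obtain ⟨c1, hc1, H1⟩ := H1 a (1 / 1000) ha0 haa1 J W hW
  obtain ⟨c2, hc2, H2⟩ := H2 a (1 / 1000) ha0 haa2 J W hW
  obtain ⟨E, hE⟩ : ∃ E : ℝ, E = Real.exp (2 / a) := ⟨_, rfl⟩
  have hE0 : 0 < E := by rw [hE]; exact Real.exp_pos _
  obtain ⟨xb, hbd⟩ := hW.bd
  rw [← hE] at hbd
  refine ⟨max w1 w2, e', 6400 * E / t ^ 2, min (min c1 c2) (1 / 2), he0, by positivity,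
    lt_min (lt_min hc1 hc2) (by norm_num), fun Q hQ hprim => ?_⟩
  have hpr1 : primorial w1 ∣ Q := (primorial_dvd_primorial (le_max_left _ _)).trans hprim
  have hpr2 : primorial w2 ∣ Q := (primorial_dvd_primorial (le_max_right _ _)).trans hprim
  obtain ⟨x1, H1⟩ := H1 Q hQ hpr1
  obtain ⟨x2, H2⟩ := H2 Q hQ hpr2
  have hev := (vq_up Q hQ a ha0).and (conc_asy Q hQ t ht0)
  obtain ⟨x3, hx3⟩ := Filter.eventually_atTop.1 hev
  refine ⟨max (max x1 x2) (max x3 xb), fun x hx U hU hC1 hPh => ?_⟩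
  have hxx1 : x1 ≤ x := ((le_max_left _ _).trans (le_max_left _ _)).trans hx
  have hxx2 : x2 ≤ x := ((le_max_right _ _).trans (le_max_left _ _)).trans hx
  have hxx3 : x3 ≤ x := ((le_max_left _ _).trans (le_max_right _ _)).trans hx
  have hxxb : xb ≤ x := ((le_max_right _ _).trans (le_max_right _ _)).trans hx
  obtain ⟨⟨hVpos, hVup⟩, has1, hlog, hx1', has2⟩ := hx3 x hxx3
  have hx0 : 0 < x := by linarith
  obtain ⟨om1, om2⟩ := om_card x hx1'.le Q hQ
  obtain ⟨l, hl⟩ : ∃ l, l = lam x Q := ⟨_, rfl⟩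
  obtain ⟨O, hO⟩ : ∃ O : ℝ, O = ((Om x Q).card : ℝ) := ⟨_, rfl⟩
  obtain ⟨n, hn⟩ : ∃ n : ℝ, n = (U.card : ℝ) := ⟨_, rfl⟩
  obtain ⟨m, hm⟩ : ∃ m, m = mv2 W mu * VQ x a Q := ⟨_, rfl⟩
  have hlow : 1 / Real.log x ≤ l := by
    rw [hl]
    unfold lam
    have ht : (0 : ℝ) < Q.totient := by exact_mod_cast Nat.totient_pos.2 hQ
    have ht2 : (Q.totient : ℝ) ≤ Q := by exact_mod_cast Nat.totient_le Q
    rw [div_le_div_iff₀ (by linarith) (by positivity), one_mul]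
    exact mul_le_mul_of_nonneg_right ht2 (by linarith)
  have hl0 : 0 < l := lt_of_lt_of_le (by positivity) hlow
  have hn0 : 0 ≤ n := by rw [hn]; positivity
  have hO0 : 0 ≤ O := by rw [hO]; positivity
  rw [← hl] at hVup hC1 ⊢
  rw [← hO] at om1 om2 ⊢
  rw [← hn] at hC1 hPh ⊢
  have hm0 : 0 < m := by
    rw [hm]
    exact mul_pos (lt_of_lt_of_le ha0 hW.lo) hVpos
  have hml : m ≤ 50 / 13 * l := by
    have h1 : m ≤ (1 + 1 / 1000) * (6588 / 1000 * a) * (l / (1718 / 1000 * a)) := by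
      rw [hm]
      exact mul_le_mul hW.up hVup hVpos.le (by positivity)
    refine h1.trans ?_
    have h2 : (1 + 1 / 1000) * (6588 / 1000 * a) * (l / (1718 / 1000 * a)) =
        (1 + 1 / 1000) * 6588 / 1718 * l := by
      field_simp
    rw [h2]
    exact mul_le_mul_of_nonneg_right (by norm_num) hl0.le
  obtain ⟨μ, hμ⟩ : ∃ μ, μ = m * n := ⟨_, rfl⟩
  have hμ0 : 0 ≤ μ := by rw [hμ]; positivity
  have hμ4 : μ ≤ 50 / 13 * l * n := by
    rw [hμ]
    exact mul_le_mul_of_nonneg_right hml hn0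
  obtain ⟨g, hg⟩ : ∃ g : ℕ → ℕ → ℝ, g = fun u N => gG x a (a / J) Q W u N := ⟨_, rfl⟩
  have hg0 : ∀ u N, 0 ≤ g u N := by
    intro u N
    rw [hg]
    exact gG_nonneg x a _ J Q W hW u N
  have hxc : ∀ u ∈ U, (u : ℝ) ≤ x ^ c1 ∧ (u : ℝ) ≤ x ^ c2 ∧ (u : ℝ) ≤ x := by
    intro u hu
    have h1 := (hU u hu).1
    refine ⟨h1.trans (Real.rpow_le_rpow_of_exponent_le hx1'.le
      ((min_le_left _ _).trans (min_le_left _ _))), h1.trans (Real.rpow_le_rpow_of_exponent_le hx1'.le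
      ((min_le_left _ _).trans (min_le_right _ _))), h1.trans ?_⟩
    calc x ^ (min (min c1 c2) (1 / 2)) ≤ x ^ (1 : ℝ) := Real.rpow_le_rpow_of_exponent_le hx1'.le
          ((min_le_right _ _).trans (by norm_num))
      _ = x := Real.rpow_one x
  have hone : ∀ u ∈ U, (1 - e') * m * O ≤ ∑ N ∈ Om x Q, g u N ∧
      ∑ N ∈ Om x Q, g u N ≤ (1 + e') * m * O := by
    intro u hu
    rw [hg, hm, hO]
    exact H1 x hxx1 u (hxc u hu).1 (hU u hu).2
  have htwo : ∀ u ∈ U, ∀ v ∈ U.erase u, ∑ N ∈ Om x Q, g u N * g v N ≤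
      (1 + e') * m ^ 2 * O * Ph Q 1 (Nat.dist u v) := by
    intro u hu v hv
    rw [mem_erase] at hv
    have h1 := H2 x hxx2 u v (hxc u hu).2.1 (hxc v hv.2).2.1 hv.1.symm (hU u hu).2 (hU v hv.2).2
    rw [hg, hm, hO]
    refine h1.trans (le_of_eq ?_)
    ring
  have hbnd : ∀ u ∈ U, ∀ N ∈ Om x Q, g u N ≤ 2 * E := by
    intro u hu N hN
    unfold Om at hN
    rw [mem_filter, mem_Icc] at hN
    rw [hg]
    show gG x a (a / J) Q W u N ≤ 2 * E
    unfold gG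
    split_ifs
    · refine (le_abs_self _).trans (hbd x hxxb (N + u) (by omega) ?_)
      have h1 : (N : ℝ) ≤ x := (Nat.le_floor_iff hx0.le).1 hN.1.2
      have h2 := (hxc u hu).2.2
      push_cast
      linarith
    · positivity
  -- second moment
  obtain ⟨Y, hY⟩ : ∃ Y : ℕ → ℝ, Y = fun N => ∑ u ∈ U, g u N - μ := ⟨_, rfl⟩
  have hsec : ∑ N ∈ Om x Q, Y N ^ 2 ≤ O * (t ^ 2 / 4 * (l * n) ^ 2) := by
    have h1 : ∑ N ∈ Om x Q, Y N ^ 2 = ∑ N ∈ Om x Q, (∑ u ∈ U, g u N) ^ 2 -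
        2 * μ * ∑ u ∈ U, ∑ N ∈ Om x Q, g u N + μ ^ 2 * O := by
      have h2 : ∀ N ∈ Om x Q, Y N ^ 2 = (∑ u ∈ U, g u N) ^ 2 - 2 * μ * ∑ u ∈ U, g u N + μ ^ 2 := by
        intro N _
        rw [hY]
        show (∑ u ∈ U, g u N - μ) ^ 2 = _
        ring
      rw [sum_congr rfl h2, sum_add_distrib, sum_sub_distrib, ← mul_sum, sum_comm, sum_const,
        nsmul_eq_mul, ← hO, mul_comm (μ ^ 2)]
    have h2 : ∑ N ∈ Om x Q, (∑ u ∈ U, g u N) ^ 2 = ∑ u ∈ U, ∑ v ∈ U.erase u,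
        ∑ N ∈ Om x Q, g u N * g v N + ∑ u ∈ U, ∑ N ∈ Om x Q, g u N ^ 2 := by
      have h3 : ∀ N ∈ Om x Q, (∑ u ∈ U, g u N) ^ 2 =
          ∑ u ∈ U, ((∑ v ∈ U.erase u, g u N * g v N) + g u N ^ 2) := by
        intro N _
        rw [sq, sum_mul_sum]
        refine sum_congr rfl fun u hu => ?_
        rw [← sum_erase_add U _ hu, sq]
      rw [sum_congr rfl h3, sum_comm, ← sum_add_distrib]
      refine sum_congr rfl fun u _ => ?_
      rw [sum_add_distrib, sum_comm]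
    have h3 : ∑ u ∈ U, ∑ v ∈ U.erase u, ∑ N ∈ Om x Q, g u N * g v N ≤
        (1 + e') * m ^ 2 * O * ((1 + e') * n ^ 2) := by
      calc ∑ u ∈ U, ∑ v ∈ U.erase u, ∑ N ∈ Om x Q, g u N * g v N
          ≤ ∑ u ∈ U, ∑ v ∈ U.erase u, (1 + e') * m ^ 2 * O * Ph Q 1 (Nat.dist u v) :=
            sum_le_sum fun u hu => sum_le_sum fun v hv => htwo u hu v hv
        _ = (1 + e') * m ^ 2 * O * ∑ u ∈ U, ∑ v ∈ U.erase u, Ph Q 1 (Nat.dist u v) := by
            rw [mul_sum]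
            refine sum_congr rfl fun u _ => ?_
            rw [mul_sum]
        _ ≤ (1 + e') * m ^ 2 * O * ((1 + e') * n ^ 2) := by
            apply mul_le_mul_of_nonneg_left _ (by positivity)
            have h4 : ∑ u ∈ U, ∑ v ∈ U.erase u, Ph Q 1 (Nat.dist u v) =
                ∑ u ∈ U, ∑ v ∈ U.erase u, (Ph Q 1 (Nat.dist u v) - 1) +
                  ∑ u ∈ U, ∑ v ∈ U.erase u, (1 : ℝ) := by
              rw [← sum_add_distrib]
              refine sum_congr rfl fun u _ => ?_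
              rw [← sum_add_distrib]
              refine sum_congr rfl fun v _ => ?_
              ring
            have h5 : ∑ u ∈ U, ∑ v ∈ U.erase u, (1 : ℝ) ≤ n ^ 2 := by
              have h6 : ∀ u ∈ U, ∑ v ∈ U.erase u, (1 : ℝ) ≤ n := by
                intro u _
                rw [sum_const, nsmul_eq_mul, mul_one, hn]
                exact_mod_cast card_erase_le
              refine (sum_le_sum h6).trans (le_of_eq ?_)
              rw [sum_const, nsmul_eq_mul, ← hn]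
              ring
            rw [h4]
            linarith
    have h4 : ∑ u ∈ U, ∑ N ∈ Om x Q, g u N ^ 2 ≤ 2 * E * ((1 + e') * m * O) * n := by
      have h5 : ∀ u ∈ U, ∑ N ∈ Om x Q, g u N ^ 2 ≤ 2 * E * ((1 + e') * m * O) := by
        intro u hu
        have h6 : ∑ N ∈ Om x Q, g u N ^ 2 ≤ ∑ N ∈ Om x Q, 2 * E * g u N := by
          refine sum_le_sum fun N hN => ?_
          rw [sq]
          exact mul_le_mul_of_nonneg_right (hbnd u hu N hN) (hg0 u N)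
        refine h6.trans ?_
        rw [← mul_sum]
        exact mul_le_mul_of_nonneg_left (hone u hu).2 (by positivity)
      refine (sum_le_sum h5).trans (le_of_eq ?_)
      rw [sum_const, nsmul_eq_mul, ← hn]
      ring
    have h5 : (1 - e') * m * O * n ≤ ∑ u ∈ U, ∑ N ∈ Om x Q, g u N := by
      refine le_trans (le_of_eq ?_) (sum_le_sum fun u hu => (hone u hu).1)
      rw [sum_const, nsmul_eq_mul, ← hn]
      ring
    have h6 : 2 * μ * ((1 - e') * m * O * n) ≤ 2 * μ * ∑ u ∈ U, ∑ N ∈ Om x Q, g u N :=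
      mul_le_mul_of_nonneg_left h5 (by linarith)
    rw [h1, h2]
    have h8 : (1 + e') * m ^ 2 * O * ((1 + e') * n ^ 2) + 2 * E * ((1 + e') * m * O) * n -
        2 * μ * ((1 - e') * m * O * n) + μ ^ 2 * O = O * ((4 * e' + e' ^ 2) * μ ^ 2 +
          2 * E * (1 + e') * μ) := by
      rw [hμ]
      ring
    have h9 : (4 * e' + e' ^ 2) * μ ^ 2 + 2 * E * (1 + e') * μ ≤ t ^ 2 / 4 * (l * n) ^ 2 := by
      obtain ⟨y, hy⟩ : ∃ y, y = l * n := ⟨_, rfl⟩
      have hy0 : 0 ≤ y := by rw [hy]; positivity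
      have hμy : μ ≤ 4 * y := by
        have g0 : 50 / 13 * l * n = 50 / 13 * y := by
          rw [hy]
          ring
        linarith
      rw [← hy] at hC1 ⊢
      have g1 : μ ^ 2 ≤ 16 * y ^ 2 := by
        refine (pow_le_pow_left₀ hμ0 hμy 2).trans (le_of_eq ?_)
        ring
      have g2 : 4 * e' + e' ^ 2 ≤ 5 * e' := by nlinarith
      have g3 : (4 * e' + e' ^ 2) * μ ^ 2 ≤ 5 * e' * (16 * y ^ 2) :=
        mul_le_mul g2 g1 (by positivity) (by positivity)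
      have g4 : 5 * e' * (16 * y ^ 2) = 80 / 1000 * (t ^ 2 * y ^ 2) := by
        rw [he']
        ring
      have g5 : 6400 * E ≤ y * t ^ 2 := by
        rw [div_le_iff₀ (by positivity)] at hC1
        exact hC1
      have g6 : 2 * E * (1 + e') * μ ≤ 2 * E * (1 + 1 / 1000) * (4 * y) :=
        mul_le_mul (mul_le_mul_of_nonneg_left (by linarith) (by positivity)) hμy hμ0 (by positivity)
      have g7 : 6400 * E * y ≤ y * t ^ 2 * y := mul_le_mul_of_nonneg_right g5 hy0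
      have g8 : y * t ^ 2 * y = t ^ 2 * y ^ 2 := by ring
      have g9 : 0 ≤ t ^ 2 * y ^ 2 := by positivity
      have g10 : 2 * E * (1 + 1 / 1000) * (4 * y) = 8008 / 1000 * (E * y) := by ring
      have g11 : 6400 * E * y = 6400 * (E * y) := by ring
      have g12 : t ^ 2 / 4 * y ^ 2 = 1 / 4 * (t ^ 2 * y ^ 2) := by ring
      rw [g12]
      linarith
    have h10 : O * ((4 * e' + e' ^ 2) * μ ^ 2 + 2 * E * (1 + e') * μ) ≤
        O * (t ^ 2 / 4 * (l * n) ^ 2) := mul_le_mul_of_nonneg_left h9 hO0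
    linarith
  have hcs : ∑ N ∈ Om x Q, |Y N| ≤ t / 2 * (l * n) * O := by
    have h1 := sq_sum_le_card_mul_sum_sq (s := Om x Q) (f := fun N => |Y N|)
    have h2 : ∑ N ∈ Om x Q, |Y N| ^ 2 = ∑ N ∈ Om x Q, Y N ^ 2 :=
      sum_congr rfl fun N _ => sq_abs _
    rw [h2, ← hO] at h1
    have h3 : O * ∑ N ∈ Om x Q, Y N ^ 2 ≤ (t / 2 * (l * n) * O) ^ 2 := by
      have h4 := mul_le_mul_of_nonneg_left hsec hO0
      refine h4.trans (le_of_eq ?_)
      ring
    have h4 : 0 ≤ t / 2 * (l * n) * O := by positivity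
    exact le_of_sq_le_sq (h1.trans h3) h4
  -- pointwise
  have hpt : ∀ N ∈ Om x Q, max (((U.filter fun u => (N + u).Prime).card : ℝ) - 50 / 13 * l * n) 0 ≤
      |Y N| + if (N : ℝ) ≤ Real.sqrt x then n else 0 := by
    intro N _
    split_ifs with h
    · have h1 : (((U.filter fun u => (N + u).Prime).card : ℝ)) ≤ n := by
        rw [hn]
        exact_mod_cast card_filter_le _ _
      have h2 := abs_nonneg (Y N)
      have h3 : 0 ≤ 50 / 13 * l * n := by positivity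
      exact max_le (by linarith) (by linarith)
    · rw [add_zero]
      apply max_le _ (abs_nonneg _)
      have h1 : (((U.filter fun u => (N + u).Prime).card : ℝ)) ≤ ∑ u ∈ U, g u N := by
        rw [card_filter]
        push_cast
        refine sum_le_sum fun u _ => ?_
        split_ifs with h2
        · rw [hg]
          exact gG_prime x a _ J Q W hW hx1' (by linarith) u N (not_le.1 h) h2
        · exact hg0 u N
      refine le_trans ?_ (le_abs_self _)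
      rw [hY]
      show _ ≤ ∑ u ∈ U, g u N - μ
      linarith
  refine (sum_le_sum hpt).trans ?_
  rw [sum_add_distrib]
  have hsmall : ∑ N ∈ Om x Q, (if (N : ℝ) ≤ Real.sqrt x then n else 0) ≤ Real.sqrt x * n := by
    rw [← sum_filter, sum_const, nsmul_eq_mul]
    apply mul_le_mul_of_nonneg_right _ hn0
    have h1 : (Om x Q).filter (fun N : ℕ => (N : ℝ) ≤ Real.sqrt x) ⊆ Icc 1 ⌊Real.sqrt x⌋₊ := by
      intro N hN
      unfold Om at hN
      rw [mem_filter, mem_filter, mem_Icc] at hN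
      rw [mem_Icc]
      exact ⟨hN.1.1.1, Nat.le_floor hN.2⟩
    have h2 := card_le_card h1
    rw [Nat.card_Icc, Nat.add_sub_cancel] at h2
    have h3 : ((((Om x Q).filter (fun N : ℕ => (N : ℝ) ≤ Real.sqrt x)).card : ℕ) : ℝ) ≤
        ⌊Real.sqrt x⌋₊ := by exact_mod_cast h2
    exact h3.trans (Nat.floor_le (Real.sqrt_nonneg x))
  have hfin : Real.sqrt x * n ≤ t / 2 * (l * n) * O := by
    have h1 : Real.sqrt x ≤ t / 2 * l * O := by
      have h2 : Real.sqrt x * (2 / t) * Real.log x ≤ O := has1.trans om1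
      have h3 : (1 / Real.log x) * (Real.sqrt x * (2 / t) * Real.log x) ≤ l * O :=
        mul_le_mul hlow h2 (by positivity) hl0.le
      have h4 : (1 / Real.log x) * (Real.sqrt x * (2 / t) * Real.log x) = Real.sqrt x * (2 / t) := by
        field_simp
      rw [h4] at h3
      have h5 := mul_le_mul_of_nonneg_left h3 (by positivity : (0 : ℝ) ≤ t / 2)
      have h6 : t / 2 * (Real.sqrt x * (2 / t)) = Real.sqrt x := by field_simp
      rw [h6] at h5
      linarith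
    have h2 := mul_le_mul_of_nonneg_right h1 hn0
    refine h2.trans (le_of_eq ?_)
    ring
  have htl : t * l * n * O ≤ ta * l * n * O :=
    mul_le_mul_of_nonneg_right (mul_le_mul_of_nonneg_right (mul_le_mul_of_nonneg_right htta hl0.le) hn0)
      hO0
  have h1 : t / 2 * (l * n) * O + t / 2 * (l * n) * O = t * l * n * O := by ring
  linarith

end Pool.Agent.H99.RO
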