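import Pool.Agent.H99.RO.DfN

/-!
[H99 RO CRT]  Counting residue classes.

`cls_card`: the `r < Q ∏ S` with `Q ∣ r` for which every `p ∈ S` divides some `r + y i` are `∏_{p ∈ S} nu p y` in number.
Proof.  Induction on `S` (`Finset.induction_on`), or the Chinese remainder theorem.  Step from `S` to `insert p S`, `q = Q ∏ S` coprime to `p`: the map
`r ↦ (r % q, r % p)` is a bijection from `range (p q)` to `range q × range p` (`Nat.chineseRemainder`); `Q ∣ r ↔ Q ∣ r % q`, `p' ∣ r + y i ↔ p' ∣ r % q + y i` for `p' ∈ S`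
(as `p' ∣ q`), and `∃ i, p ∣ r + y i ↔ r % p ∈ T`, where `T` is the set of the `s < p` with `∃ i, p ∣ s + y i`, and `|T| = nu p y` (bijection
`s ↦ (p - s) % p` onto the set of the `y i % p`).
`nu_le`: `nu p y ≤ |I|`; `nu_le'`: `nu p y ≤ p`; `nu_pos`: `1 ≤ nu` if `I` is nonempty.
`nu_eq`: if `nu p y < |I|` then two of the `y i` are congruent modulo `p`, i.e. `p ∣ dist (y i) (y j)` for some `i ≠ j` (not injective on the classes).
-/

namespace Pool.Agent.H99.RO

open Finset

open Classical in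
private theorem card_mul_aux {q p : ℕ} (hp : 0 < p) (hq : 0 < q) (hc : Nat.Coprime q p)
    (A B : ℕ → Prop) (hA : ∀ r, A (r % q) ↔ A r) (hB : ∀ r, B (r % p) ↔ B r) :
    ((range (q * p)).filter fun r => A r ∧ B r).card =
      ((range q).filter A).card * ((range p).filter B).card := by
  rw [← card_product]
  refine Finset.card_bij (fun r _ => (r % q, r % p)) ?_ ?_ ?_
  · intro r hr
    rw [mem_filter] at hr
    rw [mem_product, mem_filter, mem_filter, mem_range, mem_range]
    exact ⟨⟨Nat.mod_lt _ hq, (hA r).2 hr.2.1⟩, ⟨Nat.mod_lt _ hp, (hB r).2 hr.2.2⟩⟩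
  · intro r hr r' hr' h
    rw [mem_filter, mem_range] at hr hr'
    rw [Prod.mk.injEq] at h
    have h1 : r ≡ r' [MOD q * p] := (Nat.modEq_and_modEq_iff_modEq_mul hc).1 ⟨h.1, h.2⟩
    have h2 : r % (q * p) = r' % (q * p) := h1
    rwa [Nat.mod_eq_of_lt hr.1, Nat.mod_eq_of_lt hr'.1] at h2
  · rintro ⟨a, b⟩ hab
    rw [mem_product, mem_filter, mem_filter, mem_range, mem_range] at hab
    obtain ⟨⟨ha, hAa⟩, hb, hBb⟩ := hab
    simp only at ha hAa hb hBb
    have h1 := (Nat.chineseRemainder hc a b).2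
    have h2 : (Nat.chineseRemainder hc a b : ℕ) % q = a := by
      have h3 : (Nat.chineseRemainder hc a b : ℕ) % q = a % q := h1.1
      rwa [Nat.mod_eq_of_lt ha] at h3
    have h4 : (Nat.chineseRemainder hc a b : ℕ) % p = b := by
      have h3 : (Nat.chineseRemainder hc a b : ℕ) % p = b % p := h1.2
      rwa [Nat.mod_eq_of_lt hb] at h3
    refine ⟨Nat.chineseRemainder hc a b, ?_, ?_⟩
    · rw [mem_filter, mem_range]
      refine ⟨Nat.chineseRemainder_lt_mul hc a b hq.ne' hp.ne', ?_, ?_⟩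
      · rw [← hA, h2]
        exact hAa
      · rw [← hB, h4]
        exact hBb
    · rw [h2, h4]

open Classical in
private theorem card_cls_aux {p : ℕ} (hp : 0 < p) {I : Type} [Fintype I] (y : I → ℕ) :
    ((range p).filter fun r => ∃ i, p ∣ r + y i).card = nu p y := by
  unfold nu
  have h0 : ∀ c, c < p → (p - (p - c) % p) % p = c := by
    intro c hc
    rcases Nat.eq_zero_or_pos c with h | h
    · subst h
      simp
    · rw [Nat.mod_eq_of_lt (show p - c < p by omega), show p - (p - c) = c by omega,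
        Nat.mod_eq_of_lt hc]
  have h1 : ((range p).filter fun r => ∃ i, p ∣ r + y i) =
      (univ.image fun i => y i % p).image (fun c => (p - c) % p) := by
    ext r
    rw [mem_filter, mem_range, mem_image]
    constructor
    · rintro ⟨hr, i, hi⟩
      refine ⟨y i % p, mem_image_of_mem _ (mem_univ i), ?_⟩
      have h2 : (r + y i % p) % p = 0 := by
        rw [Nat.add_mod, Nat.mod_mod, ← Nat.add_mod]
        exact Nat.mod_eq_zero_of_dvd hi
      have h3 := Nat.mod_lt (y i) hp
      obtain ⟨d, hd⟩ := Nat.dvd_of_mod_eq_zero h2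
      have h4 : d = 0 ∨ d = 1 := by
        have h5 : p * d < p * 2 := by omega
        have := Nat.lt_of_mul_lt_mul_left h5
        omega
      rcases h4 with h4 | h4
      · subst h4
        have h6 : r = 0 := by omega
        have h7 : y i % p = 0 := by omega
        rw [h7, h6]
        simp
      · subst h4
        rw [show p - y i % p = r by omega, Nat.mod_eq_of_lt hr]
    · rintro ⟨c, hc, rfl⟩
      obtain ⟨i, _, rfl⟩ := mem_image.1 hc
      refine ⟨Nat.mod_lt _ hp, i, ?_⟩
      apply Nat.dvd_of_mod_eq_zero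
      have h3 := Nat.mod_lt (y i) hp
      rw [Nat.add_mod, Nat.mod_mod, ← Nat.mod_mod (y i) p, ← Nat.add_mod, Nat.mod_mod]
      rw [Nat.sub_add_cancel h3.le, Nat.mod_self]
  rw [h1, card_image_of_injOn]
  intro a ha b hb hab
  obtain ⟨i, _, rfl⟩ := mem_image.1 ha
  obtain ⟨j, _, rfl⟩ := mem_image.1 hb
  simp only at hab
  rw [← h0 _ (Nat.mod_lt (y i) hp), ← h0 _ (Nat.mod_lt (y j) hp), hab]

open Classical in
theorem cls_card (Q : ℕ) (hQ : 0 < Q) (S : Finset ℕ) (hS : ∀ p ∈ S, p.Prime ∧ ¬ p ∣ Q)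
    {I : Type} [Fintype I] (y : I → ℕ) :
    ((range (Q * ∏ p ∈ S, p)).filter fun r => Q ∣ r ∧ ∀ p ∈ S, ∃ i, p ∣ r + y i).card =
      ∏ p ∈ S, nu p y := by
  induction S using Finset.induction_on with
  | empty =>
    rw [prod_empty, prod_empty, mul_one]
    have h1 : ((range Q).filter fun r => Q ∣ r ∧ ∀ p ∈ (∅ : Finset ℕ), ∃ i, p ∣ r + y i) = {0} := by
      ext r
      rw [mem_filter, mem_range, mem_singleton]
      constructor
      · rintro ⟨h1, h2, _⟩
        exact Nat.eq_zero_of_dvd_of_lt h2 h1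
      · rintro rfl
        exact ⟨hQ, dvd_zero _, fun p hp => absurd hp (notMem_empty p)⟩
    rw [h1, card_singleton]
  | insert p S hpS ih =>
    have hS' : ∀ p ∈ S, p.Prime ∧ ¬ p ∣ Q := fun q hq => hS q (mem_insert_of_mem hq)
    have hp := hS p (mem_insert_self p S)
    have hq : 0 < Q * ∏ p ∈ S, p := Nat.mul_pos hQ (prod_pos fun q hq => (hS' q hq).1.pos)
    have hco : Nat.Coprime (Q * ∏ p ∈ S, p) p := by
      refine Nat.Coprime.mul_left ?_ ?_
      · exact ((Nat.Prime.coprime_iff_not_dvd hp.1).2 hp.2).symm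
      · refine Nat.Coprime.prod_left fun q hq => ?_
        refine (Nat.coprime_primes (hS' q hq).1 hp.1).2 ?_
        rintro rfl
        exact hpS hq
    rw [prod_insert hpS, prod_insert hpS, ← ih hS', mul_comm (nu p y), ← card_cls_aux hp.1.pos,
      mul_comm p, ← mul_assoc]
    have key := card_mul_aux hp.1.pos hq hco (fun r => Q ∣ r ∧ ∀ p ∈ S, ∃ i, p ∣ r + y i)
      (fun r => ∃ i, p ∣ r + y i) (by
        intro r
        have h1 : Q ∣ r % (Q * ∏ p ∈ S, p) ↔ Q ∣ r :=
          (Nat.dvd_mod_iff (Dvd.intro _ rfl))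
        have h2 : ∀ p' ∈ S, ∀ i, p' ∣ r % (Q * ∏ p ∈ S, p) + y i ↔ p' ∣ r + y i := by
          intro p' hp' i
          have h3 : p' ∣ Q * ∏ p ∈ S, p := (dvd_prod_of_mem _ hp').mul_left _
          have h4 : r % (Q * ∏ p ∈ S, p) ≡ r [MOD p'] := (Nat.mod_modEq _ _).of_dvd h3
          exact (h4.add_right (y i)).dvd_iff dvd_rfl
        constructor
        · rintro ⟨h3, h4⟩
          refine ⟨h1.1 h3, fun p' hp' => ?_⟩
          obtain ⟨i, hi⟩ := h4 p' hp'
          exact ⟨i, (h2 p' hp' i).1 hi⟩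
        · rintro ⟨h3, h4⟩
          refine ⟨h1.2 h3, fun p' hp' => ?_⟩
          obtain ⟨i, hi⟩ := h4 p' hp'
          exact ⟨i, (h2 p' hp' i).2 hi⟩) (by
        intro r
        have h2 : ∀ i, p ∣ r % p + y i ↔ p ∣ r + y i := by
          intro i
          have h4 : r % p ≡ r [MOD p] := Nat.mod_modEq _ _
          exact (h4.add_right (y i)).dvd_iff dvd_rfl
        constructor
        · rintro ⟨i, hi⟩
          exact ⟨i, (h2 i).1 hi⟩
        · rintro ⟨i, hi⟩
          exact ⟨i, (h2 i).2 hi⟩)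
    refine Eq.trans ?_ (key.trans ?_)
    · congr 1
      ext r
      simp only [mem_filter, forall_mem_insert]
      tauto
    · congr!

theorem nu_le {I : Type} [Fintype I] (p : ℕ) (y : I → ℕ) : nu p y ≤ Fintype.card I := by
  classical
  unfold nu
  exact card_image_le

theorem nu_le' {I : Type} [Fintype I] (p : ℕ) (hp : 0 < p) (y : I → ℕ) : nu p y ≤ p := by
  classical
  rw [← card_cls_aux hp y]
  exact (card_filter_le _ _).trans (card_range p).le

theorem nu_pos {I : Type} [Fintype I] [Nonempty I] (p : ℕ) (y : I → ℕ) : 1 ≤ nu p y := by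
  classical
  unfold nu
  exact card_pos.2 (univ_nonempty.image _)

theorem nu_eq {I : Type} [Fintype I] (p : ℕ) (y : I → ℕ) (h : nu p y < Fintype.card I) :
    ∃ i j, i ≠ j ∧ p ∣ Nat.dist (y i) (y j) := by
  classical
  unfold nu at h
  have h1 : ¬ Function.Injective fun i => y i % p := by
    intro hinj
    rw [card_image_of_injective _ hinj, card_univ] at h
    omega
  rw [Function.not_injective_iff] at h1
  obtain ⟨i, j, hij, hne⟩ := h1
  refine ⟨i, j, hne, ?_⟩
  rcases le_total (y i) (y j) with hle | hle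
  · rw [Nat.dist_eq_sub_of_le hle]
    exact (Nat.modEq_iff_dvd' hle).1 hij
  · rw [Nat.dist_eq_sub_of_le_right hle]
    exact (Nat.modEq_iff_dvd' hle).1 (Eq.symm hij)

end Pool.Agent.H99.RO
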