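import Mathlib

/-!
[H99 RO DF]  MP_8923e7_nt, project RightOrder (text: table proofs, id 373).  Definitions of the combinatorial part.
-/

namespace Pool.Agent.H99.RO

open Finset

/-- the mean of `f` on the box `U_1 × ⋯ × U_m` (zero if a side is empty) -/
noncomputable def den {V : Type} {m : ℕ} (f : (Fin m → V) → ℝ) (U : Fin m → Finset V) : ℝ :=
  (∑ x ∈ Fintype.piFinset U, f x) / ∏ j, ((U j).card : ℝ)

/-- `f` is `e`-regular on the box `U`: the sum of `f - den` over every smaller box is at most `e` times the
size of the box -/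
def Reg {V : Type} {m : ℕ} (e : ℝ) (f : (Fin m → V) → ℝ) (U : Fin m → Finset V) : Prop :=
  ∀ A : Fin m → Finset V, (∀ j, A j ⊆ U j) →
    |∑ x ∈ Fintype.piFinset A, (f x - den f U)| ≤ e * ∏ j, ((U j).card : ℝ)

open Classical in
/-- the cell with colour `t` -/
noncomputable def cell {V : Type} [Fintype V] {T : Type} (c : V → T) (t : T) : Finset V :=
  univ.filter fun v => c v = t

/-- the size of the box of cells with colours `t` -/
noncomputable def wt {V : Type} [Fintype V] {T : Type} {m : ℕ} (c : V → T) (t : Fin m → T) : ℝ :=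
  ∏ j, ((cell c (t j)).card : ℝ)

/-- the energy of `f` for the partition into cells -/
noncomputable def en {V : Type} [Fintype V] {T : Type} [Fintype T] {m : ℕ} (f : (Fin m → V) → ℝ)
    (c : V → T) : ℝ :=
  ∑ t : Fin m → T, wt c t * den f (fun j => cell c (t j)) ^ 2

end Pool.Agent.H99.RO
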