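import Pool.Agent.H92.MM.Def
import Pool.Agent.H11.RG.Pat

/-!
[H99 RO DFN]  MP_8923e7_nt, project RightOrder (text: table proofs, id 373).  Definitions of the number theory part.

`Q ≥ 1` is divisible by all primes `≤ w`; `N` runs over the multiples of `Q` up to `x`; the sites `v` are coprime to `Q`.
-/

namespace Pool.Agent.H99.RO

open Finset Pool.Agent.H89.P2 Pool.Agent.H11.PT Pool.Agent.H11.RG

/-- the primes `p < x^a` not dividing `Q` -/
noncomputable def PQ (x a : ℝ) (Q : ℕ) : Finset ℕ :=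
  (range ⌈x ^ a⌉₊).filter fun p => p.Prime ∧ ¬ p ∣ Q

/-- the density of the numbers without prime factors in `PQ` -/
noncomputable def VQ (x a : ℝ) (Q : ℕ) : ℝ := ∏ p ∈ PQ x a Q, (1 - 1 / (p : ℝ))

/-- the multiples of `Q` up to `x` -/
noncomputable def Om (x : ℝ) (Q : ℕ) : Finset ℕ := (Icc 1 ⌊x⌋₊).filter fun N => Q ∣ N

/-- the density of the primes in a class coprime to `Q` -/
noncomputable def lam (x : ℝ) (Q : ℕ) : ℝ := Q / ((Nat.totient Q : ℝ) * Real.log x)

/-- the singular factor of the difference `h`: product of `(1 - 1/p)^(-s)` over the primes `p ∣ h`, `p ∤ Q` -/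
noncomputable def Ph (Q s h : ℕ) : ℝ :=
  ∏ p ∈ h.primeFactors.filter (fun p => ¬ p ∣ Q), ((1 - 1 / (p : ℝ))⁻¹) ^ s

open Classical in
/-- the product of the singular factors over the ordered pairs of a tuple -/
noncomputable def PhI {I : Type} [Fintype I] (Q s : ℕ) (y : I → ℕ) : ℝ :=
  ∏ i, ∏ j, if i = j then 1 else Ph Q s (Nat.dist (y i) (y j))

open Classical in
/-- the number of the classes modulo `p` of the `y i` -/
noncomputable def nu {I : Type} [Fintype I] (p : ℕ) (y : I → ℕ) : ℕ :=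
  (univ.image fun i => y i % p).card

open Classical in
/-- the majorant of the primes: the weight at `N + h`, if `N + h` has no prime factor in `PQ` -/
noncomputable def gG (x a dl : ℝ) (Q : ℕ) (W : List (ℝ × List ℕ × List ℕ)) (h N : ℕ) : ℝ :=
  if ∀ p ∈ PQ x a Q, ¬ p ∣ N + h then ev2 W (kk x dl (N + h)) else 0

/-- the properties of the weights of `H89.P2.upper_final` -/
structure Wok (a e : ℝ) (J : ℕ) (W : List (ℝ × List ℕ × List ℕ)) : Prop where
  J_pos : 0 < J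
  ok : Okw (a / J) a W
  pos : ∀ w ∈ W, ∀ j ∈ w.2.1 ++ w.2.2, 0 < j
  nn : ∀ (x : ℝ) (n : ℕ), 0 ≤ ev2 W (kk x (a / J) n)
  maj : ∀ x : ℝ, 1 < x → ∀ n : ℕ, n.Prime → Real.sqrt x < n → 1 ≤ ev2 W (kk x (a / J) n)
  bd : ∃ x0 : ℝ, ∀ x ≥ x0, ∀ n : ℕ, 0 < n → (n : ℝ) ≤ x ^ (1 + 1 / 1000 : ℝ) →
    |ev2 W (kk x (a / J) n)| ≤ 2 * Real.exp (2 / a)
  lo : a ≤ mv2 W mu
  up : mv2 W mu ≤ (1 + e) * (6588 / 1000 * a)

end Pool.Agent.H99.RO
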