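import Pool.Agent.H99.RO.Df
import Pool.Agent.H25.DQ.Ce

/-!
[H99 RO EN]  The energy increment.

`wt c t = ∏ j |cell c (t j)|`.
* `sum_wt`: the boxes of cells partition `V^m`: `∑_t wt c t = |V|^m` (`Finset.prod_univ_sum` backwards, `∑_t |cell c t| = |V|`).
* `en_le`: `0 ≤ den ≤ 1`, so `en f c ≤ ∑_t wt c t = |V|^m`.
* `en_step`: `T' = T × ((Fin m → T) → Fin m → Bool)`, `c' v = (c v, fun t j => decide (v ∈ A t j))`, where for `t` not regular
  `A t` is a witness (`A t j ⊆ cell c (t j)`, `|∑_{piFinset (A t)} (f - den)| > e * wt c t`), and `A t = fun _ => ∅` otherwise.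
  For `t : Fin m → T` and `t' : Fin m → T'` over `t` (`(t' j).1 = t j` for all `j`) the boxes `t'` partition the box `t`.  With `δ t' = den t' - den t`:
  `∑_{x ∈ box t'} (f x - den t) = wt c' t' * δ t'` (both sides `0` if the box is empty), and `∑_{t'} wt c' t' * δ t' = 0`, so
  `∑_{t' over t} wt c' t' * (den t')^2 = wt c t * (den t)^2 + ∑_{t' over t} wt c' t' * (δ t')^2`.
  If `t` is not regular, `piFinset (A t)` is the union of the boxes `t'` over t with `(t' j).2 t j = true` for all `j`; Cauchy-Schwarz: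
  `(e wt c t)^2 < (∑_{t' in A} wt c' t' δ t')^2 ≤ wt c t * ∑_{t'} wt c' t' (δ t')^2`, so the gain at `t` is at least `e^2 wt c t` (also true when
  `wt c t = 0`).  Sum over `t`: `en f c' ≥ en f c + e^2 ∑_{t not regular} wt c t`.
-/

namespace Pool.Agent.H99.RO

open Finset

theorem mem_cell {V : Type} [Fintype V] {T : Type} (c : V → T) (t : T) (v : V) :
    v ∈ cell c t ↔ c v = t := by
  unfold cell; simp

theorem mem_box {V : Type} [Fintype V] {T : Type} {m : ℕ} (c : V → T) (t : Fin m → T)
    (x : Fin m → V) : x ∈ Fintype.piFinset (fun j => cell c (t j)) ↔ (fun j => c (x j)) = t := by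
  rw [Fintype.mem_piFinset]
  simp only [mem_cell]
  exact funext_iff.symm

theorem card_box {V : Type} [Fintype V] {T : Type} {m : ℕ} (c : V → T) (t : Fin m → T) :
    ((Fintype.piFinset (fun j => cell c (t j))).card : ℝ) = wt c t := by
  rw [Fintype.card_piFinset]
  unfold wt
  push_cast
  rfl

theorem wt_nonneg {V : Type} [Fintype V] {T : Type} {m : ℕ} (c : V → T) (t : Fin m → T) :
    0 ≤ wt c t := Finset.prod_nonneg fun _ _ => Nat.cast_nonneg _

theorem sum_wt {V : Type} [Fintype V] {T : Type} [Fintype T] (m : ℕ) (c : V → T) :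
    ∑ t : Fin m → T, wt c t = (Fintype.card V : ℝ) ^ m := by
  classical
  have h1 : ∑ s : T, ((cell c s).card : ℝ) = Fintype.card V := by
    have h2 := Finset.card_eq_sum_card_fiberwise (f := c) (s := univ) (t := univ)
      (fun _ _ => Finset.mem_univ _)
    rw [Finset.card_univ] at h2
    rw [h2]
    push_cast
    refine Finset.sum_congr rfl fun s _ => ?_
    congr 2
  unfold wt
  rw [← h1, Fintype.sum_pow]

theorem den_mem {V : Type} {m : ℕ} (f : (Fin m → V) → ℝ) (hf : ∀ x, 0 ≤ f x ∧ f x ≤ 1)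
    (U : Fin m → Finset V) : 0 ≤ den f U ∧ den f U ≤ 1 := by
  unfold den
  have h1 : ∏ j, ((U j).card : ℝ) = ((Fintype.piFinset U).card : ℝ) := by
    rw [Fintype.card_piFinset]; push_cast; rfl
  rw [h1]
  constructor
  · exact div_nonneg (Finset.sum_nonneg fun x _ => (hf x).1) (Nat.cast_nonneg _)
  · refine div_le_one_of_le₀ ?_ (Nat.cast_nonneg _)
    calc _ ≤ ∑ x ∈ Fintype.piFinset U, (1 : ℝ) := Finset.sum_le_sum fun x _ => (hf x).2
      _ = _ := by simp

theorem en_le {V : Type} [Fintype V] {T : Type} [Fintype T] {m : ℕ} (f : (Fin m → V) → ℝ)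
    (hf : ∀ x, 0 ≤ f x ∧ f x ≤ 1) (c : V → T) : en f c ≤ (Fintype.card V : ℝ) ^ m := by
  rw [← sum_wt m c]
  unfold en
  refine Finset.sum_le_sum fun t _ => ?_
  have h1 := den_mem f hf (fun j => cell c (t j))
  have h2 := wt_nonneg c t
  have h3 : den f (fun j => cell c (t j)) ^ 2 ≤ 1 := by nlinarith [h1.1, h1.2]
  calc _ ≤ wt c t * 1 := mul_le_mul_of_nonneg_left h3 h2
    _ = _ := mul_one _

theorem en_nonneg {V : Type} [Fintype V] {T : Type} [Fintype T] {m : ℕ} (f : (Fin m → V) → ℝ)
    (c : V → T) : 0 ≤ en f c :=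
  Finset.sum_nonneg fun t _ => mul_nonneg (wt_nonneg c t) (sq_nonneg _)

open Classical in
theorem ce_eq {V : Type} [Fintype V] {T : Type} {m : ℕ} (f : (Fin m → V) → ℝ)
    (c : V → T) (x : Fin m → V) :
    H25.DQ.ce (fun (x : Fin m → V) (j : Fin m) => c (x j)) f x = den f (fun j => cell c (c (x j))) := by
  unfold H25.DQ.ce den
  have h1 : H25.DQ.fib (fun (x : Fin m → V) (j : Fin m) => c (x j)) x =
      Fintype.piFinset (fun j => cell c (c (x j))) := by
    ext y
    rw [H25.DQ.mem_fib, mem_box]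
  rw [h1, Fintype.card_piFinset]
  push_cast
  rfl

open Classical in
theorem en_eq {V : Type} [Fintype V] {T : Type} [Fintype T] {m : ℕ} (f : (Fin m → V) → ℝ)
    (c : V → T) : en f c = H25.DQ.en (fun (x : Fin m → V) (j : Fin m) => c (x j)) f := by
  unfold H25.DQ.en en
  simp only [ce_eq]
  rw [← Finset.sum_fiberwise (univ : Finset (Fin m → V)) (fun x j => c (x j))]
  refine Finset.sum_congr rfl fun t _ => ?_
  have h1 : (univ.filter fun x : Fin m → V => (fun j => c (x j)) = t) =
      Fintype.piFinset (fun j => cell c (t j)) := by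
    ext x
    rw [mem_box]
    simp
  rw [h1]
  have h2 : ∀ x ∈ Fintype.piFinset (fun j => cell c (t j)),
      den f (fun j => cell c (c (x j))) ^ 2 = den f (fun j => cell c (t j)) ^ 2 := by
    intro x hx
    rw [mem_box] at hx
    subst hx
    rfl
  rw [Finset.sum_congr rfl h2, Finset.sum_const, nsmul_eq_mul, card_box]

private theorem en_eq_gen {V : Type} [Fintype V] {T : Type} [Fintype T] {m : ℕ}
    [i1 : DecidableEq (Fin m → T)] (f : (Fin m → V) → ℝ)
    (c : V → T) : en f c = H25.DQ.en (fun (x : Fin m → V) (j : Fin m) => c (x j)) f := by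
  rw [en_eq f c]
  exact congrArg (fun i : DecidableEq (Fin m → T) =>
    @H25.DQ.en (Fin m → V) (Fin m → T) _ i (fun (x : Fin m → V) (j : Fin m) => c (x j)) f)
    (Subsingleton.elim _ _)

open Classical in
theorem en_step {V : Type} [Fintype V] {T : Type} [Fintype T] {m : ℕ} (e : ℝ) (he : 0 < e)
    (f : (Fin m → V) → ℝ) (c : V → T) :
    ∃ c' : V → T × ((Fin m → T) → Fin m → Bool), (∀ v, (c' v).1 = c v) ∧
      en f c + e ^ 2 * ∑ t ∈ univ.filter (fun t : Fin m → T => ¬ Reg e f (fun j => cell c (t j))),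
        wt c t ≤ en f c' := by
  have hA : ∀ t : Fin m → T, ∃ A : Fin m → Finset V, (∀ j, A j ⊆ cell c (t j)) ∧
      (¬ Reg e f (fun j => cell c (t j)) →
        e * wt c t < |∑ x ∈ Fintype.piFinset A, (f x - den f (fun j => cell c (t j)))|) := by
    intro t
    by_cases h : Reg e f (fun j => cell c (t j))
    · exact ⟨fun _ => ∅, fun j => Finset.empty_subset _, fun h2 => absurd h h2⟩
    · have h3 := h
      unfold Reg at h3
      push Not at h3
      obtain ⟨A, hA, hA2⟩ := h3
      exact ⟨A, hA, fun _ => hA2⟩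
  choose A hA1 hA2 using hA
  set c' : V → T × ((Fin m → T) → Fin m → Bool) := fun v => (c v, fun t j => decide (v ∈ A t j)) with hc'
  refine ⟨c', fun v => rfl, ?_⟩
  set Φ : (Fin m → V) → (Fin m → T) := fun x j => c (x j) with hΦ
  set Ψ : (Fin m → V) → (Fin m → T × ((Fin m → T) → Fin m → Bool)) := fun x j => c' (x j) with hΨ
  have hr : ∀ x y, Ψ x = Ψ y → Φ x = Φ y := by
    intro x y hxy
    funext j
    exact congrArg Prod.fst (congrFun hxy j)
  have hdiff := H25.DQ.en_diff Φ Ψ f hr
  have e1 : en f c = H25.DQ.en Φ f := en_eq_gen f c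
  have e2 : en f c' = H25.DQ.en Ψ f := en_eq_gen f c'
  rw [e1, e2]
  have key : ∀ t ∈ univ.filter (fun t : Fin m → T => ¬ Reg e f (fun j => cell c (t j))),
      e ^ 2 * wt c t ≤ ∑ x ∈ univ.filter (fun x : Fin m → V => Φ x = t),
        (H25.DQ.ce Ψ f x - H25.DQ.ce Φ f x) ^ 2 := by
    intro t ht
    have ht2 : ¬ Reg e f (fun j => cell c (t j)) := (Finset.mem_filter.1 ht).2
    have h1 := hA2 t ht2
    set D := ∑ x ∈ univ.filter (fun x : Fin m → V => Φ x = t),
        (H25.DQ.ce Ψ f x - H25.DQ.ce Φ f x) ^ 2 with hD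
    have hD0 : 0 ≤ D := Finset.sum_nonneg fun _ _ => sq_nonneg _
    have hw := wt_nonneg c t
    set g : (Fin m → V) → ℝ := fun x => if x ∈ Fintype.piFinset (A t) then 1 else 0 with hg
    have hgm : ∀ x y, Ψ x = Ψ y → g x = g y := by
      intro x y hxy
      have h2 : x ∈ Fintype.piFinset (A t) ↔ y ∈ Fintype.piFinset (A t) := by
        rw [Fintype.mem_piFinset, Fintype.mem_piFinset]
        refine forall_congr' fun j => ?_
        have h3 : (fun t j' => decide (x j ∈ A t j')) = (fun t j' => decide (y j ∈ A t j')) :=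
          congrArg Prod.snd (congrFun hxy j)
        have h4 := congrFun (congrFun h3 t) j
        simpa using h4
      simp only [hg, h2]
    have hbox : (univ.filter fun x : Fin m → V => Φ x = t) =
        Fintype.piFinset (fun j => cell c (t j)) := by
      ext x
      rw [mem_box]
      simp [hΦ]
    have h5 : ∑ x ∈ Fintype.piFinset (A t), (f x - den f (fun j => cell c (t j))) =
        ∑ x ∈ univ.filter (fun x : Fin m → V => Φ x = t),
          (H25.DQ.ce Ψ f x - H25.DQ.ce Φ f x) * g x := by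
      have h6 : ∑ x, H25.DQ.ce Ψ f x * g x = ∑ x, f x * g x := H25.DQ.ce_mul Ψ f g hgm
      have h7 : ∑ x, (H25.DQ.ce Ψ f x - H25.DQ.ce Φ f x) * g x =
          ∑ x, (f x - H25.DQ.ce Φ f x) * g x := by
        simp only [sub_mul, Finset.sum_sub_distrib, h6]
      have hgz : ∀ x, Φ x ≠ t → g x = 0 := by
        intro x hx
        rw [hg]
        dsimp only
        rw [if_neg]
        intro h8
        refine hx ?_
        have h9 : x ∈ Fintype.piFinset (fun j => cell c (t j)) := by
          rw [Fintype.mem_piFinset] at h8 ⊢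
          exact fun j => hA1 t j (h8 j)
        rw [mem_box] at h9
        exact h9
      have h10 : ∀ F : (Fin m → V) → ℝ, ∑ x ∈ univ.filter (fun x : Fin m → V => Φ x = t), F x * g x =
          ∑ x, F x * g x := by
        intro F
        rw [Finset.sum_filter]
        refine Finset.sum_congr rfl fun x _ => ?_
        split_ifs with h11
        · rfl
        · rw [hgz x h11, mul_zero]
      rw [h10, h7, ← h10]
      have h12 : ∀ x ∈ univ.filter (fun x : Fin m → V => Φ x = t),
          (f x - H25.DQ.ce Φ f x) * g x =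
            if x ∈ Fintype.piFinset (A t) then (f x - den f (fun j => cell c (t j))) else 0 := by
        intro x hx
        have h13 : Φ x = t := (Finset.mem_filter.1 hx).2
        have h14 : H25.DQ.ce Φ f x = den f (fun j => cell c (t j)) := by
          rw [hΦ, ce_eq f c x, ← h13]
        rw [h14, hg]
        dsimp only
        split_ifs <;> simp
      rw [Finset.sum_congr rfl h12, ← Finset.sum_filter, hbox]
      refine Finset.sum_congr ?_ fun _ _ => rfl
      ext x
      rw [Finset.mem_filter]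
      constructor
      · intro hx
        refine ⟨?_, hx⟩
        rw [Fintype.mem_piFinset] at hx ⊢
        exact fun j => hA1 t j (hx j)
      · exact fun hx => hx.2
    rw [h5] at h1
    have h15 := Finset.sum_mul_sq_le_sq_mul_sq (univ.filter (fun x : Fin m → V => Φ x = t))
      (fun x => H25.DQ.ce Ψ f x - H25.DQ.ce Φ f x) g
    have h16 : ∑ x ∈ univ.filter (fun x : Fin m → V => Φ x = t), g x ^ 2 ≤ wt c t := by
      calc _ ≤ ∑ x ∈ univ.filter (fun x : Fin m → V => Φ x = t), (1 : ℝ) := by
            refine Finset.sum_le_sum fun x _ => ?_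
            rw [hg]
            dsimp only
            split_ifs <;> norm_num
        _ = wt c t := by
            rw [Finset.sum_const, nsmul_eq_mul, mul_one, hbox, card_box]
    have h17 : (e * wt c t) ^ 2 ≤ D * wt c t := by
      calc (e * wt c t) ^ 2 ≤ |∑ x ∈ univ.filter (fun x : Fin m → V => Φ x = t),
          (H25.DQ.ce Ψ f x - H25.DQ.ce Φ f x) * g x| ^ 2 :=
            pow_le_pow_left₀ (mul_nonneg he.le hw) h1.le 2
        _ = (∑ x ∈ univ.filter (fun x : Fin m → V => Φ x = t),
          (H25.DQ.ce Ψ f x - H25.DQ.ce Φ f x) * g x) ^ 2 := sq_abs _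
        _ ≤ _ := h15
        _ ≤ _ := mul_le_mul_of_nonneg_left h16 hD0
    rcases hw.eq_or_lt with h18 | h18
    · rw [← h18]; simpa using hD0
    · have h19 : (e ^ 2 * wt c t) * wt c t ≤ D * wt c t := by nlinarith [h17]
      exact le_of_mul_le_mul_right h19 h18
  rw [Finset.mul_sum]
  have h20 : ∑ t ∈ univ.filter (fun t : Fin m → T => ¬ Reg e f (fun j => cell c (t j))), e ^ 2 * wt c t ≤
      ∑ x, (H25.DQ.ce Ψ f x - H25.DQ.ce Φ f x) ^ 2 := by
    rw [← Finset.sum_fiberwise (univ : Finset (Fin m → V)) Φ]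
    refine (Finset.sum_le_sum key).trans ?_
    exact Finset.sum_le_sum_of_subset_of_nonneg (Finset.filter_subset _ _)
      (fun _ _ _ => Finset.sum_nonneg fun _ _ => sq_nonneg _)
  rw [hdiff] at h20
  linarith

end Pool.Agent.H99.RO
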