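import Pool.Agent.H99.RO.Crt
import Pool.Agent.H95.FL.Main

/-!
[H99 RO FLS]  Application of the fundamental lemma to a nonnegative weight `G` which is well distributed in residue classes.

`K = |I|`, `Pi = ∏_{p ∈ P} p`; `val fu D`, `mean`, `vv`, `Sand` from `Pool/Agent/H95/FL` (`Def.lean`, `Ex.lean`).
Proof.  For `N` let `D N = {p ∈ P : p ∣ N + y i for some i}`.  `val fu D ≥ [D = ∅]` (`val_u`, and `val fu ∅ = fu ∅ = 1`), `val fl D ≤ [D = ∅]` (`val_l`).  So, for the sum over the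
`N ≤ X`, `Q ∣ N`, with `D N = ∅` of `G N ≥ 0`:  `∑ G N ≤ ∑_{N ≤ X, Q ∣ N} G N ∑_{S ⊆ D N} fu S = ∑_{S ⊆ P} fu S ∑_{N : Q ∣ N, S ⊆ D N} G N`.  For `S` with `fu S ≠ 0` (level `∏ S ≤ Y`) the inner sum runs
over `∏_{p ∈ S} nu p y` classes `r` modulo `Q ∏ S` (`cls_card`; the condition `Q ∣ N ∧ ∀ p ∈ S, ∃ i, p ∣ N + y i` depends only on `N % (Q ∏ S)`), each of which
contributes `M/∏ S` up to `E1/∏ S + E2`.  `nu p y ≤ K`.  So the sum is at most `M mean g P fu + ∑_S |fu S| K^|S| (E1/∏ S + E2)`, `g p = nu p y/p`, and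
`∑_S |fu S| K^|S|/∏ S ≤ ∑_{S ⊆ P} ∏_{p ∈ S} (K/p) = ∏_{p ∈ P} (1 + K/p)` (`|fu| ≤ 1`; `Finset.prod_one_add`/`Finset.prod_add_one`), `∑_S |fu S| K^|S| ≤ Y` (`mass_u`).  `mean_u`, `M ≥ 0`.
The lower bound is the same with `fl`.
-/

namespace Pool.Agent.H99.RO

open Finset Pool.Agent.H95.FL

open Classical in
private theorem inner_bd (Q X : ℕ) (hQ : 0 < Q) (S : Finset ℕ) (hS : ∀ p ∈ S, p.Prime ∧ ¬ p ∣ Q)
    {I : Type} [Fintype I] (y : I → ℕ) (G : ℕ → ℝ) (M c : ℝ)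
    (hc : ∀ r : ℕ, r < Q * ∏ p ∈ S, p → Q ∣ r →
      |∑ N ∈ (Icc 1 X).filter (fun N => N % (Q * ∏ p ∈ S, p) = r), G N - M / ∏ p ∈ S, (p : ℝ)| ≤ c) :
    |∑ N ∈ (Icc 1 X).filter (fun N => Q ∣ N ∧ ∀ p ∈ S, ∃ i, p ∣ N + y i), G N -
        (∏ p ∈ S, (nu p y : ℝ)) * (M / ∏ p ∈ S, (p : ℝ))| ≤ (∏ p ∈ S, (nu p y : ℝ)) * c := by
  set q : ℕ := Q * ∏ p ∈ S, p with hq
  have hq0 : 0 < q := Nat.mul_pos hQ (prod_pos (fun p hp => (hS p hp).1.pos))
  set R : Finset ℕ := (range q).filter fun r => Q ∣ r ∧ ∀ p ∈ S, ∃ i, p ∣ r + y i with hR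
  have hcard : (R.card : ℝ) = ∏ p ∈ S, (nu p y : ℝ) := by
    have := cls_card Q hQ S hS y
    rw [hR, hq]
    rw [← Nat.cast_prod]
    exact_mod_cast this
  have hQd : ∀ N : ℕ, Q ∣ N % q ↔ Q ∣ N := fun N =>
    (Nat.dvd_mod_iff (Dvd.intro _ rfl))
  have hpd : ∀ N : ℕ, ∀ p ∈ S, ∀ i, p ∣ N % q + y i ↔ p ∣ N + y i := by
    intro N p hp i
    have hpq : p ∣ q := Dvd.dvd.mul_left (dvd_prod_of_mem _ hp) _
    have h1 : N + y i = N % q + y i + q * (N / q) := by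
      have := Nat.mod_add_div N q
      omega
    rw [h1]
    exact (Nat.dvd_add_left (Dvd.dvd.mul_right hpq _)).symm
  have hsplit : ∑ N ∈ (Icc 1 X).filter (fun N => Q ∣ N ∧ ∀ p ∈ S, ∃ i, p ∣ N + y i), G N =
      ∑ r ∈ R, ∑ N ∈ (Icc 1 X).filter (fun N => N % q = r), G N := by
    rw [← sum_fiberwise_of_maps_to (g := fun N => N % q) (t := R)]
    · refine sum_congr rfl (fun r hr => ?_)
      refine sum_congr ?_ (fun _ _ => rfl)
      rw [filter_filter]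
      refine filter_congr (fun N _ => ?_)
      constructor
      · exact fun h => h.2
      · intro h
        refine ⟨?_, h⟩
        rw [hR, mem_filter] at hr
        obtain ⟨_, h2, h3⟩ := hr
        rw [← h] at h2 h3
        refine ⟨(hQd N).1 h2, fun p hp => ?_⟩
        obtain ⟨i, hi⟩ := h3 p hp
        exact ⟨i, (hpd N p hp i).1 hi⟩
    · intro N hN
      rw [mem_filter] at hN
      rw [hR, mem_filter, mem_range]
      refine ⟨Nat.mod_lt _ hq0, (hQd N).2 hN.2.1, fun p hp => ?_⟩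
      obtain ⟨i, hi⟩ := hN.2.2 p hp
      exact ⟨i, (hpd N p hp i).2 hi⟩
  rw [hsplit, ← hcard]
  have h1 : ∑ r ∈ R, ∑ N ∈ (Icc 1 X).filter (fun N => N % q = r), G N -
      (R.card : ℝ) * (M / ∏ p ∈ S, (p : ℝ)) =
      ∑ r ∈ R, (∑ N ∈ (Icc 1 X).filter (fun N => N % q = r), G N - M / ∏ p ∈ S, (p : ℝ)) := by
    rw [sum_sub_distrib, sum_const, nsmul_eq_mul]
  rw [h1]
  calc |∑ r ∈ R, (∑ N ∈ (Icc 1 X).filter (fun N => N % q = r), G N - M / ∏ p ∈ S, (p : ℝ))|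
      ≤ ∑ r ∈ R, |∑ N ∈ (Icc 1 X).filter (fun N => N % q = r), G N - M / ∏ p ∈ S, (p : ℝ)| :=
        abs_sum_le_sum_abs _ _
    _ ≤ ∑ r ∈ R, c := by
        refine sum_le_sum (fun r hr => ?_)
        rw [hR, mem_filter, mem_range] at hr
        exact hc r hr.1 hr.2.1
    _ = (R.card : ℝ) * c := by rw [sum_const, nsmul_eq_mul]

open Classical in
private theorem main_bd (K : ℕ) (Q X : ℕ) (hQ : 0 < Q) (P : Finset ℕ) (hP : ∀ p ∈ P, p.Prime ∧ ¬ p ∣ Q)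
    {I : Type} [Fintype I] (hI : Fintype.card I = K) (y : I → ℕ) (G : ℕ → ℝ)
    (M E1 E2 Y : ℝ) (hE1 : 0 ≤ E1) (hE2 : 0 ≤ E2) (f : Finset ℕ → ℝ)
    (habs : ∀ S, |f S| ≤ 1) (hlev : ∀ S, f S ≠ 0 → ∏ p ∈ S, (p : ℝ) ≤ Y)
    (hmass : ∑ S ∈ P.powerset, |f S| * (K : ℝ) ^ S.card ≤ Y)
    (hc : ∀ S ⊆ P, ∏ p ∈ S, (p : ℝ) ≤ Y → ∀ r : ℕ, r < Q * ∏ p ∈ S, p → Q ∣ r →
      |∑ N ∈ (Icc 1 X).filter (fun N => N % (Q * ∏ p ∈ S, p) = r), G N - M / ∏ p ∈ S, (p : ℝ)| ≤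
        E1 / (∏ p ∈ S, (p : ℝ)) + E2) :
    |∑ N ∈ (Icc 1 X).filter (fun N => Q ∣ N),
        G N * val f (P.filter fun p => ∃ i, p ∣ N + y i) -
      M * mean (fun p => (nu p y : ℝ) / p) P f| ≤
      E1 * ∏ p ∈ P, (1 + (K : ℝ) / p) + E2 * Y := by
  have h1 : ∑ N ∈ (Icc 1 X).filter (fun N => Q ∣ N),
        G N * val f (P.filter fun p => ∃ i, p ∣ N + y i) =
      ∑ S ∈ P.powerset, f S *
        ∑ N ∈ (Icc 1 X).filter (fun N => Q ∣ N ∧ ∀ p ∈ S, ∃ i, p ∣ N + y i), G N := by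
    have h2 : ∀ N ∈ (Icc 1 X).filter (fun N => Q ∣ N),
        G N * val f (P.filter fun p => ∃ i, p ∣ N + y i) =
        ∑ S ∈ P.powerset, if (∀ p ∈ S, ∃ i, p ∣ N + y i) then f S * G N else 0 := by
      intro N _
      unfold Pool.Agent.H95.FL.val
      rw [← sum_filter, mul_sum]
      refine sum_congr ?_ (fun S _ => mul_comm _ _)
      ext S
      simp only [mem_powerset, mem_filter]
      constructor
      · intro h
        exact ⟨fun p hp => (mem_filter.1 (h hp)).1, fun p hp => (mem_filter.1 (h hp)).2⟩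
      · rintro ⟨h, h'⟩ p hp
        exact mem_filter.2 ⟨h hp, h' p hp⟩
    rw [sum_congr rfl h2, sum_comm]
    refine sum_congr rfl (fun S _ => ?_)
    rw [← sum_filter, filter_filter, mul_sum]
  rw [h1]
  unfold mean
  rw [mul_sum, ← sum_sub_distrib]
  calc |∑ S ∈ P.powerset, (f S *
        ∑ N ∈ (Icc 1 X).filter (fun N => Q ∣ N ∧ ∀ p ∈ S, ∃ i, p ∣ N + y i), G N -
        M * (f S * ∏ p ∈ S, ((nu p y : ℝ) / p)))|
      ≤ ∑ S ∈ P.powerset, |f S *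
        ∑ N ∈ (Icc 1 X).filter (fun N => Q ∣ N ∧ ∀ p ∈ S, ∃ i, p ∣ N + y i), G N -
        M * (f S * ∏ p ∈ S, ((nu p y : ℝ) / p))| := abs_sum_le_sum_abs _ _
    _ ≤ ∑ S ∈ P.powerset, (E1 * ∏ p ∈ S, ((K : ℝ) / p) + E2 * (|f S| * (K : ℝ) ^ S.card)) := by
        refine sum_le_sum (fun S hS => ?_)
        rw [mem_powerset] at hS
        by_cases hf : f S = 0
        · rw [hf]
          simp only [zero_mul, mul_zero, sub_zero, abs_zero, add_zero]
          exact mul_nonneg hE1 (prod_nonneg (fun p _ => by positivity))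
        · have hS' : ∀ p ∈ S, p.Prime ∧ ¬ p ∣ Q := fun p hp => hP p (hS hp)
          have hY := hlev S hf
          have h3 := inner_bd Q X hQ S hS' y G M _ (hc S hS hY)
          have hPS : 0 < ∏ p ∈ S, (p : ℝ) :=
            prod_pos (fun p hp => by exact_mod_cast (hS' p hp).1.pos)
          have hnu0 : 0 ≤ ∏ p ∈ S, (nu p y : ℝ) := prod_nonneg (fun p _ => by positivity)
          have hnu : ∏ p ∈ S, (nu p y : ℝ) ≤ (K : ℝ) ^ S.card := by
            rw [← prod_const]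
            refine prod_le_prod (fun p _ => by positivity) (fun p _ => ?_)
            rw [← hI]
            exact_mod_cast nu_le p y
          have h4 : f S * ∑ N ∈ (Icc 1 X).filter (fun N => Q ∣ N ∧ ∀ p ∈ S, ∃ i, p ∣ N + y i), G N -
              M * (f S * ∏ p ∈ S, ((nu p y : ℝ) / p)) =
              f S * (∑ N ∈ (Icc 1 X).filter (fun N => Q ∣ N ∧ ∀ p ∈ S, ∃ i, p ∣ N + y i), G N -
                (∏ p ∈ S, (nu p y : ℝ)) * (M / ∏ p ∈ S, (p : ℝ))) := by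
            rw [prod_div_distrib]
            ring
          have hcn : 0 ≤ E1 / (∏ p ∈ S, (p : ℝ)) + E2 := by positivity
          rw [h4, abs_mul]
          calc |f S| * |∑ N ∈ (Icc 1 X).filter (fun N => Q ∣ N ∧ ∀ p ∈ S, ∃ i, p ∣ N + y i), G N -
                (∏ p ∈ S, (nu p y : ℝ)) * (M / ∏ p ∈ S, (p : ℝ))|
              ≤ |f S| * ((K : ℝ) ^ S.card * (E1 / (∏ p ∈ S, (p : ℝ)) + E2)) := by
                refine mul_le_mul_of_nonneg_left (h3.trans ?_) (abs_nonneg _)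
                exact mul_le_mul_of_nonneg_right hnu hcn
            _ = |f S| * (E1 * ((K : ℝ) ^ S.card / ∏ p ∈ S, (p : ℝ))) +
                E2 * (|f S| * (K : ℝ) ^ S.card) := by ring
            _ ≤ 1 * (E1 * ((K : ℝ) ^ S.card / ∏ p ∈ S, (p : ℝ))) +
                E2 * (|f S| * (K : ℝ) ^ S.card) := by
                refine add_le_add ?_ le_rfl
                refine mul_le_mul_of_nonneg_right (habs S) ?_
                positivity
            _ = _ := by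
                rw [prod_div_distrib, prod_const]
                ring
    _ = E1 * ∏ p ∈ P, (1 + (K : ℝ) / p) + E2 * ∑ S ∈ P.powerset, (|f S| * (K : ℝ) ^ S.card) := by
        rw [sum_add_distrib, ← mul_sum, ← mul_sum, prod_one_add]
    _ ≤ _ := by
        refine add_le_add le_rfl (mul_le_mul_of_nonneg_left hmass hE2)

open Classical in
theorem fls (K : ℕ) (Q X : ℕ) (hQ : 0 < Q) (P : Finset ℕ) (hP : ∀ p ∈ P, p.Prime ∧ ¬ p ∣ Q)
    {I : Type} [Fintype I] (hI : Fintype.card I = K) (y : I → ℕ) (G : ℕ → ℝ) (hG : ∀ N, 0 ≤ G N)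
    (M E1 E2 Y d : ℝ) (hM : 0 ≤ M) (hE1 : 0 ≤ E1) (hE2 : 0 ≤ E2) (fl fu : Finset ℕ → ℝ)
    (hs : Sand K (fun p => (nu p y : ℝ) / p) P Y d fl fu)
    (hc : ∀ S ⊆ P, ∏ p ∈ S, (p : ℝ) ≤ Y → ∀ r : ℕ, r < Q * ∏ p ∈ S, p → Q ∣ r →
      |∑ N ∈ (Icc 1 X).filter (fun N => N % (Q * ∏ p ∈ S, p) = r), G N - M / ∏ p ∈ S, (p : ℝ)| ≤
        E1 / (∏ p ∈ S, (p : ℝ)) + E2) :
    ∑ N ∈ (Icc 1 X).filter (fun N => Q ∣ N ∧ ∀ p ∈ P, ∀ i, ¬ p ∣ N + y i), G N ≤
        (1 + d) * M * ∏ p ∈ P, (1 - (nu p y : ℝ) / p) +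
          (E1 * ∏ p ∈ P, (1 + (K : ℝ) / p) + E2 * Y) ∧
      (1 - d) * M * ∏ p ∈ P, (1 - (nu p y : ℝ) / p) -
          (E1 * ∏ p ∈ P, (1 + (K : ℝ) / p) + E2 * Y) ≤
        ∑ N ∈ (Icc 1 X).filter (fun N => Q ∣ N ∧ ∀ p ∈ P, ∀ i, ¬ p ∣ N + y i), G N := by
  have hD : ∀ N : ℕ, (∀ p ∈ P, ∀ i, ¬ p ∣ N + y i) ↔ (P.filter fun p => ∃ i, p ∣ N + y i) = ∅ := by
    intro N
    rw [filter_eq_empty_iff]
    simp only [not_exists]
  have hsum : ∑ N ∈ (Icc 1 X).filter (fun N => Q ∣ N ∧ ∀ p ∈ P, ∀ i, ¬ p ∣ N + y i), G N =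
      ∑ N ∈ (Icc 1 X).filter (fun N => Q ∣ N),
        if (P.filter fun p => ∃ i, p ∣ N + y i) = ∅ then G N else 0 := by
    rw [← sum_filter, filter_filter]
    refine sum_congr (filter_congr (fun N _ => ?_)) (fun _ _ => rfl)
    rw [hD]
  constructor
  · have hb := main_bd K Q X hQ P hP hI y G M E1 E2 Y hE1 hE2 fu hs.abs_u hs.lev_u hs.mass_u hc
    have h1 : ∑ N ∈ (Icc 1 X).filter (fun N => Q ∣ N ∧ ∀ p ∈ P, ∀ i, ¬ p ∣ N + y i), G N ≤
        ∑ N ∈ (Icc 1 X).filter (fun N => Q ∣ N),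
          G N * val fu (P.filter fun p => ∃ i, p ∣ N + y i) := by
      rw [hsum]
      refine sum_le_sum (fun N _ => ?_)
      split_ifs with h
      · rw [h]
        have : val fu ∅ = 1 := by
          unfold Pool.Agent.H95.FL.val
          rw [powerset_empty, sum_singleton, hs.empty_u]
        rw [this, mul_one]
      · exact mul_nonneg (hG N) (hs.val_u _ (filter_subset _ _))
    have h2 := (abs_le.1 hb).2
    have h3 : M * mean (fun p => (nu p y : ℝ) / p) P fu ≤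
        (1 + d) * M * ∏ p ∈ P, (1 - (nu p y : ℝ) / p) := by
      have h4 := mul_le_mul_of_nonneg_left hs.mean_u hM
      unfold vv at h4
      linarith
    linarith
  · have hb := main_bd K Q X hQ P hP hI y G M E1 E2 Y hE1 hE2 fl hs.abs_l hs.lev_l hs.mass_l hc
    have h1 : ∑ N ∈ (Icc 1 X).filter (fun N => Q ∣ N),
          G N * val fl (P.filter fun p => ∃ i, p ∣ N + y i) ≤
        ∑ N ∈ (Icc 1 X).filter (fun N => Q ∣ N ∧ ∀ p ∈ P, ∀ i, ¬ p ∣ N + y i), G N := by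
      rw [hsum]
      refine sum_le_sum (fun N _ => ?_)
      split_ifs with h
      · rw [h]
        have : val fl ∅ = 1 := by
          unfold Pool.Agent.H95.FL.val
          rw [powerset_empty, sum_singleton, hs.empty_l]
        rw [this, mul_one]
      · exact mul_nonpos_of_nonneg_of_nonpos (hG N)
          (hs.val_l _ (filter_subset _ _) (nonempty_iff_ne_empty.2 h))
    have h2 := (abs_le.1 hb).1
    have h3 : (1 - d) * M * ∏ p ∈ P, (1 - (nu p y : ℝ) / p) ≤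
        M * mean (fun p => (nu p y : ℝ) / p) P fl := by
      have h4 := mul_le_mul_of_nonneg_left hs.mean_l hM
      unfold vv at h4
      linarith
    linarith

end Pool.Agent.H99.RO
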