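import Pool.Agent.H99.RO.Df

/-!
[H99 RO FN]  Regularity for products of unary functions with values in `[0,1]`.

Proof.  For a set `D` of coordinates consider the statement for all `a` such that `a j` is the indicator of a subset of `U j` (i.e. takes
only the values `0, 1` on `U j`) for all `j ∉ D`, by induction on `D.card` (or `Finset.induction_on D`).
* `D = ∅`: `∏ j, a j (x j)` is the indicator of the box `A j = (U j).filter (a j v = 1)`, so the sum is the sum over `piFinset A`
  (`Finset.sum_filter`, `Fintype.mem_piFinset`): this is the hypothesis.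
* `D = insert i D'`: write the sum as `∑_{v ∈ U i} a i v * ψ v`, `ψ v = ∑_{x ∈ piFinset U, x i = v} (f x - den f U) ∏_{j ≠ i} a j (x j)`
  (`Finset.sum_fiberwise`-like; or `ψ v = ∑_x if x i = v then .. else 0`).  Upper bound: `a i v * ψ v ≤ 1_{ψ v > 0} ψ v`, so the sum is at most the sum for
  `Function.update a i (fun v => if 0 < ψ v then 1 else 0)` (`ψ` does not use `a i`), which is `≤ e ∏` by induction; lower bound with the indicator of
  `ψ v < 0`.
-/

namespace Pool.Agent.H99.RO

open Finset

theorem reg_aux {V : Type} {m : ℕ} {g : (Fin m → V) → ℝ} {e : ℝ} {U : Fin m → Finset V}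
    (h : ∀ A : Fin m → Finset V, (∀ j, A j ⊆ U j) → ∑ x ∈ Fintype.piFinset A, g x ≤ e)
    (J : Finset (Fin m)) : ∀ u : Fin m → V → ℝ, (∀ j v, 0 ≤ u j v) → (∀ j v, u j v ≤ 1) →
      (∀ j, j ∉ J → ∀ v, u j v = 0 ∨ u j v = 1) →
      ∑ x ∈ Fintype.piFinset U, g x * ∏ j, u j (x j) ≤ e := by
  classical
  induction J using Finset.induction_on with
  | empty =>
    intro u _ _ h2
    refine le_trans (le_of_eq ?_) (h (fun j => (U j).filter fun v => u j v = 1)
      (fun j => Finset.filter_subset _ _))
    symm
    refine (Finset.sum_subset_zero_on_sdiff ?_ ?_ ?_)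
    · intro x hx
      rw [Fintype.mem_piFinset] at hx ⊢
      exact fun j => (Finset.mem_filter.1 (hx j)).1
    · intro x hx
      rw [Finset.mem_sdiff] at hx
      have h3 : ∃ j, u j (x j) ≠ 1 := by
        by_contra h4
        push Not at h4
        refine hx.2 ?_
        rw [Fintype.mem_piFinset]
        exact fun j => Finset.mem_filter.2 ⟨(Fintype.mem_piFinset.1 hx.1) j, h4 j⟩
      obtain ⟨j, hj⟩ := h3
      rw [Finset.prod_eq_zero (Finset.mem_univ j) ((h2 j (by simp) (x j)).resolve_right hj), mul_zero]
    · intro x hx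
      rw [Fintype.mem_piFinset] at hx
      rw [Finset.prod_eq_one fun j _ => (Finset.mem_filter.1 (hx j)).2, mul_one]
  | insert j0 J hj0 ih =>
    intro u h0 h1 h2
    set R : (Fin m → V) → ℝ := fun x => g x * ∏ j ∈ univ.erase j0, u j (x j) with hR
    have hsplit : ∀ (w : Fin m → V → ℝ), (∀ j, j ≠ j0 → w j = u j) →
        ∑ x ∈ Fintype.piFinset U, g x * ∏ j, w j (x j) =
          ∑ v ∈ U j0, w j0 v * ∑ x ∈ (Fintype.piFinset U).filter (fun x : Fin m → V => x j0 = v), R x := by
      intro w hw
      have h3 : ∀ x : Fin m → V, g x * ∏ j, w j (x j) = w j0 (x j0) * R x := by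
        intro x
        rw [hR, ← Finset.mul_prod_erase univ (fun j => w j (x j)) (Finset.mem_univ j0)]
        have h4 : ∏ j ∈ univ.erase j0, w j (x j) = ∏ j ∈ univ.erase j0, u j (x j) := by
          refine Finset.prod_congr rfl fun j hj => ?_
          rw [hw j (Finset.ne_of_mem_erase hj)]
        rw [h4]
        ring
      simp only [h3]
      rw [← Finset.sum_fiberwise_of_maps_to (g := fun x : Fin m → V => x j0) (t := U j0)
        (fun x hx => (Fintype.mem_piFinset.1 hx) j0)]
      refine Finset.sum_congr rfl fun v _ => ?_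
      rw [Finset.mul_sum]
      refine Finset.sum_congr rfl fun x hx => ?_
      rw [(Finset.mem_filter.1 hx).2]
    set a : V → ℝ := fun v => ∑ x ∈ (Fintype.piFinset U).filter (fun x : Fin m → V => x j0 = v), R x with ha
    set w : Fin m → V → ℝ := Function.update u j0 (fun v => if 0 < a v then 1 else 0) with hw
    have hwne : ∀ j, j ≠ j0 → w j = u j := fun j hj => Function.update_of_ne hj _ _
    have hw0 : w j0 = fun v => if 0 < a v then 1 else 0 := Function.update_self _ _ _
    have h5 : ∑ x ∈ Fintype.piFinset U, g x * ∏ j, u j (x j) ≤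
        ∑ x ∈ Fintype.piFinset U, g x * ∏ j, w j (x j) := by
      rw [hsplit u fun _ _ => rfl, hsplit w hwne]
      refine Finset.sum_le_sum fun v _ => ?_
      rw [hw0]
      show u j0 v * a v ≤ (if 0 < a v then 1 else 0) * a v
      split_ifs with h6
      · exact mul_le_mul_of_nonneg_right (h1 j0 v) h6.le
      · rw [zero_mul]
        exact mul_nonpos_of_nonneg_of_nonpos (h0 j0 v) (not_lt.1 h6)
    refine h5.trans (ih w ?_ ?_ ?_)
    · intro j v
      by_cases hj : j = j0
      · subst hj; rw [hw0]; dsimp only; split_ifs <;> norm_num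
      · rw [hwne j hj]; exact h0 j v
    · intro j v
      by_cases hj : j = j0
      · subst hj; rw [hw0]; dsimp only; split_ifs <;> norm_num
      · rw [hwne j hj]; exact h1 j v
    · intro j hj v
      by_cases hj' : j = j0
      · subst hj'; rw [hw0]; dsimp only; split_ifs <;> simp
      · rw [hwne j hj']
        exact h2 j (by simp [hj', hj]) v

theorem reg_fun {V : Type} {m : ℕ} (e : ℝ) (f : (Fin m → V) → ℝ) (U : Fin m → Finset V)
    (h : Reg e f U) (a : Fin m → V → ℝ) (ha : ∀ j v, 0 ≤ a j v ∧ a j v ≤ 1) :
    |∑ x ∈ Fintype.piFinset U, (f x - den f U) * ∏ j, a j (x j)| ≤ e * ∏ j, ((U j).card : ℝ) := by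
  rw [abs_le']
  constructor
  · exact reg_aux (g := fun x => f x - den f U) (fun A hA => (le_abs_self _).trans (h A hA)) univ a
      (fun j v => (ha j v).1) (fun j v => (ha j v).2) (fun j hj => absurd (Finset.mem_univ j) hj)
  · have h2 := reg_aux (g := fun x => -(f x - den f U)) (e := e * ∏ j, ((U j).card : ℝ)) (U := U)
      (fun A hA => ?_) univ a
      (fun j v => (ha j v).1) (fun j v => (ha j v).2) (fun j hj => absurd (Finset.mem_univ j) hj)
    · simpa only [neg_mul, Finset.sum_neg_distrib] using h2
    · have h3 := (neg_le_abs _).trans (h A hA)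
      simpa only [neg_mul, Finset.sum_neg_distrib] using h3

end Pool.Agent.H99.RO
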