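import Pool.Agent.H99.RO.Vq
import Pool.Agent.H5.PNT.PNT

/-!
[H99 RO FST]  The first moment.

* `fst_all`: the `N ∈ Om` with `N + h` prime correspond to the primes `p ∈ (h, ⌊x⌋ + h]`, `p ≡ h (Q)` (`N = p - h`; every such `p` up to `⌊x⌋` counts); their number is at least
  `π(x; Q, h) - h`, `π(x; Q, h) = (1 + o(1)) x/(φ(Q) log x)` (`Pool.Agent.H5.PNT.pi_ap`, for all the finitely many classes `h` modulo `Q`), and
  `lam |Om| ≤ (Q/(φ(Q) log x)) (x/Q) = x/(φ(Q) log x)`; `h ≤ x^(1/2)` is negligible.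
* `fst_set`: `A` has at least `al x/log x` elements (primes `≤ x`), at most `Q` of them divide `Q`; the others lie in the `φ(Q)` classes coprime to `Q`, so some class `b < Q` (`Nat.Coprime b Q`) contains at
  least `(al x/log x - Q)/φ(Q)` of them.  For `h ≡ b (Q)`, `h ≤ x^(1/2)`: the `p ∈ A` in this class with `p > h` give `N = p - h ∈ Om` (`1 ≤ N ≤ x`, `Q ∣ N`) with `N + h ∈ A`.
  So the count is at least `(al x/log x - Q)/φ(Q) - x^(1/2) ≥ (al - e) x/(φ(Q) log x) ≥ (al - e) lam |Om|` for large `x` (if `al - e ≥ 0`; otherwise trivial).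
-/

namespace Pool.Agent.H99.RO

open Finset

open Classical in
private theorem fst_shift (x : ℝ) (Q h : ℕ) (S : Finset ℕ) (R : ℕ → Prop)
    (hS : ∀ p ∈ S, 1 ≤ p ∧ p ≤ ⌊x⌋₊ ∧ p ≡ h [MOD Q] ∧ R p) :
    (S.card : ℝ) - h ≤ (((Om x Q).filter fun N => R (N + h)).card : ℝ) := by
  have h1 : (S.filter fun p => ¬ h < p).card ≤ h := by
    have h2 : (S.filter fun p => ¬ h < p) ⊆ Icc 1 h := by
      intro p hp
      rw [mem_filter] at hp
      rw [mem_Icc]
      exact ⟨(hS p hp.1).1, by omega⟩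
    have h3 := card_le_card h2
    rwa [Nat.card_Icc, Nat.add_sub_cancel] at h3
  have h2 : (S.filter fun p => h < p).card ≤ ((Om x Q).filter fun N => R (N + h)).card := by
    apply card_le_card_of_injOn (fun p => p - h)
    · intro p hp
      have hp' := mem_filter.1 (mem_coe.1 hp)
      obtain ⟨e1, e2, e3, e4⟩ := hS p hp'.1
      have e5 : p - h + h = p := by omega
      have e6 : p - h ∈ (Om x Q).filter fun N => R (N + h) := by
        rw [mem_filter, e5]
        refine ⟨?_, e4⟩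
        unfold Om
        rw [mem_filter, mem_Icc]
        have e7 := hp'.2
        refine ⟨⟨by omega, by omega⟩, ?_⟩
        exact (Nat.modEq_iff_dvd' hp'.2.le).1 e3.symm
      exact mem_coe.2 e6
    · intro p hp q hq hpq
      have hp' := (mem_filter.1 (mem_coe.1 hp)).2
      have hq' := (mem_filter.1 (mem_coe.1 hq)).2
      have hpq' : p - h = q - h := hpq
      omega
  have h3 := card_filter_add_card_filter_not (s := S) (fun p => h < p)
  have h4 : S.card ≤ ((Om x Q).filter fun N => R (N + h)).card + h := by omega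
  have h5 : (S.card : ℝ) ≤ (((Om x Q).filter fun N => R (N + h)).card : ℝ) + h := by exact_mod_cast h4
  linarith

private theorem fst_lam (x : ℝ) (hx : 1 < x) (Q : ℕ) (hQ : 0 < Q) (t : ℝ) (ht : 0 ≤ t) :
    t * lam x Q * (Om x Q).card ≤ t * (x / ((Nat.totient Q : ℝ) * Real.log x)) := by
  have hl : 0 < Real.log x := Real.log_pos hx
  have hQ0 : (0 : ℝ) < Q := by exact_mod_cast hQ
  have hf : (0 : ℝ) < Nat.totient Q := by exact_mod_cast Nat.totient_pos.2 hQ
  have h1 := (om_card x hx.le Q hQ).2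
  have h2 : 0 ≤ lam x Q := by unfold lam; positivity
  rw [mul_assoc]
  apply mul_le_mul_of_nonneg_left _ ht
  calc lam x Q * (Om x Q).card ≤ lam x Q * (x / Q) := by gcongr
    _ = x / ((Nat.totient Q : ℝ) * Real.log x) := by
        unfold lam
        field_simp

private theorem fst_small (Q : ℕ) (hQ : 0 < Q) (e : ℝ) (he : 0 < e) : ∀ᶠ x : ℝ in Filter.atTop,
    x ^ (1 / 2 : ℝ) ≤ e * (x / ((Nat.totient Q : ℝ) * Real.log x)) := by
  have hf : (0 : ℝ) < Nat.totient Q := by exact_mod_cast Nat.totient_pos.2 hQ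
  have h1 := (isLittleO_log_rpow_atTop (r := 1 / 2) (by norm_num)).def (c := e / (Nat.totient Q : ℝ)) (by positivity)
  filter_upwards [h1, Filter.eventually_gt_atTop (1 : ℝ)] with x hx hx1
  have hl : 0 < Real.log x := Real.log_pos hx1
  have hx0 : 0 < x := by linarith
  have hr : 0 < x ^ (1 / 2 : ℝ) := Real.rpow_pos_of_pos hx0 _
  rw [Real.norm_of_nonneg hl.le, Real.norm_of_nonneg hr.le] at hx
  have h2 : x ^ (1 / 2 : ℝ) * x ^ (1 / 2 : ℝ) = x := by
    rw [← Real.rpow_add hx0]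
    norm_num
  rw [← mul_div_assoc, le_div_iff₀ (by positivity)]
  have h3 : (Nat.totient Q : ℝ) * Real.log x ≤ e * x ^ (1 / 2 : ℝ) := by
    calc (Nat.totient Q : ℝ) * Real.log x ≤ (Nat.totient Q : ℝ) * (e / (Nat.totient Q : ℝ) * x ^ (1 / 2 : ℝ)) := by gcongr
      _ = e * x ^ (1 / 2 : ℝ) := by field_simp
  calc x ^ (1 / 2 : ℝ) * ((Nat.totient Q : ℝ) * Real.log x) ≤ x ^ (1 / 2 : ℝ) * (e * x ^ (1 / 2 : ℝ)) := by gcongr
    _ = e * (x ^ (1 / 2 : ℝ) * x ^ (1 / 2 : ℝ)) := by ring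
    _ = e * x := by rw [h2]

open Classical in
theorem fst_all (Q : ℕ) (hQ : 0 < Q) (e : ℝ) (he : 0 < e) : ∃ x0 : ℝ, ∀ x : ℝ, x0 ≤ x → ∀ h : ℕ,
    (h : ℝ) ≤ x ^ (1 / 2 : ℝ) → Nat.Coprime h Q →
    (1 - e) * lam x Q * (Om x Q).card ≤ (((Om x Q).filter fun N => (N + h).Prime).card : ℝ) := by
  haveI : NeZero Q := ⟨hQ.ne'⟩
  have hf : (0 : ℝ) < Nat.totient Q := by exact_mod_cast Nat.totient_pos.2 hQ
  have h1 : ∀ a : ZMod Q, IsUnit a → ∀ᶠ x : ℝ in Filter.atTop,
      (1 - e / 2) * (x / ((Nat.totient Q : ℝ) * Real.log x)) ≤ ((Pool.Agent.H5.PNT.primesIn Q a x).card : ℝ) := by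
    intro a ha
    have h2 := Pool.Agent.H5.PNT.pi_ap Q a ha
    have h3 : (1 - e / 2) * (Nat.totient Q : ℝ)⁻¹ < (Nat.totient Q : ℝ)⁻¹ := by
      have : 0 < (Nat.totient Q : ℝ)⁻¹ := by positivity
      nlinarith
    filter_upwards [h2.eventually (lt_mem_nhds h3), Filter.eventually_gt_atTop (1 : ℝ)] with x hx hx1
    have hl : 0 < Real.log x := Real.log_pos hx1
    have hx0 : 0 < x := by linarith
    rw [lt_div_iff₀ hx0] at hx
    calc (1 - e / 2) * (x / ((Nat.totient Q : ℝ) * Real.log x)) =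
          ((1 - e / 2) * (Nat.totient Q : ℝ)⁻¹ * x) / Real.log x := by field_simp
      _ ≤ (((Pool.Agent.H5.PNT.primesIn Q a x).card : ℝ) * Real.log x) / Real.log x := by gcongr
      _ = ((Pool.Agent.H5.PNT.primesIn Q a x).card : ℝ) := by field_simp
  have h2 : ∀ᶠ x : ℝ in Filter.atTop, ∀ a : ZMod Q, IsUnit a →
      (1 - e / 2) * (x / ((Nat.totient Q : ℝ) * Real.log x)) ≤ ((Pool.Agent.H5.PNT.primesIn Q a x).card : ℝ) := by
    rw [Filter.eventually_all]
    intro a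
    by_cases ha : IsUnit a
    · filter_upwards [h1 a ha] with x hx _
      exact hx
    · exact Filter.Eventually.of_forall fun x h => absurd h ha
  obtain ⟨x0, hx0⟩ := Filter.eventually_atTop.1 ((h2.and (fst_small Q hQ (e / 2) (by positivity))).and
    (Filter.eventually_gt_atTop (1 : ℝ)))
  refine ⟨x0, fun x hx h hh hc => ?_⟩
  obtain ⟨⟨h3, h4⟩, h5⟩ := hx0 x hx
  have hl : 0 < Real.log x := Real.log_pos h5
  rcases lt_or_ge 1 e with he1 | he1
  · have h6 : 0 ≤ lam x Q := by unfold lam; positivity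
    have h7 : (1 - e) * lam x Q * (Om x Q).card ≤ 0 := by
      have : 0 ≤ lam x Q * (Om x Q).card := by positivity
      nlinarith
    exact h7.trans (Nat.cast_nonneg _)
  · have h6 := fst_lam x h5 Q hQ (1 - e) (by linarith)
    have h7 : IsUnit ((h : ZMod Q)) := (ZMod.isUnit_iff_coprime h Q).2 hc
    have h8 := h3 _ h7
    have h9 := fst_shift x Q h (Pool.Agent.H5.PNT.primesIn Q (h : ZMod Q) x) Nat.Prime (by
      intro p hp
      unfold Pool.Agent.H5.PNT.primesIn at hp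
      rw [mem_filter, mem_Icc] at hp
      exact ⟨hp.1.1, hp.1.2, (ZMod.natCast_eq_natCast_iff p h Q).1 hp.2.2, hp.2.1⟩)
    have h10 : ((Pool.Agent.H5.PNT.primesIn Q (h : ZMod Q) x).card : ℝ) - h ≤
        (((Om x Q).filter fun N => (N + h).Prime).card : ℝ) := by convert h9
    linarith

theorem fst_set (Q : ℕ) (hQ : 0 < Q) (al e : ℝ) (hal : 0 < al) (he : 0 < e) : ∃ x0 : ℝ, ∀ x : ℝ, x0 ≤ x →
    ∀ A : Finset ℕ, (∀ p ∈ A, p.Prime ∧ (p : ℝ) ≤ x) → al * x / Real.log x ≤ A.card →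
    ∃ b : ℕ, b < Q + 1 ∧ 1 ≤ b ∧ Nat.Coprime b Q ∧ ∀ h : ℕ, (h : ℝ) ≤ x ^ (1 / 2 : ℝ) → h ≡ b [MOD Q] →
      (al - e) * lam x Q * (Om x Q).card ≤ (((Om x Q).filter fun N => N + h ∈ A).card : ℝ) := by
  have hf : (0 : ℝ) < Nat.totient Q := by exact_mod_cast Nat.totient_pos.2 hQ
  have hf1 : (1 : ℝ) ≤ Nat.totient Q := by exact_mod_cast Nat.totient_pos.2 hQ
  have hQR : (1 : ℝ) ≤ Q := by exact_mod_cast hQ
  obtain ⟨x0, hx0⟩ := Filter.eventually_atTop.1 ((fst_small Q hQ (e / 2) (by positivity)).and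
    (Filter.eventually_gt_atTop (max 1 ((Q : ℝ) ^ 2))))
  refine ⟨x0, fun x hx A hA hcard => ?_⟩
  obtain ⟨h4, h5⟩ := hx0 x hx
  have hx1 : 1 < x := lt_of_le_of_lt (le_max_left _ _) h5
  have hxQ : (Q : ℝ) ^ 2 < x := lt_of_le_of_lt (le_max_right _ _) h5
  have hl : 0 < Real.log x := Real.log_pos hx1
  have hx0' : 0 < x := by linarith
  have hQx : (Q : ℝ) ≤ x ^ (1 / 2 : ℝ) := by
    rw [← Real.sqrt_eq_rpow]
    exact Real.le_sqrt_of_sq_le hxQ.le
  classical
  obtain ⟨s, hs⟩ : ∃ s : Finset ℕ, s = A.filter fun p => ¬ p ∣ Q := ⟨_, rfl⟩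
  obtain ⟨t, ht⟩ : ∃ t : Finset ℕ, t = (Ico 1 (1 + Q)).filter fun b => Q.Coprime b := ⟨_, rfl⟩
  have htc : t.card = Nat.totient Q := by
    rw [ht]
    exact Nat.filter_coprime_Ico_eq_totient Q 1
  have htn : t.Nonempty := by
    rw [← card_pos, htc]
    exact Nat.totient_pos.2 hQ
  obtain ⟨f, hf'⟩ : ∃ f : ℕ → ℕ, f = fun p => if p % Q = 0 then Q else p % Q := ⟨_, rfl⟩
  have hfm : ∀ p, f p ≡ p [MOD Q] := by
    intro p
    rw [hf']
    simp only
    split_ifs with h0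
    · have : Q % Q = p % Q := by rw [Nat.mod_self, h0]
      exact this
    · exact Nat.mod_modEq p Q
  have hmaps : ∀ p ∈ s, f p ∈ t := by
    intro p hp
    rw [hs, mem_filter] at hp
    have hpp := (hA p hp.1).1
    have hcop : Nat.Coprime p Q := (Nat.Prime.coprime_iff_not_dvd hpp).2 hp.2
    rw [ht, mem_filter, mem_Ico]
    refine ⟨?_, ?_⟩
    · rw [hf']
      simp only
      have := Nat.mod_lt p hQ
      split_ifs with h0
      · omega
      · omega
    · have e1 : Nat.gcd (f p) Q = Nat.gcd p Q := (hfm p).gcd_eq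
      unfold Nat.Coprime
      rw [Nat.gcd_comm, e1]
      exact hcop
  have hs1 : (A.card : ℝ) - Q ≤ s.card := by
    have e1 : (A.filter fun p => ¬ ¬ p ∣ Q).card ≤ Q := by
      have e2 : (A.filter fun p => ¬ ¬ p ∣ Q) ⊆ Icc 1 Q := by
        intro p hp
        rw [mem_filter, not_not] at hp
        rw [mem_Icc]
        exact ⟨(hA p hp.1).1.one_le, Nat.le_of_dvd hQ hp.2⟩
      have e3 := card_le_card e2
      rwa [Nat.card_Icc, Nat.add_sub_cancel] at e3
    have e2 := card_filter_add_card_filter_not (s := A) (fun p => ¬ p ∣ Q)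
    rw [← hs] at e2
    have e3 : A.card ≤ s.card + Q := by omega
    have e4 : (A.card : ℝ) ≤ s.card + Q := by exact_mod_cast e3
    linarith
  obtain ⟨b, hb, hbc⟩ := exists_le_card_fiber_of_nsmul_le_card_of_maps_to hmaps htn
    (b := ((al * x / Real.log x - Q) / (Nat.totient Q : ℝ))) (by
      rw [htc, nsmul_eq_mul, mul_div_cancel₀ _ hf.ne']
      linarith)
  rw [ht, mem_filter, mem_Ico] at hb
  refine ⟨b, by omega, hb.1.1, Nat.Coprime.symm hb.2, fun h hh hhb => ?_⟩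
  rcases lt_or_ge al e with he1 | he1
  · have h6 : 0 ≤ lam x Q := by unfold lam; positivity
    have h7 : (al - e) * lam x Q * (Om x Q).card ≤ 0 := by
      have : 0 ≤ lam x Q * (Om x Q).card := by positivity
      nlinarith
    exact h7.trans (Nat.cast_nonneg _)
  · have h6 := fst_lam x hx1 Q hQ (al - e) (by linarith)
    have h9 := fst_shift x Q h (s.filter fun p => f p = b) (fun p => p ∈ A) (by
      intro p hp
      rw [mem_filter, hs, mem_filter] at hp
      obtain ⟨⟨e1, e2⟩, e3⟩ := hp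
      refine ⟨(hA p e1).1.one_le, Nat.le_floor (hA p e1).2, ?_, e1⟩
      have e4 := hfm p
      rw [e3] at e4
      exact e4.symm.trans hhb.symm)
    have h10 : (al * x / Real.log x - Q) / (Nat.totient Q : ℝ) =
        al * (x / ((Nat.totient Q : ℝ) * Real.log x)) - Q / (Nat.totient Q : ℝ) := by field_simp
    have h11 : (Q : ℝ) / (Nat.totient Q : ℝ) ≤ Q := div_le_self (by linarith) hf1
    rw [h10] at hbc
    have h12 : ((s.filter fun p => f p = b).card : ℝ) - h ≤
        (((Om x Q).filter fun N => N + h ∈ A).card : ℝ) := by convert h9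
    linarith

end Pool.Agent.H99.RO
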