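import Pool.Agent.H99.RO.Df

/-!
[H99 RO HY]  The hypotheses of the abstract clique theorem.  `Om` is a finite set of integers `N`, `W N v` means that the site `v` is
occupied for `N`.
-/

namespace Pool.Agent.H99.RO

open Finset

open Classical in
/-- the number of occupied sites of `U` -/
noncomputable def occ {V : Type} (W : ℕ → V → Prop) (U : Finset V) (N : ℕ) : ℝ :=
  ((U.filter fun v => W N v).card : ℝ)

open Classical in
/-- the number of the `N ∈ Om` for which all the sites `x i` are occupied -/
noncomputable def hit {V I : Type} (Om : Finset ℕ) (W : ℕ → V → Prop) (x : I → V) : ℝ :=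
  ((Om.filter fun N => ∀ i, W N (x i)).card : ℝ)

/-- the hypotheses: `K` = constant of the upper bound, `C` = constant of the `R`-point bound -/
structure Hyp (V : Type) [Fintype V] (Om : Finset ℕ) (W : ℕ → V → Prop) (lam al K : ℝ) (R : ℕ)
    (C de ta C0 : ℝ) : Prop where
  om : Om.Nonempty
  lam_pos : 0 < lam
  size : C0 ≤ lam * Fintype.card V
  h1 : ∀ v : V, al * lam * Om.card ≤ hit Om W (fun _ : Unit => v)
  h2 : ∀ U : Finset V, de * Fintype.card V ≤ U.card →
    ∑ N ∈ Om, max (occ W U N - K * lam * U.card) 0 ≤ ta * lam * U.card * Om.card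
  h3 : ∀ (I : Type) [Fintype I], Fintype.card I = R → ∀ F : Finset (I → V),
    (∀ x ∈ F, Function.Injective x) →
    ∑ x ∈ F, hit Om W x ≤ C * lam ^ R * (F.card + ta * (Fintype.card V : ℝ) ^ R) * Om.card

/-- `x` is popular: all the sites `x i` are occupied for at least `c lam^m |Om|` of the `N ∈ Om` -/
def Pop {V : Type} {m : ℕ} (Om : Finset ℕ) (W : ℕ → V → Prop) (lam c : ℝ) (x : Fin m → V) : Prop :=
  c * lam ^ m * Om.card ≤ hit Om W x

open Classical in
/-- the indicator of the popular tuples -/
noncomputable def popf {V : Type} {m : ℕ} (Om : Finset ℕ) (W : ℕ → V → Prop) (lam c : ℝ)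
    (x : Fin m → V) : ℝ := if Pop Om W lam c x then 1 else 0

/-- the vertices of the edge `q` -/
def ed {V : Type} {m M : ℕ} (q : ZMod M × ZMod M) (x : Fin m × ZMod M → V) : Fin m → V :=
  fun j => x (j, q.1 + (j : ℕ) * q.2)

open Classical in
/-- the injective configurations in the box with all edges popular -/
noncomputable def goodc {V : Type} {m : ℕ} (M : ℕ) [NeZero M] (Om : Finset ℕ) (W : ℕ → V → Prop)
    (lam c : ℝ) (U : Fin m → Finset V) : Finset (Fin m × ZMod M → V) :=
  (Fintype.piFinset fun p : Fin m × ZMod M => U p.1).filter fun x =>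
    Function.Injective x ∧ ∀ q : ZMod M × ZMod M, Pop Om W lam c (ed q x)

end Pool.Agent.H99.RO
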