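import Pool.Agent.H21.GC.K4

/-!
[H99 RO K4]  Quadruples `0, x, y, n` with all six differences in a set of density `> 2/3` (from `H21.GC.four_points`).
-/

namespace Pool.Agent.H99.RO

open Finset

/-- the six differences of `0, x, y, n` (`z = (x, y, n)`) are in `U` -/
def Q4 (U : Finset ℕ) (z : ℕ × ℕ × ℕ) : Prop :=
  z.1 < z.2.1 ∧ z.2.1 < z.2.2 ∧ z.1 ∈ U ∧ z.2.1 ∈ U ∧ z.2.2 ∈ U ∧ z.2.1 - z.1 ∈ U ∧ z.2.2 - z.1 ∈ U ∧
    z.2.2 - z.2.1 ∈ U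

open Classical in
theorem k4 (e : ℝ) (he : 0 < e) : ∃ (de : ℝ) (L0 : ℕ), 0 < de ∧ ∀ L : ℕ, L0 ≤ L → ∀ U : Finset ℕ, U ⊆ Icc 1 L →
    (2 / 3 + e) * L ≤ (U.card : ℝ) →
    de * (L : ℝ) ^ 3 ≤ (((Icc 1 L ×ˢ Icc 1 L ×ˢ Icc 1 L).filter fun z => Q4 U z ∧ z.1 % 3 = 1 ∧
      z.2.1 % 3 = 1 ∧ z.2.2 % 3 = 0).card : ℝ) := by
  obtain ⟨c, hc, T0, h⟩ := Pool.Agent.H21.GC.four_points e he
  refine ⟨c, T0, hc, fun L hL U hU hUc => ?_⟩
  have h2 := h L hL {m : ℕ | m ∉ U}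
  refine (h2 ?_).trans ?_
  · have h2 : ((Icc 1 L).filter (fun m => m ∈ {m : ℕ | m ∉ U})) = Icc 1 L \ U := by
      ext m
      simp only [mem_filter, Set.mem_setOf_eq, mem_sdiff]
    have h3 := card_sdiff_add_card_eq_card hU
    rw [Nat.card_Icc, Nat.add_sub_cancel] at h3
    have h4 : ((Icc 1 L \ U).card : ℝ) + U.card = L := by exact_mod_cast h3
    have h5 : (((Icc 1 L).filter (fun m => m ∈ {m : ℕ | m ∉ U})).card : ℝ) ≤ (1 / 3 - e) * L := by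
      rw [h2]
      linarith
    convert h5
  rw [Nat.cast_le]
  apply card_le_card
  intro z hz
  simp only [mem_filter, mem_product, mem_range, Set.mem_setOf_eq, not_not] at hz
  obtain ⟨⟨_, _, _⟩, h0, h1, h2, h3, h4, h5, h6, h7, h8, h9, h10, h11⟩ := hz
  rw [mem_filter, mem_product, mem_product]
  exact ⟨⟨hU h6, hU h7, hU h8⟩, ⟨h1, h2, h6, h7, h8, h9, h10, h11⟩, h3, h4, h5⟩

end Pool.Agent.H99.RO
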