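import Pool.Agent.H99.RO.Low
import Pool.Agent.H99.RO.Cnt

/-!
[H99 RO KEY]  The key inequality.

Proof.  `f = popf Om W lam c` has values in `{0,1}`; for `x ∈ goodc` all `f (ed q x) = 1`, so `|goodc| ≤ ∑_{x ∈ box} ∏_q f (ed q x) ≤ (den^(M^2) + M^2 e4) Π^M`
(`count_le`, `m ≤ M`).  `h3` for `I = Fin m × ZMod M` (`card = m M`) and `F = goodc`:
`∑_{x ∈ goodc} hit x ≤ C lam^R (|goodc| + ta n^R) |Om|`, and `n^R ≤ Π^M / de^R` (`|U j| ≥ de n`, `∏ j |U j|^M ≥ (de n)^(m M)`).  Compare with `low` and divide by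
`lam^R Π^M |Om| > 0` (`|U j| > 0` since `de n > 0`; `n > 0` from `hsize`, `C0 > 0`).
-/

namespace Pool.Agent.H99.RO

open Finset

open Classical in
theorem goodc_card {V : Type} (m M : ℕ) [hM : Fact M.Prime] (hmM : m ≤ M)
    (Om : Finset ℕ) (W : ℕ → V → Prop) (lam c e4 : ℝ) (he4 : 0 < e4) (U : Fin m → Finset V)
    (hreg : Reg e4 (popf Om W lam c) U) :
    ((goodc M Om W lam c U).card : ℝ) ≤
      (den (popf Om W lam c) U ^ (M ^ 2) + (M : ℝ) ^ 2 * e4) * ∏ j, ((U j).card : ℝ) ^ M := by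
  have hf : ∀ x : Fin m → V, 0 ≤ popf Om W lam c x ∧ popf Om W lam c x ≤ 1 := by
    intro x
    unfold popf
    split_ifs <;> norm_num
  have h1 := count_le m M hmM e4 he4.le (popf Om W lam c) hf U hreg
  refine le_trans ?_ h1
  have h2 : ((goodc M Om W lam c U).card : ℝ) = ∑ x ∈ goodc M Om W lam c U,
      ∏ q : ZMod M × ZMod M, popf Om W lam c (fun j => x (j, q.1 + (j : ℕ) * q.2)) := by
    rw [Finset.card_eq_sum_ones]
    push_cast
    refine Finset.sum_congr rfl fun x hx => ?_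
    symm
    refine Finset.prod_eq_one fun q _ => ?_
    have h3 : ∀ q : ZMod M × ZMod M, Pop Om W lam c (ed q x) := by
      unfold goodc at hx
      exact ((Finset.mem_filter.1 hx).2).2
    unfold popf
    exact if_pos (h3 q)
  rw [h2]
  refine Finset.sum_le_sum_of_subset_of_nonneg ?_ fun x _ _ => Finset.prod_nonneg fun q _ => (hf _).1
  unfold goodc
  exact Finset.filter_subset _ _

open Classical in
theorem goodc_inj {V : Type} (m M : ℕ) [hM : Fact M.Prime] (Om : Finset ℕ) (W : ℕ → V → Prop)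
    (lam c : ℝ) (U : Fin m → Finset V) : ∀ x ∈ goodc M Om W lam c U, Function.Injective x := by
  intro x hx
  unfold goodc at hx
  exact ((Finset.mem_filter.1 hx).2).1

theorem key_num (R : ℕ) (x1 lamR PM om C D ta deR n G S kapR p : ℝ)
    (h1 : p / 4 * kapR * lamR * PM * om ≤ S) (h2 : S ≤ C * lamR * (G + ta * n ^ R) * om)
    (h3 : G ≤ D * PM) (h4 : n ^ R * deR ≤ PM) (hlam : 0 < lamR) (hPM : 0 < PM) (hom : 0 < om)
    (hC : 0 < C) (hta : 0 < ta) (hde : 0 < deR) (hx : x1 = D + ta / deR) :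
    p / 4 * kapR ≤ C * x1 := by
  have h5 : ta * n ^ R ≤ ta / deR * PM := by
    rw [div_mul_eq_mul_div, le_div_iff₀ hde, mul_assoc]
    exact mul_le_mul_of_nonneg_left h4 hta.le
  have h6 : C * lamR * (G + ta * n ^ R) * om ≤ C * lamR * (D * PM + ta / deR * PM) * om := by
    have : G + ta * n ^ R ≤ D * PM + ta / deR * PM := add_le_add h3 h5
    have h7 : 0 ≤ C * lamR := by positivity
    exact mul_le_mul_of_nonneg_right (mul_le_mul_of_nonneg_left this h7) hom.le
  have h8 : (p / 4 * kapR) * (lamR * PM * om) ≤ (C * x1) * (lamR * PM * om) := by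
    calc (p / 4 * kapR) * (lamR * PM * om) = p / 4 * kapR * lamR * PM * om := by ring
      _ ≤ C * lamR * (D * PM + ta / deR * PM) * om := h1.trans (h2.trans h6)
      _ = _ := by rw [hx]; ring
  exact le_of_mul_le_mul_right h8 (by positivity)

theorem key {V : Type} [Fintype V] (m M : ℕ) [hM : Fact M.Prime] (hm : 1 ≤ m) (hmM : m ≤ M)
    (Om : Finset ℕ) (W : ℕ → V → Prop) (lam al K C c p kap e4 de ta C0 : ℝ)
    (h : Hyp V Om W lam al K (m * M) C de ta C0) (hK : 1 ≤ K) (hC : 0 < C)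
    (hc : 0 < c) (hp : 0 < p) (hkap : 0 < kap) (hkap1 : kap ≤ 1) (he4 : 0 < e4) (hde : 0 < de)
    (hta : 0 < ta) (hC00 : 0 < C0)
    (hC0 : 4 * ((m * M : ℕ) : ℝ) ^ 2 ≤ C0 * kap * de)
    (hcc : c * (M : ℝ) ^ 2 * (2 * K) ^ (m * M) ≤ p * kap ^ (m * M) / 8)
    (U : Fin m → Finset V) (hU : ∀ j, de * Fintype.card V ≤ (U j).card)
    (hreg : Reg e4 (popf Om W lam c) U)
    (E : Finset ℕ) (hE : E ⊆ Om) (hEc : p / 2 * Om.card ≤ (E.card : ℝ))
    (hocc : ∀ N ∈ E, ∀ j, kap * lam * (U j).card ≤ occ W (U j) N ∧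
      occ W (U j) N ≤ 2 * K * lam * (U j).card) :
    p / 4 * kap ^ (m * M) ≤
      C * (den (popf Om W lam c) U ^ (M ^ 2) + (M : ℝ) ^ 2 * e4 + ta / de ^ (m * M)) := by
  have hM1 : 1 ≤ M := hM.out.one_lt.le
  have hlow := low m M hm hmM Om W lam K c p kap de C0 h.lam_pos hK hc hp hkap hkap1 hde hC0 h.size
    hcc U hU E hE hEc hocc
  have hcard : Fintype.card (Fin m × ZMod M) = m * M := by
    rw [Fintype.card_prod, Fintype.card_fin, ZMod.card]
  have h3 := h.h3 (Fin m × ZMod M) hcard (goodc M Om W lam c U) (goodc_inj m M Om W lam c U)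
  have h4 := goodc_card m M hmM Om W lam c e4 he4 U hreg
  have hn : 0 < (Fintype.card V : ℝ) := by
    by_contra h1
    have h2 : (Fintype.card V : ℝ) ≤ 0 := not_lt.1 h1
    have h5 : lam * (Fintype.card V : ℝ) ≤ 0 := mul_nonpos_of_nonneg_of_nonpos h.lam_pos.le h2
    have := h.size
    linarith
  have hUpos : ∀ j, (0:ℝ) < ((U j).card : ℝ) := fun j => lt_of_lt_of_le (mul_pos hde hn) (hU j)
  have hP : 0 < ∏ j, ((U j).card : ℝ) ^ M := Finset.prod_pos fun j _ => pow_pos (hUpos j) M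
  have h5 : (Fintype.card V : ℝ) ^ (m * M) * de ^ (m * M) ≤ ∏ j, ((U j).card : ℝ) ^ M := by
    have h6 : (Fintype.card V : ℝ) ^ (m * M) * de ^ (m * M) =
        ∏ j : Fin m, (de * (Fintype.card V : ℝ)) ^ M := by
      rw [Finset.prod_const, Finset.card_univ, Fintype.card_fin, ← mul_pow, ← pow_mul, mul_comm M m,
        mul_comm de]
    rw [h6]
    exact Finset.prod_le_prod (fun j _ => pow_nonneg (mul_pos hde hn).le M)
      fun j _ => pow_le_pow_left₀ (mul_pos hde hn).le (hU j) M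
  have hom : (0:ℝ) < Om.card := by exact_mod_cast Finset.card_pos.2 h.om
  exact key_num (m * M) _ (lam ^ (m * M)) _ Om.card C _ ta (de ^ (m * M)) (Fintype.card V) _ _ _ p
    hlow h3 h4 h5 (pow_pos h.lam_pos _) hP hom hC hta (pow_pos hde _) rfl

end Pool.Agent.H99.RO
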