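import Pool.Agent.H99.RO.Hy
import Pool.Agent.H99.RO.Cnt

/-!
[H99 RO LOW]  Lower bound for the number of (good configuration, `N`).

`R = m M`, `Π = ∏ j |U j|`, `I = Fin m × ZMod M`, `n = |V|`.  All `|U j| ≥ de n > 0`.
Proof.  For `N ∈ E` let `B j = (U j).filter (W N)`, `b j = |B j| = occ W (U j) N`, `kap lam |U j| ≤ b j ≤ 2 K lam |U j|`, and
`X N = piFinset (fun p : I => B p.1)`, `|X N| = ∏ j b j ^ M = T N ≥ (kap lam)^R Π^M`.
* not injective: for fixed `p ≠ p'` in `I` the number of the `x ∈ X N` with `x p = x p'` is at most `T N / b p'.1` (`x` is determined by its values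
  at the points `≠ p'`), and `b ≥ kap lam de n ≥ kap de C0`.  So at most `R^2 T N/(kap de C0) ≤ T N/4` elements of `X N` are not injective.
* for an edge `q` the number of the `x ∈ X N` with `¬ Pop (ed q x)` is `(∏ j b j)^(M-1)` times the number `β N` of the `y ∈ piFinset B` with `¬ Pop y`
  (`x ↦ (ed q x, x off the edge)`; the edge has exactly one vertex in every part `j`), so `≤ (2 K lam)^(m (M-1)) Π^(M-1) β N`.
  `∑_{N ∈ Om} β N = ∑_{y ∈ piFinset U, ¬ Pop y} hit y ≤ c lam^m |Om| Π` (exchange of the sums).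
So the number of the `x ∈ X N` which are in `goodc` is at least `(3/4) T N - M^2 (2 K lam)^(m(M-1)) Π^(M-1) β N`; sum over `N ∈ E` (`|E| ≥ (p/2)|Om|`):
`∑_{x ∈ goodc} hit x ≥ ∑_{N ∈ E} #{x ∈ goodc : all x i occupied} ≥ (3/8) p (kap lam)^R Π^M |Om| - c M^2 (2K)^(m(M-1)) lam^R Π^M |Om|
≥ (p/4) (kap lam)^R Π^M |Om|`, because `c M^2 (2K)^R ≤ p kap^R/8` and `2 K ≥ 1`.
-/

set_option linter.unusedSectionVars false

namespace Pool.Agent.H99.RO

open Finset

open Classical in
/-- the number of the occupied tuples of `F` -/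
noncomputable def cntW {V I : Type} (W : ℕ → V → Prop) (F : Finset (I → V)) (N : ℕ) : ℝ :=
  ((F.filter fun x => ∀ i, W N (x i)).card : ℝ)

theorem cntW_nonneg {V I : Type} (W : ℕ → V → Prop) (F : Finset (I → V)) (N : ℕ) : 0 ≤ cntW W F N :=
  Nat.cast_nonneg _

open Classical in
/-- the unpopular tuples of the box -/
noncomputable def unp {V : Type} {m : ℕ} (Om : Finset ℕ) (W : ℕ → V → Prop) (lam c : ℝ)
    (U : Fin m → Finset V) : Finset (Fin m → V) :=
  (Fintype.piFinset U).filter fun y => ¬ Pop Om W lam c y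

open Classical in
theorem sum_hit {V I : Type} (Om : Finset ℕ) (W : ℕ → V → Prop) (F : Finset (I → V)) :
    ∑ N ∈ Om, cntW W F N = ∑ x ∈ F, hit Om W x := by
  unfold hit cntW
  have h1 : ∀ N ∈ Om, ((F.filter fun x => ∀ i, W N (x i)).card : ℝ) =
      ∑ x ∈ F, if ∀ i, W N (x i) then (1 : ℝ) else 0 := by
    intro N _
    rw [Finset.sum_boole]
  have h2 : ∀ x ∈ F, ((Om.filter fun N => ∀ i, W N (x i)).card : ℝ) =
      ∑ N ∈ Om, if ∀ i, W N (x i) then (1 : ℝ) else 0 := by
    intro x _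
    rw [Finset.sum_boole]
  rw [Finset.sum_congr rfl h1, Finset.sum_congr rfl h2, Finset.sum_comm]

open Classical in
theorem card_pair {V P : Type} [Fintype P] [DecidableEq P] {m : ℕ} (B : Fin m → Finset V)
    (p p' : Fin m × P) (h : p ≠ p') :
    (B p'.1).card * ((Fintype.piFinset (fun p : Fin m × P => B p.1)).filter
      fun x => x p = x p').card ≤ (Fintype.piFinset (fun p : Fin m × P => B p.1)).card := by
  rw [← Finset.card_product]
  refine Finset.card_le_card_of_injOn (fun z => Function.update z.2 p' z.1) ?_ ?_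
  · intro z hz
    have hz' := Finset.mem_product.1 (Finset.mem_coe.1 hz)
    have h2 := (Finset.mem_filter.1 hz'.2).1
    rw [Fintype.mem_piFinset] at h2
    rw [Finset.mem_coe, Fintype.mem_piFinset]
    intro r
    by_cases hr : r = p'
    · subst hr
      simpa using hz'.1
    · simp only [Function.update_of_ne hr]
      exact h2 r
  · intro z hz z' hz' he
    have h1 := (Finset.mem_filter.1 (Finset.mem_product.1 (Finset.mem_coe.1 hz)).2).2
    have h2 := (Finset.mem_filter.1 (Finset.mem_product.1 (Finset.mem_coe.1 hz')).2).2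
    have h3 : ∀ r, Function.update z.2 p' z.1 r = Function.update z'.2 p' z'.1 r := fun r => congrFun he r
    have h4 : z.1 = z'.1 := by simpa using h3 p'
    have h5 : ∀ r, r ≠ p' → z.2 r = z'.2 r := by
      intro r hr
      have := h3 r
      rwa [Function.update_of_ne hr, Function.update_of_ne hr] at this
    refine Prod.ext h4 (funext fun r => ?_)
    by_cases hr : r = p'
    · rw [hr, ← h1, ← h2]
      exact h5 p h
    · exact h5 r hr

open Classical in
theorem card_edge {V P : Type} [Fintype P] [DecidableEq P] {m : ℕ} (E : Fin m → P) (A : Fin m → Finset V)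
    (Q : (Fin m → V) → Prop) :
    ((((Fintype.piFinset (fun p : Fin m × P => A p.1)).filter fun x => Q (et E x)).card : ℝ)) *
      ((Fintype.piFinset A).card : ℝ) =
      ((Fintype.piFinset (fun p : Fin m × P => A p.1)).card : ℝ) *
        (((Fintype.piFinset A).filter Q).card : ℝ) := by
  have h := sum_upd E A (fun x => if Q (et E x) then (1:ℝ) else 0)
  simp only [et_upd] at h
  rw [Finset.sum_boole, Finset.sum_const, Finset.sum_boole, nsmul_eq_mul] at h
  rw [mul_comm, ← h]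

open Classical in
theorem one_N {V : Type} (m M : ℕ) [hM : Fact M.Prime] (Om : Finset ℕ) (W : ℕ → V → Prop)
    (lam c : ℝ) (U : Fin m → Finset V) (N : ℕ) (hm : 1 ≤ m)
    (hb : ∀ j, 4 * ((m * M : ℕ) : ℝ) ^ 2 ≤ occ W (U j) N) :
    3 / 4 * (∏ j, occ W (U j) N) ^ M - (M : ℝ) ^ 2 * ((∏ j, occ W (U j) N) ^ (M - 1) *
      cntW W (unp Om W lam c U) N) ≤ cntW W (goodc M Om W lam c U) N := by
  set B : Fin m → Finset V := fun j => (U j).filter fun v => W N v with hB
  have hBc : ∀ j, occ W (U j) N = ((B j).card : ℝ) := fun j => rfl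
  have hM1 : 1 ≤ M := hM.out.one_lt.le
  have hR : (1 : ℝ) ≤ ((m * M : ℕ) : ℝ) ^ 2 := by
    have : 1 ≤ (m * M) ^ 2 := Nat.one_le_pow _ _ (Nat.mul_pos hm hM1)
    exact_mod_cast this
  have hBpos : ∀ j, (0 : ℝ) < ((B j).card : ℝ) := fun j => by
    have := hb j
    rw [hBc] at this
    linarith
  simp only [hBc]
  set b : ℝ := ∏ j, ((B j).card : ℝ) with hbdef
  have hb0 : 0 < b := Finset.prod_pos fun j _ => hBpos j
  have hcB : ((Fintype.piFinset B).card : ℝ) = b := by
    rw [Fintype.card_piFinset]; push_cast; rfl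
  set X := Fintype.piFinset (fun p : Fin m × ZMod M => B p.1) with hX
  have hcX : (X.card : ℝ) = b ^ M := by
    rw [hX, Fintype.card_piFinset]
    push_cast
    rw [Fintype.prod_prod_type, hbdef, ← Finset.prod_pow]
    refine Finset.prod_congr rfl fun j _ => ?_
    show ∏ _y : ZMod M, ((B j).card : ℝ) = _
    rw [Finset.prod_const, Finset.card_univ, ZMod.card]
  clear_value b
  set β : ℝ := cntW W (unp Om W lam c U) N with hβ
  have hβ' : (((Fintype.piFinset B).filter (fun y => ¬ Pop Om W lam c y)).card : ℝ) = β := by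
    rw [hβ]
    unfold cntW unp
    refine congrArg (fun s : Finset (Fin m → V) => (s.card : ℝ)) ?_
    ext y
    simp only [Finset.mem_filter, Fintype.mem_piFinset, hB]
    constructor
    · rintro ⟨h1, h2⟩
      exact ⟨⟨fun j => (h1 j).1, h2⟩, fun j => (h1 j).2⟩
    · rintro ⟨⟨h1, h2⟩, h3⟩
      exact ⟨fun j => ⟨h1 j, h3 j⟩, h2⟩
  clear_value β
  obtain ⟨G, hG, hGc⟩ : ∃ G : Finset (Fin m × ZMod M → V), (∀ x, x ∈ G ↔
      x ∈ goodc M Om W lam c U ∧ ∀ i, W N (x i)) ∧ (G.card : ℝ) = cntW W (goodc M Om W lam c U) N := by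
    refine ⟨_, fun x => ?_, rfl⟩
    simp only [Finset.mem_filter]
  rw [← hGc]
  set Tp := ((univ : Finset ((Fin m × ZMod M) × (Fin m × ZMod M))).filter fun z => z.1 ≠ z.2).biUnion
    fun z => X.filter fun x => x z.1 = x z.2 with hTp
  set Te := (univ : Finset (ZMod M × ZMod M)).biUnion
    fun q => X.filter fun x => ¬ Pop Om W lam c (ed q x) with hTe
  have hsub : X ⊆ G ∪ (Tp ∪ Te) := by
    intro x hx
    rw [Finset.mem_union, Finset.mem_union]
    have hx' := Fintype.mem_piFinset.1 hx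
    by_cases a1 : Function.Injective x
    · by_cases a2 : ∀ q : ZMod M × ZMod M, Pop Om W lam c (ed q x)
      · refine Or.inl ?_
        rw [hG]
        refine ⟨?_, fun i => (Finset.mem_filter.1 (hx' i)).2⟩
        unfold goodc
        rw [Finset.mem_filter, Fintype.mem_piFinset]
        exact ⟨fun i => (Finset.mem_filter.1 (hx' i)).1, a1, a2⟩
      · push Not at a2
        obtain ⟨q, hq⟩ := a2
        exact Or.inr (Or.inr (Finset.mem_biUnion.2 ⟨q, Finset.mem_univ _, Finset.mem_filter.2 ⟨hx, hq⟩⟩))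
    · unfold Function.Injective at a1
      push Not at a1
      obtain ⟨p, p', hpp, hne⟩ := a1
      exact Or.inr (Or.inl (Finset.mem_biUnion.2 ⟨(p, p'), Finset.mem_filter.2 ⟨Finset.mem_univ _, hne⟩,
        Finset.mem_filter.2 ⟨hx, hpp⟩⟩))
  have hcard : (X.card : ℝ) ≤ G.card + (Tp.card + Te.card) := by
    have := (Finset.card_le_card hsub).trans ((Finset.card_union_le _ _).trans
      (Nat.add_le_add_left (Finset.card_union_le _ _) _))
    exact_mod_cast this
  have hT1 : (Tp.card : ℝ) ≤ (1 / 4) * b ^ M := by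
    have a1 : (Tp.card : ℝ) ≤ ∑ z ∈ (univ : Finset ((Fin m × ZMod M) × (Fin m × ZMod M))).filter
        (fun z => z.1 ≠ z.2), ((X.filter fun x => x z.1 = x z.2).card : ℝ) := by
      exact_mod_cast Finset.card_biUnion_le
    have a2 : ∀ z ∈ (univ : Finset ((Fin m × ZMod M) × (Fin m × ZMod M))).filter
        (fun z => z.1 ≠ z.2), ((X.filter fun x => x z.1 = x z.2).card : ℝ) ≤
          b ^ M / (4 * ((m * M : ℕ) : ℝ) ^ 2) := by
      intro z hz
      have hz' : z.1 ≠ z.2 := (Finset.mem_filter.1 hz).2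
      have a3 := card_pair B z.1 z.2 hz'
      rw [← hX] at a3
      have a4 : ((B z.2.1).card : ℝ) * ((X.filter fun x => x z.1 = x z.2).card : ℝ) ≤ b ^ M := by
        rw [← hcX]; exact_mod_cast a3
      rw [le_div_iff₀ (by positivity)]
      have a5 := hb z.2.1
      rw [hBc] at a5
      calc _ ≤ ((X.filter fun x => x z.1 = x z.2).card : ℝ) * ((B z.2.1).card : ℝ) :=
            mul_le_mul_of_nonneg_left a5 (Nat.cast_nonneg _)
        _ = ((B z.2.1).card : ℝ) * ((X.filter fun x => x z.1 = x z.2).card : ℝ) := mul_comm _ _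
        _ ≤ _ := a4
    have a5 : ((((univ : Finset ((Fin m × ZMod M) × (Fin m × ZMod M))).filter
        (fun z => z.1 ≠ z.2)).card : ℕ) : ℝ) ≤ ((m * M : ℕ) : ℝ) ^ 2 := by
      have := Finset.card_filter_le (univ : Finset ((Fin m × ZMod M) × (Fin m × ZMod M)))
        (fun z => z.1 ≠ z.2)
      rw [Finset.card_univ, Fintype.card_prod, Fintype.card_prod, Fintype.card_fin, ZMod.card] at this
      calc _ ≤ (((m * M) * (m * M) : ℕ) : ℝ) := by exact_mod_cast this
        _ = _ := by push_cast; ring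
    calc (Tp.card : ℝ) ≤ ∑ z ∈ (univ : Finset ((Fin m × ZMod M) × (Fin m × ZMod M))).filter
            (fun z => z.1 ≠ z.2), b ^ M / (4 * ((m * M : ℕ) : ℝ) ^ 2) := a1.trans (sum_le_sum a2)
      _ = ((((univ : Finset ((Fin m × ZMod M) × (Fin m × ZMod M))).filter
            (fun z => z.1 ≠ z.2)).card : ℕ) : ℝ) * (b ^ M / (4 * ((m * M : ℕ) : ℝ) ^ 2)) := by
          rw [Finset.sum_const, nsmul_eq_mul]
      _ ≤ ((m * M : ℕ) : ℝ) ^ 2 * (b ^ M / (4 * ((m * M : ℕ) : ℝ) ^ 2)) :=
          mul_le_mul_of_nonneg_right a5 (by positivity)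
      _ = (1 / 4) * b ^ M := by
          field_simp
  have hT2 : (Te.card : ℝ) ≤ (M : ℝ) ^ 2 * (b ^ (M - 1) * β) := by
    have a1 : (Te.card : ℝ) ≤ ∑ q : ZMod M × ZMod M,
        ((X.filter fun x => ¬ Pop Om W lam c (ed q x)).card : ℝ) := by
      exact_mod_cast Finset.card_biUnion_le
    have a2 : ∀ q ∈ (univ : Finset (ZMod M × ZMod M)),
        ((X.filter fun x => ¬ Pop Om W lam c (ed q x)).card : ℝ) ≤ b ^ (M - 1) * β := by
      intro q _
      have a4 : ((X.filter fun x => ¬ Pop Om W lam c (ed q x)).card : ℝ) * b = b ^ M * β := by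
        rw [← hcX, ← hβ', ← hcB]
        convert card_edge (lin q : Fin m → ZMod M) B (fun y => ¬ Pop Om W lam c y)
        rfl
      have a5 : b ^ M = b ^ (M - 1) * b := by
        rw [← pow_succ, Nat.sub_add_cancel hM1]
      rw [a5] at a4
      have a6 : ((X.filter fun x => ¬ Pop Om W lam c (ed q x)).card : ℝ) * b =
          (b ^ (M - 1) * β) * b := by rw [a4]; ring
      exact (mul_right_cancel₀ hb0.ne' a6).le
    calc (Te.card : ℝ) ≤ ∑ q : ZMod M × ZMod M, b ^ (M - 1) * β := a1.trans (sum_le_sum a2)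
      _ = _ := by
        rw [Finset.sum_const, nsmul_eq_mul, Finset.card_univ, Fintype.card_prod, ZMod.card,
          Nat.cast_mul, ← sq]
  rw [hcX] at hcard
  linarith

/-- the final computation -/
theorem low_num (m M : ℕ) (hM1 : 1 ≤ M) (lam K c p kap PP om Ec B : ℝ) (hlam : 0 < lam)
    (hK : 1 ≤ K) (hc : 0 < c) (hkap : 0 < kap) (hPP : 0 < PP) (hom : 0 ≤ om) (hp : 0 < p)
    (hcc : c * (M : ℝ) ^ 2 * (2 * K) ^ (m * M) ≤ p * kap ^ (m * M) / 8)
    (hEc : p / 2 * om ≤ Ec) (hB : B ≤ c * lam ^ m * om * PP) :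
    p / 4 * kap ^ (m * M) * lam ^ (m * M) * PP ^ M * om ≤
      Ec * (3 / 4 * ((kap * lam) ^ m * PP) ^ M) -
        (M : ℝ) ^ 2 * (((2 * K * lam) ^ m * PP) ^ (M - 1) * B) := by
  have hK0 : 0 < K := by linarith
  have e1 : ((kap * lam) ^ m * PP) ^ M = kap ^ (m * M) * lam ^ (m * M) * PP ^ M := by
    rw [mul_pow, ← pow_mul, mul_pow]
  have e2 : ((2 * K * lam) ^ m * PP) ^ (M - 1) * (c * lam ^ m * om * PP) ≤
      c * (2 * K) ^ (m * M) * lam ^ (m * M) * PP ^ M * om := by
    have h1 : ((2 * K * lam) ^ m * PP) ^ (M - 1) = ((2 * K) ^ m) ^ (M - 1) * (lam ^ m) ^ (M - 1) * PP ^ (M - 1) := by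
      rw [mul_pow, mul_pow, mul_pow]
    have h2 : lam ^ (m * M) = (lam ^ m) ^ (M - 1) * lam ^ m := by
      rw [pow_mul, ← pow_succ, Nat.sub_add_cancel hM1]
    have h3 : PP ^ M = PP ^ (M - 1) * PP := by rw [← pow_succ, Nat.sub_add_cancel hM1]
    have h4 : ((2 * K) ^ m) ^ (M - 1) ≤ (2 * K) ^ (m * M) := by
      rw [pow_mul]
      have h5 : (1:ℝ) ≤ 2 * K := by linarith
      exact pow_le_pow_right₀ (one_le_pow₀ h5) (Nat.sub_le _ _)
    rw [h1, h2, h3]
    have h6 : 0 ≤ (lam ^ m) ^ (M - 1) * lam ^ m * (PP ^ (M - 1) * PP) * (c * om) := by positivity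
    calc _ = ((2 * K) ^ m) ^ (M - 1) * ((lam ^ m) ^ (M - 1) * lam ^ m * (PP ^ (M - 1) * PP) * (c * om)) := by
          ring
      _ ≤ (2 * K) ^ (m * M) * ((lam ^ m) ^ (M - 1) * lam ^ m * (PP ^ (M - 1) * PP) * (c * om)) :=
          mul_le_mul_of_nonneg_right h4 h6
      _ = _ := by ring
  have e3 : (M : ℝ) ^ 2 * (((2 * K * lam) ^ m * PP) ^ (M - 1) * B) ≤
      p * kap ^ (m * M) / 8 * (lam ^ (m * M) * PP ^ M * om) := by
    calc _ ≤ (M : ℝ) ^ 2 * (((2 * K * lam) ^ m * PP) ^ (M - 1) * (c * lam ^ m * om * PP)) := by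
          refine mul_le_mul_of_nonneg_left (mul_le_mul_of_nonneg_left hB ?_) (by positivity)
          positivity
      _ ≤ (M : ℝ) ^ 2 * (c * (2 * K) ^ (m * M) * lam ^ (m * M) * PP ^ M * om) :=
          mul_le_mul_of_nonneg_left e2 (by positivity)
      _ = (c * (M : ℝ) ^ 2 * (2 * K) ^ (m * M)) * (lam ^ (m * M) * PP ^ M * om) := by ring
      _ ≤ _ := mul_le_mul_of_nonneg_right hcc (by positivity)
  have e4 : p / 2 * om * (3 / 4 * (kap ^ (m * M) * lam ^ (m * M) * PP ^ M)) ≤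
      Ec * (3 / 4 * ((kap * lam) ^ m * PP) ^ M) := by
    rw [e1]
    exact mul_le_mul_of_nonneg_right hEc (by positivity)
  have e5 : p / 4 * kap ^ (m * M) * lam ^ (m * M) * PP ^ M * om =
      p / 2 * om * (3 / 4 * (kap ^ (m * M) * lam ^ (m * M) * PP ^ M)) -
        p * kap ^ (m * M) / 8 * (lam ^ (m * M) * PP ^ M * om) := by ring
  rw [e5]
  linarith

theorem low {V : Type} [Fintype V] (m M : ℕ) [hM : Fact M.Prime] (hm : 1 ≤ m) (hmM : m ≤ M)
    (Om : Finset ℕ) (W : ℕ → V → Prop) (lam K c p kap de C0 : ℝ) (hlam : 0 < lam) (hK : 1 ≤ K)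
    (hc : 0 < c) (hp : 0 < p) (hkap : 0 < kap) (hkap1 : kap ≤ 1) (hde : 0 < de)
    (hC0 : 4 * ((m * M : ℕ) : ℝ) ^ 2 ≤ C0 * kap * de) (hsize : C0 ≤ lam * Fintype.card V)
    (hcc : c * (M : ℝ) ^ 2 * (2 * K) ^ (m * M) ≤ p * kap ^ (m * M) / 8)
    (U : Fin m → Finset V) (hU : ∀ j, de * Fintype.card V ≤ (U j).card)
    (E : Finset ℕ) (hE : E ⊆ Om) (hEc : p / 2 * Om.card ≤ (E.card : ℝ))
    (hocc : ∀ N ∈ E, ∀ j, kap * lam * (U j).card ≤ occ W (U j) N ∧
      occ W (U j) N ≤ 2 * K * lam * (U j).card) :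
    p / 4 * kap ^ (m * M) * lam ^ (m * M) * (∏ j, ((U j).card : ℝ) ^ M) * Om.card ≤
      ∑ x ∈ goodc M Om W lam c U, hit Om W x := by
  classical
  have hM1 : 1 ≤ M := hM.out.one_lt.le
  set n : ℝ := (Fintype.card V : ℝ) with hn
  have hR1 : 1 ≤ m * M := Nat.mul_pos hm hM1
  have hC0pos : 0 < C0 := by
    have h1 : (0:ℝ) < 4 * ((m * M : ℕ) : ℝ) ^ 2 := by
      have : (0:ℝ) < ((m * M : ℕ) : ℝ) := by exact_mod_cast hR1
      positivity
    have h2 : 0 < C0 * (kap * de) := by
      have := h1.trans_le hC0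
      calc (0:ℝ) < C0 * kap * de := this
        _ = _ := by ring
    exact pos_of_mul_pos_left h2 (by positivity)
  have hnpos : 0 < n := by
    by_contra h1
    have h2 : n ≤ 0 := not_lt.1 h1
    have h3 : lam * n ≤ 0 := mul_nonpos_of_nonneg_of_nonpos hlam.le h2
    linarith
  have hUpos : ∀ j, (0:ℝ) < ((U j).card : ℝ) := fun j => lt_of_lt_of_le (by positivity) (hU j)
  set PP : ℝ := ∏ j, ((U j).card : ℝ) with hPP
  have hPP0 : 0 < PP := Finset.prod_pos fun j _ => hUpos j
  have hPPM : ∏ j, ((U j).card : ℝ) ^ M = PP ^ M := by rw [Finset.prod_pow]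
  rw [hPPM]
  have hβ0 : ∀ N, 0 ≤ cntW W (unp Om W lam c U) N := fun N => cntW_nonneg _ _ _
  clear_value PP n
  -- the sum of the β
  have hsumβ : ∑ N ∈ E, cntW W (unp Om W lam c U) N ≤ c * lam ^ m * Om.card * PP := by
    calc ∑ N ∈ E, cntW W (unp Om W lam c U) N ≤ ∑ N ∈ Om, cntW W (unp Om W lam c U) N :=
          Finset.sum_le_sum_of_subset_of_nonneg hE fun N _ _ => hβ0 N
      _ = ∑ y ∈ unp Om W lam c U, hit Om W y := sum_hit Om W _
      _ ≤ ∑ y ∈ unp Om W lam c U, c * lam ^ m * Om.card := by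
          refine Finset.sum_le_sum fun y hy => ?_
          have h1 : ¬ Pop Om W lam c y := (Finset.mem_filter.1 hy).2
          unfold Pop at h1
          exact (not_le.1 h1).le
      _ = (unp Om W lam c U).card * (c * lam ^ m * Om.card) := by rw [Finset.sum_const, nsmul_eq_mul]
      _ ≤ PP * (c * lam ^ m * Om.card) := by
          refine mul_le_mul_of_nonneg_right ?_ (by positivity)
          have h2 : (unp Om W lam c U).card ≤ (Fintype.piFinset U).card := Finset.card_filter_le _ _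
          rw [Fintype.card_piFinset] at h2
          have h3 : ((unp Om W lam c U).card : ℝ) ≤ ((∏ j, (U j).card : ℕ) : ℝ) := by exact_mod_cast h2
          rw [hPP]
          push_cast at h3
          exact h3
      _ = _ := by ring
  -- one N
  have hone : ∀ N ∈ E, 3 / 4 * ((kap * lam) ^ m * PP) ^ M -
      (M : ℝ) ^ 2 * (((2 * K * lam) ^ m * PP) ^ (M - 1) * cntW W (unp Om W lam c U) N) ≤
        cntW W (goodc M Om W lam c U) N := by
    intro N hN
    have h1 : ∀ j, 4 * ((m * M : ℕ) : ℝ) ^ 2 ≤ occ W (U j) N := by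
      intro j
      refine le_trans ?_ (hocc N hN j).1
      calc 4 * ((m * M : ℕ) : ℝ) ^ 2 ≤ C0 * kap * de := hC0
        _ ≤ (lam * n) * kap * de := by gcongr
        _ = kap * lam * (de * n) := by ring
        _ ≤ kap * lam * (U j).card := by
          have := hU j
          gcongr
    have h2 := one_N m M Om W lam c U N hm h1
    have h3 : (kap * lam) ^ m * PP ≤ ∏ j, occ W (U j) N := by
      have : (kap * lam) ^ m * PP = ∏ j : Fin m, (kap * lam * ((U j).card : ℝ)) := by
        rw [Finset.prod_mul_distrib, Finset.prod_const, Finset.card_univ, Fintype.card_fin, ← hPP]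
      rw [this]
      exact Finset.prod_le_prod (fun j _ => by positivity) fun j _ => (hocc N hN j).1
    have h4 : ∏ j, occ W (U j) N ≤ (2 * K * lam) ^ m * PP := by
      have : (2 * K * lam) ^ m * PP = ∏ j : Fin m, (2 * K * lam * ((U j).card : ℝ)) := by
        rw [Finset.prod_mul_distrib, Finset.prod_const, Finset.card_univ, Fintype.card_fin, ← hPP]
      rw [this]
      exact Finset.prod_le_prod (fun j _ => Nat.cast_nonneg _) fun j _ => (hocc N hN j).2
    have h0 : 0 ≤ ∏ j, occ W (U j) N := Finset.prod_nonneg fun j _ => Nat.cast_nonneg _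
    have h5 : ((kap * lam) ^ m * PP) ^ M ≤ (∏ j, occ W (U j) N) ^ M :=
      pow_le_pow_left₀ (by positivity) h3 M
    have h6 : (∏ j, occ W (U j) N) ^ (M - 1) ≤ ((2 * K * lam) ^ m * PP) ^ (M - 1) :=
      pow_le_pow_left₀ h0 h4 (M - 1)
    have h7 : (M : ℝ) ^ 2 * ((∏ j, occ W (U j) N) ^ (M - 1) * cntW W (unp Om W lam c U) N) ≤
        (M : ℝ) ^ 2 * (((2 * K * lam) ^ m * PP) ^ (M - 1) * cntW W (unp Om W lam c U) N) := by
      have := hβ0 N
      gcongr
    have h8 : 3 / 4 * (∏ j, occ W (U j) N) ^ M -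
      (M : ℝ) ^ 2 * ((∏ j, occ W (U j) N) ^ (M - 1) * cntW W (unp Om W lam c U) N) ≤
        cntW W (goodc M Om W lam c U) N := h2
    linarith
  have hsum := Finset.sum_le_sum hone
  rw [Finset.sum_sub_distrib, Finset.sum_const, nsmul_eq_mul, ← Finset.mul_sum, ← Finset.mul_sum] at hsum
  have hfin : ∑ N ∈ E, cntW W (goodc M Om W lam c U) N ≤
      ∑ x ∈ goodc M Om W lam c U, hit Om W x := by
    rw [← sum_hit]
    exact Finset.sum_le_sum_of_subset_of_nonneg hE fun N _ _ => cntW_nonneg _ _ _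
  refine le_trans ?_ (hsum.trans hfin)
  exact low_num m M hM1 lam K c p kap PP Om.card E.card _ hlam hK hc hkap hPP0 (Nat.cast_nonneg _) hp
    hcc hEc hsumβ

end Pool.Agent.H99.RO
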