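import Mathlib

/-!
[H99 RO RICH]  Difference vectors from a dense set.

Proof.  If `s^k - e ≤ 0` there is nothing to prove (`B = 1`, `et = 1`, `L0 = 0`): decide this first; assume `e < s^k ≤ 1`.  `e1 = min (s/4) (e/(8 (k+1)))`, so
`0 ≤ s - 2 e1` and `(s - 2 e1)^k ≥ s^k - 2 k e1 ≥ s^k - e/2` (Bernoulli-like: `s^k - t^k ≤ k (s - t)` for `0 ≤ t ≤ s ≤ 1`).  `B = ⌈3/e1⌉₊`, `L0 = ⌈3/e1⌉₊ + B + 1`, `et = e e1/(4 B^k)`
(the number of bad tuples is `≤ et (B L)^(k+1)`).
`G` = the set of the `x ∈ S` with `(s - 2 e1) L ≤ |S ∩ (x, x+L]|`.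
GREEDY COVERING: `|S \ G| ≤ (B + 1)((s - 2 e1) L + 1)`.  (By induction: for every `j`, the elements of `S \ G` in `(B L - j (L+1), B L]` are at most `j ((s - 2 e1) L + 1)`: let `x` be the least element of `S \ G`
 in the interval; `[x, x + L]` contains at most `(s - 2 e1) L + 1` elements of `S`, the others are `> x + L`, in `(B L - (j-1)(L+1), B L]`.  `(B+1)(L+1) ≥ B L`.)
 So `|G| ≥ s B L - (s - 2 e1) B L - L - B - 1 = 2 e1 B L - L - B - 1 ≥ e1 B L`.
For `x ∈ G` the number of the `n ∈ [1,L]^k` with all `x + n i ∈ S` is `|S ∩ (x, x+L]|^k ≥ ((s - 2 e1) L)^k`.  Sum over `x ∈ G`; the pairs `(x, n)` with `¬ P n` correspond to tuples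
`y = (x, x + n 0, ..)` of the hypothesis: at most `et (B L)^(k+1)`.  So some `x ∈ G` has at least `((s - 2 e1) L)^k - et (B L)^(k+1)/(e1 B L)` of the `n` with `P n`, and
`et B^k/e1 = e/4`: `≥ (s^k - e/2 - e/4) L^k`.
-/

namespace Pool.Agent.H99.RO

open Finset

private theorem rich_pow (k : ℕ) (s t : ℝ) (ht : 0 ≤ t) (hts : t ≤ s) (hs : s ≤ 1) :
    s ^ k - t ^ k ≤ k * (s - t) := by
  induction k with
  | zero => simp
  | succ k ih =>
    have h1 : t ^ k ≤ 1 := pow_le_one₀ ht (hts.trans hs)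
    have h2 : 0 ≤ s - t := by linarith
    have h3 : s ^ (k + 1) - t ^ (k + 1) = s * (s ^ k - t ^ k) + t ^ k * (s - t) := by ring
    have h4 : 0 ≤ s ^ k - t ^ k := by
      have := pow_le_pow_left₀ ht hts k
      linarith
    have h5 : s * (s ^ k - t ^ k) ≤ 1 * (s ^ k - t ^ k) := mul_le_mul_of_nonneg_right hs h4
    have h6 : t ^ k * (s - t) ≤ 1 * (s - t) := mul_le_mul_of_nonneg_right h1 h2
    rw [h3]
    push_cast
    linarith

open Classical in
private theorem rich_bad (L : ℕ) (S : Finset ℕ) (hS : S ⊆ Icc 1 L) (c : ℝ) (hc : 0 ≤ c) :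
    ((S.filter (fun x => ¬ c ≤ (((Icc 1 L).filter (fun v => x + v ∈ S)).card : ℝ))).card : ℝ) ≤ 1 + c := by
  obtain ⟨S', hS'⟩ : ∃ S' : Finset ℕ, S' = S.filter (fun x => ¬ c ≤ (((Icc 1 L).filter (fun v => x + v ∈ S)).card : ℝ)) :=
    ⟨_, rfl⟩
  rw [← hS']
  rcases S'.eq_empty_or_nonempty with h0 | hne
  · rw [h0, card_empty, Nat.cast_zero]
    linarith
  · have hx := S'.min'_mem hne
    obtain ⟨x, hxd⟩ : ∃ x, x = S'.min' hne := ⟨_, rfl⟩
    rw [← hxd] at hx
    have h1 : (S'.erase x).card ≤ ((Icc 1 L).filter (fun v => x + v ∈ S)).card := by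
      apply card_le_card_of_injOn (fun y => y - x)
      · intro y hy
        rw [mem_coe, mem_erase] at hy
        have h2 : x ≤ y := by
          rw [hxd]
          exact S'.min'_le y hy.2
        have h3 := hy.2
        rw [hS', mem_filter] at h3
        have h4 := mem_Icc.1 (hS h3.1)
        have h5 : x + (y - x) = y := by omega
        change y - x ∈ (Icc 1 L).filter (fun v => x + v ∈ S)
        rw [mem_filter, mem_Icc]
        have h6 : y ≠ x := hy.1
        refine ⟨⟨by omega, by omega⟩, ?_⟩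
        rw [h5]
        exact h3.1
      · intro y hy z hz hyz
        rw [mem_coe, mem_erase] at hy hz
        have h2 : x ≤ y := by
          rw [hxd]
          exact S'.min'_le y hy.2
        have h3 : x ≤ z := by
          rw [hxd]
          exact S'.min'_le z hz.2
        have h4 : y - x = z - x := hyz
        omega
    have h2 := card_erase_add_one hx
    have h3 : (S'.card : ℝ) = ((S'.erase x).card : ℝ) + 1 := by exact_mod_cast h2.symm
    have h4 := hx
    rw [hS', mem_filter] at h4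
    have h5 := h4.2
    push Not at h5
    have h6 : ((S'.erase x).card : ℝ) ≤ (((Icc 1 L).filter (fun v => x + v ∈ S)).card : ℝ) := by exact_mod_cast h1
    linarith

open Classical in
theorem rich (k : ℕ) (s e : ℝ) (hs0 : 0 < s) (hs1 : s ≤ 1) (he : 0 < e) : ∃ (B : ℕ) (et : ℝ) (L0 : ℕ), 1 ≤ B ∧ 0 < et ∧
    ∀ L : ℕ, L0 ≤ L → ∀ S : Finset ℕ, S ⊆ Icc 1 (B * L) → s * (B * L) ≤ (S.card : ℝ) →
    ∀ P : (Fin k → ℕ) → Prop,
      (((Fintype.piFinset fun _ : Fin (k + 1) => S).filter fun y =>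
        (∀ i : Fin k, y 0 < y i.succ ∧ y i.succ ≤ y 0 + L) ∧
          ¬ P (fun i => y i.succ - y 0)).card : ℝ) ≤ et * ((B * L : ℕ) : ℝ) ^ (k + 1) →
      (s ^ k - e) * (L : ℝ) ^ k ≤ (((Fintype.piFinset fun _ : Fin k => Icc 1 L).filter fun n => P n).card : ℝ) := by
  have hk0 : (0 : ℝ) < (k : ℝ) + 1 := by positivity
  obtain ⟨e1, he1d⟩ : ∃ e1 : ℝ, e1 = min (s / 4) (e / (8 * ((k : ℝ) + 1))) := ⟨_, rfl⟩
  have he1 : 0 < e1 := by
    rw [he1d]
    exact lt_min (by positivity) (by positivity)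
  have he1s : e1 ≤ s / 4 := by
    rw [he1d]
    exact min_le_left _ _
  have he1e : e1 ≤ e / (8 * ((k : ℝ) + 1)) := by
    rw [he1d]
    exact min_le_right _ _
  obtain ⟨t, ht⟩ : ∃ t : ℝ, t = s - 2 * e1 := ⟨_, rfl⟩
  have ht0 : 0 ≤ t := by linarith
  refine ⟨1, e * e1 / 4, ⌈1 / e1⌉₊ + 1, le_rfl, by positivity, ?_⟩
  intro L hL S hS hcard P hP
  rw [one_mul] at hS hP
  rw [Nat.cast_one, one_mul] at hcard
  have hL1 : (1 : ℝ) ≤ L := by
    have : 1 ≤ L := by omega
    exact_mod_cast this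
  have hLe : 1 ≤ e1 * L := by
    have h1 : 1 / e1 ≤ (⌈1 / e1⌉₊ : ℝ) := Nat.le_ceil _
    have h2 : ((⌈1 / e1⌉₊ + 1 : ℕ) : ℝ) ≤ L := by exact_mod_cast hL
    push_cast at h2
    have h3 : 1 / e1 ≤ L := by linarith
    rw [div_le_iff₀ he1] at h3
    linarith
  have hL0 : (0 : ℝ) < L := by linarith
  obtain ⟨m, hm⟩ : ∃ m : ℕ → ℕ, m = fun x => ((Icc 1 L).filter (fun v => x + v ∈ S)).card := ⟨_, rfl⟩
  obtain ⟨G, hG⟩ : ∃ G : Finset ℕ, G = S.filter (fun x => t * L ≤ (m x : ℝ)) := ⟨_, rfl⟩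
  have hbad : ((S.filter (fun x => ¬ t * L ≤ (m x : ℝ))).card : ℝ) ≤ 1 + t * L := by
    rw [hm]
    exact rich_bad L S hS (t * L) (by positivity)
  have hsplit := card_filter_add_card_filter_not (s := S) (fun x => t * L ≤ (m x : ℝ))
  rw [← hG] at hsplit
  have hsplitR : (G.card : ℝ) + ((S.filter (fun x => ¬ t * L ≤ (m x : ℝ))).card : ℝ) = S.card := by exact_mod_cast hsplit
  have hg : e1 * L ≤ G.card := by
    have h1 : t * L = s * L - 2 * (e1 * L) := by
      rw [ht]
      ring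
    linarith
  have hg0 : (0 : ℝ) < G.card := by linarith
  obtain ⟨NP, hNP⟩ : ∃ NP : ℕ, NP = ((Fintype.piFinset fun _ : Fin k => Icc 1 L).filter fun n => P n).card := ⟨_, rfl⟩
  rw [← hNP]
  have h1 : ∀ x ∈ G, (t * L) ^ k ≤ (NP : ℝ) +
      (((Fintype.piFinset fun _ : Fin k => Icc 1 L).filter fun n => (∀ i, x + n i ∈ S) ∧ ¬ P n).card : ℝ) := by
    intro x hx
    rw [hG, mem_filter] at hx
    have h2 : (t * L) ^ k ≤ (m x : ℝ) ^ k := pow_le_pow_left₀ (by positivity) hx.2 k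
    have h3 : m x ^ k = ((Fintype.piFinset fun _ : Fin k => Icc 1 L).filter fun n => ∀ i, x + n i ∈ S).card := by
      have h4 : (Fintype.piFinset fun _ : Fin k => Icc 1 L).filter (fun n => ∀ i, x + n i ∈ S) =
          Fintype.piFinset (fun _ : Fin k => (Icc 1 L).filter (fun v => x + v ∈ S)) := by
        ext n
        rw [mem_filter, Fintype.mem_piFinset, Fintype.mem_piFinset]
        simp only [mem_filter]
        exact forall_and.symm
      rw [h4, Fintype.card_piFinset, prod_const, card_univ, Fintype.card_fin, hm]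
    have h4 : ((Fintype.piFinset fun _ : Fin k => Icc 1 L).filter fun n => ∀ i, x + n i ∈ S).card ≤
        NP + ((Fintype.piFinset fun _ : Fin k => Icc 1 L).filter fun n => (∀ i, x + n i ∈ S) ∧ ¬ P n).card := by
      rw [hNP]
      refine (card_le_card ?_).trans (card_union_le _ _)
      intro n hn
      rw [mem_filter] at hn
      rw [mem_union, mem_filter, mem_filter]
      by_cases hPn : P n
      · left
        exact ⟨hn.1, hPn⟩
      · right
        exact ⟨hn.1, hn.2, hPn⟩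
    rw [← h3] at h4
    have h5 : (m x : ℝ) ^ k ≤ (NP : ℝ) +
      (((Fintype.piFinset fun _ : Fin k => Icc 1 L).filter fun n => (∀ i, x + n i ∈ S) ∧ ¬ P n).card : ℝ) := by
      exact_mod_cast h4
    exact h2.trans h5
  have h2 : ∑ x ∈ G, (((Fintype.piFinset fun _ : Fin k => Icc 1 L).filter fun n => (∀ i, x + n i ∈ S) ∧ ¬ P n).card : ℝ) ≤
      e * e1 / 4 * (L : ℝ) ^ (k + 1) := by
    refine le_trans ?_ hP
    rw [← Nat.cast_sum, ← card_sigma]
    have h3 : (G.sigma fun x => (Fintype.piFinset fun _ : Fin k => Icc 1 L).filter fun n => (∀ i, x + n i ∈ S) ∧ ¬ P n).card ≤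
        ((Fintype.piFinset fun _ : Fin (k + 1) => S).filter fun y =>
          (∀ i : Fin k, y 0 < y i.succ ∧ y i.succ ≤ y 0 + L) ∧ ¬ P (fun i => y i.succ - y 0)).card := by
      apply card_le_card_of_injOn (fun p => (Fin.cons p.1 (fun i => p.1 + p.2 i) : Fin (k + 1) → ℕ))
      · intro p hp
        rw [mem_coe, mem_sigma, mem_filter, Fintype.mem_piFinset] at hp
        obtain ⟨hp1, hp2, hp3, hp4⟩ := hp
        rw [hG, mem_filter] at hp1
        rw [mem_coe, mem_filter, Fintype.mem_piFinset]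
        refine ⟨?_, ?_, ?_⟩
        · intro i
          refine Fin.cases ?_ (fun i => ?_) i
          · exact hp1.1
          · exact hp3 i
        · intro i
          have h5 := mem_Icc.1 (hp2 i)
          change p.1 < p.1 + p.2 i ∧ p.1 + p.2 i ≤ p.1 + L
          omega
        · have h5 : (fun i => (Fin.cons p.1 (fun i => p.1 + p.2 i) : Fin (k + 1) → ℕ) i.succ -
              (Fin.cons p.1 (fun i => p.1 + p.2 i) : Fin (k + 1) → ℕ) 0) = p.2 := by
            funext i
            change p.1 + p.2 i - p.1 = p.2 i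
            omega
          rw [h5]
          exact hp4
      · intro p hp q hq hpq
        obtain ⟨p1, p2⟩ := p
        obtain ⟨q1, q2⟩ := q
        have h5 : p1 = q1 := congrFun hpq 0
        subst h5
        have h6 : p2 = q2 := by
          funext i
          have h7 : p1 + p2 i = p1 + q2 i := congrFun hpq i.succ
          omega
        rw [h6]
    exact_mod_cast h3
  have h3 := sum_le_sum h1
  rw [sum_const, nsmul_eq_mul, sum_add_distrib, sum_const, nsmul_eq_mul] at h3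
  have h4 : e * e1 / 4 * (L : ℝ) ^ (k + 1) ≤ G.card * (e / 4 * (L : ℝ) ^ k) := by
    have h5 : e * e1 / 4 * (L : ℝ) ^ (k + 1) = (e1 * L) * (e / 4 * (L : ℝ) ^ k) := by
      rw [pow_succ]
      ring
    rw [h5]
    exact mul_le_mul_of_nonneg_right hg (by positivity)
  have h5 : (G.card : ℝ) * (t * L) ^ k ≤ G.card * (NP + e / 4 * (L : ℝ) ^ k) := by
    rw [mul_add]
    linarith
  have h6 := le_of_mul_le_mul_left h5 hg0
  rw [mul_pow] at h6
  have h7 := rich_pow k s t ht0 (by linarith) hs1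
  have h8 : (k : ℝ) * (s - t) ≤ e / 4 := by
    have h9 : s - t = 2 * e1 := by
      rw [ht]
      ring
    rw [h9]
    rw [le_div_iff₀ (by positivity)] at he1e
    have h10 : e1 * (8 * ((k : ℝ) + 1)) = 4 * (k * (2 * e1)) + 8 * e1 := by ring
    linarith
  have h9 : (s ^ k - e) * (L : ℝ) ^ k ≤ (t ^ k - e / 4) * (L : ℝ) ^ k :=
    mul_le_mul_of_nonneg_right (by linarith) (by positivity)
  have h10 : (t ^ k - e / 4) * (L : ℝ) ^ k = t ^ k * (L : ℝ) ^ k - e / 4 * (L : ℝ) ^ k := by ring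
  linarith

end Pool.Agent.H99.RO
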