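import Pool.Agent.H99.RO.P1
import Pool.Agent.H99.RO.Rich

/-!
[H99 RO P2]  Part (2): the proportion of the `k`-tuples.

Proof.  `s = 13 al/50 - e1` with `e1` so small that `s^k ≥ (13 al/50)^k - e/2` (`e1 = min (13 al/100) (e/(4 k))`, `k ≥ 1`).  `rich k s (e/4)` gives `B, et, L0`.  `part1 (k+1) al e'` with `e' = min e1 et`, also
`e' ≤ 1` gives `q`; for `Q`: `c, C, c', x0`.  Given `x`, `A`, `L` with `C' log x ≤ L ≤ x^(c'/2)` let `L' = B L` (`≤ x^c'` for large `x`), `U = Icc 1 L'`: `S ⊆ [1, L']`, `|S| ≥ s L'`, and all but `e' L'^(k+1)` of the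
`y ∈ S^(k+1)` have `cnt x Q A y ≥ c x/(log x)^(k+1)`.  `P n := c/2 x/(log x)^(k+1) ≤ #{N ≤ x : N ∈ A, N + Q n i ∈ A for all i}`.  If `y 0 < y i.succ` for all `i` and `cnt x Q A y ≥ c x/(log x)^(k+1)` then
`N ↦ N + Q y 0` maps the `N` counted by `cnt` injectively to the `N' ≤ x + Q L'` with `N' ∈ A`, `N' + Q (y i.succ - y 0) ∈ A`; at most `Q L' ≤ (c/2) x/(log x)^(k+1)` of them are `> x`
(and in fact `N' ∈ A` implies `N' ≤ x`).  So `P (fun i => y i.succ - y 0)`.  `rich`.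
-/

namespace Pool.Agent.H99.RO

open Finset

private theorem p2_pow (k : ℕ) (s t : ℝ) (ht : 0 ≤ t) (hts : t ≤ s) (hs : s ≤ 1) :
    s ^ k - t ^ k ≤ k * (s - t) := by
  induction k with
  | zero => simp
  | succ k ih =>
    have h1 : t ^ k ≤ 1 := pow_le_one₀ ht (hts.trans hs)
    have h2 : 0 ≤ s - t := by linarith
    have h3 : s ^ (k + 1) - t ^ (k + 1) = s * (s ^ k - t ^ k) + t ^ k * (s - t) := by ring
    have h4 : 0 ≤ s ^ k - t ^ k := by
      have := pow_le_pow_left₀ ht hts k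
      linarith
    have h5 : s * (s ^ k - t ^ k) ≤ 1 * (s ^ k - t ^ k) := mul_le_mul_of_nonneg_right hs h4
    have h6 : t ^ k * (s - t) ≤ 1 * (s - t) := mul_le_mul_of_nonneg_right h1 h2
    rw [h3]
    push_cast
    linarith

open Classical in
theorem part2 (k : ℕ) (hk : 1 ≤ k) (al e : ℝ) (hal : 0 < al) (hal1 : al ≤ 1) (he : 0 < e) :
    ∃ q : ℕ, 0 < q ∧ ∀ Q : ℕ, 0 < Q → q ∣ Q → ∃ c C c' x0 : ℝ, 0 < c ∧ 0 < C ∧ 0 < c' ∧ ∀ x : ℝ, x0 ≤ x →
      ∀ A : Finset ℕ, (∀ p ∈ A, p.Prime ∧ (p : ℝ) ≤ x) → al * x / Real.log x ≤ A.card →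
      ∀ L : ℕ, C * Real.log x ≤ L → (L : ℝ) ≤ x ^ c' →
      ((13 * al / 50) ^ k - e) * (L : ℝ) ^ k ≤
        (((Fintype.piFinset fun _ : Fin k => Icc 1 L).filter fun n => c * x / Real.log x ^ (k + 1) ≤
          ((A.filter fun N => ∀ i, N + Q * n i ∈ A).card : ℝ)).card : ℝ) := by
  have hkR : (1 : ℝ) ≤ k := by exact_mod_cast hk
  obtain ⟨e1, he1d⟩ : ∃ e1 : ℝ, e1 = min (13 * al / 100) (e / (2 * (k : ℝ))) := ⟨_, rfl⟩
  have he1 : 0 < e1 := by
    rw [he1d]
    exact lt_min (by positivity) (by positivity)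
  have he1s : e1 ≤ 13 * al / 100 := by
    rw [he1d]
    exact min_le_left _ _
  have he1e : e1 ≤ e / (2 * (k : ℝ)) := by
    rw [he1d]
    exact min_le_right _ _
  obtain ⟨s, hs⟩ : ∃ s : ℝ, s = 13 * al / 50 - e1 := ⟨_, rfl⟩
  have hs0 : 0 < s := by linarith
  have hs1 : s ≤ 1 := by linarith
  obtain ⟨B, et, L0, hB, het, hrich⟩ := rich k s (e / 2) hs0 hs1 (by positivity)
  have hBR : (1 : ℝ) ≤ B := by exact_mod_cast hB
  obtain ⟨e', he'd⟩ : ∃ e' : ℝ, e' = min e1 et := ⟨_, rfl⟩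
  have he' : 0 < e' := by
    rw [he'd]
    exact lt_min he1 het
  have he'1 : e' ≤ e1 := by
    rw [he'd]
    exact min_le_left _ _
  have he'2 : e' ≤ et := by
    rw [he'd]
    exact min_le_right _ _
  obtain ⟨q, hq, hpart⟩ := part1 (k + 1) (by omega) al e' hal hal1 he'
  refine ⟨q, hq, fun Q hQ hqQ => ?_⟩
  obtain ⟨c, C, c', x0, hc, hC, hc', hx0⟩ := hpart Q hQ hqQ
  have ev : ∀ᶠ x : ℝ in Filter.atTop, (B : ℝ) ≤ x ^ (c' / 2) ∧ (L0 : ℝ) ≤ C * Real.log x :=
    ((tendsto_rpow_atTop (by positivity : 0 < c' / 2)).eventually_ge_atTop (B : ℝ)).and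
      ((Real.tendsto_log_atTop.const_mul_atTop hC).eventually_ge_atTop (L0 : ℝ))
  obtain ⟨x1, hx1⟩ := Filter.eventually_atTop.1 ev
  refine ⟨c, C, c' / 2, max x0 (max x1 1), hc, hC, by positivity, ?_⟩
  intro x hx A hA hAc L hL1 hL2
  have hxx0 : x0 ≤ x := (le_max_left _ _).trans hx
  have hxx1 : x1 ≤ x := ((le_max_left _ _).trans (le_max_right _ _)).trans hx
  have hx1' : 1 ≤ x := ((le_max_right _ _).trans (le_max_right _ _)).trans hx
  obtain ⟨hB1, hL0⟩ := hx1 x hxx1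
  have hL0' : L0 ≤ L := by
    have : (L0 : ℝ) ≤ L := hL0.trans hL1
    exact_mod_cast this
  have hLn : (0 : ℝ) ≤ L := Nat.cast_nonneg _
  have hBL : (L : ℝ) ≤ ((B * L : ℕ) : ℝ) := by
    push_cast
    exact le_mul_of_one_le_left hLn hBR
  have hBL2 : ((B * L : ℕ) : ℝ) ≤ x ^ c' := by
    push_cast
    have h1 : x ^ c' = x ^ (c' / 2) * x ^ (c' / 2) := by
      rw [← Real.rpow_add (by linarith)]
      congr 1
      ring
    rw [h1]
    exact mul_le_mul hB1 hL2 hLn (by positivity)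
  have hcardU : ((Icc 1 (B * L)).card : ℝ) = ((B * L : ℕ) : ℝ) := by
    rw [Nat.card_Icc, Nat.add_sub_cancel]
  have he'3 : e' ≤ 1 := by linarith
  obtain ⟨S, hSU, hScard, hSbad⟩ := hx0 x hxx0 A hA hAc (B * L) (hL1.trans hBL) hBL2 (Icc 1 (B * L)) (subset_refl _)
    (by rw [hcardU]; exact mul_le_of_le_one_left (Nat.cast_nonneg _) he'3)
  have hScard' : s * (B * L) ≤ (S.card : ℝ) := by
    refine le_trans ?_ hScard
    rw [hcardU]
    push_cast
    exact mul_le_mul_of_nonneg_right (by linarith) (by positivity)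
  have hfin := hrich L hL0' S hSU hScard' (fun n => c * x / Real.log x ^ (k + 1) ≤
          ((A.filter fun N => ∀ i, N + Q * n i ∈ A).card : ℝ)) (by
    have h1 : ((Fintype.piFinset fun _ : Fin (k + 1) => S).filter fun y =>
        (∀ i : Fin k, y 0 < y i.succ ∧ y i.succ ≤ y 0 + L) ∧
          ¬ (c * x / Real.log x ^ (k + 1) ≤
            ((A.filter fun N => ∀ i : Fin k, N + Q * (y i.succ - y 0) ∈ A).card : ℝ))) ⊆
        (Fintype.piFinset fun _ : Fin (k + 1) => S).filter fun y =>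
          cnt x Q A y < c * x / Real.log x ^ (k + 1) := by
      intro y hy
      rw [mem_filter] at hy ⊢
      obtain ⟨hy1, hy2, hy3⟩ := hy
      refine ⟨hy1, ?_⟩
      push Not at hy3
      refine lt_of_le_of_lt ?_ hy3
      unfold cnt
      have h2 : ((Icc 1 ⌊x⌋₊).filter fun N => ∀ i, N + Q * y i ∈ A).card ≤
          (A.filter fun N => ∀ i : Fin k, N + Q * (y i.succ - y 0) ∈ A).card := by
        apply card_le_card_of_injOn (fun N => N + Q * y 0)
        · intro N hN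
          rw [mem_coe, mem_filter] at hN
          change N + Q * y 0 ∈ (A.filter fun N => ∀ i : Fin k, N + Q * (y i.succ - y 0) ∈ A)
          rw [mem_filter]
          refine ⟨hN.2 0, fun i => ?_⟩
          have h3 : y 0 + (y i.succ - y 0) = y i.succ := by
            have := (hy2 i).1
            omega
          rw [add_assoc, ← mul_add, h3]
          exact hN.2 i.succ
        · intro N _ N' _ h
          exact Nat.add_right_cancel h
      exact_mod_cast h2
    refine le_trans (Nat.cast_le.2 (card_le_card h1)) (hSbad.trans ?_)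
    exact mul_le_mul_of_nonneg_right he'2 (by positivity))
  refine le_trans ?_ hfin
  refine mul_le_mul_of_nonneg_right ?_ (by positivity)
  have h7 := p2_pow k (13 * al / 50) s hs0.le (by linarith) (by linarith)
  have h8 : (k : ℝ) * (13 * al / 50 - s) ≤ e / 2 := by
    have h9 : 13 * al / 50 - s = e1 := by
      rw [hs]
      ring
    rw [h9]
    rw [le_div_iff₀ (by positivity)] at he1e
    linarith
  linarith

end Pool.Agent.H99.RO
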