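import Pool.Agent.H99.RO.K4

/-!
[H99 RO QUAD]  Pairs with difference in `D U` in a set which is dense in four classes; choice of the classes.

`pt D z i` = the `i`-th of the points `0, D x, D y, D n`.
* `quad_pairs`.  `Ts` = the `t ∈ [1, n - D L]` with `t ≡ t0 (Q)`, `|Ts| ≤ n/Q + 1`.  Fix `z ∈ T`.  For every `i` the `v ∈ S` with `v ≡ t0 + pt i` which are not of the form `t + pt D z i`, `t ∈ Ts`, lie in
 `[1, pt i] ∪ (n - D L + pt i, n]`, so they are at most `D L/Q + 2` in number (`pt D z i ≤ D L`).  So `∑_i #{t ∈ Ts : t + pt i ∈ S} ≥ DS - 4 D L/Q - 8`, where `DS = ∑_i #{v ∈ S : v ≡ ..}`, and since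
 `#{i : t + pt i ∈ S} ≤ 1 + 3 [at least two]`, the number of the `t ∈ Ts` for which at least two of the `t + pt i` are in `S` is at least `(DS - 4 D L/Q - 8 - (n/Q + 1))/3`.  Sum over `z ∈ T`.
 On the other hand every such `(t, z)` gives some `i < j` with `v = t + pt i < v' = t + pt j`, both in `S`, `v' - v ∈ D U`; and for fixed `i < j`, `(v, v')` there are at most `(L/Q + 1)^2` pairs `(t, z)`: of the four
 parameters `t, x, y, n` two are determined by the others (for `i = 0`: `t = v` and `pt j`; for `i ≥ 1`: `t` and `pt i` with `t + pt i = v` and `pt j = v' - t`, so the two free parameters are `pt i` and the third one),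
 and the free parameters are numbers `≤ L` in a fixed class modulo `Q`.  Six pairs `i < j`: the left side is at most `3 * 6 (L/Q + 1)^2 #pairs`.
* `cls_pig`.  Pigeonhole over the `Q^3` classes of `z` modulo `Q` gives `x0, y0, n0 < Q` with the first inequality; take a `z ∈ T` in this class (`T` is nonempty).  For `t0`: for each prime `p ∣ Q` choose a class of `t0` modulo `p`
 such that `p` divides none of the `t0 + pt i`: `p = 2`: `t0` odd (`D` even); `p = 3`: `D x ≡ D y ≡ D`, `D n ≡ 0 (3)`: two classes only; `p ≥ 5`: at most four classes to avoid.  Chinese remainder theorem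
 (`Nat.chineseRemainderOfFinset` over `Q.primeFactors`); `Nat.Coprime a Q` iff no prime `p ∣ Q` divides `a`.  (`pt D (x0,y0,n0) i ≡ pt D z i` modulo `p ∣ Q`; for `p = 3 ∣ Q` this is why `z` is needed.)
-/

namespace Pool.Agent.H99.RO

open Finset

/-- the points `0, D x, D y, D n` -/
def pt (D : ℕ) (z : ℕ × ℕ × ℕ) : Fin 4 → ℕ := ![0, D * z.1, D * z.2.1, D * z.2.2]

private lemma q_cls (a b Q c : ℕ) (hQ : 0 < Q) (hab : a ≤ b) :
    (((Ioc a b).filter fun v => v ≡ c [MOD Q]).card : ℝ) ≤ ((b : ℝ) - a) / Q + 1 := by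
  have h := Nat.Ioc_filter_modEq_card a b hQ c
  have hQ' : (0 : ℚ) < Q := by exact_mod_cast hQ
  have h1 : ((((Ioc a b).filter fun v => v ≡ c [MOD Q]).card : ℤ) : ℚ) ≤ ((b : ℚ) - a) / Q + 1 := by
    rw [h]
    rcases le_total (⌊((b : ℚ) - c) / Q⌋ - ⌊((a : ℚ) - c) / Q⌋) 0 with h0 | h0
    · rw [max_eq_right h0]
      have : (0 : ℚ) ≤ ((b : ℚ) - a) / Q := by
        apply div_nonneg _ hQ'.le
        have : (a : ℚ) ≤ b := by exact_mod_cast hab
        linarith
      push_cast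
      linarith
    · rw [max_eq_left h0]
      push_cast
      have h2 := Int.floor_le (((b : ℚ) - c) / Q)
      have h3 := Int.lt_floor_add_one (((a : ℚ) - c) / Q)
      have h4 : ((b : ℚ) - c) / Q - ((a : ℚ) - c) / Q = ((b : ℚ) - a) / Q := by
        rw [← sub_div]
        congr 1
        ring
      linarith
  have h5 : (((((Ioc a b).filter fun v => v ≡ c [MOD Q]).card : ℤ) : ℚ) : ℝ) ≤
      ((((b : ℚ) - a) / Q + 1 : ℚ) : ℝ) := by exact_mod_cast h1
  push_cast at h5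
  exact h5

private lemma pt_le {D L : ℕ} {U : Finset ℕ} (hU : U ⊆ Icc 1 L) {z : ℕ × ℕ × ℕ} (hz : Q4 U z)
    (i : Fin 4) : pt D z i ≤ D * L := by
  obtain ⟨h1, h2, h3, h4, h5, -⟩ := hz
  have h6 := (mem_Icc.1 (hU h3)).2
  have h7 := (mem_Icc.1 (hU h4)).2
  have h8 := (mem_Icc.1 (hU h5)).2
  fin_cases i
  · exact Nat.zero_le _
  · exact Nat.mul_le_mul_left D h6
  · exact Nat.mul_le_mul_left D h7
  · exact Nat.mul_le_mul_left D h8

private lemma pt_diff {D : ℕ} {U : Finset ℕ} {z : ℕ × ℕ × ℕ} (hz : Q4 U z)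
    {i j : Fin 4} (hij : i < j) : ∃ u ∈ U, pt D z j = pt D z i + D * u := by
  obtain ⟨h1, h2, h3, h4, h5, h6, h7, h8⟩ := hz
  have e1 : D * z.2.1 = D * z.1 + D * (z.2.1 - z.1) := by
    rw [← Nat.mul_add]
    congr 1
    omega
  have e2 : D * z.2.2 = D * z.1 + D * (z.2.2 - z.1) := by
    rw [← Nat.mul_add]
    congr 1
    omega
  have e3 : D * z.2.2 = D * z.2.1 + D * (z.2.2 - z.2.1) := by
    rw [← Nat.mul_add]
    congr 1
    omega
  fin_cases i <;> fin_cases j <;> simp at hij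
  · exact ⟨z.1, h3, (Nat.zero_add _).symm⟩
  · exact ⟨z.2.1, h4, (Nat.zero_add _).symm⟩
  · exact ⟨z.2.2, h5, (Nat.zero_add _).symm⟩
  · exact ⟨_, h6, e1⟩
  · exact ⟨_, h7, e2⟩
  · exact ⟨_, h8, e3⟩

private lemma pt_mod {D Q : ℕ} {z z0 : ℕ × ℕ × ℕ}
    (h : z.1 ≡ z0.1 [MOD Q] ∧ z.2.1 ≡ z0.2.1 [MOD Q] ∧ z.2.2 ≡ z0.2.2 [MOD Q]) (i : Fin 4) :
    pt D z i ≡ pt D z0 i [MOD Q] := by
  fin_cases i
  · exact Nat.ModEq.refl _
  · exact h.1.mul_left D
  · exact h.2.1.mul_left D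
  · exact h.2.2.mul_left D

/-- the fibre over one pair -/
private lemma q_fib (D L Q : ℕ) (hD : 0 < D) (hQ : 0 < Q) (z0 : ℕ × ℕ × ℕ)
    (T : Finset (ℕ × ℕ × ℕ)) (hT : ∀ z ∈ T, z.1 ∈ Ioc 0 L ∧ z.2.1 ∈ Ioc 0 L ∧ z.2.2 ∈ Ioc 0 L)
    (hcl : ∀ z ∈ T, z.1 ≡ z0.1 [MOD Q] ∧ z.2.1 ≡ z0.2.1 [MOD Q] ∧ z.2.2 ≡ z0.2.2 [MOD Q])
    (Ts : Finset ℕ) (i j : Fin 4) (hij : i < j) (w : ℕ × ℕ) :
    (((T ×ˢ Ts).filter fun p => p.2 + pt D p.1 i = w.1 ∧ p.2 + pt D p.1 j = w.2).card : ℝ) ≤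
      ((L : ℝ) / Q + 1) ^ 2 := by
  have hC : ∀ c : ℕ, (((Ioc 0 L).filter fun v => v ≡ c [MOD Q]).card : ℝ) ≤ (L : ℝ) / Q + 1 := by
    intro c
    have h := q_cls 0 L Q c hQ (Nat.zero_le _)
    simpa using h
  have hC2 : ∀ c d : ℕ, ((((Ioc 0 L).filter fun v => v ≡ c [MOD Q]) ×ˢ
      ((Ioc 0 L).filter fun v => v ≡ d [MOD Q])).card : ℝ) ≤ ((L : ℝ) / Q + 1) ^ 2 := by
    intro c d
    rw [card_product, sq]
    push_cast
    exact mul_le_mul (hC c) (hC d) (Nat.cast_nonneg _) (by positivity)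
  have main : ∀ (g : (ℕ × ℕ × ℕ) → ℕ × ℕ) (c d : ℕ),
      (∀ z ∈ T, g z ∈ ((Ioc 0 L).filter fun v => v ≡ c [MOD Q]) ×ˢ
        ((Ioc 0 L).filter fun v => v ≡ d [MOD Q])) →
      (∀ z t z' t', t + pt D z i = w.1 → t + pt D z j = w.2 → t' + pt D z' i = w.1 →
        t' + pt D z' j = w.2 → g z = g z' → z = z' ∧ t = t') →
      (((T ×ˢ Ts).filter fun p => p.2 + pt D p.1 i = w.1 ∧ p.2 + pt D p.1 j = w.2).card : ℝ) ≤
        ((L : ℝ) / Q + 1) ^ 2 := by
    intro g c d hg hinj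
    refine le_trans ?_ (hC2 c d)
    rw [Nat.cast_le]
    refine card_le_card_of_injOn (fun p => g p.1) ?_ ?_
    · intro p hp
      have hp' := mem_coe.1 hp
      rw [mem_filter, mem_product] at hp'
      exact hg p.1 hp'.1.1
    · intro p hp p' hp' hgg
      have h1 := mem_coe.1 hp
      have h2 := mem_coe.1 hp'
      rw [mem_filter] at h1 h2
      obtain ⟨h3, h4⟩ := hinj p.1 p.2 p'.1 p'.2 h1.2.1 h1.2.2 h2.2.1 h2.2.2 hgg
      exact Prod.ext h3 h4
  have hDc : ∀ a b : ℕ, D * a = D * b → a = b := fun a b h => Nat.eq_of_mul_eq_mul_left hD h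
  fin_cases i <;> fin_cases j <;> simp at hij
  · refine main (fun z => (z.2.1, z.2.2)) z0.2.1 z0.2.2 ?_ ?_
    · intro z hz
      rw [mem_product, mem_filter, mem_filter]
      exact ⟨⟨(hT z hz).2.1, (hcl z hz).2.1⟩, ⟨(hT z hz).2.2, (hcl z hz).2.2⟩⟩
    · rintro ⟨x, y, n⟩ t ⟨x', y', n'⟩ t' h1 h2 h3 h4 h5
      simp only [Prod.mk.injEq] at h5
      obtain ⟨rfl, rfl⟩ := h5
      change t + 0 = w.1 at h1
      change t' + 0 = w.1 at h3
      change t + D * x = w.2 at h2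
      change t' + D * x' = w.2 at h4
      have h6 : t = t' := by omega
      have h7 : x = x' := hDc _ _ (by omega)
      rw [h6, h7]
      exact ⟨rfl, rfl⟩
  · refine main (fun z => (z.1, z.2.2)) z0.1 z0.2.2 ?_ ?_
    · intro z hz
      rw [mem_product, mem_filter, mem_filter]
      exact ⟨⟨(hT z hz).1, (hcl z hz).1⟩, ⟨(hT z hz).2.2, (hcl z hz).2.2⟩⟩
    · rintro ⟨x, y, n⟩ t ⟨x', y', n'⟩ t' h1 h2 h3 h4 h5
      simp only [Prod.mk.injEq] at h5
      obtain ⟨rfl, rfl⟩ := h5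
      change t + 0 = w.1 at h1
      change t' + 0 = w.1 at h3
      change t + D * y = w.2 at h2
      change t' + D * y' = w.2 at h4
      have h6 : t = t' := by omega
      have h7 : y = y' := hDc _ _ (by omega)
      rw [h6, h7]
      exact ⟨rfl, rfl⟩
  · refine main (fun z => (z.1, z.2.1)) z0.1 z0.2.1 ?_ ?_
    · intro z hz
      rw [mem_product, mem_filter, mem_filter]
      exact ⟨⟨(hT z hz).1, (hcl z hz).1⟩, ⟨(hT z hz).2.1, (hcl z hz).2.1⟩⟩
    · rintro ⟨x, y, n⟩ t ⟨x', y', n'⟩ t' h1 h2 h3 h4 h5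
      simp only [Prod.mk.injEq] at h5
      obtain ⟨rfl, rfl⟩ := h5
      change t + 0 = w.1 at h1
      change t' + 0 = w.1 at h3
      change t + D * n = w.2 at h2
      change t' + D * n' = w.2 at h4
      have h6 : t = t' := by omega
      have h7 : n = n' := hDc _ _ (by omega)
      rw [h6, h7]
      exact ⟨rfl, rfl⟩
  · refine main (fun z => (z.1, z.2.2)) z0.1 z0.2.2 ?_ ?_
    · intro z hz
      rw [mem_product, mem_filter, mem_filter]
      exact ⟨⟨(hT z hz).1, (hcl z hz).1⟩, ⟨(hT z hz).2.2, (hcl z hz).2.2⟩⟩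
    · rintro ⟨x, y, n⟩ t ⟨x', y', n'⟩ t' h1 h2 h3 h4 h5
      simp only [Prod.mk.injEq] at h5
      obtain ⟨rfl, rfl⟩ := h5
      change t + D * x = w.1 at h1
      change t' + D * x = w.1 at h3
      change t + D * y = w.2 at h2
      change t' + D * y' = w.2 at h4
      have h6 : t = t' := by omega
      have h7 : y = y' := hDc _ _ (by omega)
      rw [h6, h7]
      exact ⟨rfl, rfl⟩
  · refine main (fun z => (z.1, z.2.1)) z0.1 z0.2.1 ?_ ?_
    · intro z hz
      rw [mem_product, mem_filter, mem_filter]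
      exact ⟨⟨(hT z hz).1, (hcl z hz).1⟩, ⟨(hT z hz).2.1, (hcl z hz).2.1⟩⟩
    · rintro ⟨x, y, n⟩ t ⟨x', y', n'⟩ t' h1 h2 h3 h4 h5
      simp only [Prod.mk.injEq] at h5
      obtain ⟨rfl, rfl⟩ := h5
      change t + D * x = w.1 at h1
      change t' + D * x = w.1 at h3
      change t + D * n = w.2 at h2
      change t' + D * n' = w.2 at h4
      have h6 : t = t' := by omega
      have h7 : n = n' := hDc _ _ (by omega)
      rw [h6, h7]
      exact ⟨rfl, rfl⟩
  · refine main (fun z => (z.1, z.2.1)) z0.1 z0.2.1 ?_ ?_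
    · intro z hz
      rw [mem_product, mem_filter, mem_filter]
      exact ⟨⟨(hT z hz).1, (hcl z hz).1⟩, ⟨(hT z hz).2.1, (hcl z hz).2.1⟩⟩
    · rintro ⟨x, y, n⟩ t ⟨x', y', n'⟩ t' h1 h2 h3 h4 h5
      simp only [Prod.mk.injEq] at h5
      obtain ⟨rfl, rfl⟩ := h5
      change t + D * y = w.1 at h1
      change t' + D * y = w.1 at h3
      change t + D * n = w.2 at h2
      change t' + D * n' = w.2 at h4
      have h6 : t = t' := by omega
      have h7 : n = n' := hDc _ _ (by omega)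
      rw [h6, h7]
      exact ⟨rfl, rfl⟩

open Classical in
theorem quad_pairs (D L n Q : ℕ) (hD : 0 < D) (hQ : 0 < Q) (hLn : D * L ≤ n) (U : Finset ℕ)
    (hU : U ⊆ Icc 1 L) (T : Finset (ℕ × ℕ × ℕ)) (hT : ∀ z ∈ T, Q4 U z) (z0 : ℕ × ℕ × ℕ) (t0 : ℕ)
    (hcl : ∀ z ∈ T, z.1 ≡ z0.1 [MOD Q] ∧ z.2.1 ≡ z0.2.1 [MOD Q] ∧ z.2.2 ≡ z0.2.2 [MOD Q])
    (S : Finset ℕ) (hS : S ⊆ Icc 1 n) :
    (T.card : ℝ) * (∑ i : Fin 4, ((S.filter fun v => v ≡ t0 + pt D z0 i [MOD Q]).card : ℝ) -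
        (4 * D * L / Q + 8) - (n / Q + 1)) ≤
      18 * ((L : ℝ) / Q + 1) ^ 2 *
        (((S ×ˢ S).filter fun w => ∃ u ∈ U, w.2 = w.1 + D * u).card : ℝ) := by
  set Ts : Finset ℕ := (Ioc 0 (n - D * L)).filter (fun t => t ≡ t0 [MOD Q]) with hTs
  have hTsc : (Ts.card : ℝ) ≤ (n : ℝ) / Q + 1 := by
    have h := q_cls 0 (n - D * L) Q t0 hQ (Nat.zero_le _)
    refine h.trans ?_
    have h1 : ((n - D * L : ℕ) : ℝ) ≤ n := by exact_mod_cast Nat.sub_le _ _
    have h2 : (0 : ℝ) < Q := by exact_mod_cast hQ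
    have h3 : (((n - D * L : ℕ) : ℝ) - ((0 : ℕ) : ℝ)) / Q ≤ (n : ℝ) / Q := by
      rw [Nat.cast_zero, sub_zero]
      exact div_le_div_of_nonneg_right h1 h2.le
    linarith
  have hQR : (0 : ℝ) < Q := by exact_mod_cast hQ
  -- one quadruple
  have one : ∀ z ∈ T, ∑ i : Fin 4, ((S.filter fun v => v ≡ t0 + pt D z0 i [MOD Q]).card : ℝ) -
      (4 * D * L / Q + 8) - (n / Q + 1) ≤
        3 * ((Ts.filter fun t => ∃ i j : Fin 4, i < j ∧ t + pt D z i ∈ S ∧ t + pt D z j ∈ S).card : ℝ) := by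
    intro z hz
    have h1 : ∀ i : Fin 4, ((S.filter fun v => v ≡ t0 + pt D z0 i [MOD Q]).card : ℝ) ≤
        ((Ts.filter fun t => t + pt D z i ∈ S).card : ℝ) + ((D * L : ℝ) / Q + 2) := by
      intro i
      have hpl := pt_le (D := D) hU (hT z hz) i
      have hpm := pt_mod (D := D) (hcl z hz) i
      have hsub : (S.filter fun v => v ≡ t0 + pt D z0 i [MOD Q]) ⊆
          ((Ts.filter fun t => t + pt D z i ∈ S).image (fun t => t + pt D z i)) ∪
          (((Ioc 0 (pt D z i)).filter fun v => v ≡ t0 + pt D z0 i [MOD Q]) ∪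
            ((Ioc (n - D * L + pt D z i) n).filter fun v => v ≡ t0 + pt D z0 i [MOD Q])) := by
        intro v hv
        rw [mem_filter] at hv
        obtain ⟨hv1, hv2⟩ := hv
        have hv3 := mem_Icc.1 (hS hv1)
        rw [mem_union, mem_union]
        by_cases c1 : v ≤ pt D z i
        · right; left
          rw [mem_filter, mem_Ioc]
          exact ⟨⟨by omega, c1⟩, hv2⟩
        · by_cases c2 : n - D * L + pt D z i < v
          · right; right
            rw [mem_filter, mem_Ioc]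
            exact ⟨⟨c2, hv3.2⟩, hv2⟩
          · left
            rw [mem_image]
            have hve : v - pt D z i + pt D z i = v := by omega
            refine ⟨v - pt D z i, ?_, hve⟩
            rw [mem_filter, hve, hTs, mem_filter, mem_Ioc]
            refine ⟨⟨⟨by omega, by omega⟩, ?_⟩, hv1⟩
            refine Nat.ModEq.add_right_cancel hpm ?_
            rw [hve]
            exact hv2
      have hc := card_le_card hsub
      have hc1 : ((S.filter fun v => v ≡ t0 + pt D z0 i [MOD Q]).card : ℝ) ≤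
          ((Ts.filter fun t => t + pt D z i ∈ S).card : ℝ) +
          ((((Ioc 0 (pt D z i)).filter fun v => v ≡ t0 + pt D z0 i [MOD Q]).card : ℝ) +
            (((Ioc (n - D * L + pt D z i) n).filter fun v => v ≡ t0 + pt D z0 i [MOD Q]).card : ℝ)) := by
        have h2 := hc.trans (card_union_le _ _)
        have h3 := card_union_le (((Ioc 0 (pt D z i)).filter fun v => v ≡ t0 + pt D z0 i [MOD Q]))
            ((Ioc (n - D * L + pt D z i) n).filter fun v => v ≡ t0 + pt D z0 i [MOD Q])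
        have h4 := card_image_le (s := Ts.filter fun t => t + pt D z i ∈ S) (f := fun t => t + pt D z i)
        have h5 := h2.trans (add_le_add h4 h3)
        exact_mod_cast h5
      have hc2 := q_cls 0 (pt D z i) Q (t0 + pt D z0 i) hQ (Nat.zero_le _)
      have hc3 := q_cls (n - D * L + pt D z i) n Q (t0 + pt D z0 i) hQ (by omega)
      have hc4 : ((n : ℝ) - ((n - D * L + pt D z i : ℕ) : ℝ)) = (D : ℝ) * L - pt D z i := by
        have h6 : (((n - D * L : ℕ) : ℕ) : ℝ) = (n : ℝ) - D * L := by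
          rw [Nat.cast_sub hLn]
          push_cast
          ring
        rw [Nat.cast_add, h6]
        ring
      rw [hc4] at hc3
      have hc5 : (((pt D z i : ℕ) : ℝ) - ((0 : ℕ) : ℝ)) / Q + ((D : ℝ) * L - pt D z i) / Q =
          (D : ℝ) * L / Q := by
        rw [← add_div]
        congr 1
        push_cast
        ring
      linarith
    have h2 : ∑ i : Fin 4, ((Ts.filter fun t => t + pt D z i ∈ S).card : ℝ) ≤
        Ts.card + 3 * ((Ts.filter fun t => ∃ i j : Fin 4, i < j ∧ t + pt D z i ∈ S ∧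
          t + pt D z j ∈ S).card : ℝ) := by
      have h3 : ∀ t : ℕ, (∑ i : Fin 4, if t + pt D z i ∈ S then (1 : ℝ) else 0) ≤
          1 + 3 * (if ∃ i j : Fin 4, i < j ∧ t + pt D z i ∈ S ∧ t + pt D z j ∈ S then (1 : ℝ) else 0) := by
        intro t
        by_cases hp : ∃ i j : Fin 4, i < j ∧ t + pt D z i ∈ S ∧ t + pt D z j ∈ S
        · rw [if_pos hp]
          have h4 : (∑ i : Fin 4, if t + pt D z i ∈ S then (1 : ℝ) else 0) ≤ ∑ _i : Fin 4, (1 : ℝ) := by
            refine sum_le_sum fun i _ => ?_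
            split_ifs <;> norm_num
          refine h4.trans ?_
          simp
          norm_num
        · rw [if_neg hp]
          rw [sum_boole]
          have h4 : (univ.filter (fun i : Fin 4 => t + pt D z i ∈ S)).card ≤ 1 := by
            rw [card_le_one]
            intro i hi j hj
            by_contra hne
            rw [mem_filter] at hi hj
            rcases lt_or_gt_of_ne hne with hlt | hlt
            · exact hp ⟨i, j, hlt, hi.2, hj.2⟩
            · exact hp ⟨j, i, hlt, hj.2, hi.2⟩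
          have h5 : ((univ.filter (fun i : Fin 4 => t + pt D z i ∈ S)).card : ℝ) ≤ 1 := by
            exact_mod_cast h4
          linarith
      have h6 : ∀ i : Fin 4, ((Ts.filter fun t => t + pt D z i ∈ S).card : ℝ) =
          ∑ t ∈ Ts, if t + pt D z i ∈ S then (1 : ℝ) else 0 := by
        intro i
        rw [sum_boole]
      rw [sum_congr rfl fun i _ => h6 i, sum_comm]
      refine (sum_le_sum fun t _ => h3 t).trans ?_
      rw [sum_add_distrib, ← mul_sum, sum_boole, sum_const, nsmul_eq_mul, mul_one]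
    have h7 := sum_le_sum (s := (univ : Finset (Fin 4))) fun i _ => h1 i
    rw [sum_add_distrib] at h7
    have h8 : ∑ _i : Fin 4, ((D * L : ℝ) / Q + 2) = 4 * D * L / Q + 8 := by
      rw [sum_const, card_univ, Fintype.card_fin, nsmul_eq_mul]
      push_cast
      ring
    rw [h8] at h7
    linarith
  have h1 := sum_le_sum one
  rw [sum_const, nsmul_eq_mul, ← mul_sum] at h1
  refine h1.trans ?_
  set PP : Finset (ℕ × ℕ) := (S ×ˢ S).filter fun w => ∃ u ∈ U, w.2 = w.1 + D * u with hPP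
  set IJ4 : Finset (Fin 4 × Fin 4) := univ.filter (fun q => q.1 < q.2) with hIJ
  have hIJc : IJ4.card = 6 := by
    rw [hIJ]
    decide
  have h2 : ∑ z ∈ T, ((Ts.filter fun t => ∃ i j : Fin 4, i < j ∧ t + pt D z i ∈ S ∧
      t + pt D z j ∈ S).card : ℝ) ≤ 6 * ((L : ℝ) / Q + 1) ^ 2 * PP.card := by
    have h3 : ∑ z ∈ T, ((Ts.filter fun t => ∃ i j : Fin 4, i < j ∧ t + pt D z i ∈ S ∧
        t + pt D z j ∈ S).card : ℝ) = (((T ×ˢ Ts).filter fun p => ∃ i j : Fin 4, i < j ∧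
          p.2 + pt D p.1 i ∈ S ∧ p.2 + pt D p.1 j ∈ S).card : ℝ) := by
      have h4 : (((T ×ˢ Ts).filter fun p => ∃ i j : Fin 4, i < j ∧
          p.2 + pt D p.1 i ∈ S ∧ p.2 + pt D p.1 j ∈ S).card : ℝ) =
          ∑ p ∈ T ×ˢ Ts, if (∃ i j : Fin 4, i < j ∧ p.2 + pt D p.1 i ∈ S ∧ p.2 + pt D p.1 j ∈ S)
            then (1 : ℝ) else 0 := by
        rw [sum_boole]
      rw [h4, sum_product]
      refine sum_congr rfl fun z _ => ?_
      rw [sum_boole]
    rw [h3]
    have h5 : ((T ×ˢ Ts).filter fun p => ∃ i j : Fin 4, i < j ∧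
        p.2 + pt D p.1 i ∈ S ∧ p.2 + pt D p.1 j ∈ S) ⊆
        (IJ4 ×ˢ PP).biUnion (fun q => (T ×ˢ Ts).filter fun p =>
          p.2 + pt D p.1 q.1.1 = q.2.1 ∧ p.2 + pt D p.1 q.1.2 = q.2.2) := by
      intro p hp
      rw [mem_filter] at hp
      obtain ⟨hp1, i, j, hij, hi, hj⟩ := hp
      rw [mem_biUnion]
      refine ⟨((i, j), (p.2 + pt D p.1 i, p.2 + pt D p.1 j)), ?_, ?_⟩
      · rw [mem_product, hIJ, hPP, mem_filter, mem_filter, mem_product]
        refine ⟨⟨mem_univ _, hij⟩, ⟨hi, hj⟩, ?_⟩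
        obtain ⟨u, hu, hue⟩ := pt_diff (D := D) (hT p.1 (mem_product.1 hp1).1) hij
        refine ⟨u, hu, ?_⟩
        change p.2 + pt D p.1 j = p.2 + pt D p.1 i + D * u
        rw [hue]
        ring
      · rw [mem_filter]
        exact ⟨hp1, rfl, rfl⟩
    have h6 := (card_le_card h5).trans card_biUnion_le
    have h7 : (((T ×ˢ Ts).filter fun p => ∃ i j : Fin 4, i < j ∧
        p.2 + pt D p.1 i ∈ S ∧ p.2 + pt D p.1 j ∈ S).card : ℝ) ≤
        ∑ q ∈ IJ4 ×ˢ PP, (((T ×ˢ Ts).filter fun p =>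
          p.2 + pt D p.1 q.1.1 = q.2.1 ∧ p.2 + pt D p.1 q.1.2 = q.2.2).card : ℝ) := by
      exact_mod_cast h6
    refine h7.trans ?_
    have h8 : ∀ q ∈ IJ4 ×ˢ PP, (((T ×ˢ Ts).filter fun p =>
          p.2 + pt D p.1 q.1.1 = q.2.1 ∧ p.2 + pt D p.1 q.1.2 = q.2.2).card : ℝ) ≤
          ((L : ℝ) / Q + 1) ^ 2 := by
      intro q hq
      rw [mem_product, hIJ, mem_filter] at hq
      refine q_fib D L Q hD hQ z0 T ?_ hcl Ts q.1.1 q.1.2 hq.1.2 q.2
      intro z hz
      obtain ⟨h1, h2, h3, h4, h5, -⟩ := hT z hz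
      have h6 := mem_Icc.1 (hU h3)
      have h7 := mem_Icc.1 (hU h4)
      have h8 := mem_Icc.1 (hU h5)
      rw [mem_Ioc, mem_Ioc, mem_Ioc]
      exact ⟨⟨by omega, h6.2⟩, ⟨by omega, h7.2⟩, ⟨by omega, h8.2⟩⟩
    refine (sum_le_sum h8).trans (le_of_eq ?_)
    rw [sum_const, card_product, hIJc, nsmul_eq_mul]
    push_cast
    ring
  linarith

open Classical in
theorem cls_pig (D Q : ℕ) (hD : 2 ∣ D) (hQ : 0 < Q) (T : Finset (ℕ × ℕ × ℕ)) (hne : T.Nonempty)
    (hT : ∀ z ∈ T, z.1 % 3 = 1 ∧ z.2.1 % 3 = 1 ∧ z.2.2 % 3 = 0) : ∃ (z0 : ℕ × ℕ × ℕ) (t0 : ℕ),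
      (T.card : ℝ) / (Q : ℝ) ^ 3 ≤ ((T.filter fun z => z.1 ≡ z0.1 [MOD Q] ∧ z.2.1 ≡ z0.2.1 [MOD Q] ∧
        z.2.2 ≡ z0.2.2 [MOD Q]).card : ℝ) ∧ ∀ i, Nat.Coprime (t0 + pt D z0 i) Q := by
  have hQR : (0 : ℝ) < Q := by exact_mod_cast hQ
  have hTc : (0 : ℝ) < T.card := by exact_mod_cast card_pos.2 hne
  have hmaps : ∀ z ∈ T, (fun z : ℕ × ℕ × ℕ => (z.1 % Q, z.2.1 % Q, z.2.2 % Q)) z ∈
      range Q ×ˢ range Q ×ˢ range Q := by
    intro z _
    rw [mem_product, mem_product, mem_range, mem_range, mem_range]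
    exact ⟨Nat.mod_lt _ hQ, Nat.mod_lt _ hQ, Nat.mod_lt _ hQ⟩
  have hcq : ((range Q ×ˢ range Q ×ˢ range Q).card : ℝ) = (Q : ℝ) ^ 3 := by
    rw [card_product, card_product, card_range]
    push_cast
    ring
  obtain ⟨y, hy, hyc⟩ := exists_le_card_fiber_of_nsmul_le_card_of_maps_to
    (M := ℝ) (b := (T.card : ℝ) / (Q : ℝ) ^ 3) hmaps
    ⟨(0, 0, 0), by simp [hQ]⟩ (by
      rw [nsmul_eq_mul, hcq]
      rw [mul_div_cancel₀]
      positivity)
  have hpos : (0 : ℝ) < ((T.filter fun z => (z.1 % Q, z.2.1 % Q, z.2.2 % Q) = y).card : ℝ) :=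
    lt_of_lt_of_le (by positivity) hyc
  obtain ⟨z0, hz0⟩ := card_pos.1 (by exact_mod_cast hpos :
    0 < (T.filter fun z => (z.1 % Q, z.2.1 % Q, z.2.2 % Q) = y).card)
  rw [mem_filter] at hz0
  -- residues
  have hres : ∀ p : ℕ, ∃ r : ℕ, p.Prime → ∀ i, ¬ p ∣ r + pt D z0 i := by
    intro p
    by_cases hp : p.Prime
    swap
    · exact ⟨0, fun h => absurd h hp⟩
    by_cases hp2 : p = 2
    · refine ⟨1, fun _ i => ?_⟩
      rw [hp2]
      have h1 : ∀ i, 2 ∣ pt D z0 i := by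
        intro i
        fin_cases i
        · exact dvd_zero 2
        · exact Dvd.dvd.mul_right hD _
        · exact Dvd.dvd.mul_right hD _
        · exact Dvd.dvd.mul_right hD _
      have h2 := h1 i
      omega
    by_cases hp3 : p = 3
    · obtain ⟨h1, h2, h3⟩ := hT z0 hz0.1
      have e0 : pt D z0 0 % 3 = 0 := rfl
      have e1 : pt D z0 1 % 3 = D % 3 := by
        change (D * z0.1) % 3 = D % 3
        rw [Nat.mul_mod, h1, Nat.mul_one, Nat.mod_mod]
      have e2 : pt D z0 2 % 3 = D % 3 := by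
        change (D * z0.2.1) % 3 = D % 3
        rw [Nat.mul_mod, h2, Nat.mul_one, Nat.mod_mod]
      have e3 : pt D z0 3 % 3 = 0 := by
        change (D * z0.2.2) % 3 = 0
        rw [Nat.mul_mod, h3, Nat.mul_zero, Nat.zero_mod]
      rw [hp3]
      by_cases hD3 : D % 3 = 2
      · refine ⟨2, fun _ i => ?_⟩
        fin_cases i
        · change ¬ 3 ∣ 2 + pt D z0 0
          omega
        · change ¬ 3 ∣ 2 + pt D z0 1
          omega
        · change ¬ 3 ∣ 2 + pt D z0 2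
          omega
        · change ¬ 3 ∣ 2 + pt D z0 3
          omega
      · refine ⟨1, fun _ i => ?_⟩
        fin_cases i
        · change ¬ 3 ∣ 1 + pt D z0 0
          omega
        · change ¬ 3 ∣ 1 + pt D z0 1
          omega
        · change ¬ 3 ∣ 1 + pt D z0 2
          omega
        · change ¬ 3 ∣ 1 + pt D z0 3
          omega
    · have hp5 : 5 ≤ p := by
        by_contra hlt
        have h1 := hp.two_le
        have h4 : p = 4 := by omega
        rw [h4] at hp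
        exact absurd hp (by norm_num)
      have : Fact p.Prime := ⟨hp⟩
      have : NeZero p := ⟨hp.ne_zero⟩
      have hlt : (univ.image (fun i : Fin 4 => -((pt D z0 i : ℕ) : ZMod p))).card <
          (univ : Finset (ZMod p)).card := by
        refine lt_of_le_of_lt card_image_le ?_
        rw [card_univ, card_univ, Fintype.card_fin, ZMod.card]
        omega
      obtain ⟨c, -, hc⟩ := exists_mem_notMem_of_card_lt_card hlt
      refine ⟨c.val, fun _ i hdiv => hc ?_⟩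
      rw [mem_image]
      refine ⟨i, mem_univ _, ?_⟩
      have h1 : ((c.val + pt D z0 i : ℕ) : ZMod p) = 0 := by
        rw [ZMod.natCast_eq_zero_iff]
        exact hdiv
      rw [Nat.cast_add, ZMod.natCast_zmod_val] at h1
      exact (eq_neg_of_add_eq_zero_left h1).symm
  choose r hr using hres
  obtain ⟨t0, ht0⟩ := Nat.chineseRemainderOfFinset r (fun p => p) Q.primeFactors
    (fun p hp => (Nat.prime_of_mem_primeFactors hp).ne_zero) (by
      intro p hp q hq hpq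
      exact (Nat.coprime_primes (Nat.prime_of_mem_primeFactors hp)
        (Nat.prime_of_mem_primeFactors hq)).2 hpq)
  refine ⟨z0, t0, ?_, ?_⟩
  · refine hyc.trans ?_
    rw [Nat.cast_le]
    refine card_le_card fun z hz => ?_
    rw [mem_filter] at hz ⊢
    refine ⟨hz.1, ?_⟩
    have h1 := hz.2.trans hz0.2.symm
    rw [Prod.mk.injEq, Prod.mk.injEq] at h1
    exact h1
  · intro i
    by_contra hnc
    obtain ⟨p, hp, hp1, hp2⟩ := Nat.Prime.not_coprime_iff_dvd.1 hnc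
    have h1 := ht0 p (Nat.mem_primeFactors.2 ⟨hp, hp2, hQ.ne'⟩)
    refine hr p hp i ?_
    have h2 : t0 + pt D z0 i ≡ r p + pt D z0 i [MOD p] := Nat.ModEq.add_right _ h1
    exact (Nat.modEq_zero_iff_dvd.1 (h2.symm.trans (Nat.modEq_zero_iff_dvd.2 hp1)))

end Pool.Agent.H99.RO
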