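import Pool.Agent.H99.RO.Pc
import Pool.Agent.H99.RO.Quad

/-!
[H99 RO P3]  Part (3): a third of the multiples of an even number.

Proof.  `k4 e` gives `de > 0`, `L1` (`de ≤ 1` may be assumed).  `B = 400 D`, `e2 = de/(10^7 B)` (any sufficiently small constant, see below).  `prime_clique 2 (1 - e2) e2 (1/2) 4` gives `q`; `Q = q D`-free: take `Q = q`
(any multiple).  It gives `c, C, c', x0`.  The new constants: `c/8` instead of `c` etc.  Let `x` be large, `C' log x ≤ L ≤ x^(c'/2)`, `n = B L`, and let `U` be the set of the `u ∈ [1, L]` with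
`#{N ≤ x : N, N + D u prime} < c'' x/(log x)^2`.  Suppose that fewer than `(1/3 - e) L` of the `u` are not in `U`: `|U| ≥ (2/3 + e) L`.  `k4`: `T1`, `|T1| ≥ de L^3`; `cls_pig`: `z0`, `t0`, `T ⊆ T1`, `|T| ≥ de (L/Q)^3`.
`V` = the `v ∈ [1, n]` congruent to one of the `t0 + pt D z0 i`; `cl i = t0 + pt D z0 i`, `co v` = the least `i` with `v ≡ cl i` (`0` if there is none).  `n/Q - 1 ≤ |V| ≤ 4 (n/Q + 1)`, so `(1/2) n ≤ Q |V|`.
`A` = the primes `≤ 2 x` (all `N + v ≤ x + n`), `h1`: `fst_all Q e2`.  `prime_clique`: `S N`.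
For every `i` let `s i` be the least index with `cl (s i) ≡ cl i`: `{v ∈ S N : v ≡ cl i} = {v ∈ S N : co v = s i}`, and `#{v ∈ V : co v = s i} ≥ n/Q - 1`.  So, in the mean over `N ∈ Om`,
`∑_i #{v ∈ S N : v ≡ cl i} ≥ 4 ((13/50 (1 - e2) - e2)(n/Q - 1) - e2 |V|) ≥ 1.03 n/Q` (`4 * 13/50 = 1.04`; `n/Q` large), and `4 D L/Q + 8 + n/Q + 1 ≤ 1.02 n/Q` (`4 D L ≤ n/100`).
`quad_pairs` in the mean: `18 (L/Q + 1)^2 E #pairs ≥ |T| (1/100) n/Q ≥ de (L/Q)^3 n/(100 Q)`, so `E #pairs ≥ de (L/Q)(n/Q)/7200 ≥ de/(7200 B) (n/Q)^2 ≥ de/(7200 * 64 B) |V|^2 > 2 e2 |V|^2` (with `|V| ≤ 8 n/Q`).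
On the other hand the pairs `(v, v') ∈ (S N)^2` with `v' = v + D u`, `u ∈ U`, are not popular: if `PopA x Q A c (v, v')` then at least `c lam^2 |Om|` of the `N'` have `N' + v`, `N' + v + D u` prime; `N'' = N' + v ≤ x` for
all but at most `v ≤ n` of them, so `#{N'' ≤ x : N'', N'' + D u prime} ≥ c (1/log x)^2 (x/Q - 2) - n ≥ c'' x/(log x)^2` with `c'' = c/(4 Q)`, `x` large: contradiction to `u ∈ U`.  So `#pairs ≤ #{y ∈ (S N)^2 : ¬ PopA}`, which is
`< e2 |V|^2` for all but `e2 |Om|` of the `N` (where it is `≤ |V|^2`): `E #pairs ≤ 2 e2 |V|^2`.  Contradiction.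
-/

namespace Pool.Agent.H99.RO

open Finset

private theorem p3_card (n Q a : ℕ) (hQ : 0 < Q) :
    (n : ℝ) / Q - 1 ≤ (((Icc 1 n).filter fun v => v ≡ a [MOD Q]).card : ℝ) ∧
    (((Icc 1 n).filter fun v => v ≡ a [MOD Q]).card : ℝ) ≤ n / Q + 1 := by
  have h1 : (Icc 1 n) = Ioc 0 n := by
    ext v
    simp only [mem_Icc, mem_Ioc]
    omega
  rw [h1]
  have h2 := Nat.Ioc_filter_modEq_card 0 n hQ a
  have hQ0 : (0 : ℚ) < Q := by exact_mod_cast hQ
  have hfl : ((⌊((n : ℚ) - a) / Q⌋ - ⌊(((0 : ℕ) : ℚ) - a) / Q⌋ : ℤ) : ℚ) ≤ (n : ℚ) / Q + 1 ∧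
      (n : ℚ) / Q - 1 ≤ ((⌊((n : ℚ) - a) / Q⌋ - ⌊(((0 : ℕ) : ℚ) - a) / Q⌋ : ℤ) : ℚ) := by
    push_cast
    have a1 := Int.floor_le (((n : ℚ) - a) / Q)
    have a2 := Int.lt_floor_add_one (((n : ℚ) - a) / Q)
    have a3 := Int.floor_le (((0 : ℚ) - a) / Q)
    have a4 := Int.lt_floor_add_one (((0 : ℚ) - a) / Q)
    have a5 : ((n : ℚ) - a) / Q - ((0 : ℚ) - a) / Q = n / Q := by ring
    constructor <;> linarith
  have h3 : ((((Ioc 0 n).filter fun v => v ≡ a [MOD Q]).card : ℤ) : ℚ) =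
      ((max (⌊((n : ℚ) - a) / Q⌋ - ⌊(((0 : ℕ) : ℚ) - a) / Q⌋) 0 : ℤ) : ℚ) := by
    rw [h2]
  have h4 : (n : ℚ) / Q - 1 ≤ ((((Ioc 0 n).filter fun v => v ≡ a [MOD Q]).card : ℤ) : ℚ) ∧
      ((((Ioc 0 n).filter fun v => v ≡ a [MOD Q]).card : ℤ) : ℚ) ≤ n / Q + 1 := by
    rw [h3, Int.cast_max, Int.cast_zero]
    constructor
    · exact hfl.2.trans (le_max_left _ _)
    · refine max_le hfl.1 ?_
      positivity
  have h5 : (n : ℚ) / Q - 1 ≤ (((Ioc 0 n).filter fun v => v ≡ a [MOD Q]).card : ℚ) ∧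
      (((Ioc 0 n).filter fun v => v ≡ a [MOD Q]).card : ℚ) ≤ n / Q + 1 := by
    exact_mod_cast h4
  constructor
  · have h6 := (Rat.cast_le (K := ℝ)).2 h5.1
    push_cast at h6
    exact h6
  · have h6 := (Rat.cast_le (K := ℝ)).2 h5.2
    push_cast at h6
    exact h6

open Classical in
private theorem p3_core (D L Q : ℕ) (hD : 0 < D) (hQ : 0 < Q) (de e2 : ℝ) (hde : 0 < de)
    (he2 : 0 < e2) (he2a : e2 ≤ 1 / 10000) (he2b : 368640000 * D * e2 < de)
    (n : ℕ) (hn : n = 400 * D * L) (hy : 600 ≤ (n : ℝ) / Q) (hLQ : 1 ≤ (L : ℝ) / Q)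
    (U : Finset ℕ) (hU : U ⊆ Icc 1 L) (T : Finset (ℕ × ℕ × ℕ)) (hT : ∀ z ∈ T, Q4 U z)
    (hTc : de * ((L : ℝ) / Q) ^ 3 ≤ T.card) (z0 : ℕ × ℕ × ℕ) (t0 : ℕ)
    (hcl : ∀ z ∈ T, z.1 ≡ z0.1 [MOD Q] ∧ z.2.1 ≡ z0.2.1 [MOD Q] ∧ z.2.2 ≡ z0.2.2 [MOD Q])
    (O : Finset ℕ) (hO : O.Nonempty) (V : Finset ℕ)
    (hV : V = (Icc 1 n).filter fun v => ∃ i, v ≡ t0 + pt D z0 i [MOD Q])
    (co : ℕ → Fin 4)
    (hco : ∀ v : ℕ, (∃ i, v ≡ t0 + pt D z0 i [MOD Q]) → v ≡ t0 + pt D z0 (co v) [MOD Q])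
    (hco2 : ∀ v v' : ℕ, v ≡ v' [MOD Q] → co v = co v')
    (S : ℕ → Finset ℕ) (hS : ∀ N, S N ⊆ V)
    (hS1 : ∀ s : Fin 4, (13 / 50 * (1 - e2) - e2) * ((V.filter fun v => co v = s).card : ℝ) *
            O.card - e2 * V.card * O.card ≤
          ∑ N ∈ O, (((S N).filter fun v => co v = s).card : ℝ))
    (hS2 : ∑ N ∈ O, (((S N ×ˢ S N).filter fun w => ∃ u ∈ U, w.2 = w.1 + D * u).card : ℝ) ≤
      2 * e2 * (V.card : ℝ) ^ 2 * O.card) : False := by
  have hQ0 : (0 : ℝ) < Q := by exact_mod_cast hQ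
  have hD0 : (0 : ℝ) < D := by exact_mod_cast hD
  have hO0 : (0 : ℝ) < O.card := by exact_mod_cast hO.card_pos
  obtain ⟨y, hy'⟩ : ∃ y : ℝ, y = (n : ℝ) / Q := ⟨_, rfl⟩
  obtain ⟨l, hl⟩ : ∃ l : ℝ, l = (L : ℝ) / Q := ⟨_, rfl⟩
  rw [← hy'] at hy
  rw [← hl] at hLQ hTc
  have hyl : y = 400 * D * l := by
    rw [hy', hl, hn]
    push_cast
    ring
  have hmem : ∀ (i : Fin 4) (v : ℕ), v ∈ V →
      (v ≡ t0 + pt D z0 i [MOD Q] ↔ co v = co (t0 + pt D z0 i)) := by
    intro i v hv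
    constructor
    · exact fun h => hco2 _ _ h
    · intro h
      have h1 := hco v (by rw [hV, mem_filter] at hv; exact hv.2)
      rw [h] at h1
      exact h1.trans (hco (t0 + pt D z0 i) ⟨i, rfl⟩).symm
  have hVf : ∀ i : Fin 4, (V.filter fun v => co v = co (t0 + pt D z0 i)) =
      (Icc 1 n).filter fun v => v ≡ t0 + pt D z0 i [MOD Q] := by
    intro i
    ext v
    rw [mem_filter, mem_filter]
    constructor
    · rintro ⟨h1, h2⟩
      refine ⟨?_, (hmem i v h1).2 h2⟩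
      rw [hV, mem_filter] at h1
      exact h1.1
    · rintro ⟨h1, h2⟩
      have h3 : v ∈ V := by
        rw [hV, mem_filter]
        exact ⟨h1, i, h2⟩
      exact ⟨h3, (hmem i v h3).1 h2⟩
  have hSf : ∀ (i : Fin 4) (N : ℕ), ((S N).filter fun v => co v = co (t0 + pt D z0 i)) =
      (S N).filter fun v => v ≡ t0 + pt D z0 i [MOD Q] := by
    intro i N
    refine filter_congr fun v hv => ?_
    exact (hmem i v (hS N hv)).symm
  have hVlow : ∀ i : Fin 4, y - 1 ≤ ((V.filter fun v => co v = co (t0 + pt D z0 i)).card : ℝ) := by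
    intro i
    rw [hVf i, hy']
    exact (p3_card n Q _ hQ).1
  have hVup : (V.card : ℝ) ≤ 4 * (y + 1) := by
    have h1 : V ⊆ univ.biUnion fun i : Fin 4 =>
        (Icc 1 n).filter fun v => v ≡ t0 + pt D z0 i [MOD Q] := by
      intro v hv
      rw [hV, mem_filter] at hv
      obtain ⟨h1, i, h2⟩ := hv
      rw [mem_biUnion]
      exact ⟨i, mem_univ _, mem_filter.2 ⟨h1, h2⟩⟩
    have h2 : (V.card : ℝ) ≤
        ∑ i : Fin 4, (((Icc 1 n).filter fun v => v ≡ t0 + pt D z0 i [MOD Q]).card : ℝ) := by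
      exact_mod_cast (card_le_card h1).trans card_biUnion_le
    refine h2.trans ?_
    calc _ ≤ ∑ i : Fin 4, (y + 1) := sum_le_sum fun i _ => by
            rw [hy']
            exact (p3_card n Q _ hQ).2
      _ = 4 * (y + 1) := by
            rw [sum_const, card_univ, Fintype.card_fin, nsmul_eq_mul]
            push_cast
            ring
  have hlow : (4 * ((13 / 50 * (1 - e2) - e2) * (y - 1)) - 16 * e2 * (y + 1)) * O.card ≤
      ∑ N ∈ O, ∑ i : Fin 4, (((S N).filter fun v => v ≡ t0 + pt D z0 i [MOD Q]).card : ℝ) := by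
    rw [sum_comm]
    calc _ = ∑ i : Fin 4, ((13 / 50 * (1 - e2) - e2) * (y - 1) * O.card -
            e2 * (4 * (y + 1)) * O.card) := by
          rw [sum_const, card_univ, Fintype.card_fin, nsmul_eq_mul]
          push_cast
          ring
      _ ≤ _ := sum_le_sum fun i _ => by
          have h1 := hS1 (co (t0 + pt D z0 i))
          simp only [hSf i] at h1
          refine le_trans ?_ h1
          have h2 : 0 < 13 / 50 * (1 - e2) - e2 := by linarith
          have h3 := hVlow i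
          gcongr
  have hmain : (T.card : ℝ) * (y / 100 * O.card) ≤ 18 * (l + 1) ^ 2 *
      ∑ N ∈ O, (((S N ×ˢ S N).filter fun w => ∃ u ∈ U, w.2 = w.1 + D * u).card : ℝ) := by
    have h1 : ∑ N ∈ O, ((T.card : ℝ) * (∑ i : Fin 4,
          (((S N).filter fun v => v ≡ t0 + pt D z0 i [MOD Q]).card : ℝ) -
        (4 * D * L / Q + 8) - (n / Q + 1))) ≤ ∑ N ∈ O, (18 * ((L : ℝ) / Q + 1) ^ 2 *
        (((S N ×ˢ S N).filter fun w => ∃ u ∈ U, w.2 = w.1 + D * u).card : ℝ)) := by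
      refine sum_le_sum fun N _ => ?_
      exact quad_pairs D L n Q hD hQ (by
          rw [hn]
          calc D * L = 1 * (D * L) := (one_mul _).symm
            _ ≤ 400 * (D * L) := Nat.mul_le_mul_right _ (by norm_num)
            _ = 400 * D * L := by ring) U hU T hT z0 t0 hcl (S N) (by
        refine (hS N).trans ?_
        rw [hV]
        exact filter_subset _ _)
    rw [← mul_sum, ← mul_sum, sum_sub_distrib, sum_sub_distrib, sum_const, sum_const,
      nsmul_eq_mul, nsmul_eq_mul, ← hl, ← hy'] at h1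
    refine le_trans ?_ h1
    have h2 : 4 * (D : ℝ) * L / Q = y / 100 := by
      rw [hyl, hl]
      ring
    rw [h2]
    have h4 : y / 100 ≤ (4 * ((13 / 50 * (1 - e2) - e2) * (y - 1)) - 16 * e2 * (y + 1)) -
        (y / 100 + 8) - (y + 1) := by
      nlinarith [mul_nonneg (sub_nonneg.2 he2a) (sub_nonneg.2 hy)]
    have h3 : (T.card : ℝ) * (y / 100 * O.card) ≤ T.card *
        (((4 * ((13 / 50 * (1 - e2) - e2) * (y - 1)) - 16 * e2 * (y + 1)) * O.card) -
          O.card * (y / 100 + 8) - O.card * (y + 1)) := by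
      refine mul_le_mul_of_nonneg_left ?_ (Nat.cast_nonneg _)
      calc y / 100 * O.card ≤ ((4 * ((13 / 50 * (1 - e2) - e2) * (y - 1)) - 16 * e2 * (y + 1)) -
              (y / 100 + 8) - (y + 1)) * O.card := mul_le_mul_of_nonneg_right h4 hO0.le
        _ = _ := by ring
    refine h3.trans (mul_le_mul_of_nonneg_left ?_ (Nat.cast_nonneg _))
    linarith
  have hl0 : 0 < l := by linarith
  have hy0 : 0 < y := by linarith
  have h1 : (T.card : ℝ) * (y / 100 * O.card) ≤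
      18 * (l + 1) ^ 2 * (2 * e2 * (V.card : ℝ) ^ 2 * O.card) :=
    hmain.trans (mul_le_mul_of_nonneg_left hS2 (by positivity))
  have h2 : de * l ^ 3 * (y / 100) ≤ 18 * (2 * l) ^ 2 * (2 * e2 * (8 * y) ^ 2) := by
    have h3 : de * l ^ 3 * (y / 100) * O.card ≤
        18 * (2 * l) ^ 2 * (2 * e2 * (8 * y) ^ 2) * O.card := by
      have h5 : (V.card : ℝ) ≤ 8 * y := by linarith
      have h6 : l + 1 ≤ 2 * l := by linarith
      calc _ = de * l ^ 3 * (y / 100 * O.card) := by ring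
        _ ≤ T.card * (y / 100 * O.card) := mul_le_mul_of_nonneg_right hTc (by positivity)
        _ ≤ _ := h1
        _ ≤ 18 * (2 * l) ^ 2 * (2 * e2 * (8 * y) ^ 2 * O.card) := by gcongr
        _ = _ := by ring
    exact le_of_mul_le_mul_right h3 hO0
  have h4 : de * (4 * D * l ^ 4) ≤ (368640000 * D * e2) * (4 * D * l ^ 4) := by
    rw [hyl] at h2
    calc _ = de * l ^ 3 * (400 * D * l / 100) := by ring
      _ ≤ _ := h2
      _ = _ := by ring
  have h5 : 0 < 4 * (D : ℝ) * l ^ 4 := by positivity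
  exact absurd (le_of_mul_le_mul_right h4 h5) (not_le.2 he2b)

private theorem p3_om (x : ℝ) (Q : ℕ) (hQ : 0 < Q) (hx : 4 * Q ≤ x) :
    x / (2 * Q) ≤ ((Om x Q).card : ℝ) := by
  have hQ0 : (0 : ℝ) < Q := by exact_mod_cast hQ
  have h1 : (Om x Q).card = ⌊x⌋₊ / Q := by
    rw [← Nat.Ioc_filter_dvd_card_eq_div]
    unfold Om
    congr 1
  rw [h1, ← Nat.floor_div_natCast]
  have h2 := Nat.lt_floor_add_one (x / Q)
  have h3 : 4 ≤ x / Q := by rw [le_div_iff₀ hQ0]; exact hx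
  have h4 : x / (2 * Q) = x / Q / 2 := by
    field_simp
  rw [h4]
  linarith

open Classical in
private theorem p3_nonpop (D Q n : ℕ) (hQ : 0 < Q) (c x : ℝ) (hc : 0 < c) (hx : 4 * Q ≤ x)
    (hlog : 1 ≤ Real.log x) (hn : (n : ℝ) ≤ c / (4 * Q) * x / Real.log x ^ 2)
    (A : Finset ℕ) (hA : ∀ p ∈ A, p.Prime) (v u : ℕ) (hv : v ≤ n)
    (hu : (((Icc 1 ⌊x⌋₊).filter fun N => N.Prime ∧ (N + D * u).Prime).card : ℝ) <
      c / (4 * Q) * x / Real.log x ^ 2) :
    ¬ PopA x Q A c ![v, v + D * u] := by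
  intro h
  unfold PopA at h
  have hQ0 : (0 : ℝ) < Q := by exact_mod_cast hQ
  have hx0 : 0 < x := by linarith
  have h1 : ((Om x Q).filter fun N => ∀ i : Fin 2, N + (![v, v + D * u] : Fin 2 → ℕ) i ∈ A).card ≤
      ((Icc 1 ⌊x⌋₊).filter fun N => N.Prime ∧ (N + D * u).Prime).card + n := by
    have h2 : ((Om x Q).filter fun N => ∀ i : Fin 2, N + (![v, v + D * u] : Fin 2 → ℕ) i ∈ A).card ≤
        (((Icc 1 ⌊x⌋₊).filter fun N => N.Prime ∧ (N + D * u).Prime) ∪
          Ioc ⌊x⌋₊ (⌊x⌋₊ + n)).card := by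
      refine card_le_card_of_injOn (fun N => N + v) ?_ ?_
      · intro N hN
        rw [mem_coe, mem_filter] at hN
        obtain ⟨hN1, hN2⟩ := hN
        unfold Om at hN1
        rw [mem_filter, mem_Icc] at hN1
        have h3 := hA _ (hN2 0)
        have h4 := hA _ (hN2 1)
        simp only [Matrix.cons_val_zero, Matrix.cons_val_one] at h3 h4
        rw [mem_coe, mem_union, mem_filter, mem_Icc, mem_Ioc]
        by_cases h5 : N + v ≤ ⌊x⌋₊
        · left
          refine ⟨⟨?_, h5⟩, h3, ?_⟩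
          · show 1 ≤ N + v
            omega
          · show Nat.Prime (N + v + D * u)
            rw [add_assoc]
            exact h4
        · right
          show ⌊x⌋₊ < N + v ∧ N + v ≤ ⌊x⌋₊ + n
          omega
      · intro a _ b _ hab
        simp only at hab
        omega
    refine h2.trans ((card_union_le _ _).trans ?_)
    rw [Nat.card_Ioc]
    omega
  have h1' : (((Om x Q).filter fun N => ∀ i : Fin 2,
      N + (![v, v + D * u] : Fin 2 → ℕ) i ∈ A).card : ℝ) ≤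
      (((Icc 1 ⌊x⌋₊).filter fun N => N.Prime ∧ (N + D * u).Prime).card : ℝ) + n := by
    exact_mod_cast h1
  have h3 := p3_om x Q hQ hx
  have hlam : 1 / Real.log x ≤ lam x Q := by
    unfold lam
    have h4 : (Nat.totient Q : ℝ) ≤ Q := by exact_mod_cast Nat.totient_le Q
    have h5 : (0 : ℝ) < Nat.totient Q := by exact_mod_cast Nat.totient_pos.mpr hQ
    rw [div_le_div_iff₀ (by linarith) (by positivity)]
    nlinarith
  have h6 : 2 * (c / (4 * Q) * x / Real.log x ^ 2) ≤ c * lam x Q ^ 2 * (Om x Q).card := by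
    calc 2 * (c / (4 * Q) * x / Real.log x ^ 2) = c * (1 / Real.log x) ^ 2 * (x / (2 * Q)) := by
          field_simp
          norm_num
      _ ≤ _ := by
          gcongr
  linarith

open Classical in
theorem part3 (D : ℕ) (hD : 0 < D) (hD2 : 2 ∣ D) (e : ℝ) (he : 0 < e) : ∃ c C c' x0 : ℝ, 0 < c ∧ 0 < C ∧ 0 < c' ∧
    ∀ x : ℝ, x0 ≤ x → ∀ L : ℕ, C * Real.log x ≤ L → (L : ℝ) ≤ x ^ c' →
      (1 / 3 - e) * L ≤ (((Icc 1 L).filter fun n => c * x / Real.log x ^ 2 ≤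
        (((Icc 1 ⌊x⌋₊).filter fun N => N.Prime ∧ (N + D * n).Prime).card : ℝ)).card : ℝ) := by
  obtain ⟨de, L0, hde, hk4⟩ := k4 e he
  have hD0 : (0 : ℝ) < D := by exact_mod_cast hD
  obtain ⟨e2, he2⟩ : ∃ e2 : ℝ, e2 = min (1 / 10000) (de / (10 ^ 9 * D)) := ⟨_, rfl⟩
  have he20 : 0 < e2 := by rw [he2]; positivity
  have he2a : e2 ≤ 1 / 10000 := by rw [he2]; exact min_le_left _ _
  have he2b : 368640000 * D * e2 < de := by
    have h1 : e2 ≤ de / (10 ^ 9 * D) := by rw [he2]; exact min_le_right _ _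
    rw [le_div_iff₀ (by positivity)] at h1
    have h2 : 0 < e2 * D := by positivity
    linarith
  obtain ⟨Q, hQ, hq⟩ := prime_clique 2 (by norm_num) (1 - e2) e2 (1 / 2) (by linarith) (by linarith)
    he20 (by norm_num) 4
  obtain ⟨c, C, c', x0, hc, hC, hc', hpc⟩ := hq Q hQ dvd_rfl
  obtain ⟨x1, hx1⟩ := fst_all Q hQ e2 he20
  have hQ0 : (0 : ℝ) < Q := by exact_mod_cast hQ
  obtain ⟨c2, hc2⟩ : ∃ c2 : ℝ, c2 = min c' (1 / 2) := ⟨_, rfl⟩
  have hc20 : 0 < c2 := by rw [hc2]; positivity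
  have hev : ∀ᶠ x : ℝ in Filter.atTop, 400 * (D : ℝ) ≤ x ^ (c2 / 2) ∧
      x ^ (1 / 2 : ℝ) ≤ c / (4 * Q) * x / Real.log x ^ 2 ∧ 4 * Q ≤ x ∧ 1 ≤ Real.log x := by
    have e1 := (tendsto_rpow_atTop (half_pos hc20)).eventually_ge_atTop (400 * (D : ℝ))
    have e3 := (isLittleO_log_rpow_atTop (show (0 : ℝ) < 1 / 4 by norm_num)).bound
      (show 0 < Real.sqrt (c / (4 * Q)) by positivity)
    filter_upwards [e1, e3, Filter.eventually_ge_atTop (4 * (Q : ℝ)),
      Real.tendsto_log_atTop.eventually_ge_atTop 1, Filter.eventually_gt_atTop 0] with x h1 h2 h3 h4 h5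
    refine ⟨h1, ?_, h3, h4⟩
    rw [le_div_iff₀ (by positivity)]
    rw [Real.norm_eq_abs, Real.norm_eq_abs, abs_of_nonneg (by linarith : (0 : ℝ) ≤ Real.log x),
      abs_of_nonneg (by positivity : (0 : ℝ) ≤ x ^ (1 / 4 : ℝ))] at h2
    calc x ^ (1 / 2 : ℝ) * Real.log x ^ 2 ≤
        x ^ (1 / 2 : ℝ) * (Real.sqrt (c / (4 * Q)) * x ^ (1 / 4 : ℝ)) ^ 2 := by gcongr
      _ = c / (4 * Q) * (x ^ (1 / 2 : ℝ) * (x ^ (1 / 4 : ℝ) * x ^ (1 / 4 : ℝ))) := by
          rw [mul_pow, Real.sq_sqrt (by positivity)]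
          ring
      _ = c / (4 * Q) * x := by
          rw [← Real.rpow_add h5, ← Real.rpow_add h5]
          norm_num
  obtain ⟨x2, hx2⟩ := Filter.eventually_atTop.1 hev
  refine ⟨c / (4 * Q), C + 2 * Q + L0, c2 / 2, max x0 (max x1 x2), by positivity, by positivity,
    by positivity, ?_⟩
  intro x hx L hL1 hL2
  have hxa : x0 ≤ x := (le_max_left _ _).trans hx
  have hxb : x1 ≤ x := (le_max_left _ _).trans ((le_max_right _ _).trans hx)
  obtain ⟨hx400, hxsq, hxQ, hxlog⟩ := hx2 x ((le_max_right _ _).trans ((le_max_right _ _).trans hx))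
  have hx0 : 0 < x := by linarith
  have hxone : 1 ≤ x := by
    have : (1 : ℝ) ≤ Q := by exact_mod_cast hQ
    linarith
  by_contra hcon
  push Not at hcon
  have hL3 : C + 2 * Q + L0 ≤ L := by
    refine le_trans ?_ hL1
    have : 0 ≤ C + 2 * Q + L0 := by positivity
    nlinarith
  have hLC : C * Real.log x ≤ L := by
    refine le_trans ?_ hL1
    have : 0 ≤ (2 * Q + L0) * Real.log x := by positivity
    linarith
  have hLL0 : L0 ≤ L := by
    have : (L0 : ℝ) ≤ L := by linarith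
    exact_mod_cast this
  have hLpos : (0 : ℝ) < L := by linarith [(Nat.cast_nonneg L0 : (0 : ℝ) ≤ L0)]
  have hLQ : 2 ≤ (L : ℝ) / Q := by
    rw [le_div_iff₀ hQ0]
    linarith [(Nat.cast_nonneg L0 : (0 : ℝ) ≤ L0)]
  obtain ⟨n, hn⟩ : ∃ n : ℕ, n = 400 * D * L := ⟨_, rfl⟩
  have hnr : (n : ℝ) = 400 * D * L := by rw [hn]; push_cast; ring
  have hD1 : (1 : ℝ) ≤ D := by exact_mod_cast hD
  have hLn : (L : ℝ) ≤ n := by
    rw [hnr]
    nlinarith
  have hnc2 : (n : ℝ) ≤ x ^ c2 := by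
    rw [hnr]
    calc 400 * (D : ℝ) * L ≤ x ^ (c2 / 2) * x ^ (c2 / 2) := by gcongr
      _ = x ^ c2 := by
          rw [← Real.rpow_add hx0]
          congr 1
          ring
  have hnc' : (n : ℝ) ≤ x ^ c' :=
    hnc2.trans (Real.rpow_le_rpow_of_exponent_le hxone (by rw [hc2]; exact min_le_left _ _))
  have hnhalf : (n : ℝ) ≤ x ^ (1 / 2 : ℝ) :=
    hnc2.trans (Real.rpow_le_rpow_of_exponent_le hxone (by rw [hc2]; exact min_le_right _ _))
  have hy : 600 ≤ (n : ℝ) / Q := by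
    have : (n : ℝ) / Q = 400 * D * (L / Q) := by rw [hnr]; ring
    rw [this]
    nlinarith
  obtain ⟨U, hU⟩ : ∃ U : Finset ℕ, U = (Icc 1 L).filter fun u => ¬ (c / (4 * Q) * x / Real.log x ^ 2 ≤
        (((Icc 1 ⌊x⌋₊).filter fun N => N.Prime ∧ (N + D * u).Prime).card : ℝ)) := ⟨_, rfl⟩
  have hUs : U ⊆ Icc 1 L := by rw [hU]; exact filter_subset _ _
  have hUc : (2 / 3 + e) * L ≤ (U.card : ℝ) := by
    have h1 := card_filter_add_card_filter_not (s := Icc 1 L) (fun u => c / (4 * Q) * x / Real.log x ^ 2 ≤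
        (((Icc 1 ⌊x⌋₊).filter fun N => N.Prime ∧ (N + D * u).Prime).card : ℝ))
    rw [← hU, Nat.card_Icc, Nat.add_sub_cancel] at h1
    have h2 : ((((Icc 1 L).filter fun u => c / (4 * Q) * x / Real.log x ^ 2 ≤
        (((Icc 1 ⌊x⌋₊).filter fun N => N.Prime ∧ (N + D * u).Prime).card : ℝ)).card : ℝ)) + U.card = L := by
      exact_mod_cast h1
    linarith
  obtain ⟨T1, hT1⟩ : ∃ T1 : Finset (ℕ × ℕ × ℕ), T1 = (Icc 1 L ×ˢ Icc 1 L ×ˢ Icc 1 L).filter fun z =>
    Q4 U z ∧ z.1 % 3 = 1 ∧ z.2.1 % 3 = 1 ∧ z.2.2 % 3 = 0 := ⟨_, rfl⟩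
  have hT1c : de * (L : ℝ) ^ 3 ≤ T1.card := by
    rw [hT1]
    exact hk4 L hLL0 U hUs hUc
  have hT1ne : T1.Nonempty := by
    rw [← card_pos]
    have : (0 : ℝ) < T1.card := lt_of_lt_of_le (by positivity) hT1c
    exact_mod_cast this
  obtain ⟨z0, t0, hz1, hz2⟩ := cls_pig D Q hD2 hQ T1 hT1ne (by
    intro z hz
    rw [hT1, mem_filter] at hz
    exact hz.2.2)
  obtain ⟨T, hT⟩ : ∃ T : Finset (ℕ × ℕ × ℕ), T = T1.filter fun z => z.1 ≡ z0.1 [MOD Q] ∧
    z.2.1 ≡ z0.2.1 [MOD Q] ∧ z.2.2 ≡ z0.2.2 [MOD Q] := ⟨_, rfl⟩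
  rw [← hT] at hz1
  have hTc : de * ((L : ℝ) / Q) ^ 3 ≤ T.card := by
    refine le_trans ?_ hz1
    rw [le_div_iff₀ (by positivity)]
    refine le_trans (le_of_eq ?_) hT1c
    field_simp
  obtain ⟨V, hV⟩ : ∃ V : Finset ℕ, V = (Icc 1 n).filter fun v => ∃ i, v ≡ t0 + pt D z0 i [MOD Q] :=
    ⟨_, rfl⟩
  obtain ⟨co, hcod⟩ : ∃ co : ℕ → Fin 4, co = fun v =>
    Classical.epsilon (fun i : Fin 4 => v ≡ t0 + pt D z0 i [MOD Q]) := ⟨_, rfl⟩
  have hco : ∀ v : ℕ, (∃ i, v ≡ t0 + pt D z0 i [MOD Q]) → v ≡ t0 + pt D z0 (co v) [MOD Q] := by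
    intro v hv
    rw [hcod]
    exact Classical.epsilon_spec hv
  have hco2 : ∀ v v' : ℕ, v ≡ v' [MOD Q] → co v = co v' := by
    intro v v' hv
    rw [hcod]
    have : (fun i : Fin 4 => v ≡ t0 + pt D z0 i [MOD Q]) =
        fun i : Fin 4 => v' ≡ t0 + pt D z0 i [MOD Q] := by
      funext i
      exact propext ⟨fun h => hv.symm.trans h, fun h => hv.trans h⟩
    simp only [this]
  obtain ⟨A, hA⟩ : ∃ A : Finset ℕ, A = (Icc 1 (⌊x⌋₊ + n)).filter Nat.Prime := ⟨_, rfl⟩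
  have hAp : ∀ p ∈ A, p.Prime := by
    intro p hp
    rw [hA, mem_filter] at hp
    exact hp.2
  have hVm : ∀ v ∈ V, 1 ≤ v ∧ v ≤ n ∧ Nat.Coprime v Q := by
    intro v hv
    rw [hV, mem_filter, mem_Icc] at hv
    obtain ⟨⟨h1, h2⟩, i, h3⟩ := hv
    refine ⟨h1, h2, ?_⟩
    have h4 := hz2 i
    unfold Nat.Coprime at h4 ⊢
    rw [h3.gcd_eq]
    exact h4
  have hVcard : (1 / 2 : ℝ) * n ≤ Q * (V.card : ℝ) := by
    have h1 : ((Icc 1 n).filter fun v => v ≡ t0 + pt D z0 0 [MOD Q]) ⊆ V := by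
      intro v hv
      rw [mem_filter] at hv
      rw [hV, mem_filter]
      exact ⟨hv.1, 0, hv.2⟩
    have h2 : (n : ℝ) / Q - 1 ≤ V.card :=
      (p3_card n Q _ hQ).1.trans (by exact_mod_cast card_le_card h1)
    have h3 : (n : ℝ) / Q / 2 ≤ V.card := by linarith
    calc (1 / 2 : ℝ) * n = Q * (n / Q / 2) := by field_simp
      _ ≤ _ := by gcongr
  obtain ⟨S, hS, hS1, hS2⟩ := hpc x hxa n (hLC.trans hLn) hnc' V hVm (fun i => t0 + pt D z0 i) co
    (by
      intro v hv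
      rw [hV, mem_filter] at hv
      exact hco v hv.2) hVcard A hAp (by
    intro v hv
    have h1 := hx1 x hxb v ((by exact_mod_cast (hVm v hv).2.1 : (v : ℝ) ≤ n).trans hnhalf) (hVm v hv).2.2
    refine h1.trans ?_
    have h2 : ((Om x Q).filter fun N => (N + v).Prime).card ≤ ((Om x Q).filter fun N => N + v ∈ A).card := by
      refine card_le_card ?_
      intro N hN
      rw [mem_filter] at hN ⊢
      refine ⟨hN.1, ?_⟩
      rw [hA, mem_filter, mem_Icc]
      have h3 := hN.1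
      unfold Om at h3
      rw [mem_filter, mem_Icc] at h3
      have h4 := (hVm v hv).2.1
      exact ⟨⟨by omega, by omega⟩, hN.2⟩
    exact_mod_cast h2)
  have hOne : (Om x Q).Nonempty := by
    rw [← card_pos]
    have h1 := p3_om x Q hQ hxQ
    have : (0 : ℝ) < (Om x Q).card := lt_of_lt_of_le (by positivity) h1
    exact_mod_cast this
  refine p3_core D L Q hD hQ de e2 hde he20 he2a he2b n hn hy (by linarith) U hUs T ?_ hTc z0 t0 ?_
    (Om x Q) hOne V hV co hco hco2 S hS hS1 ?_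
  · intro z hz
    rw [hT, mem_filter, hT1, mem_filter] at hz
    exact hz.1.2.1
  · intro z hz
    rw [hT, mem_filter] at hz
    exact hz.2
  · have hpair : ∀ N, (((S N ×ˢ S N).filter fun w => ∃ u ∈ U, w.2 = w.1 + D * u).card : ℝ) ≤
        (((Fintype.piFinset fun _ : Fin 2 => S N).filter
            fun y => ¬ PopA x Q A c y).card : ℝ) := by
      intro N
      have h1 : ((S N ×ˢ S N).filter fun w => ∃ u ∈ U, w.2 = w.1 + D * u).card ≤
        ((Fintype.piFinset fun _ : Fin 2 => S N).filter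
            fun y => ¬ PopA x Q A c y).card := by
        refine card_le_card_of_injOn (fun w : ℕ × ℕ => (![w.1, w.2] : Fin 2 → ℕ)) ?_ ?_
        · intro w hw
          rw [mem_coe, mem_filter, mem_product] at hw
          obtain ⟨⟨h2, h3⟩, u, hu, h4⟩ := hw
          rw [mem_coe, mem_filter, Fintype.mem_piFinset]
          refine ⟨?_, ?_⟩
          · intro i
            fin_cases i
            · exact h2
            · exact h3
          · simp only [h4]
            have h5 : w.1 ≤ n := (hVm _ (hS N h2)).2.1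
            refine p3_nonpop D Q n hQ c x hc hxQ hxlog (hnhalf.trans hxsq) A hAp w.1 u h5 ?_
            rw [hU, mem_filter] at hu
            exact not_le.1 hu.2
        · intro a _ b _ hab
          have h2 := congrFun hab 0
          have h3 := congrFun hab 1
          simp only [Matrix.cons_val_zero, Matrix.cons_val_one] at h2 h3
          exact Prod.ext h2 h3
      exact_mod_cast h1
    have hnV : ∀ N, (((Fintype.piFinset fun _ : Fin 2 => S N).filter
            fun y => ¬ PopA x Q A c y).card : ℝ) ≤ (V.card : ℝ) ^ 2 := by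
      intro N
      have h1 : ((Fintype.piFinset fun _ : Fin 2 => S N).filter
            fun y => ¬ PopA x Q A c y).card ≤ V.card ^ 2 := by
        refine (card_filter_le _ _).trans ?_
        rw [Fintype.card_piFinset]
        simp only [prod_const, card_univ, Fintype.card_fin]
        exact Nat.pow_le_pow_left (card_le_card (hS N)) 2
      exact_mod_cast h1
    calc _ ≤ ∑ N ∈ Om x Q, (e2 * (V.card : ℝ) ^ 2 + if e2 * (V.card : ℝ) ^ 2 ≤
              (((Fintype.piFinset fun _ : Fin 2 => S N).filter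
            fun y => ¬ PopA x Q A c y).card : ℝ) then (V.card : ℝ) ^ 2 else 0) := by
          refine sum_le_sum fun N _ => ?_
          split_ifs with h
          · have h1 := hpair N
            have h2 := hnV N
            have h3 : 0 ≤ e2 * (V.card : ℝ) ^ 2 := by positivity
            linarith
          · push Not at h
            have h1 := hpair N
            linarith
      _ = e2 * (V.card : ℝ) ^ 2 * (Om x Q).card + (((Om x Q).filter fun N => e2 * (V.card : ℝ) ^ 2 ≤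
              (((Fintype.piFinset fun _ : Fin 2 => S N).filter
            fun y => ¬ PopA x Q A c y).card : ℝ)).card : ℝ) * (V.card : ℝ) ^ 2 := by
          rw [sum_add_distrib, sum_const, nsmul_eq_mul, ← sum_filter, sum_const, nsmul_eq_mul]
          ring
      _ ≤ e2 * (V.card : ℝ) ^ 2 * (Om x Q).card + (e2 * (Om x Q).card) * (V.card : ℝ) ^ 2 := by
          gcongr
      _ = _ := by ring

end Pool.Agent.H99.RO
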