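import Pool.Agent.H61.GD.Two
import Pool.Agent.H99.RO.P2
import Pool.Agent.H99.RO.P3

/-!
[H99 RO MG]  THEOREM G and T2 together: pairs and tuples at all scales `L₀ ≤ L ≤ X^δ`.
-/

namespace Pool.Agent.H99.RO

open Finset Filter

/-- the facts about `X` which are used for `L > (log X)^2` -/
private theorem ev_mg (lam C x0 : ℝ) : ∀ᶠ X : ℕ in atTop, lam ≤ Real.log X ∧
    2 * C + 2 ≤ Real.log X ∧ 2 ≤ Real.log X ∧ x0 ≤ (X : ℝ) ∧ (1 : ℝ) ≤ X := by
  have h := Real.tendsto_log_atTop.comp (tendsto_natCast_atTop_atTop (R := ℝ))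
  have h1 := h.eventually_ge_atTop lam
  have h2 := h.eventually_ge_atTop (2 * C + 2)
  have h3 := h.eventually_ge_atTop 2
  have h4 := (tendsto_natCast_atTop_atTop (R := ℝ)).eventually_ge_atTop x0
  have h5 := (tendsto_natCast_atTop_atTop (R := ℝ)).eventually_ge_atTop 1
  filter_upwards [h1, h2, h3, h4, h5] with X a1 a2 a3 a4 a5
  exact ⟨a1, a2, a3, a4, a5⟩

open Classical in
/-- the case `L > (log X)^2` of the pairs -/
private theorem pairs_big (ε : ℝ) (hε : 0 < ε) (lam : ℝ) : ∃ (c δ : ℝ) (L0 X0 : ℕ), 0 < c ∧ 0 < δ ∧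
    ∀ X : ℕ, X0 ≤ X → ∀ L : ℕ, L0 ≤ L → Real.log X ^ (2 : ℝ) < L → (L : ℝ) ≤ (X : ℝ) ^ δ →
      (1 / 3 - ε) * ((L : ℝ) / 2) ≤ (((Icc 1 L).filter (fun h => Even h ∧
        c * (X / Real.log X ^ 2) ≤ (((Icc 1 X).filter fun n => n.Prime ∧ (n + h).Prime ∧
          ((L : ℝ) ≤ lam * Real.log X → ∀ t : ℕ, n < t → t < n + h → ¬ t.Prime)).card : ℝ))).card : ℝ) := by
  obtain ⟨c, C, δ, x0, hc, hC, hδ, h3⟩ := part3 2 (by norm_num) (dvd_refl 2) (ε / 2) (by positivity)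
  obtain ⟨X0, hX0⟩ := eventually_atTop.1 (ev_mg lam C x0)
  obtain ⟨n1, hn1⟩ := exists_nat_gt (1 / ε)
  refine ⟨c, δ, n1 + 2, X0, hc, hδ, fun X hX L hL0 hL1 hL2 => ?_⟩
  obtain ⟨a1, a2, a3, a4, a5⟩ := hX0 X hX
  rw [Real.rpow_two] at hL1
  obtain ⟨T, hT⟩ : ∃ T : ℕ, T = L / 2 := ⟨_, rfl⟩
  have hT1 : 2 * T ≤ L := by omega
  have hT2 : L ≤ 2 * T + 1 := by omega
  have hT1' : 2 * (T : ℝ) ≤ L := by exact_mod_cast hT1
  have hT2' : (L : ℝ) ≤ 2 * T + 1 := by exact_mod_cast hT2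
  have hvac : ¬ ((L : ℝ) ≤ lam * Real.log X) := by
    intro h
    nlinarith
  have hm := h3 X a4 T (by nlinarith) (by
    have : (0 : ℝ) ≤ T := Nat.cast_nonneg _
    linarith)
  rw [Nat.floor_natCast] at hm
  have hLn : (n1 : ℝ) + 2 ≤ L := by exact_mod_cast hL0
  have h1ε : 1 < ε * L := by
    rw [div_lt_iff₀ hε] at hn1
    nlinarith
  have h4 : (1 / 3 - ε) * ((L : ℝ) / 2) ≤ (1 / 3 - ε / 2) * T := by
    have hTT : (L : ℝ) / 2 - 1 / 2 ≤ T := by linarith
    rcases le_or_gt (1 / 3 - ε) 0 with h | h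
    · have h5 : (1 / 3 - ε) * ((L : ℝ) / 2) ≤ (1 / 3 - ε) * T :=
        mul_le_mul_of_nonpos_left (by linarith) h
      have h6 : (1 / 3 - ε) * (T : ℝ) ≤ (1 / 3 - ε / 2) * T :=
        mul_le_mul_of_nonneg_right (by linarith) (Nat.cast_nonneg _)
      linarith
    · have h5 : (1 / 3 - ε / 2) * ((L : ℝ) / 2 - 1 / 2) ≤ (1 / 3 - ε / 2) * T :=
        mul_le_mul_of_nonneg_left hTT (by linarith)
      nlinarith
  refine (h4.trans hm).trans ?_
  rw [Nat.cast_le]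
  refine card_le_card_of_injOn (fun m => 2 * m) ?_ ?_
  · intro m hmm
    rw [mem_coe, mem_filter, mem_Icc] at hmm
    rw [mem_coe, mem_filter, mem_Icc]
    simp only
    refine ⟨⟨by omega, by omega⟩, even_two_mul m, ?_⟩
    have h7 := hmm.2
    rw [mul_div_assoc] at h7
    refine h7.trans ?_
    rw [Nat.cast_le]
    apply card_le_card
    intro N hN
    rw [mem_filter] at hN ⊢
    exact ⟨hN.1, hN.2.1, hN.2.2, fun h => absurd h hvac⟩
  · intro a _ b _ h
    simp only at h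
    omega

open Classical in
/-- **pairs of primes at all scales** -/
theorem pairs_all (hU : Pool.Agent.H61.UL.BlkU) : ∃ K : ℕ, ∀ ε : ℝ, 0 < ε →
    ∃ (c lam δ : ℝ) (L0 X0 : ℕ), 0 < c ∧ 0 < lam ∧ 0 < δ ∧ ∀ X : ℕ, X0 ≤ X → ∀ L : ℕ, L0 ≤ L →
      (L : ℝ) ≤ (X : ℝ) ^ δ →
      (1 / 3 - ε) * ((L : ℝ) / 2) ≤ (((Icc 1 L).filter (fun h => Even h ∧
        c * (min 1 ((L : ℝ) / Real.log X)) ^ K * (X / Real.log X ^ 2) ≤
          (((Icc 1 X).filter fun n => n.Prime ∧ (n + h).Prime ∧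
            ((L : ℝ) ≤ lam * Real.log X → ∀ t : ℕ, n < t → t < n + h → ¬ t.Prime)).card : ℝ))).card : ℝ) := by
  obtain ⟨K, hK⟩ := Pool.Agent.H61.GD.two hU
  refine ⟨K, fun ε hε => ?_⟩
  obtain ⟨c1, lam, L1, X1, hc1, hlam, h1⟩ := hK true ε 2 hε (by norm_num)
  obtain ⟨c2, lam2, L2, X2, hc2, -, h2⟩ := hK false ε 2 hε (by norm_num)
  obtain ⟨c3, δ, L3, X3, hc3, hδ, h3⟩ := pairs_big ε hε lam
  obtain ⟨X0, hX0⟩ := eventually_atTop.1 (ev_mg lam 0 0)
  refine ⟨min c1 (min c2 c3), lam, δ, max L1 (max L2 L3), max X1 (max X2 (max X3 X0)),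
    by positivity, hlam, hδ, fun X hX L hL hLδ => ?_⟩
  have b1 : L1 ≤ L := (le_max_left _ _).trans hL
  have b2 : L2 ≤ L := (le_max_left _ _).trans ((le_max_right _ _).trans hL)
  have b3 : L3 ≤ L := (le_max_right _ _).trans ((le_max_right _ _).trans hL)
  have d1 : X1 ≤ X := (le_max_left _ _).trans hX
  have d2 : X2 ≤ X := (le_max_left _ _).trans ((le_max_right _ _).trans hX)
  have d3 : X3 ≤ X := (le_max_left _ _).trans ((le_max_right _ _).trans ((le_max_right _ _).trans hX))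
  have d0 : X0 ≤ X := (le_max_right _ _).trans ((le_max_right _ _).trans ((le_max_right _ _).trans hX))
  obtain ⟨a1, -, a3, -, a5⟩ := hX0 X d0
  have hlog : 0 < Real.log X := by linarith
  have hmin0 : 0 ≤ min 1 ((L : ℝ) / Real.log X) := le_min zero_le_one (by positivity)
  have hmin1 : (min 1 ((L : ℝ) / Real.log X)) ^ K ≤ 1 := pow_le_one₀ hmin0 (min_le_left _ _)
  have hmK : 0 ≤ (min 1 ((L : ℝ) / Real.log X)) ^ K := pow_nonneg hmin0 K
  have hXl : 0 ≤ (X : ℝ) / Real.log X ^ 2 := by positivity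
  rcases le_or_gt (L : ℝ) (Real.log X ^ (2 : ℝ)) with hA | hA
  · rcases le_or_gt (L : ℝ) (lam * Real.log X) with hB | hB
    · refine (h1 X d1 L b1 hA (fun _ => hB)).trans ?_
      rw [Nat.cast_le]
      apply card_le_card
      intro h hh
      rw [mem_filter] at hh ⊢
      refine ⟨hh.1, hh.2.1, ?_⟩
      have e1 : min c1 (min c2 c3) * (min 1 ((L : ℝ) / Real.log X)) ^ K * (X / Real.log X ^ 2) ≤
          c1 * (min 1 ((L : ℝ) / Real.log X)) ^ K * (X / Real.log X ^ 2) := by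
        apply mul_le_mul_of_nonneg_right _ hXl
        exact mul_le_mul_of_nonneg_right (min_le_left _ _) hmK
      refine (e1.trans hh.2.2).trans ?_
      unfold Pool.Agent.H61.GD.cq
      rw [Nat.cast_le]
      apply card_le_card
      intro n hn
      rw [mem_filter] at hn ⊢
      exact ⟨hn.1, hn.2.1, hn.2.2.1, fun _ => hn.2.2.2 rfl⟩
    · refine (h2 X d2 L b2 hA (fun h => by simp at h)).trans ?_
      rw [Nat.cast_le]
      apply card_le_card
      intro h hh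
      rw [mem_filter] at hh ⊢
      refine ⟨hh.1, hh.2.1, ?_⟩
      have e1 : min c1 (min c2 c3) * (min 1 ((L : ℝ) / Real.log X)) ^ K * (X / Real.log X ^ 2) ≤
          c2 * (min 1 ((L : ℝ) / Real.log X)) ^ K * (X / Real.log X ^ 2) := by
        apply mul_le_mul_of_nonneg_right _ hXl
        exact mul_le_mul_of_nonneg_right ((min_le_right _ _).trans (min_le_left _ _)) hmK
      refine (e1.trans hh.2.2).trans ?_
      unfold Pool.Agent.H61.GD.cq
      rw [Nat.cast_le]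
      apply card_le_card
      intro n hn
      rw [mem_filter] at hn ⊢
      exact ⟨hn.1, hn.2.1, hn.2.2.1, fun h => absurd h (not_le.2 hB)⟩
  · refine (h3 X d3 L b3 hA hLδ).trans ?_
    rw [Nat.cast_le]
    apply card_le_card
    intro h hh
    rw [mem_filter] at hh ⊢
    refine ⟨hh.1, hh.2.1, ?_⟩
    refine le_trans ?_ hh.2.2
    apply mul_le_mul_of_nonneg_right _ hXl
    calc min c1 (min c2 c3) * (min 1 ((L : ℝ) / Real.log X)) ^ K ≤ min c1 (min c2 c3) * 1 :=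
          mul_le_mul_of_nonneg_left hmin1 (by positivity)
      _ ≤ c3 := by
          rw [mul_one]
          exact (min_le_right _ _).trans (min_le_right _ _)

end Pool.Agent.H99.RO
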