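import Pool.Agent.H99.RO.DfN

/-!
[H99 RO PHS]  Sums of the singular factors `Ph Q s h` over `h ≤ n` in a residue class modulo `Q`.

Proof of `phi_sum`.  For primes `p ≥ 4 s^2 + 2 s + 2`: `β_p = (1 - 1/p)^(-s) - 1 ≤ 2 s/p ≤ p^(-1/2)` (Bernoulli: `(1 - 1/p)^s ≥ 1 - s/p ≥ 1/2`, so the inverse is `≤ 1 + 2 s/p`).
Take `w0 ≥ 4 s^2 + 2 s + 2` and `4/√w0 ≤ e`.  Let `primorial w0 ∣ Q`: primes not dividing `Q` are `> w0`.  `Ph Q s h = ∏_{p ∣ h, p ∤ Q} (1 + β_p) ≤ ∏ (1 + p^(-1/2))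
= ∑_{f = ∏ T, T ⊆ {p ∣ h, p ∤ Q}} f^(-1/2)` (`Finset.prod_one_add`), all these `f` are distinct divisors of `h`, coprime to `Q`, squarefree, and `f = 1` or `f > w0`.  So
`∑_{h ≤ n, h ≡ r} (Ph Q s h - 1) ≤ ∑_{w0 < f ≤ n, (f,Q) = 1} f^(-1/2) #{h ≤ n : h ≡ r (Q), f ∣ h} ≤ ∑_f f^(-1/2) (n/(f Q) + 1) ≤ (n/Q) ∑_{f > w0} f^(-3/2) + ∑_{f ≤ n} f^(-1/2)
≤ (n/Q) 2/√w0 + 2 √n`, `≤ e n/Q` if `2 √n ≤ (e/2) n/Q`, i.e. `n ≥ n0 = 16 Q^2/e^2`.
(`#{h ≤ n : h ≡ r (Q), f ∣ h} ≤ n/(f Q) + 1`: one class modulo `f Q`, `Nat.count_modEq_card` or injectivity of `h ↦ h / (f Q)`.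
`∑_{w0 < f ≤ n} f^(-3/2) ≤ 2/√w0`: `f^(-3/2) ≤ 2 ((f-1)^(-1/2) - f^(-1/2))`; `f^(-1/2) ≤ 2 (√f - √(f-1))`.)
-/

namespace Pool.Agent.H99.RO

open Finset

private theorem phs_tel {k : ℕ} (hk : 1 ≤ k) : 1 / (((k + 1 : ℕ) : ℝ) * √((k + 1 : ℕ) : ℝ)) ≤
    2 / √(k : ℝ) - 2 / √((k + 1 : ℕ) : ℝ) := by
  have hk0 : (0 : ℝ) < k := by exact_mod_cast hk
  have hk1 : (0 : ℝ) < ((k + 1 : ℕ) : ℝ) := by positivity
  obtain ⟨a, ha⟩ : ∃ a, a = √(k : ℝ) := ⟨_, rfl⟩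
  obtain ⟨b, hb⟩ : ∃ b, b = √((k + 1 : ℕ) : ℝ) := ⟨_, rfl⟩
  have ha0 : 0 < a := by rw [ha]; exact Real.sqrt_pos.2 hk0
  have hb0 : 0 < b := by rw [hb]; exact Real.sqrt_pos.2 hk1
  have ha2 : a ^ 2 = k := by rw [ha]; exact Real.sq_sqrt hk0.le
  have hb2 : b ^ 2 = ((k + 1 : ℕ) : ℝ) := by rw [hb]; exact Real.sq_sqrt hk1.le
  have hab : b ^ 2 = a ^ 2 + 1 := by rw [ha2, hb2]; push_cast; ring
  have hlt : a < b := by nlinarith
  rw [← ha, ← hb, ← hb2]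
  have e1 : 2 / a - 2 / b = 2 * (b - a) / (a * b) := by field_simp
  rw [e1, div_le_div_iff₀ (by positivity) (by positivity)]
  have e2 : (b - a) * (b + a) = 1 := by nlinarith
  have e3 : 1 * (a * b) * (b + a) ≤ 2 * (b - a) * (b ^ 2 * b) * (b + a) := by
    have : 2 * (b - a) * (b ^ 2 * b) * (b + a) = 2 * b ^ 3 * ((b - a) * (b + a)) := by ring
    rw [this, e2]
    have h1 : a * (b + a) ≤ 2 * b ^ 2 := by nlinarith
    nlinarith [mul_le_mul_of_nonneg_left h1 hb0.le]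
  exact le_of_mul_le_mul_right e3 (by positivity)

private theorem phs_tel2 (k : ℕ) : 1 / √((k + 1 : ℕ) : ℝ) ≤
    2 * √((k + 1 : ℕ) : ℝ) - 2 * √(k : ℝ) := by
  have hk0 : (0 : ℝ) ≤ k := Nat.cast_nonneg k
  have hk1 : (0 : ℝ) < ((k + 1 : ℕ) : ℝ) := by positivity
  obtain ⟨a, ha⟩ : ∃ a, a = √(k : ℝ) := ⟨_, rfl⟩
  obtain ⟨b, hb⟩ : ∃ b, b = √((k + 1 : ℕ) : ℝ) := ⟨_, rfl⟩
  have ha0 : 0 ≤ a := by rw [ha]; exact Real.sqrt_nonneg _
  have hb0 : 0 < b := by rw [hb]; exact Real.sqrt_pos.2 hk1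
  have ha2 : a ^ 2 = k := by rw [ha]; exact Real.sq_sqrt hk0
  have hb2 : b ^ 2 = ((k + 1 : ℕ) : ℝ) := by rw [hb]; exact Real.sq_sqrt hk1.le
  have hab : b ^ 2 = a ^ 2 + 1 := by rw [ha2, hb2]; push_cast; ring
  rw [← ha, ← hb, div_le_iff₀ hb0]
  nlinarith [sq_nonneg (b - a)]

private theorem phs_sum1 {w : ℕ} (hw : 1 ≤ w) (n : ℕ) :
    ∑ f ∈ Ioc w n, 1 / ((f : ℝ) * √(f : ℝ)) ≤ 2 / √(w : ℝ) := by
  have key : ∀ m : ℕ, ∑ f ∈ Ioc w (w + m), 1 / ((f : ℝ) * √(f : ℝ)) ≤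
      2 / √(w : ℝ) - 2 / √((w + m : ℕ) : ℝ) := by
    intro m
    induction m with
    | zero => simp
    | succ m ih =>
      rw [← add_assoc, Finset.sum_Ioc_succ_top (by omega)]
      have h := phs_tel (k := w + m) (by omega)
      linarith
  rcases le_total w n with h | h
  · obtain ⟨m, rfl⟩ := Nat.exists_eq_add_of_le h
    have h1 := key m
    have h2 : 0 ≤ 2 / √((w + m : ℕ) : ℝ) := by positivity
    linarith
  · rw [Ioc_eq_empty_of_le h, sum_empty]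
    positivity

private theorem phs_sum2 (n : ℕ) : ∑ f ∈ Icc 1 n, 1 / √(f : ℝ) ≤ 2 * √(n : ℝ) := by
  induction n with
  | zero => simp
  | succ n ih =>
    rw [Finset.sum_Icc_succ_top (by omega)]
    have h := phs_tel2 n
    linarith

private theorem phs_fac {s p : ℕ} (hp : 4 * s ^ 2 + 2 * s + 2 ≤ p) :
    ((1 - 1 / (p : ℝ))⁻¹) ^ s ≤ 1 + 1 / √(p : ℝ) := by
  have hp0 : (0 : ℝ) < p := by
    have : 0 < p := by omega
    exact_mod_cast this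
  have h1 : (2 : ℝ) * s ≤ p := by
    have : 2 * s ≤ p := by nlinarith [Nat.zero_le (s ^ 2)]
    exact_mod_cast this
  have h2 : (4 : ℝ) * s ^ 2 ≤ p := by
    have : 4 * s ^ 2 ≤ p := by omega
    exact_mod_cast this
  have h3 : (2 : ℝ) ≤ p := by
    have : 2 ≤ p := by omega
    exact_mod_cast this
  have hs0 : (0 : ℝ) ≤ s := Nat.cast_nonneg s
  have hle : (1 : ℝ) / p ≤ 1 / 2 := by
    rw [div_le_div_iff₀ hp0 (by norm_num)]; linarith
  have hpos : 0 < 1 / (p : ℝ) := by positivity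
  have hB := one_add_mul_le_pow (a := -(1 / (p : ℝ))) (by linarith) s
  have hB' : 1 - (s : ℝ) / p ≤ (1 - 1 / (p : ℝ)) ^ s := by
    calc 1 - (s : ℝ) / p = 1 + s * -(1 / (p : ℝ)) := by ring
      _ ≤ (1 + -(1 / (p : ℝ))) ^ s := hB
      _ = _ := by rw [← sub_eq_add_neg]
  have hu : (s : ℝ) / p ≤ 1 / 2 := by
    rw [div_le_div_iff₀ hp0 (by norm_num)]; linarith
  have hu0 : 0 ≤ (s : ℝ) / p := by positivity
  have hpw : 0 < (1 - 1 / (p : ℝ)) ^ s := pow_pos (by linarith) s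
  have h4 : ((1 - 1 / (p : ℝ))⁻¹) ^ s ≤ 1 + 2 * ((s : ℝ) / p) := by
    rw [inv_pow, inv_le_comm₀ hpw (by positivity)]
    refine le_trans ?_ hB'
    rw [inv_le_iff_one_le_mul₀ (by positivity)]
    nlinarith
  refine h4.trans ?_
  have hsq : 0 < √(p : ℝ) := Real.sqrt_pos.2 hp0
  have h5 : 2 * (s : ℝ) ≤ √(p : ℝ) := by
    apply Real.le_sqrt_of_sq_le
    nlinarith
  have h6 : 2 * ((s : ℝ) / p) ≤ 1 / √(p : ℝ) := by
    have e : (p : ℝ) = √(p : ℝ) * √(p : ℝ) := (Real.mul_self_sqrt hp0.le).symm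
    rw [← mul_div_assoc, div_le_div_iff₀ hp0 hsq]
    calc 2 * (s : ℝ) * √(p : ℝ) ≤ √(p : ℝ) * √(p : ℝ) := mul_le_mul_of_nonneg_right h5 hsq.le
      _ = 1 * (p : ℝ) := by rw [← e, one_mul]
  linarith

private theorem phs_fac_one {s p : ℕ} (hp : 2 ≤ p) : 1 ≤ ((1 - 1 / (p : ℝ))⁻¹) ^ s := by
  have hp0 : (0 : ℝ) < p := by
    have : 0 < p := by omega
    exact_mod_cast this
  have h3 : (2 : ℝ) ≤ p := by exact_mod_cast hp
  have hle : (1 : ℝ) / p ≤ 1 / 2 := by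
    rw [div_le_div_iff₀ hp0 (by norm_num)]; linarith
  have hpos : 0 < 1 / (p : ℝ) := by positivity
  apply one_le_pow₀
  exact (one_le_inv₀ (by linarith)).2 (by linarith)

theorem Ph_one_le (Q s h : ℕ) : 1 ≤ Ph Q s h := by
  unfold Ph
  calc (1 : ℝ) = ∏ _p ∈ h.primeFactors.filter (fun p => ¬ p ∣ Q), 1 := prod_const_one.symm
    _ ≤ _ := prod_le_prod (fun _ _ => zero_le_one) fun p hp => by
      rw [mem_filter, Nat.mem_primeFactors] at hp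
      exact phs_fac_one hp.1.1.two_le

/-- powers -/
theorem Ph_pow (Q s t h : ℕ) : Ph Q s h ^ t = Ph Q (s * t) h := by
  unfold Ph
  rw [← prod_pow]
  exact prod_congr rfl fun p _ => (pow_mul _ _ _).symm

private theorem phs_sqrt (T : Finset ℕ) : √(∏ p ∈ T, (p : ℝ)) = ∏ p ∈ T, √(p : ℝ) := by
  classical
  induction T using Finset.induction_on with
  | empty => simp
  | insert a T ha ih => rw [prod_insert ha, prod_insert ha, Real.sqrt_mul (Nat.cast_nonneg a), ih]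

private theorem phs_one {Q s w n h : ℕ} (hw : 4 * s ^ 2 + 2 * s + 2 ≤ w)
    (hQ : ∀ p : ℕ, p.Prime → ¬ p ∣ Q → w < p) (hh : h ∈ Icc 1 n) :
    Ph Q s h - 1 ≤ ∑ f ∈ (Ioc w n).filter (fun f => Nat.Coprime f Q),
      if f ∣ h then 1 / √(f : ℝ) else 0 := by
  classical
  rw [mem_Icc] at hh
  obtain ⟨A, hA⟩ : ∃ A, A = h.primeFactors.filter (fun p => ¬ p ∣ Q) := ⟨_, rfl⟩
  have hAp : ∀ p ∈ A, p.Prime ∧ p ∣ h ∧ ¬ p ∣ Q ∧ w < p := by
    intro p hp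
    rw [hA, mem_filter, Nat.mem_primeFactors] at hp
    exact ⟨hp.1.1, hp.1.2.1, hp.2, hQ p hp.1.1 hp.2⟩
  have h1 : Ph Q s h ≤ ∏ p ∈ A, (1 + 1 / √(p : ℝ)) := by
    unfold Ph
    rw [← hA]
    refine prod_le_prod (fun p hp => ?_) (fun p hp => ?_)
    · exact zero_le_one.trans (phs_fac_one (hAp p hp).1.two_le)
    · exact phs_fac (hw.trans (hAp p hp).2.2.2.le)
  have h2 : ∏ p ∈ A, (1 + 1 / √(p : ℝ)) = ∑ T ∈ A.powerset, 1 / √((∏ p ∈ T, p : ℕ) : ℝ) := by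
    rw [prod_one_add]
    refine sum_congr rfl fun T _ => ?_
    rw [prod_div_distrib, prod_const_one, Nat.cast_prod]
    congr 1
    exact (phs_sqrt T).symm
  have h3 : ∑ T ∈ A.powerset, 1 / √((∏ p ∈ T, p : ℕ) : ℝ) =
      (∑ T ∈ A.powerset.erase ∅, 1 / √((∏ p ∈ T, p : ℕ) : ℝ)) + 1 := by
    rw [← sum_erase_add _ _ (empty_mem_powerset A)]
    simp
  have hinj : Set.InjOn (fun T : Finset ℕ => ∏ p ∈ T, p) (A.powerset.erase ∅ : Finset (Finset ℕ)) := by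
    intro T hT T' hT' he
    rw [mem_coe, mem_erase, mem_powerset] at hT hT'
    have e1 := Nat.primeFactors_prod (s := T) fun p hp => (hAp p (hT.2 hp)).1
    have e2 := Nat.primeFactors_prod (s := T') fun p hp => (hAp p (hT'.2 hp)).1
    have he' : ∏ p ∈ T, p = ∏ p ∈ T', p := he
    rw [← e1, ← e2, he']
  have h4 : ∑ T ∈ A.powerset.erase ∅, 1 / √((∏ p ∈ T, p : ℕ) : ℝ) =
      ∑ f ∈ (A.powerset.erase ∅).image (fun T : Finset ℕ => ∏ p ∈ T, p), 1 / √(f : ℝ) := by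
    rw [sum_image hinj]
  have hsub : (A.powerset.erase ∅).image (fun T : Finset ℕ => ∏ p ∈ T, p) ⊆
      ((Ioc w n).filter (fun f => Nat.Coprime f Q)).filter (fun f => f ∣ h) := by
    intro f hf
    rw [mem_image] at hf
    obtain ⟨T, hT, rfl⟩ := hf
    rw [mem_erase, mem_powerset] at hT
    have hd : ∏ p ∈ T, p ∣ h := by
      refine dvd_trans ?_ (Nat.prod_primeFactors_dvd h)
      apply prod_dvd_prod_of_subset
      intro p hp
      have := hT.2 hp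
      rw [hA, mem_filter] at this
      exact this.1
    obtain ⟨p, hp⟩ := nonempty_iff_ne_empty.2 hT.1
    have hpos : 0 < ∏ p ∈ T, p := prod_pos fun p hp => (hAp p (hT.2 hp)).1.pos
    have hle : p ≤ ∏ p ∈ T, p := Nat.le_of_dvd hpos (dvd_prod_of_mem _ hp)
    rw [mem_filter, mem_filter, mem_Ioc]
    refine ⟨⟨⟨(hAp p (hT.2 hp)).2.2.2.trans_le hle, (Nat.le_of_dvd hh.1 hd).trans hh.2⟩, ?_⟩, hd⟩
    exact Nat.Coprime.prod_left fun q hq =>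
      ((hAp q (hT.2 hq)).1.coprime_iff_not_dvd).2 (hAp q (hT.2 hq)).2.2.1
  rw [← sum_filter]
  have h5 := sum_le_sum_of_subset_of_nonneg (f := fun f : ℕ => 1 / √(f : ℝ)) hsub
    fun f _ _ => by positivity
  rw [h2, h3, h4] at h1
  linarith

private theorem phs_count {Q n r f : ℕ} (hQ : 0 < Q) (hf : 0 < f) (hc : Nat.Coprime f Q) :
    ((((Icc 1 n).filter (fun h => h ≡ r [MOD Q])).filter (fun h => f ∣ h)).card : ℝ) ≤
      n / (f * Q) + 1 := by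
  have hfQ : 0 < f * Q := Nat.mul_pos hf hQ
  have h1 : (((Icc 1 n).filter (fun h => h ≡ r [MOD Q])).filter (fun h => f ∣ h)).card ≤
      (range (n / (f * Q) + 1)).card := by
    apply card_le_card_of_injOn (fun h => h / (f * Q))
    · intro h hh
      rw [mem_coe, mem_filter, mem_filter, mem_Icc] at hh
      rw [mem_coe, mem_range]
      have := Nat.div_le_div_right (c := f * Q) hh.1.1.2
      show h / (f * Q) < n / (f * Q) + 1
      omega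
    · intro h hh h' hh' he
      rw [mem_coe, mem_filter, mem_filter, mem_Icc] at hh hh'
      have e1 : h ≡ h' [MOD Q] := hh.1.2.trans hh'.1.2.symm
      have e2 : h ≡ h' [MOD f] := by
        rw [Nat.ModEq, Nat.mod_eq_zero_of_dvd hh.2, Nat.mod_eq_zero_of_dvd hh'.2]
      have e3 : h ≡ h' [MOD f * Q] := (Nat.modEq_and_modEq_iff_modEq_mul hc).1 ⟨e2, e1⟩
      have he' : h / (f * Q) = h' / (f * Q) := he
      rw [← Nat.div_add_mod h (f * Q), ← Nat.div_add_mod h' (f * Q), he', e3]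
  rw [card_range] at h1
  have h2 : ((((Icc 1 n).filter (fun h => h ≡ r [MOD Q])).filter (fun h => f ∣ h)).card : ℝ) ≤
      ((n / (f * Q) + 1 : ℕ) : ℝ) := by exact_mod_cast h1
  refine h2.trans ?_
  push_cast
  have h3 := Nat.cast_div_le (α := ℝ) (m := n) (n := f * Q)
  push_cast at h3
  linarith

theorem phi_sum (s : ℕ) (e : ℝ) (he : 0 < e) : ∃ w0 : ℕ, ∀ Q : ℕ, 0 < Q → primorial w0 ∣ Q →
    ∃ n0 : ℕ, ∀ n : ℕ, n0 ≤ n → ∀ r : ℕ,
      ∑ h ∈ (Icc 1 n).filter (fun h => h ≡ r [MOD Q]), (Ph Q s h - 1) ≤ e * n / Q := by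
  obtain ⟨w1, hw1⟩ := exists_nat_ge (16 / e ^ 2)
  obtain ⟨w, hw⟩ : ∃ w, w = w1 + (4 * s ^ 2 + 2 * s + 2) := ⟨_, rfl⟩
  have hw2 : 4 * s ^ 2 + 2 * s + 2 ≤ w := by omega
  have hw0 : 1 ≤ w := by omega
  have hwR : 16 / e ^ 2 ≤ (w : ℝ) := by
    refine hw1.trans ?_
    have : w1 ≤ w := by omega
    exact_mod_cast this
  have hwe : 2 / √(w : ℝ) ≤ e / 2 := by
    have h1 : 4 / e ≤ √(w : ℝ) := by
      apply Real.le_sqrt_of_sq_le
      rw [div_pow]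
      norm_num
      exact hwR
    have hs : 0 < √(w : ℝ) := Real.sqrt_pos.2 (by exact_mod_cast hw0)
    rw [div_le_iff₀ he] at h1
    rw [div_le_iff₀ hs]
    linarith
  refine ⟨w, fun Q hQ hpr => ?_⟩
  have hQR : (0 : ℝ) < Q := by exact_mod_cast hQ
  have hbig : ∀ p : ℕ, p.Prime → ¬ p ∣ Q → w < p := by
    intro p hp hnd
    by_contra hle
    push Not at hle
    exact hnd ((hp.dvd_primorial_iff.2 hle).trans hpr)
  obtain ⟨n0, hn0⟩ := exists_nat_ge (16 * (Q : ℝ) ^ 2 / e ^ 2)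
  refine ⟨n0, fun n hn r => ?_⟩
  have hnR : 16 * (Q : ℝ) ^ 2 / e ^ 2 ≤ (n : ℝ) := hn0.trans (by exact_mod_cast hn)
  have hn1 : 2 * √(n : ℝ) ≤ e / 2 * (n / Q) := by
    have h1 : 4 * Q / e ≤ √(n : ℝ) := by
      apply Real.le_sqrt_of_sq_le
      have e1 : (4 * (Q : ℝ) / e) ^ 2 = 16 * (Q : ℝ) ^ 2 / e ^ 2 := by
        rw [div_pow, mul_pow]; norm_num
      rw [e1]
      exact hnR
    have h2 : √(n : ℝ) * √(n : ℝ) = n := Real.mul_self_sqrt (Nat.cast_nonneg n)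
    have h3 : 4 * Q / e * √(n : ℝ) ≤ n := by
      calc 4 * Q / e * √(n : ℝ) ≤ √(n : ℝ) * √(n : ℝ) :=
            mul_le_mul_of_nonneg_right h1 (Real.sqrt_nonneg _)
        _ = n := h2
    have h4 : 4 * Q * √(n : ℝ) ≤ e * n := by
      have := mul_le_mul_of_nonneg_left h3 he.le
      calc 4 * Q * √(n : ℝ) = e * (4 * Q / e * √(n : ℝ)) := by field_simp
        _ ≤ e * n := this
    have h5 : e / 2 * (n / Q) = (e * n) / (2 * Q) := by field_simp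
    rw [h5, le_div_iff₀ (by positivity)]
    linarith
  obtain ⟨H, hH⟩ : ∃ H, H = (Icc 1 n).filter (fun h => h ≡ r [MOD Q]) := ⟨_, rfl⟩
  obtain ⟨F, hF⟩ : ∃ F, F = (Ioc w n).filter (fun f => Nat.Coprime f Q) := ⟨_, rfl⟩
  rw [← hH]
  have s1 : ∑ h ∈ H, (Ph Q s h - 1) ≤ ∑ h ∈ H, ∑ f ∈ F, if f ∣ h then 1 / √(f : ℝ) else 0 := by
    refine sum_le_sum fun h hh => ?_
    rw [hF]
    rw [hH, mem_filter] at hh
    exact phs_one hw2 hbig hh.1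
  have s2 : ∑ h ∈ H, ∑ f ∈ F, (if f ∣ h then 1 / √(f : ℝ) else 0) =
      ∑ f ∈ F, ((H.filter fun h => f ∣ h).card : ℝ) * (1 / √(f : ℝ)) := by
    rw [sum_comm]
    refine sum_congr rfl fun f _ => ?_
    rw [← sum_filter, sum_const, nsmul_eq_mul]
  have s3 : ∑ f ∈ F, ((H.filter fun h => f ∣ h).card : ℝ) * (1 / √(f : ℝ)) ≤
      ∑ f ∈ F, ((n / Q : ℝ) * (1 / ((f : ℝ) * √(f : ℝ))) + 1 / √(f : ℝ)) := by
    refine sum_le_sum fun f hf => ?_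
    rw [hF, mem_filter, mem_Ioc] at hf
    have hf0 : 0 < f := by omega
    have hfR : (0 : ℝ) < f := by exact_mod_cast hf0
    have hc := phs_count (n := n) (r := r) hQ hf0 hf.2
    rw [← hH] at hc
    have hs : 0 < √(f : ℝ) := Real.sqrt_pos.2 hfR
    calc ((H.filter fun h => f ∣ h).card : ℝ) * (1 / √(f : ℝ)) ≤
          (n / (f * Q) + 1) * (1 / √(f : ℝ)) := mul_le_mul_of_nonneg_right hc (by positivity)
      _ = _ := by field_simp
  have s4 : ∑ f ∈ F, ((n / Q : ℝ) * (1 / ((f : ℝ) * √(f : ℝ))) + 1 / √(f : ℝ)) ≤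
      (n / Q : ℝ) * (2 / √(w : ℝ)) + 2 * √(n : ℝ) := by
    rw [sum_add_distrib, ← mul_sum]
    have t1 : ∑ f ∈ F, 1 / ((f : ℝ) * √(f : ℝ)) ≤ 2 / √(w : ℝ) := by
      refine le_trans ?_ (phs_sum1 hw0 n)
      rw [hF]
      exact sum_le_sum_of_subset_of_nonneg (filter_subset _ _) fun f _ _ => by positivity
    have t2 : ∑ f ∈ F, 1 / √(f : ℝ) ≤ 2 * √(n : ℝ) := by
      refine le_trans ?_ (phs_sum2 n)
      rw [hF]
      refine sum_le_sum_of_subset_of_nonneg ?_ fun f _ _ => by positivity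
      intro f hf
      rw [mem_filter, mem_Ioc] at hf
      rw [mem_Icc]
      omega
    exact add_le_add (mul_le_mul_of_nonneg_left t1 (by positivity)) t2
  have s5 : (n / Q : ℝ) * (2 / √(w : ℝ)) ≤ (n / Q : ℝ) * (e / 2) :=
    mul_le_mul_of_nonneg_left hwe (by positivity)
  calc ∑ h ∈ H, (Ph Q s h - 1) ≤ (n / Q : ℝ) * (2 / √(w : ℝ)) + 2 * √(n : ℝ) :=
        s1.trans ((le_of_eq s2).trans (s3.trans s4))
    _ ≤ (n / Q : ℝ) * (e / 2) + e / 2 * (n / Q) := add_le_add s5 hn1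
    _ = e * n / Q := by ring

end Pool.Agent.H99.RO
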