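import Pool.Agent.H99.RO.DfN

/-!
[H99 RO UNI]  The pair correlation of `ev2` weights, uniform in the shifts.

Copy of `pat_int`, `ev2_int`, `ev2_one` of `Pool/Agent/H11/RG/Pat.lean` with the shifts inside: `pat_pair_b` (`Pool/Agent/H11/PT/PairB.lean`) is already uniform in `h, h' ≤ x^c`
(`η = 1/2000`: `η/64 = 1/128000`, `η/128 = 1/256000`).  `ev2 V k * ev2 W k'` is the double sum over `v ∈ V`, `w ∈ W` of `v.1 * w.1 *` monomials; the constants
`c`, `C`, `x0` are the minimum, the sum of `|v.1| |w.1|` and the maximum over the finitely many pairs.  (For lists: induction, or state a uniform version of `IntD` with the closure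
lemmas `intd_add`, `intd_smul`, `intd_list` copied.)
`uni_one`: `uni_pair` with `W = [(1, [], [])]` (`ev2 = 1`, `mv2 = 1`) and `h' = h + 1` (`h + 1 ≤ x^c'` for `h ≤ x^c`, `c < c'`).
-/

namespace Pool.Agent.H99.RO

open Finset Pool.Agent.H89.P2 Pool.Agent.H11.PT Pool.Agent.H11.RG Filter

/-- distribution, uniform in the shifts -/
private def UD (a0 : ℝ) (Φ : ℝ → ℕ → ℕ → ℕ → ℝ) (E : ℝ → ℝ) : Prop :=
  ∃ c C : ℝ, 0 < c ∧ 0 < C ∧ ∀ᶠ x : ℝ in atTop, ∀ X q0 h h' r : ℕ, (X : ℝ) ≤ x → 0 < q0 →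
      (q0 : ℝ) ≤ x ^ (1 / 128000 : ℝ) → (∀ p : ℕ, p.Prime → p ∣ q0 → (p : ℝ) < x ^ a0) →
      (h : ℝ) ≤ x ^ c → (h' : ℝ) ≤ x ^ c → h ≠ h' →
      |∑ N ∈ (Icc 1 X).filter (fun N => N % q0 = r % q0), Φ x h h' N - (X : ℝ) / q0 * E x| ≤
      C * (x ^ (1 - c) / q0 + x ^ (1 - 1 / 256000 : ℝ))

private theorem ud_congr {a0 : ℝ} {Φ Φ' : ℝ → ℕ → ℕ → ℕ → ℝ} {E E' : ℝ → ℝ} (H : UD a0 Φ E)
    (h1 : ∀ x h h' N, Φ x h h' N = Φ' x h h' N) (h2 : ∀ x, E x = E' x) : UD a0 Φ' E' := by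
  have e1 : Φ = Φ' := by
    funext x h h' N
    exact h1 x h h' N
  have e2 : E = E' := funext h2
  rw [← e1, ← e2]
  exact H

private theorem ud_zero (a0 : ℝ) : UD a0 (fun _ _ _ _ => 0) (fun _ => 0) := by
  refine ⟨1, 1, one_pos, one_pos, ?_⟩
  filter_upwards [eventually_ge_atTop (1 : ℝ)] with x hx X q0 h h' r _ _ _ _ _ _ _
  have hx0 : 0 < x := by linarith
  rw [sum_const_zero, mul_zero, sub_zero, abs_zero]
  positivity

private theorem ud_add {a0 : ℝ} {Φ Φ' : ℝ → ℕ → ℕ → ℕ → ℝ} {E E' : ℝ → ℝ} (H : UD a0 Φ E)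
    (H' : UD a0 Φ' E') : UD a0 (fun x h h' N => Φ x h h' N + Φ' x h h' N)
      (fun x => E x + E' x) := by
  obtain ⟨c, C, hc, hC, H⟩ := H
  obtain ⟨c', C', hc', hC', H'⟩ := H'
  refine ⟨min c c', C + C', lt_min hc hc', by positivity, ?_⟩
  filter_upwards [H, H', eventually_ge_atTop (1 : ℝ)] with x H H' hx X q0 h h' r h4 h5 h6 h7 h8 h9
    h10
  have hx0 : 0 < x := by linarith
  have hq : (0 : ℝ) < q0 := by exact_mod_cast h5
  have m1 : x ^ (min c c') ≤ x ^ c := Real.rpow_le_rpow_of_exponent_le hx (min_le_left c c')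
  have m2 : x ^ (min c c') ≤ x ^ c' := Real.rpow_le_rpow_of_exponent_le hx (min_le_right c c')
  have g1 := H X q0 h h' r h4 h5 h6 h7 (h8.trans m1) (h9.trans m1) h10
  have g2 := H' X q0 h h' r h4 h5 h6 h7 (h8.trans m2) (h9.trans m2) h10
  have p1 : x ^ (1 - c) ≤ x ^ (1 - min c c') := Real.rpow_le_rpow_of_exponent_le hx (by
    have := min_le_left c c'; linarith)
  have p2 : x ^ (1 - c') ≤ x ^ (1 - min c c') := Real.rpow_le_rpow_of_exponent_le hx (by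
    have := min_le_right c c'; linarith)
  have q1 : x ^ (1 - c) / q0 ≤ x ^ (1 - min c c') / q0 := div_le_div_of_nonneg_right p1 hq.le
  have q2 : x ^ (1 - c') / q0 ≤ x ^ (1 - min c c') / q0 := div_le_div_of_nonneg_right p2 hq.le
  have r1 := mul_le_mul_of_nonneg_left q1 hC.le
  have r2 := mul_le_mul_of_nonneg_left q2 hC'.le
  have e : ∑ N ∈ (Icc 1 X).filter (fun N => N % q0 = r % q0), (Φ x h h' N + Φ' x h h' N) -
      (X : ℝ) / q0 * (E x + E' x) =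
      (∑ N ∈ (Icc 1 X).filter (fun N => N % q0 = r % q0), Φ x h h' N - (X : ℝ) / q0 * E x) +
      (∑ N ∈ (Icc 1 X).filter (fun N => N % q0 = r % q0), Φ' x h h' N -
        (X : ℝ) / q0 * E' x) := by
    rw [sum_add_distrib]
    ring
  rw [e]
  refine (abs_add_le _ _).trans ?_
  have r3 : (C + C') * (x ^ (1 - min c c') / q0 + x ^ (1 - 1 / 256000 : ℝ)) =
      C * (x ^ (1 - min c c') / q0) + C * x ^ (1 - 1 / 256000 : ℝ) +
      (C' * (x ^ (1 - min c c') / q0) + C' * x ^ (1 - 1 / 256000 : ℝ)) := by ring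
  rw [mul_add] at g1 g2
  rw [r3]
  linarith

private theorem ud_smul {a0 : ℝ} {Φ : ℝ → ℕ → ℕ → ℕ → ℝ} {E : ℝ → ℝ} (s : ℝ) (H : UD a0 Φ E) :
    UD a0 (fun x h h' N => s * Φ x h h' N) (fun x => s * E x) := by
  obtain ⟨c, C, hc, hC, H⟩ := H
  refine ⟨c, |s| * C + 1, hc, by positivity, ?_⟩
  filter_upwards [H, eventually_ge_atTop (1 : ℝ)] with x H hx X q0 h h' r h4 h5 h6 h7 h8 h9 h10
  have hx0 : 0 < x := by linarith
  have g1 := H X q0 h h' r h4 h5 h6 h7 h8 h9 h10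
  have e : ∑ N ∈ (Icc 1 X).filter (fun N => N % q0 = r % q0), (s * Φ x h h' N) -
      (X : ℝ) / q0 * (s * E x) =
      s * (∑ N ∈ (Icc 1 X).filter (fun N => N % q0 = r % q0), Φ x h h' N -
        (X : ℝ) / q0 * E x) := by
    rw [← mul_sum]
    ring
  rw [e, abs_mul]
  have g2 := mul_le_mul_of_nonneg_left g1 (abs_nonneg s)
  have g3 : 0 ≤ x ^ (1 - c) / q0 + x ^ (1 - 1 / 256000 : ℝ) := by positivity
  have g4 : (|s| * C + 1) * (x ^ (1 - c) / q0 + x ^ (1 - 1 / 256000 : ℝ)) =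
      |s| * (C * (x ^ (1 - c) / q0 + x ^ (1 - 1 / 256000 : ℝ))) +
      (x ^ (1 - c) / q0 + x ^ (1 - 1 / 256000 : ℝ)) := by ring
  rw [g4]
  linarith

private theorem ud_list {α : Type} {a0 : ℝ} (l : List α) (s : α → ℝ)
    (Φ : α → ℝ → ℕ → ℕ → ℕ → ℝ) (E : α → ℝ → ℝ) (H : ∀ i ∈ l, UD a0 (Φ i) (E i)) :
    UD a0 (fun x h h' N => (l.map fun i => s i * Φ i x h h' N).sum)
      (fun x => (l.map fun i => s i * E i x).sum) := by
  induction l with
  | nil =>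
    simpa using ud_zero a0
  | cons i l ih =>
    have h1 := ud_smul (s i) (H i (List.mem_cons_self ..))
    have h2 := ih fun j hj => H j (List.mem_cons_of_mem _ hj)
    simpa using ud_add h1 h2

private theorem ud_pat (δ a0 : ℝ) (hδ : 0 < δ) (ha0 : 0 < a0) (ha1 : a0 ≤ 1 / 2)
    (v w : ℝ × List ℕ × List ℕ) (hv : Okw δ a0 [v]) (hw : Okw δ a0 [w]) :
    UD a0 (fun x h h' N => mono (v.2.1 ++ v.2.2) (kk x δ (N + h)) *
        mono (w.2.1 ++ w.2.2) (kk x δ (N + h')))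
      (fun x => ((v.2.1 ++ v.2.2).map (ms x δ)).prod * ((w.2.1 ++ w.2.2).map (ms x δ)).prod) := by
  have hv1 := hv.1 v (List.mem_singleton_self v)
  have hv2 := hv.2 v (List.mem_singleton_self v)
  have hw1 := hw.1 w (List.mem_singleton_self w)
  have hw2 := hw.2 w (List.mem_singleton_self w)
  obtain ⟨c, θ, x0, hc, hθ, H⟩ := pat_pair_b δ (1 / 2000) a0 hδ (by norm_num) (by norm_num) ha0 ha1
    v.2.1 v.2.2 w.2.1 w.2.2
    (fun j hj => hv1 j (List.mem_append_left _ hj)) (fun j hj => hv1 j (List.mem_append_right _ hj))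
    (fun j hj => hw1 j (List.mem_append_left _ hj)) (fun j hj => hw1 j (List.mem_append_right _ hj))
    hv2.1 hv2.2 hw2.1 hw2.2
  refine ⟨c, 1, hc, one_pos, ?_⟩
  filter_upwards [eventually_ge_atTop x0, eventually_ge_atTop (1 : ℝ)] with x h3 hx1 X q0 h h' r h4
    h5 h6 h7 h8 h9 h10
  have e1 : (1 / 2000 : ℝ) / 64 = 1 / 128000 := by norm_num
  have e2 : (1 : ℝ) - 1 / 2000 / 128 = 1 - 1 / 256000 := by norm_num
  have h11 : (X : ℝ) ≤ x ^ (1 + θ) := by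
    refine h4.trans ?_
    calc x = x ^ (1 : ℝ) := (Real.rpow_one x).symm
      _ ≤ x ^ (1 + θ) := Real.rpow_le_rpow_of_exponent_le hx1 (by linarith)
  have h12 := H x h3 0 X q0 h h' r (Nat.zero_le _) h11 h5 (by rw [e1]; exact h6) h7 h8 h9 h10
  rw [e2, Nat.cast_zero, sub_zero] at h12
  rw [one_mul]
  exact h12

private theorem ud_main (dl a0 : ℝ) (hdl : 0 < dl) (ha0 : 0 < a0) (ha1 : a0 ≤ 1 / 2)
    (V W : List (ℝ × List ℕ × List ℕ)) (hV : Okw dl a0 V) (hW : Okw dl a0 W) :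
    UD a0 (fun x h h' N => ev2 V (kk x dl (N + h)) * ev2 W (kk x dl (N + h')))
      (fun x => mv2 V (ms x dl) * mv2 W (ms x dl)) := by
  have hsub : ∀ (U : List (ℝ × List ℕ × List ℕ)), Okw dl a0 U → ∀ v ∈ U, Okw dl a0 [v] := by
    intro U hU v hv
    constructor
    · intro w hw
      rw [List.mem_singleton] at hw
      subst hw
      exact hU.1 w hv
    · intro w hw
      rw [List.mem_singleton] at hw
      subst hw
      exact hU.2 w hv
  have h1 := ud_list V (fun v => v.1)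
    (fun v x h h' N => (W.map fun w => w.1 * (mono (v.2.1 ++ v.2.2) (kk x dl (N + h)) *
      mono (w.2.1 ++ w.2.2) (kk x dl (N + h')))).sum)
    (fun v x => (W.map fun w => w.1 * (((v.2.1 ++ v.2.2).map (ms x dl)).prod *
      ((w.2.1 ++ w.2.2).map (ms x dl)).prod)).sum)
    (fun v hv => ud_list W (fun w => w.1)
      (fun w x h h' N => mono (v.2.1 ++ v.2.2) (kk x dl (N + h)) *
        mono (w.2.1 ++ w.2.2) (kk x dl (N + h')))
      (fun w x => ((v.2.1 ++ v.2.2).map (ms x dl)).prod * ((w.2.1 ++ w.2.2).map (ms x dl)).prod)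
      (fun w hw => ud_pat dl a0 hdl ha0 ha1 v w (hsub V hV v hv) (hsub W hW w hw)))
  have key : ∀ (f g : ℝ × List ℕ × List ℕ → ℝ),
      (V.map fun v => v.1 * (W.map fun w => w.1 * (f v * g w)).sum).sum =
      (V.map fun v => v.1 * f v).sum * (W.map fun w => w.1 * g w).sum := by
    intro f g
    rw [← List.sum_map_mul_right]
    congr 1
    apply List.map_congr_left
    intro v _
    have h2 : (W.map fun w => w.1 * (f v * g w)).sum = f v * (W.map fun w => w.1 * g w).sum := by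
      rw [← List.sum_map_mul_left]
      congr 1
      apply List.map_congr_left
      intro w _
      ring
    rw [h2, mul_assoc]
  refine ud_congr h1 ?_ ?_
  · intro x h h' N
    exact key _ _
  · intro x
    exact key _ _

theorem uni_pair (dl a0 : ℝ) (hdl : 0 < dl) (ha0 : 0 < a0) (ha1 : a0 ≤ 1 / 2)
    (V W : List (ℝ × List ℕ × List ℕ)) (hV : Okw dl a0 V) (hW : Okw dl a0 W) :
    ∃ c C x0 : ℝ, 0 < c ∧ 0 < C ∧ ∀ x : ℝ, x0 ≤ x → ∀ X q0 h h' r : ℕ, (X : ℝ) ≤ x → 0 < q0 →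
      (q0 : ℝ) ≤ x ^ (1 / 128000 : ℝ) → (∀ p : ℕ, p.Prime → p ∣ q0 → (p : ℝ) < x ^ a0) →
      (h : ℝ) ≤ x ^ c → (h' : ℝ) ≤ x ^ c → h ≠ h' →
      |∑ N ∈ (Icc 1 X).filter (fun N => N % q0 = r % q0),
          ev2 V (kk x dl (N + h)) * ev2 W (kk x dl (N + h')) -
        (X : ℝ) / q0 * (mv2 V (ms x dl) * mv2 W (ms x dl))| ≤
      C * (x ^ (1 - c) / q0 + x ^ (1 - 1 / 256000 : ℝ)) := by
  obtain ⟨c, C, hc, hC, H⟩ := ud_main dl a0 hdl ha0 ha1 V W hV hW
  obtain ⟨x0, hx0⟩ := eventually_atTop.1 H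
  exact ⟨c, C, x0, hc, hC, hx0⟩

theorem uni_one (dl a0 : ℝ) (hdl : 0 < dl) (ha0 : 0 < a0) (ha1 : a0 ≤ 1 / 2)
    (V : List (ℝ × List ℕ × List ℕ)) (hV : Okw dl a0 V) :
    ∃ c C x0 : ℝ, 0 < c ∧ 0 < C ∧ ∀ x : ℝ, x0 ≤ x → ∀ X q0 h r : ℕ, (X : ℝ) ≤ x → 0 < q0 →
      (q0 : ℝ) ≤ x ^ (1 / 128000 : ℝ) → (∀ p : ℕ, p.Prime → p ∣ q0 → (p : ℝ) < x ^ a0) →
      (h : ℝ) ≤ x ^ c →
      |∑ N ∈ (Icc 1 X).filter (fun N => N % q0 = r % q0), ev2 V (kk x dl (N + h)) -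
        (X : ℝ) / q0 * mv2 V (ms x dl)| ≤
      C * (x ^ (1 - c) / q0 + x ^ (1 - 1 / 256000 : ℝ)) := by
  have hW : Okw dl a0 [((1 : ℝ), ([] : List ℕ), ([] : List ℕ))] := by
    constructor
    · intro w hw
      rw [List.mem_singleton] at hw
      subst hw
      intro j hj
      simp at hj
    · intro w hw
      rw [List.mem_singleton] at hw
      subst hw
      simp only [size, List.map_nil, List.sum_nil]
      norm_num
  obtain ⟨c, C, x0, hc, hC, H⟩ := uni_pair dl a0 hdl ha0 ha1 V _ hV hW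
  have e1 : ∀ᶠ x : ℝ in atTop, (2 : ℝ) ≤ x ^ (c / 2) :=
    (tendsto_rpow_atTop (by positivity)).eventually_ge_atTop _
  obtain ⟨x1, hx1⟩ := eventually_atTop.1 (e1.and (eventually_ge_atTop (max x0 1)))
  refine ⟨c / 2, C, x1, by positivity, hC, fun x hx X q0 h r h4 h5 h6 h7 h8 => ?_⟩
  obtain ⟨g1, g2⟩ := hx1 x hx
  have hx0 : x0 ≤ x := (le_max_left _ _).trans g2
  have hxo : (1 : ℝ) ≤ x := (le_max_right _ _).trans g2
  have hxp : 0 < x := by linarith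
  have g3 : x ^ c = x ^ (c / 2) * x ^ (c / 2) := by
    rw [← Real.rpow_add hxp]
    congr 1
    ring
  have g4 : x ^ (c / 2) + 1 ≤ x ^ c := by
    rw [g3]
    nlinarith
  have h9 := H x hx0 X q0 h (h + 1) r h4 h5 h6 h7 (by linarith) (by push_cast; linarith)
    (by omega)
  have e2 : ∀ k : ℕ → ℕ, ev2 [((1 : ℝ), ([] : List ℕ), ([] : List ℕ))] k = 1 := by
    intro k
    simp [ev2, mono]
  have e3 : ∀ m : ℕ → ℝ, mv2 [((1 : ℝ), ([] : List ℕ), ([] : List ℕ))] m = 1 := by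
    intro m
    simp [mv2]
  rw [e3, mul_one] at h9
  simp only [e2, mul_one] at h9
  refine h9.trans (mul_le_mul_of_nonneg_left (add_le_add ?_ le_rfl) hC.le)
  refine div_le_div_of_nonneg_right (Real.rpow_le_rpow_of_exponent_le hxo (by linarith))
    (Nat.cast_nonneg _)

end Pool.Agent.H99.RO
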