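import Pool.Agent.H99.RO.DfN
import Pool.Agent.H95.M3.Mer3
import Pool.Agent.H14.L2.Vv

/-!
[H99 RO VQ]  The size of `VQ` and of `Om`.

* `vq_eq`: for `x` large all prime factors of `Q` are `< x^a`; so `∏_{p < x^a} (1 - 1/p) = VQ · ∏_{p ∣ Q} (1 - 1/p) = VQ · φ(Q)/Q` (`Nat.totient_eq_mul_prod_factors`), and
  `pr x a = 1/(log x ∏_{p < x^a} (1 - 1/p))` (definition), so `VQ = (Q/φ(Q)) / (pr x a log x) = lam x Q / pr x a`.
* `vq_up`: `pr_ge` with `ε = 1/10000` and `e > 2.7182` (`Real.exp_one_gt_d9`): `pr x a ≥ 1.718 a`.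
* `vq_lo`: `pr_le` (`a ≤ 1`): `pr x a ≤ C`.
* `prod_up`: `1 + K/p ≤ (1 - 1/p)^(-K)`, so `∏_{PQ} (1 + K/p) ≤ VQ^(-K) = (pr/lam)^K ≤ (C log x)^K` (as `lam ≥ 1/log x`).
* `om_card`: `|Om x Q| = ⌊⌊x⌋/Q⌋`, so `x/Q - 2 ≤ |Om| ≤ x/Q`.
-/

namespace Pool.Agent.H99.RO

open Finset Filter

private theorem vq_split (x a : ℝ) (Q : ℕ) (hQ : 0 < Q) (hx : (Q : ℝ) < x ^ a) :
    ∏ p ∈ (range ⌈x ^ a⌉₊).filter Nat.Prime, (1 - 1 / (p : ℝ)) =
      (Nat.totient Q : ℝ) / Q * VQ x a Q := by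
  rw [← Finset.prod_filter_mul_prod_filter_not ((range ⌈x ^ a⌉₊).filter Nat.Prime)
    (fun p => p ∣ Q)]
  congr 1
  · have h1 : ((range ⌈x ^ a⌉₊).filter Nat.Prime).filter (fun p => p ∣ Q) = Q.primeFactors := by
      ext p
      rw [Finset.mem_filter, Finset.mem_filter, Finset.mem_range, Nat.lt_ceil, Nat.mem_primeFactors]
      constructor
      · rintro ⟨⟨h1, h2⟩, h3⟩
        exact ⟨h2, h3, hQ.ne'⟩
      · rintro ⟨h1, h2, h3⟩
        refine ⟨⟨lt_of_le_of_lt ?_ hx, h1⟩, h2⟩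
        exact_mod_cast Nat.le_of_dvd hQ h2
    rw [h1]
    have h2 := Nat.totient_eq_mul_prod_factors Q
    have h3 : ((Nat.totient Q : ℝ)) = Q * ∏ p ∈ Q.primeFactors, (1 - (p : ℝ)⁻¹) := by
      have h4 := congrArg (fun r : ℚ => (r : ℝ)) h2
      push_cast at h4
      exact h4
    have hQ0 : (Q : ℝ) ≠ 0 := by positivity
    rw [h3, mul_div_cancel_left₀ _ hQ0]
    refine Finset.prod_congr rfl fun p _ => ?_
    rw [one_div]
  · unfold VQ PQ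
    refine Finset.prod_congr ?_ fun _ _ => rfl
    ext p
    simp only [Finset.mem_filter]
    tauto

private theorem vq_pos (x a : ℝ) (Q : ℕ) : 0 < VQ x a Q := by
  unfold VQ PQ
  refine Finset.prod_pos fun p hp => ?_
  have h2 : (2 : ℝ) ≤ p := by exact_mod_cast (Finset.mem_filter.1 hp).2.1.two_le
  have h3 : 1 / (p : ℝ) ≤ 1 / 2 := one_div_le_one_div_of_le (by norm_num) h2
  linarith

theorem vq_eq (Q : ℕ) (hQ : 0 < Q) (a : ℝ) (ha : 0 < a) : ∀ᶠ x : ℝ in atTop,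
    VQ x a Q = lam x Q / Pool.Agent.H92.MM.pr x a := by
  have h1 : ∀ᶠ x : ℝ in atTop, (Q : ℝ) < x ^ a := (tendsto_rpow_atTop ha).eventually_gt_atTop _
  filter_upwards [h1, eventually_gt_atTop (1 : ℝ)] with x hx hx1
  have hlog : 0 < Real.log x := Real.log_pos hx1
  have hφ : (0 : ℝ) < Nat.totient Q := by exact_mod_cast Nat.totient_pos.2 hQ
  have hQ0 : (0 : ℝ) < Q := by exact_mod_cast hQ
  have hV := vq_pos x a Q
  unfold lam Pool.Agent.H92.MM.pr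
  rw [vq_split x a Q hQ hx]
  field_simp

theorem vq_up (Q : ℕ) (hQ : 0 < Q) (a : ℝ) (ha : 0 < a) : ∀ᶠ x : ℝ in atTop,
    0 < VQ x a Q ∧ VQ x a Q ≤ lam x Q / (1718 / 1000 * a) := by
  filter_upwards [vq_eq Q hQ a ha, Pool.Agent.H95.M3.pr_ge (1 / 10000) a (by norm_num) ha,
    eventually_gt_atTop (1 : ℝ)] with x h1 h2 hx1
  refine ⟨vq_pos x a Q, ?_⟩
  rw [h1]
  have hlog : 0 < Real.log x := Real.log_pos hx1
  have hl : 0 ≤ lam x Q := by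
    unfold lam
    positivity
  refine div_le_div_of_nonneg_left hl (by positivity) ?_
  refine le_trans ?_ h2
  refine mul_le_mul_of_nonneg_right ?_ ha.le
  linarith [Real.exp_one_gt_d9]

theorem vq_lo : ∃ C : ℝ, 0 < C ∧ ∀ (Q : ℕ) (_ : 0 < Q) (a : ℝ) (_ : 0 < a) (_ : a ≤ 1),
    ∀ᶠ x : ℝ in atTop, lam x Q / C ≤ VQ x a Q := by
  obtain ⟨C, hC, h⟩ := Pool.Agent.H14.L2.pr_le
  refine ⟨C, hC, fun Q hQ a ha ha1 => ?_⟩
  filter_upwards [vq_eq Q hQ a ha, h a ha ha1, eventually_gt_atTop (1 : ℝ)] with x h1 h2 hx1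
  rw [h1]
  have hlog : 0 < Real.log x := Real.log_pos hx1
  have hl : 0 ≤ lam x Q := by
    unfold lam
    positivity
  exact div_le_div_of_nonneg_left hl h2.1 h2.2

theorem prod_up (Q : ℕ) (hQ : 0 < Q) (a : ℝ) (ha : 0 < a) (ha1 : a ≤ 1) (K : ℕ) (e : ℝ) (he : 0 < e) :
    ∀ᶠ x : ℝ in atTop, ∏ p ∈ PQ x a Q, (1 + (K : ℝ) / p) ≤ x ^ e := by
  obtain ⟨C, hC, hM⟩ := Pool.Agent.H14.L2.sum_lt
  have h1 : ∀ᶠ x : ℝ in atTop, 3 ≤ x ^ a := (tendsto_rpow_atTop ha).eventually_ge_atTop 3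
  have h2 : ∀ᶠ x : ℝ in atTop, ‖Real.log x ^ (K : ℝ)‖ ≤ Real.exp (-((K : ℝ) * C)) * ‖x ^ e‖ :=
    (isLittleO_log_rpow_rpow_atTop (K : ℝ) he).bound (Real.exp_pos _)
  filter_upwards [h1, h2, eventually_ge_atTop (3 : ℝ)] with x hx3 hx2 hx
  have hx0 : 0 < x := by linarith
  have hlogx : 1 ≤ Real.log x := by
    rw [Real.le_log_iff_exp_le (by linarith)]
    linarith [Real.exp_one_lt_d9]
  have hlogv : 1 ≤ Real.log (x ^ a) := by
    rw [Real.le_log_iff_exp_le (by linarith)]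
    linarith [Real.exp_one_lt_d9]
  have hloga : Real.log (x ^ a) ≤ Real.log x := by
    rw [Real.log_rpow hx0]
    nlinarith
  have hs := hM (x ^ a) hx3 (PQ x a Q) (by
    intro p hp
    unfold PQ at hp
    rw [Finset.mem_filter, Finset.mem_range, Nat.lt_ceil] at hp
    exact ⟨hp.2.1, hp.1.le⟩)
  have h3 : ∏ p ∈ PQ x a Q, (1 + (K : ℝ) / p) ≤ ∏ p ∈ PQ x a Q, Real.exp ((K : ℝ) * (1 / p)) := by
    refine Finset.prod_le_prod (fun p _ => by positivity) fun p _ => ?_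
    have h4 := Real.add_one_le_exp ((K : ℝ) * (1 / p))
    have h5 : (K : ℝ) * (1 / p) = K / p := by ring
    rw [h5] at h4 ⊢
    linarith
  refine h3.trans ?_
  rw [← Real.exp_sum, ← Finset.mul_sum]
  have hK : (0 : ℝ) ≤ K := Nat.cast_nonneg K
  rw [Real.norm_eq_abs, Real.norm_eq_abs, abs_of_nonneg (Real.rpow_nonneg (by linarith) _),
    abs_of_nonneg (Real.rpow_nonneg hx0.le _)] at hx2
  have h6 : Real.exp ((K : ℝ) * ∑ p ∈ PQ x a Q, 1 / (p : ℝ)) ≤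
      Real.exp ((K : ℝ) * C) * Real.log x ^ (K : ℝ) := by
    rw [Real.rpow_def_of_pos (by linarith), ← Real.exp_add]
    refine Real.exp_le_exp.2 ?_
    have h7 : Real.log (Real.log (x ^ a)) ≤ Real.log (Real.log x) :=
      Real.log_le_log (by linarith) hloga
    have h8 := mul_le_mul_of_nonneg_left (hs.trans (add_le_add_left h7 C)) hK
    linarith
  refine h6.trans ?_
  calc Real.exp ((K : ℝ) * C) * Real.log x ^ (K : ℝ)
      ≤ Real.exp ((K : ℝ) * C) * (Real.exp (-((K : ℝ) * C)) * x ^ e) :=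
        mul_le_mul_of_nonneg_left hx2 (Real.exp_pos _).le
    _ = x ^ e := by
        rw [← mul_assoc, ← Real.exp_add, add_neg_cancel, Real.exp_zero, one_mul]

theorem om_card (x : ℝ) (hx : 1 ≤ x) (Q : ℕ) (hQ : 0 < Q) :
    x / Q - 2 ≤ ((Om x Q).card : ℝ) ∧ ((Om x Q).card : ℝ) ≤ x / Q := by
  have h1 : (Om x Q).card = ⌊x⌋₊ / Q := by
    unfold Om
    have h2 : Icc 1 ⌊x⌋₊ = Ioc 0 ⌊x⌋₊ := by
      ext n
      rw [mem_Icc, mem_Ioc]
      omega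
    rw [h2, Nat.Ioc_filter_dvd_card_eq_div]
  rw [h1]
  have hQ0 : (0 : ℝ) < Q := by exact_mod_cast hQ
  have hQ1 : (1 : ℝ) ≤ Q := by exact_mod_cast hQ
  have hf : (⌊x⌋₊ : ℝ) ≤ x := Nat.floor_le (by linarith)
  have hf2 : x < ⌊x⌋₊ + 1 := Nat.lt_floor_add_one x
  constructor
  · have h3 : ⌊x⌋₊ < Q * (⌊x⌋₊ / Q + 1) := Nat.lt_mul_div_succ _ hQ
    have h4 : ((⌊x⌋₊ : ℕ) : ℝ) + 1 ≤ Q * (((⌊x⌋₊ / Q : ℕ) : ℝ) + 1) := by exact_mod_cast h3
    have h5 : x / Q ≤ ((⌊x⌋₊ / Q : ℕ) : ℝ) + 1 := by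
      rw [div_le_iff₀ hQ0]
      linarith
    linarith
  · refine Nat.cast_div_le.trans ?_
    exact div_le_div_of_nonneg_right hf hQ0.le

end Pool.Agent.H99.RO
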