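import Pool.Agent.H99.RO.Fls
import Pool.Agent.H99.RO.Uni
import Pool.Agent.H99.RO.Vq
import Pool.Agent.H99.RO.PhS
import Pool.Agent.H11.RG.Cst

/-!
[H99 RO ONE]  The mean of the majorant `gG` for one shift and for two shifts.

Common part.  `K = 1` (`one_pt`, `I = Unit`, `y = fun _ => h`) or `K = 2` (`two_pt`, `I = Fin 2`, `y = ![h, h']`).  `w0` = maximum of the `w0` of `sandwich 1`, `sandwich 2`
(`H95/FL/Main.lean`).  Given `e'`: `B ≥ 20` with `2^(-B) ≤ e'/8` (`e' ≤ 1` may be assumed), `a1 ≤ 1/2` with `a1 (6 B + 12) ≤ 1/600000`.  `a ≤ a1`, `P = PQ x a Q`, `dl = a/J`, `Y = x^(1/600000)`,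
`X = ⌊x⌋₊`, `G N = ev2 W (kk x dl (N+h))` (resp. the product of the two, `≥ 0`), `m = mv2 W (ms x dl)` (resp. `m^2`), `M = max 0 (X/Q * m)`; for large `x` one has `m → mG = mv2 W mu ≥ a > 0`
(`mv2_tendsto`, `H11/RG/Cst.lean`), so `m ≥ 0` and `|m - mG|`, `|m^2 - mG^2|` are small compared with `mG`, `mG^2`.
`fls`: a class `r` modulo `q0 = Q ∏ S`, `∏ S ≤ Y`: `q0 ≤ Q x^(1/600000) ≤ x^(1/128000)`, its primes are `< x^a` (those of `Q` for large `x`); `uni_one`/`uni_pair` give the sum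
`X/q0 * m` up to `C (x^(1-c)/q0 + x^(1-1/256000))`: `E1 = C x^(1-c)`, `E2 = C x^(1-1/256000)`.  Total error `E1 ∏_{p ∈ P} (1 + K/p) + E2 Y ≤ C x^(1-c) x^(c/2) + C x^(1-1/256000+1/600000)`
(`prod_up` with `e = c/2`) `≤ x^(1-c'')`, which is `≤ (e'/8) mG VQ |Om|` (resp. with squares) for large `x`, since `VQ ≥ lam/C ≥ 1/(C log x)` (`vq_lo`), `|Om| ≥ x/(2Q)`.
`gG h N = G N` if no `p ∈ P` divides `N + h`, else `0`: so `∑_{N ∈ Om} gG h N` is the sum of `fls`.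
* `one_pt`: `nu p y = 1`, so `∏ (1 - nu/p) = VQ`.
* `two_pt`: `nu p y = 2` if `p ∤ dist h h'`, else `1`; `1 - 2/p ≤ (1 - 1/p)^2`, `1 - 1/p = (1 - 1/p)^2 (1 - 1/p)^(-1)`; so `∏ (1 - nu/p) ≤ VQ^2 Ph Q 1 (dist h h')`
  (factors of `Ph` at primes not in `P` are `≥ 1`).  `Ph ≥ 1`.
-/

namespace Pool.Agent.H99.RO

open Finset Pool.Agent.H89.P2

private theorem inv_ge1 (p : ℕ) (hp : 2 ≤ p) : 1 ≤ (1 - 1 / (p : ℝ))⁻¹ ∧ 0 < 1 - 1 / (p : ℝ) := by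
  have hp' : (2 : ℝ) ≤ p := by exact_mod_cast hp
  have h1 : 1 / (p : ℝ) ≤ 1 / 2 := one_div_le_one_div_of_le (by norm_num) hp'
  have h2 : 0 < 1 / (p : ℝ) := by positivity
  have h3 : 0 < 1 - 1 / (p : ℝ) := by linarith
  refine ⟨?_, h3⟩
  rw [one_le_inv₀ h3]
  linarith

private theorem one_asy (Q K : ℕ) (hQ : 0 < Q) (C C' δ κ : ℝ) (hC : 0 < C) (hC' : 0 < C') (hδ : 0 < δ)
    (hκ : 0 < κ) : ∀ᶠ x : ℝ in Filter.atTop,
    2 * C * x ^ (1 - δ) ≤ κ * ((1 / (C' * Real.log x)) ^ K * (x / Q - 2)) ∧ 1 ≤ Real.log x ∧ 1 ≤ x ∧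
      4 ≤ x / Q := by
  have hQ0 : (0 : ℝ) < Q := by exact_mod_cast hQ
  obtain ⟨ε, hε⟩ : ∃ ε : ℝ, ε = κ / (4 * C * C' ^ K * Q) := ⟨_, rfl⟩
  have hε0 : 0 < ε := by rw [hε]; positivity
  have h3 : ∀ᶠ x : ℝ in Filter.atTop, ‖(Real.log x) ^ (K : ℝ)‖ ≤ ε * ‖x ^ δ‖ :=
    (isLittleO_log_rpow_rpow_atTop (K : ℝ) hδ).def hε0
  filter_upwards [h3, Filter.eventually_ge_atTop (4 * (Q : ℝ)), Filter.eventually_ge_atTop (3 : ℝ)] with x
    hx1 hx2 hx3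
  have hx0 : 0 < x := by linarith
  have hl : 1 ≤ Real.log x := by
    rw [Real.le_log_iff_exp_le hx0]
    linarith [Real.exp_one_lt_d9]
  have h5 : 4 ≤ x / Q := by
    rw [le_div_iff₀ hQ0]
    exact hx2
  rw [Real.norm_of_nonneg (Real.rpow_nonneg (by linarith) _),
    Real.norm_of_nonneg (Real.rpow_nonneg hx0.le _), Real.rpow_natCast] at hx1
  refine ⟨?_, hl, by linarith, h5⟩
  obtain ⟨l, hl'⟩ : ∃ l, l = Real.log x := ⟨_, rfl⟩
  rw [← hl'] at hl hx1 ⊢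
  have hl0 : 0 < l := by linarith
  have h6 : 0 < (C' * l) ^ K := by positivity
  have h7 : x ^ (1 - δ) * x ^ δ = x := by
    rw [← Real.rpow_add hx0]
    have : 1 - δ + δ = 1 := by ring
    rw [this, Real.rpow_one]
  have h8 : 0 < x ^ (1 - δ) := Real.rpow_pos_of_pos hx0 _
  have h9 : 2 * C * x ^ (1 - δ) * (C' * l) ^ K ≤ κ * (x / Q / 2) := by
    rw [mul_pow]
    have e1 : 2 * C * x ^ (1 - δ) * (C' ^ K * l ^ K) ≤
        2 * C * x ^ (1 - δ) * (C' ^ K * (ε * x ^ δ)) := by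
      apply mul_le_mul_of_nonneg_left _ (by positivity)
      exact mul_le_mul_of_nonneg_left hx1 (by positivity)
    have e2 : 2 * C * x ^ (1 - δ) * (C' ^ K * (ε * x ^ δ)) =
        2 * C * C' ^ K * ε * (x ^ (1 - δ) * x ^ δ) := by ring
    rw [e2, h7, hε] at e1
    refine e1.trans (le_of_eq ?_)
    field_simp
    norm_num
  have h10 : κ * (x / Q / 2) ≤ κ * (x / Q - 2) := mul_le_mul_of_nonneg_left (by linarith) hκ.le
  have h11 : κ * ((1 / (C' * l)) ^ K * (x / Q - 2)) * (C' * l) ^ K = κ * (x / Q - 2) := by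
    rw [one_div, inv_pow]
    field_simp
  exact le_of_mul_le_mul_right (by rw [h11]; linarith) h6

private theorem one_core (K : ℕ) (hK : 1 ≤ K) : ∃ w0 : ℕ, ∀ B : ℕ, 10 * K ≤ B → ∀ a : ℝ, 0 < a →
    a ≤ 1 / 2 → a * (6 * B + 12) ≤ 1 / 600000 → ∀ c C : ℝ, 0 < c → 0 < C → ∀ Q : ℕ, 0 < Q →
    primorial w0 ∣ Q → ∀ κ : ℝ, 0 < κ → ∃ x0 : ℝ, ∀ x : ℝ, x0 ≤ x → ∀ (I : Type) [Fintype I],
    Fintype.card I = K → ∀ (y : I → ℕ) (G : ℕ → ℝ), (∀ N, 0 ≤ G N) → ∀ mm : ℝ, 0 ≤ mm →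
    (∀ q0 r : ℕ, 0 < q0 → (q0 : ℝ) ≤ x ^ (1 / 128000 : ℝ) →
      (∀ p : ℕ, p.Prime → p ∣ q0 → (p : ℝ) < x ^ a) →
      |∑ N ∈ (Icc 1 ⌊x⌋₊).filter (fun N => N % q0 = r % q0), G N - (⌊x⌋₊ : ℝ) / q0 * mm| ≤
        C * (x ^ (1 - c) / q0 + x ^ (1 - 1 / 256000 : ℝ))) →
    ∀ A : Finset ℕ, (∀ N, N ∈ A ↔ N ∈ Om x Q ∧ ∀ p ∈ PQ x a Q, ∀ i, ¬ p ∣ N + y i) →
      ∑ N ∈ A, G N ≤ (1 + (1 / 2) ^ B) * ((⌊x⌋₊ : ℝ) / Q * mm) *
          ∏ p ∈ PQ x a Q, (1 - (nu p y : ℝ) / p) + κ * (VQ x a Q ^ K * (Om x Q).card) ∧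
      (1 - (1 / 2) ^ B) * ((⌊x⌋₊ : ℝ) / Q * mm) *
          ∏ p ∈ PQ x a Q, (1 - (nu p y : ℝ) / p) - κ * (VQ x a Q ^ K * (Om x Q).card) ≤
        ∑ N ∈ A, G N := by
  obtain ⟨w0, _, hsand⟩ := Pool.Agent.H95.FL.sandwich K hK
  obtain ⟨C', hC', hlo⟩ := vq_lo
  refine ⟨w0, fun B hB a ha0 ha2 haB c C hc hC Q hQ hprim κ hκ => ?_⟩
  obtain ⟨x1, _, hs⟩ := hsand B (1 / 600000) a hB ha0 (by linarith) haB
  obtain ⟨δ, hδ⟩ : ∃ δ : ℝ, δ = min (c / 2) (1 / 256000 - 1 / 600000) := ⟨_, rfl⟩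
  have hδ0 : 0 < δ := by rw [hδ]; exact lt_min (by linarith) (by norm_num)
  have hev := (hlo Q hQ a ha0 (by linarith)).and ((one_asy Q K hQ C C' δ κ hC hC' hδ0 hκ).and
    ((prod_up Q hQ a ha0 (by linarith) K (c / 2) (by linarith)).and
    (((tendsto_rpow_atTop ha0).eventually_gt_atTop (Q : ℝ)).and
    ((tendsto_rpow_atTop (by norm_num : (0 : ℝ) < 1 / 128000 - 1 / 600000)).eventually_ge_atTop
      (Q : ℝ)))))
  obtain ⟨x2, hx2⟩ := Filter.eventually_atTop.1 hev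
  refine ⟨max x1 x2, fun x hx I _ hI y G hG mm hmm hdist A hA => ?_⟩
  obtain ⟨hVlo, ⟨has1, hlog, hx1', hxQ⟩, hprod, hQa, hQb⟩ := hx2 x ((le_max_right _ _).trans hx)
  have hx0 : 0 < x := by linarith
  have hQ0 : (0 : ℝ) < Q := by exact_mod_cast hQ
  have hQ1 : (1 : ℝ) ≤ Q := by exact_mod_cast hQ
  have hP : ∀ p ∈ PQ x a Q, p.Prime ∧ ¬ p ∣ Q ∧ (p : ℝ) < x ^ a := by
    intro p hp
    unfold PQ at hp
    rw [mem_filter, mem_range, Nat.lt_ceil] at hp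
    exact ⟨hp.2.1, hp.2.2, hp.1⟩
  have hPw : ∀ p ∈ PQ x a Q, p.Prime ∧ w0 < p ∧ (p : ℝ) ≤ x ^ a := by
    intro p hp
    obtain ⟨h1, h2, h3⟩ := hP p hp
    refine ⟨h1, ?_, h3.le⟩
    by_contra h4
    exact h2 (((Nat.Prime.dvd_primorial_iff h1).2 (not_lt.1 h4)).trans hprim)
  obtain ⟨fl, fu, hF⟩ := hs x ((le_max_left _ _).trans hx) (PQ x a Q) hPw
  have hS := hF (fun p => (nu p y : ℝ) / p) (by
    intro p hp
    have hp0 : (0 : ℝ) < p := by exact_mod_cast (hP p hp).1.pos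
    refine ⟨by positivity, ?_⟩
    apply div_le_div_of_nonneg_right _ hp0.le
    have h1 : (nu p y : ℝ) ≤ K := by
      rw [← hI]
      exact_mod_cast nu_le p y
    have h2 : (0 : ℝ) ≤ K := Nat.cast_nonneg _
    linarith)
  have hfl := fls K Q ⌊x⌋₊ hQ (PQ x a Q) (fun p hp => ⟨(hP p hp).1, (hP p hp).2.1⟩) hI y G hG
    ((⌊x⌋₊ : ℝ) / Q * mm) (C * x ^ (1 - c)) (C * x ^ (1 - 1 / 256000 : ℝ)) (x ^ ((1 : ℝ) / 600000))
    ((1 / 2) ^ B) (by positivity) (by positivity) (by positivity) fl fu hS (by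
      intro S hSP hSY r' hr' _
      obtain ⟨q, hq⟩ : ∃ q, q = Q * ∏ p ∈ S, p := ⟨_, rfl⟩
      obtain ⟨π, hπ⟩ : ∃ π : ℝ, π = ∏ p ∈ S, (p : ℝ) := ⟨_, rfl⟩
      rw [← hπ] at hSY ⊢
      rw [← hq] at hr' ⊢
      have hπ1 : 1 ≤ π := by
        rw [hπ]
        calc (1 : ℝ) = ∏ p ∈ S, (1 : ℝ) := by simp
          _ ≤ ∏ p ∈ S, (p : ℝ) := prod_le_prod (fun _ _ => by norm_num) fun p hp => by
            exact_mod_cast (hP p (hSP hp)).1.one_le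
      have hqπ : (q : ℝ) = Q * π := by
        rw [hq, hπ]
        push_cast
        rfl
      have hq0 : 0 < q := by omega
      have hqR : (0 : ℝ) < q := by exact_mod_cast hq0
      have h1 := hdist q r' hq0 (by
        rw [hqπ]
        calc (Q : ℝ) * π ≤ x ^ ((1 : ℝ) / 128000 - 1 / 600000) * x ^ ((1 : ℝ) / 600000) :=
              mul_le_mul hQb hSY (by linarith) (by positivity)
          _ = x ^ ((1 : ℝ) / 128000) := by
              rw [← Real.rpow_add hx0]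
              congr 1
              ring) (by
        intro p hp hpq
        rw [hq, hp.dvd_mul] at hpq
        rcases hpq with h2 | h2
        · have h3 : p ≤ Q := Nat.le_of_dvd hQ h2
          have h4 : (p : ℝ) ≤ Q := by exact_mod_cast h3
          linarith
        · rw [hp.prime.dvd_finset_prod_iff] at h2
          obtain ⟨p', hp', h3⟩ := h2
          have h4 : p = p' := (Nat.prime_dvd_prime_iff_eq hp (hP p' (hSP hp')).1).1 h3
          rw [h4]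
          exact (hP p' (hSP hp')).2.2)
      rw [Nat.mod_eq_of_lt hr'] at h1
      have h2 : (⌊x⌋₊ : ℝ) / Q * mm / π = (⌊x⌋₊ : ℝ) / q * mm := by
        rw [hqπ]
        field_simp
      rw [h2]
      refine h1.trans ?_
      rw [mul_add]
      apply add_le_add _ le_rfl
      rw [mul_div_assoc]
      apply mul_le_mul_of_nonneg_left _ hC.le
      apply div_le_div_of_nonneg_left (by positivity) (by linarith)
      rw [hqπ]
      nlinarith)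
  have hAeq : ∀ A' : Finset ℕ, (∀ N, N ∈ A' ↔ N ∈ Icc 1 ⌊x⌋₊ ∧ Q ∣ N ∧
      ∀ p ∈ PQ x a Q, ∀ i, ¬ p ∣ N + y i) → A' = A := by
    intro A' hA'
    ext N
    rw [hA', hA]
    unfold Om
    rw [mem_filter, and_assoc]
  obtain ⟨A', hA', hfl⟩ : ∃ A' : Finset ℕ, (∀ N, N ∈ A' ↔ N ∈ Icc 1 ⌊x⌋₊ ∧ Q ∣ N ∧
      ∀ p ∈ PQ x a Q, ∀ i, ¬ p ∣ N + y i) ∧
      (∑ N ∈ A', G N ≤
        (1 + (1 / 2) ^ B) * ((⌊x⌋₊ : ℝ) / Q * mm) * ∏ p ∈ PQ x a Q, (1 - (nu p y : ℝ) / p) +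
          (C * x ^ (1 - c) * ∏ p ∈ PQ x a Q, (1 + (K : ℝ) / p) +
            C * x ^ (1 - 1 / 256000 : ℝ) * x ^ ((1 : ℝ) / 600000)) ∧
      (1 - (1 / 2) ^ B) * ((⌊x⌋₊ : ℝ) / Q * mm) * ∏ p ∈ PQ x a Q, (1 - (nu p y : ℝ) / p) -
          (C * x ^ (1 - c) * ∏ p ∈ PQ x a Q, (1 + (K : ℝ) / p) +
            C * x ^ (1 - 1 / 256000 : ℝ) * x ^ ((1 : ℝ) / 600000)) ≤ ∑ N ∈ A', G N) :=
    ⟨_, fun N => mem_filter, hfl⟩
  rw [hAeq A' hA'] at hfl
  have hErr : C * x ^ (1 - c) * ∏ p ∈ PQ x a Q, (1 + (K : ℝ) / p) +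
      C * x ^ (1 - 1 / 256000 : ℝ) * x ^ ((1 : ℝ) / 600000) ≤
      κ * (VQ x a Q ^ K * (Om x Q).card) := by
    have h1 : C * x ^ (1 - c) * ∏ p ∈ PQ x a Q, (1 + (K : ℝ) / p) ≤ C * x ^ (1 - δ) := by
      calc C * x ^ (1 - c) * ∏ p ∈ PQ x a Q, (1 + (K : ℝ) / p) ≤ C * x ^ (1 - c) * x ^ (c / 2) :=
            mul_le_mul_of_nonneg_left hprod (by positivity)
        _ = C * x ^ (1 - c / 2) := by
            rw [mul_assoc, ← Real.rpow_add hx0]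
            congr 2
            ring
        _ ≤ C * x ^ (1 - δ) := by
            apply mul_le_mul_of_nonneg_left _ hC.le
            apply Real.rpow_le_rpow_of_exponent_le hx1'
            have : δ ≤ c / 2 := by rw [hδ]; exact min_le_left _ _
            linarith
    have h2 : C * x ^ (1 - 1 / 256000 : ℝ) * x ^ ((1 : ℝ) / 600000) ≤ C * x ^ (1 - δ) := by
      rw [mul_assoc, ← Real.rpow_add hx0]
      apply mul_le_mul_of_nonneg_left _ hC.le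
      apply Real.rpow_le_rpow_of_exponent_le hx1'
      have : δ ≤ 1 / 256000 - 1 / 600000 := by rw [hδ]; exact min_le_right _ _
      linarith
    obtain ⟨om1, _⟩ := om_card x hx1' Q hQ
    have hlow : 1 / (C' * Real.log x) ≤ VQ x a Q := by
      refine le_trans ?_ hVlo
      unfold lam
      have ht : (0 : ℝ) < Q.totient := by exact_mod_cast Nat.totient_pos.2 hQ
      have ht2 : (Q.totient : ℝ) ≤ Q := by exact_mod_cast Nat.totient_le Q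
      have hl0 : 0 < Real.log x := by linarith
      have h3 : (1 : ℝ) ≤ Q / Q.totient := by
        rw [one_le_div ht]
        exact ht2
      have h4 : (Q : ℝ) / (Q.totient * Real.log x) / C' =
          (Q : ℝ) / Q.totient * (1 / (C' * Real.log x)) := by
        field_simp
      rw [h4]
      have h5 : 0 < 1 / (C' * Real.log x) := by positivity
      nlinarith
    have h3 : (1 / (C' * Real.log x)) ^ K * (x / Q - 2) ≤ VQ x a Q ^ K * (Om x Q).card := by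
      apply mul_le_mul _ om1 (by linarith)
      · exact pow_nonneg (le_trans (by positivity) hlow) K
      · exact pow_le_pow_left₀ (by positivity) hlow K
    have h4 := mul_le_mul_of_nonneg_left h3 hκ.le
    linarith
  exact ⟨hfl.1.trans (by linarith), le_trans (by linarith) hfl.2⟩

private theorem one_nu (p : ℕ) (y : Unit → ℕ) : nu p y = 1 := by
  apply le_antisymm
  · exact (nu_le p y).trans (by simp)
  · exact nu_pos p y

/-- the parameter `B` -/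
private theorem exists_B (e8 : ℝ) (h : 0 < e8) : ∃ B : ℕ, 20 ≤ B ∧ ((1 : ℝ) / 2) ^ B ≤ e8 := by
  obtain ⟨n, hn⟩ := exists_pow_lt_of_lt_one h (by norm_num : (1 : ℝ) / 2 < 1)
  refine ⟨n + 20, by omega, ?_⟩
  calc ((1 : ℝ) / 2) ^ (n + 20) ≤ (1 / 2) ^ n :=
        pow_le_pow_of_le_one (by norm_num) (by norm_num) (by omega)
    _ ≤ e8 := hn.le

/-- large `x` -/
private theorem one_big (a e : ℝ) (J : ℕ) (W : List (ℝ × List ℕ × List ℕ)) (ha : 0 < a)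
    (hW : Wok a e J W) (Q : ℕ) (hQ : 0 < Q) (e8 : ℝ) (he8 : 0 < e8) : ∀ᶠ x : ℝ in Filter.atTop,
    (1 - e8) * mv2 W mu ≤ mv2 W (Pool.Agent.H11.PT.ms x (a / J)) ∧
    mv2 W (Pool.Agent.H11.PT.ms x (a / J)) ≤ (1 + e8) * mv2 W mu ∧
    (1 - e8) * ((Om x Q).card : ℝ) ≤ (⌊x⌋₊ : ℝ) / Q ∧
    (⌊x⌋₊ : ℝ) / Q ≤ (1 + e8) * ((Om x Q).card : ℝ) := by
  have hJ : (0 : ℝ) < J := by exact_mod_cast hW.J_pos
  have hm0 : 0 < mv2 W mu := lt_of_lt_of_le ha hW.lo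
  have h1 := Pool.Agent.H11.RG.mv2_tendsto (a / J) (by positivity) W hW.pos
  rw [Metric.tendsto_nhds] at h1
  have hQ0 : (0 : ℝ) < Q := by exact_mod_cast hQ
  have hQ1 : (1 : ℝ) ≤ Q := by exact_mod_cast hQ
  filter_upwards [h1 (e8 * mv2 W mu) (by positivity), Filter.eventually_ge_atTop ((2 + 2 / e8) * (Q : ℝ)),
    Filter.eventually_ge_atTop (1 : ℝ)] with x hx1 hx2 hx3
  have hx0 : 0 < x := by linarith
  rw [Real.dist_eq, abs_lt] at hx1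
  obtain ⟨om1, om2⟩ := om_card x hx3 Q hQ
  have h4 : 2 + 2 / e8 ≤ x / Q := by
    rw [le_div_iff₀ hQ0]
    exact hx2
  have h5 : 2 ≤ e8 * ((Om x Q).card : ℝ) := by
    have h6 : 2 / e8 ≤ ((Om x Q).card : ℝ) := by linarith
    rw [div_le_iff₀ he8] at h6
    linarith
  have h7 := Nat.floor_le hx0.le
  have h8 := Nat.lt_floor_add_one x
  have h9 : (⌊x⌋₊ : ℝ) / Q ≤ x / Q := div_le_div_of_nonneg_right h7 hQ0.le
  have h10 : x / Q - 1 ≤ (⌊x⌋₊ : ℝ) / Q := by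
    have h11 : x / Q - 1 ≤ (x - 1) / Q := by
      rw [sub_div]
      have h12 : 1 / (Q : ℝ) ≤ 1 := by
        rw [div_le_one hQ0]
        exact hQ1
      linarith
    exact h11.trans (div_le_div_of_nonneg_right (by linarith) hQ0.le)
  refine ⟨by linarith, by linarith, by linarith, by linarith⟩

theorem one_pt : ∃ w0 : ℕ, ∀ e' : ℝ, 0 < e' → ∃ a1 : ℝ, 0 < a1 ∧ ∀ a e : ℝ, 0 < a → a ≤ a1 →
    ∀ (J : ℕ) (W : List (ℝ × List ℕ × List ℕ)), Wok a e J W → ∃ c : ℝ, 0 < c ∧ ∀ Q : ℕ, 0 < Q →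
    primorial w0 ∣ Q → ∃ x0 : ℝ, ∀ x : ℝ, x0 ≤ x → ∀ h : ℕ, (h : ℝ) ≤ x ^ c → Nat.Coprime h Q →
      (1 - e') * (mv2 W mu * VQ x a Q) * (Om x Q).card ≤
          ∑ N ∈ Om x Q, gG x a (a / J) Q W h N ∧
        ∑ N ∈ Om x Q, gG x a (a / J) Q W h N ≤
          (1 + e') * (mv2 W mu * VQ x a Q) * (Om x Q).card := by
  obtain ⟨w0, hcore⟩ := one_core 1 le_rfl
  refine ⟨w0, fun e' he' => ?_⟩
  obtain ⟨e8, he8⟩ : ∃ e8 : ℝ, e8 = min e' 1 / 8 := ⟨_, rfl⟩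
  have he80 : 0 < e8 := by rw [he8]; exact div_pos (lt_min he' zero_lt_one) (by norm_num)
  have he81 : e8 ≤ 1 / 8 := by
    rw [he8]
    have := min_le_right e' 1
    linarith
  have he8e : 8 * e8 ≤ e' := by
    rw [he8]
    have := min_le_left e' 1
    linarith
  obtain ⟨B, hB, hBe⟩ := exists_B e8 he80
  refine ⟨1 / (600000 * (6 * B + 12)), by positivity, fun a e ha haa J W hW => ?_⟩
  have haB : a * (6 * B + 12) ≤ 1 / 600000 := by
    have h1 : a * (6 * B + 12) ≤ 1 / (600000 * (6 * B + 12)) * (6 * B + 12) :=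
      mul_le_mul_of_nonneg_right haa (by positivity)
    refine h1.trans (le_of_eq ?_)
    field_simp
  have ha2 : a ≤ 1 / 2 := by
    have h1 : (0 : ℝ) ≤ B := Nat.cast_nonneg _
    nlinarith
  have hJ : (0 : ℝ) < J := by exact_mod_cast hW.J_pos
  obtain ⟨c, C, x0, hc, hC, huni⟩ := uni_one (a / J) a (by positivity) ha ha2 W hW.ok
  refine ⟨c, hc, fun Q hQ hprim => ?_⟩
  have hm0 : 0 < mv2 W mu := lt_of_lt_of_le ha hW.lo
  obtain ⟨x1, hmain⟩ := hcore B (by omega) a ha ha2 haB c C hc hC Q hQ hprim (e8 * mv2 W mu)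
    (by positivity)
  obtain ⟨x2, hbig⟩ := Filter.eventually_atTop.1 ((one_big a e J W ha hW Q hQ e8 he80).and
    (Filter.eventually_ge_atTop (1 : ℝ)))
  refine ⟨max x0 (max x1 x2), fun x hx h hh hhQ => ?_⟩
  have hxx0 : x0 ≤ x := (le_max_left _ _).trans hx
  have hxx1 : x1 ≤ x := ((le_max_left _ _).trans (le_max_right _ _)).trans hx
  obtain ⟨⟨b1, b2, b3, b4⟩, hx1'⟩ := hbig x (((le_max_right _ _).trans (le_max_right _ _)).trans hx)
  have hx0 : 0 < x := by linarith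
  obtain ⟨m, hm⟩ : ∃ m, m = mv2 W (Pool.Agent.H11.PT.ms x (a / J)) := ⟨_, rfl⟩
  rw [← hm] at b1 b2
  have hmm : 0 ≤ m := le_trans (mul_nonneg (by linarith) hm0.le) b1
  classical
  have hA := hmain x hxx1 Unit (by simp) (fun _ => h)
    (fun N => ev2 W (Pool.Agent.H11.PT.kk x (a / J) (N + h))) (fun N => hW.nn x (N + h)) m hmm
    (fun q0 r hq0 hq0x hpr => by
      rw [hm]
      exact huni x hxx0 ⌊x⌋₊ q0 h r (Nat.floor_le hx0.le) hq0 hq0x hpr hh)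
    ((Om x Q).filter (fun N => ∀ p ∈ PQ x a Q, ¬ p ∣ N + h)) (fun N => by
      rw [mem_filter]
      constructor
      · rintro ⟨h1, h2⟩
        exact ⟨h1, fun p hp _ => h2 p hp⟩
      · rintro ⟨h1, h2⟩
        exact ⟨h1, fun p hp => h2 p hp ()⟩)
  have hsum : ∑ N ∈ Om x Q, gG x a (a / J) Q W h N =
      ∑ N ∈ (Om x Q).filter (fun N => ∀ p ∈ PQ x a Q, ¬ p ∣ N + h),
        ev2 W (Pool.Agent.H11.PT.kk x (a / J) (N + h)) := by
    rw [sum_filter]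
    refine sum_congr rfl fun N _ => ?_
    unfold gG
    rfl
  have hprod : ∏ p ∈ PQ x a Q, (1 - (nu p (fun _ : Unit => h) : ℝ) / p) = VQ x a Q := by
    unfold VQ
    refine prod_congr rfl fun p _ => ?_
    rw [one_nu, Nat.cast_one]
  rw [hprod, ← hsum, pow_one] at hA
  have hV0 : 0 ≤ VQ x a Q := by
    unfold VQ
    refine prod_nonneg fun p hp => ?_
    unfold PQ at hp
    rw [mem_filter] at hp
    exact (inv_ge1 p hp.2.1.two_le).2.le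
  obtain ⟨V, hVV⟩ : ∃ V, V = VQ x a Q := ⟨_, rfl⟩
  obtain ⟨O, hO⟩ : ∃ O : ℝ, O = ((Om x Q).card : ℝ) := ⟨_, rfl⟩
  obtain ⟨mG, hmG⟩ : ∃ mG, mG = mv2 W mu := ⟨_, rfl⟩
  obtain ⟨F, hF⟩ : ∃ F : ℝ, F = (⌊x⌋₊ : ℝ) / Q := ⟨_, rfl⟩
  obtain ⟨T, hT⟩ : ∃ T : ℝ, T = ∑ N ∈ Om x Q, gG x a (a / J) Q W h N := ⟨_, rfl⟩
  obtain ⟨d, hd⟩ : ∃ d : ℝ, d = (1 / 2) ^ B := ⟨_, rfl⟩
  rw [← hVV, ← hO, ← hF, ← hT, ← hmG, ← hd] at hA
  rw [← hVV, ← hO, ← hT, ← hmG]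
  rw [← hVV] at hV0
  rw [← hO, ← hF] at b3 b4
  rw [← hmG] at b1 b2 hm0
  rw [← hd] at hBe
  have hO0 : 0 ≤ O := by rw [hO]; positivity
  have hd0 : 0 ≤ d := by rw [hd]; positivity
  have hF0 : 0 ≤ F := by rw [hF]; positivity
  obtain ⟨Z, hZ⟩ : ∃ Z, Z = mG * V * O := ⟨_, rfl⟩
  have hZ0 : 0 ≤ Z := by rw [hZ]; positivity
  constructor
  · have h1 : (1 - e8) * ((1 - e8) * O * ((1 - e8) * mG)) * V ≤ (1 - d) * (F * m) * V := by
      apply mul_le_mul_of_nonneg_right _ hV0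
      apply mul_le_mul (by linarith) _ _ (by linarith)
      · exact mul_le_mul b3 b1 (mul_nonneg (by linarith) hm0.le) hF0
      · exact mul_nonneg (mul_nonneg (by linarith) hO0) (mul_nonneg (by linarith) hm0.le)
    have h2 : (1 - e8) * ((1 - e8) * O * ((1 - e8) * mG)) * V = (1 - e8) ^ 3 * Z := by
      rw [hZ]
      ring
    have h3 : e8 * mG * (V * O) = e8 * Z := by
      rw [hZ]
      ring
    have h4 : (1 - e') * (mG * V) * O = (1 - e') * Z := by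
      rw [hZ]
      ring
    have h5 : 1 - e' ≤ (1 - e8) ^ 3 - e8 := by
      have h6 : 0 ≤ e8 ^ 2 * (3 - e8) := mul_nonneg (sq_nonneg _) (by linarith)
      have h7 : (1 - e8) ^ 3 - e8 = 1 - 4 * e8 + e8 ^ 2 * (3 - e8) := by ring
      rw [h7]
      linarith
    have h6 := mul_le_mul_of_nonneg_right h5 hZ0
    have h7 : ((1 - e8) ^ 3 - e8) * Z = (1 - e8) ^ 3 * Z - e8 * Z := by ring
    rw [h4]
    have h8 := hA.2
    rw [h3] at h8
    linarith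
  · have h1 : (1 + d) * (F * m) * V ≤ (1 + e8) * ((1 + e8) * O * ((1 + e8) * mG)) * V := by
      apply mul_le_mul_of_nonneg_right _ hV0
      apply mul_le_mul (by linarith) _ (by positivity) (by linarith)
      exact mul_le_mul b4 b2 hmm (by positivity)
    have h2 : (1 + e8) * ((1 + e8) * O * ((1 + e8) * mG)) * V = (1 + e8) ^ 3 * Z := by
      rw [hZ]
      ring
    have h3 : e8 * mG * (V * O) = e8 * Z := by
      rw [hZ]
      ring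
    have h4 : (1 + e') * (mG * V) * O = (1 + e') * Z := by
      rw [hZ]
      ring
    have h5 : (1 + e8) ^ 3 + e8 ≤ 1 + e' := by
      have h6 : e8 ^ 2 ≤ 1 / 8 * e8 := by
        rw [sq]
        exact mul_le_mul_of_nonneg_right he81 he80.le
      have h8 : e8 ^ 3 ≤ 1 / 64 * e8 := by
        have h9 : e8 ^ 3 = e8 ^ 2 * e8 := by ring
        have h10 : e8 ^ 2 ≤ 1 / 64 := by linarith
        rw [h9]
        exact mul_le_mul_of_nonneg_right h10 he80.le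
      have h7 : (1 + e8) ^ 3 + e8 = 1 + 4 * e8 + 3 * e8 ^ 2 + e8 ^ 3 := by ring
      rw [h7]
      linarith
    have h6 := mul_le_mul_of_nonneg_right h5 hZ0
    have h7 : ((1 + e8) ^ 3 + e8) * Z = (1 + e8) ^ 3 * Z + e8 * Z := by ring
    rw [h4]
    have h8 := hA.1
    rw [h3] at h8
    linarith

private theorem one_le_prodr {ι : Type*} (s : Finset ι) (f : ι → ℝ) (h : ∀ i ∈ s, 1 ≤ f i) :
    1 ≤ ∏ i ∈ s, f i := by
  calc (1 : ℝ) = ∏ i ∈ s, (1 : ℝ) := by simp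
    _ ≤ ∏ i ∈ s, f i := prod_le_prod (fun _ _ => by norm_num) h

private theorem two_nu (x a : ℝ) (Q h h' : ℕ) (hne : h ≠ h') :
    ∏ p ∈ PQ x a Q, (1 - (nu p ![h, h'] : ℝ) / p) ≤ VQ x a Q ^ 2 * Ph Q 1 (Nat.dist h h') := by
  classical
  have hP : ∀ p ∈ PQ x a Q, p.Prime ∧ ¬ p ∣ Q := by
    intro p hp
    unfold PQ at hp
    rw [mem_filter] at hp
    exact hp.2
  have h1 : ∏ p ∈ PQ x a Q, (1 - (nu p ![h, h'] : ℝ) / p) ≤
      ∏ p ∈ PQ x a Q, ((1 - 1 / (p : ℝ)) ^ 2 *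
        (if p ∣ Nat.dist h h' then ((1 - 1 / (p : ℝ))⁻¹) ^ 1 else 1)) := by
    apply prod_le_prod
    · intro p hp
      have h2 := nu_le' p (hP p hp).1.pos ![h, h']
      have h3 : (0 : ℝ) < p := by exact_mod_cast (hP p hp).1.pos
      have h4 : (nu p ![h, h'] : ℝ) ≤ p := by exact_mod_cast h2
      have h5 : (nu p ![h, h'] : ℝ) / p ≤ 1 := by
        rw [div_le_one h3]
        exact h4
      linarith
    · intro p hp
      have h3 : (0 : ℝ) < p := by exact_mod_cast (hP p hp).1.pos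
      obtain ⟨hinv, hpos⟩ := inv_ge1 p (hP p hp).1.two_le
      have h4 : (1 : ℝ) ≤ nu p ![h, h'] := by exact_mod_cast nu_pos p ![h, h']
      have h5 : 1 / (p : ℝ) ≤ (nu p ![h, h'] : ℝ) / p := div_le_div_of_nonneg_right h4 h3.le
      split_ifs with hd
      · have h6 : (1 - 1 / (p : ℝ)) ^ 2 * ((1 - 1 / (p : ℝ))⁻¹) ^ 1 = 1 - 1 / (p : ℝ) := by
          rw [pow_one, sq, mul_assoc, mul_inv_cancel₀ hpos.ne', mul_one]
        rw [h6]
        linarith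
      · rw [mul_one]
        have h6 : ¬ nu p ![h, h'] < Fintype.card (Fin 2) := by
          intro h7
          obtain ⟨i, j, hij, hdv⟩ := nu_eq p ![h, h'] h7
          apply hd
          fin_cases i <;> fin_cases j
          · exact absurd rfl hij
          · exact hdv
          · have h8 : p ∣ Nat.dist h' h := hdv
            rw [Nat.dist_comm]
            exact h8
          · exact absurd rfl hij
        rw [Fintype.card_fin, not_lt] at h6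
        have h7 : (2 : ℝ) ≤ nu p ![h, h'] := by exact_mod_cast h6
        have h8 : 2 / (p : ℝ) ≤ (nu p ![h, h'] : ℝ) / p := div_le_div_of_nonneg_right h7 h3.le
        have h9 : (1 - 1 / (p : ℝ)) ^ 2 = 1 - 2 / p + (1 / (p : ℝ)) ^ 2 := by ring
        rw [h9]
        have h10 : 0 ≤ (1 / (p : ℝ)) ^ 2 := sq_nonneg _
        linarith
  refine h1.trans ?_
  rw [prod_mul_distrib, prod_pow]
  show VQ x a Q ^ 2 * _ ≤ _
  apply mul_le_mul_of_nonneg_left _ (sq_nonneg _)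
  rw [← prod_filter]
  unfold Ph
  have hsub : (PQ x a Q).filter (fun p => p ∣ Nat.dist h h') ⊆
      (Nat.dist h h').primeFactors.filter (fun p => ¬ p ∣ Q) := by
    intro p hp
    rw [mem_filter] at hp
    rw [mem_filter, Nat.mem_primeFactors]
    refine ⟨⟨(hP p hp.1).1, hp.2, ?_⟩, (hP p hp.1).2⟩
    intro h0
    exact hne (Nat.eq_of_dist_eq_zero h0)
  rw [← prod_sdiff hsub]
  have h2 : ∀ p ∈ (Nat.dist h h').primeFactors.filter (fun p => ¬ p ∣ Q),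
      1 ≤ ((1 - 1 / (p : ℝ))⁻¹) ^ 1 := by
    intro p hp
    rw [mem_filter, Nat.mem_primeFactors] at hp
    exact one_le_pow₀ (inv_ge1 p hp.1.1.two_le).1
  have h3 := one_le_prodr (((Nat.dist h h').primeFactors.filter (fun p => ¬ p ∣ Q)) \
    (PQ x a Q).filter (fun p => p ∣ Nat.dist h h')) (fun p => ((1 - 1 / (p : ℝ))⁻¹) ^ 1)
    (fun p hp => h2 p (mem_sdiff.1 hp).1)
  have h4 := one_le_prodr ((PQ x a Q).filter (fun p => p ∣ Nat.dist h h'))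
    (fun p => ((1 - 1 / (p : ℝ))⁻¹) ^ 1) (fun p hp => h2 p (hsub hp))
  nlinarith

theorem two_pt : ∃ w0 : ℕ, ∀ e' : ℝ, 0 < e' → ∃ a1 : ℝ, 0 < a1 ∧ ∀ a e : ℝ, 0 < a → a ≤ a1 →
    ∀ (J : ℕ) (W : List (ℝ × List ℕ × List ℕ)), Wok a e J W → ∃ c : ℝ, 0 < c ∧ ∀ Q : ℕ, 0 < Q →
    primorial w0 ∣ Q → ∃ x0 : ℝ, ∀ x : ℝ, x0 ≤ x → ∀ h h' : ℕ, (h : ℝ) ≤ x ^ c → (h' : ℝ) ≤ x ^ c →
      h ≠ h' → Nat.Coprime h Q → Nat.Coprime h' Q →
      ∑ N ∈ Om x Q, gG x a (a / J) Q W h N * gG x a (a / J) Q W h' N ≤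
        (1 + e') * (mv2 W mu * VQ x a Q) ^ 2 * Ph Q 1 (Nat.dist h h') * (Om x Q).card := by
  obtain ⟨w0, hcore⟩ := one_core 2 (by norm_num)
  refine ⟨w0, fun e' he' => ?_⟩
  obtain ⟨e8, he8⟩ : ∃ e8 : ℝ, e8 = min e' 1 / 8 := ⟨_, rfl⟩
  have he80 : 0 < e8 := by rw [he8]; exact div_pos (lt_min he' zero_lt_one) (by norm_num)
  have he81 : e8 ≤ 1 / 8 := by
    rw [he8]
    have := min_le_right e' 1
    linarith
  have he8e : 8 * e8 ≤ e' := by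
    rw [he8]
    have := min_le_left e' 1
    linarith
  obtain ⟨B, hB, hBe⟩ := exists_B e8 he80
  refine ⟨1 / (600000 * (6 * B + 12)), by positivity, fun a e ha haa J W hW => ?_⟩
  have haB : a * (6 * B + 12) ≤ 1 / 600000 := by
    have h1 : a * (6 * B + 12) ≤ 1 / (600000 * (6 * B + 12)) * (6 * B + 12) :=
      mul_le_mul_of_nonneg_right haa (by positivity)
    refine h1.trans (le_of_eq ?_)
    field_simp
  have ha2 : a ≤ 1 / 2 := by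
    have h1 : (0 : ℝ) ≤ B := Nat.cast_nonneg _
    nlinarith
  have hJ : (0 : ℝ) < J := by exact_mod_cast hW.J_pos
  obtain ⟨c, C, x0, hc, hC, huni⟩ := uni_pair (a / J) a (by positivity) ha ha2 W W hW.ok hW.ok
  refine ⟨c, hc, fun Q hQ hprim => ?_⟩
  have hm0 : 0 < mv2 W mu := lt_of_lt_of_le ha hW.lo
  obtain ⟨x1, hmain⟩ := hcore B (by omega) a ha ha2 haB c C hc hC Q hQ hprim (e8 * mv2 W mu ^ 2)
    (by positivity)
  obtain ⟨x2, hbig⟩ := Filter.eventually_atTop.1 ((one_big a e J W ha hW Q hQ e8 he80).and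
    (Filter.eventually_ge_atTop (1 : ℝ)))
  refine ⟨max x0 (max x1 x2), fun x hx h h' hh hh' hne _ _ => ?_⟩
  have hxx0 : x0 ≤ x := (le_max_left _ _).trans hx
  have hxx1 : x1 ≤ x := ((le_max_left _ _).trans (le_max_right _ _)).trans hx
  obtain ⟨⟨b1, b2, b3, b4⟩, hx1'⟩ := hbig x (((le_max_right _ _).trans (le_max_right _ _)).trans hx)
  have hx0 : 0 < x := by linarith
  obtain ⟨m, hm⟩ : ∃ m, m = mv2 W (Pool.Agent.H11.PT.ms x (a / J)) := ⟨_, rfl⟩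
  rw [← hm] at b1 b2
  have hmm : 0 ≤ m := le_trans (mul_nonneg (by linarith) hm0.le) b1
  classical
  have hA := (hmain x hxx1 (Fin 2) (by simp) ![h, h']
    (fun N => ev2 W (Pool.Agent.H11.PT.kk x (a / J) (N + h)) *
      ev2 W (Pool.Agent.H11.PT.kk x (a / J) (N + h')))
    (fun N => mul_nonneg (hW.nn x (N + h)) (hW.nn x (N + h'))) (m * m) (mul_nonneg hmm hmm)
    (fun q0 r hq0 hq0x hpr => by
      rw [hm]
      exact huni x hxx0 ⌊x⌋₊ q0 h h' r (Nat.floor_le hx0.le) hq0 hq0x hpr hh hh' hne)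
    ((Om x Q).filter (fun N => (∀ p ∈ PQ x a Q, ¬ p ∣ N + h) ∧ ∀ p ∈ PQ x a Q, ¬ p ∣ N + h'))
    (fun N => by
      rw [mem_filter]
      constructor
      · rintro ⟨h1, h2, h3⟩
        refine ⟨h1, fun p hp i => ?_⟩
        fin_cases i
        · exact h2 p hp
        · exact h3 p hp
      · rintro ⟨h1, h2⟩
        exact ⟨h1, fun p hp => h2 p hp 0, fun p hp => h2 p hp 1⟩)).1
  have hsum : ∑ N ∈ Om x Q, gG x a (a / J) Q W h N * gG x a (a / J) Q W h' N =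
      ∑ N ∈ (Om x Q).filter (fun N => (∀ p ∈ PQ x a Q, ¬ p ∣ N + h) ∧ ∀ p ∈ PQ x a Q, ¬ p ∣ N + h'),
        ev2 W (Pool.Agent.H11.PT.kk x (a / J) (N + h)) *
          ev2 W (Pool.Agent.H11.PT.kk x (a / J) (N + h')) := by
    rw [sum_filter]
    refine sum_congr rfl fun N _ => ?_
    unfold gG
    by_cases h1 : ∀ p ∈ PQ x a Q, ¬ p ∣ N + h
    · by_cases h2 : ∀ p ∈ PQ x a Q, ¬ p ∣ N + h'
      · rw [if_pos h1, if_pos h2, if_pos ⟨h1, h2⟩]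
      · have h3 : ¬ ((∀ p ∈ PQ x a Q, ¬ p ∣ N + h) ∧ ∀ p ∈ PQ x a Q, ¬ p ∣ N + h') :=
          fun h4 => h2 h4.2
        rw [if_neg h2, if_neg h3, mul_zero]
    · have h3 : ¬ ((∀ p ∈ PQ x a Q, ¬ p ∣ N + h) ∧ ∀ p ∈ PQ x a Q, ¬ p ∣ N + h') :=
        fun h4 => h1 h4.1
      rw [if_neg h1, if_neg h3, zero_mul]
  rw [← hsum] at hA
  have hprod := two_nu x a Q h h' hne
  have hPh1 : 1 ≤ Ph Q 1 (Nat.dist h h') := Ph_one_le _ _ _
  have hPn0 : 0 ≤ ∏ p ∈ PQ x a Q, (1 - (nu p ![h, h'] : ℝ) / p) := by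
    refine prod_nonneg fun p hp => ?_
    unfold PQ at hp
    rw [mem_filter] at hp
    have h2 := nu_le' p hp.2.1.pos ![h, h']
    have h3 : (0 : ℝ) < p := by exact_mod_cast hp.2.1.pos
    have h4 : (nu p ![h, h'] : ℝ) ≤ p := by exact_mod_cast h2
    have h5 : (nu p ![h, h'] : ℝ) / p ≤ 1 := by
      rw [div_le_one h3]
      exact h4
    linarith
  obtain ⟨V, hVV⟩ : ∃ V, V = VQ x a Q := ⟨_, rfl⟩
  obtain ⟨O, hO⟩ : ∃ O : ℝ, O = ((Om x Q).card : ℝ) := ⟨_, rfl⟩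
  obtain ⟨mG, hmG⟩ : ∃ mG, mG = mv2 W mu := ⟨_, rfl⟩
  obtain ⟨F, hF⟩ : ∃ F : ℝ, F = (⌊x⌋₊ : ℝ) / Q := ⟨_, rfl⟩
  obtain ⟨Pn, hPn⟩ : ∃ Pn : ℝ, Pn = ∏ p ∈ PQ x a Q, (1 - (nu p ![h, h'] : ℝ) / p) := ⟨_, rfl⟩
  obtain ⟨S, hS⟩ : ∃ S : ℝ, S = Ph Q 1 (Nat.dist h h') := ⟨_, rfl⟩
  obtain ⟨d, hd⟩ : ∃ d : ℝ, d = (1 / 2) ^ B := ⟨_, rfl⟩
  rw [← hVV, ← hO, ← hF, ← hmG, ← hd, ← hPn] at hA
  rw [← hVV, ← hPn, ← hS] at hprod
  rw [← hS] at hPh1
  rw [← hPn] at hPn0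
  rw [← hVV, ← hO, ← hmG, ← hS]
  rw [← hO, ← hF] at b3 b4
  rw [← hmG] at b1 b2 hm0
  rw [← hd] at hBe
  have hO0 : 0 ≤ O := by rw [hO]; positivity
  have hd0 : 0 ≤ d := by rw [hd]; positivity
  have hF0 : 0 ≤ F := by rw [hF]; positivity
  have hS0 : 0 ≤ S := by linarith
  obtain ⟨Z, hZ⟩ : ∃ Z, Z = mG ^ 2 * V ^ 2 * O * S := ⟨_, rfl⟩
  have hZ0 : 0 ≤ Z := by rw [hZ]; positivity
  have h1 : (1 + d) * (F * (m * m)) * Pn ≤
      (1 + e8) * ((1 + e8) * O * (((1 + e8) * mG) * ((1 + e8) * mG))) * (V ^ 2 * S) := by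
    apply mul_le_mul _ hprod hPn0 (by positivity)
    apply mul_le_mul (by linarith) _ (by positivity) (by linarith)
    apply mul_le_mul b4 _ (by positivity) (by positivity)
    exact mul_le_mul b2 b2 hmm (by positivity)
  have h2 : (1 + e8) * ((1 + e8) * O * (((1 + e8) * mG) * ((1 + e8) * mG))) * (V ^ 2 * S) =
      (1 + e8) ^ 4 * Z := by
    rw [hZ]
    ring
  have h3 : e8 * mG ^ 2 * (V ^ 2 * O) ≤ e8 * Z := by
    have h4 : e8 * mG ^ 2 * (V ^ 2 * O) * 1 ≤ e8 * mG ^ 2 * (V ^ 2 * O) * S :=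
      mul_le_mul_of_nonneg_left hPh1 (by positivity)
    rw [hZ]
    linarith
  have h4 : (1 + e') * (mG * V) ^ 2 * S * O = (1 + e') * Z := by
    rw [hZ]
    ring
  have h5 : (1 + e8) ^ 4 + e8 ≤ 1 + e' := by
    have h6 : e8 ^ 2 ≤ 1 / 8 * e8 := by
      rw [sq]
      exact mul_le_mul_of_nonneg_right he81 he80.le
    have h8 : e8 ^ 3 ≤ 1 / 64 * e8 := by
      have h9 : e8 ^ 3 = e8 ^ 2 * e8 := by ring
      have h10 : e8 ^ 2 ≤ 1 / 64 := by linarith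
      rw [h9]
      exact mul_le_mul_of_nonneg_right h10 he80.le
    have h11 : e8 ^ 4 ≤ 1 / 512 * e8 := by
      have h9 : e8 ^ 4 = e8 ^ 3 * e8 := by ring
      have h10 : e8 ^ 3 ≤ 1 / 512 := by linarith
      rw [h9]
      exact mul_le_mul_of_nonneg_right h10 he80.le
    have h7 : (1 + e8) ^ 4 + e8 = 1 + 5 * e8 + 6 * e8 ^ 2 + 4 * e8 ^ 3 + e8 ^ 4 := by ring
    rw [h7]
    linarith
  have h6 := mul_le_mul_of_nonneg_right h5 hZ0
  have h7 : ((1 + e8) ^ 4 + e8) * Z = (1 + e8) ^ 4 * Z + e8 * Z := by ring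
  rw [h4]
  linarith

end Pool.Agent.H99.RO
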