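import Pool.Agent.H99.RO.Pc

/-!
[H99 RO P1]  Part (1): dense cliques.

`cnt x Q A y` = number of the `N ∈ [1, x]` with all `N + Q y i ∈ A`.
Proof.  We may assume `e ≤ 1`.  `e1 = e/8`.  `prime_clique m (al - e1) e1 (e/2) 1` (if `al - e1 ≤ 0` the conclusion is trivial with `S = ∅`: `13 al/50 - e ≤ 0`) gives `q`; for `Q`: `c, C, c', x0`.
Given `x` (large), `A`: class `b` from `fst_set Q al e1`.  Given `L`, `U`: `n = Q (L+1)`, `V = U.image (fun y => b + Q y)` (injective; `|V| = |U|`), `v ≤ b + Q L ≤ n`, coprime to `Q`, `cl = co = ` constant,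
`(e/2) n ≤ Q |V|` because `|U| ≥ e L ≥ (e/2)(L+1)`.  `C log x ≤ L ≤ n`, `n ≤ x^c'` if `L ≤ x^(c'/2)` and `x` large; the new exponent is `min (c'/2) (1/4)`; `b + Q y ≤ x^(1/2)` for `fst_set`.
Let `S` be the function of `prime_clique`.  `∑_{N ∈ Om} |S N| ≥ (13/50 (al - e1) - 2 e1) |V| |Om|`, and the number of the `N` with `≥ e1 |V|^m` non-popular tuples is `≤ e1 |Om|`; so there is `N ∈ Om` with fewer
than `e1 |V|^m` non-popular tuples and `|S N| ≥ (13/50 (al - e1) - 3 e1) |V| ≥ (13 al/50 - e) |U|`.  `S' = {y ∈ U : b + Q y ∈ S N}`, `|S'| = |S N|`.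
If `PopA x Q A c (fun i => b + Q y i)`: at least `c lam^m |Om| ≥ c (1/log x)^m (x/Q - 2)` of the `N ∈ Om` have `N + b + Q y i ∈ A` for all `i`; `N' = N + b ≤ x` for all but at most `b ≤ Q` of
them; so `cnt ≥ (c/(4 Q)) x/(log x)^m` for large `x`: the new `c` is `c/(4 Q)`.  (`lam ≥ 1/log x` as `φ(Q) ≤ Q`.)
-/

namespace Pool.Agent.H99.RO

open Finset

open Classical in
/-- the number of the `N ≤ x` with all `N + Q y i ∈ A` -/
noncomputable def cnt {m : ℕ} (x : ℝ) (Q : ℕ) (A : Finset ℕ) (y : Fin m → ℕ) : ℝ :=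
  (((Icc 1 ⌊x⌋₊).filter fun N => ∀ i, N + Q * y i ∈ A).card : ℝ)

private theorem p1_om (Q : ℕ) (hQ : 0 < Q) (x : ℝ) : x / Q - 1 ≤ ((Om x Q).card : ℝ) := by
  have h1 : Om x Q = (Ioc 0 ⌊x⌋₊).filter (fun N => Q ∣ N) := by
    unfold Om
    ext N
    simp only [mem_filter, mem_Icc, mem_Ioc]
    constructor
    · rintro ⟨⟨h2, h3⟩, h4⟩
      exact ⟨⟨by omega, h3⟩, h4⟩
    · rintro ⟨⟨h2, h3⟩, h4⟩
      exact ⟨⟨by omega, h3⟩, h4⟩
  rw [h1, Nat.Ioc_filter_dvd_card_eq_div, ← Nat.floor_div_natCast]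
  have h2 := Nat.lt_floor_add_one (x / (Q : ℝ))
  linarith

open Classical in
private theorem p1_cnt {m : ℕ} (hm : 1 ≤ m) (x : ℝ) (Q b : ℕ) (hb : 1 ≤ b) (A : Finset ℕ)
    (hA : ∀ p ∈ A, (p : ℝ) ≤ x) (y : Fin m → ℕ) :
    (((Om x Q).filter fun N => ∀ i, N + (b + Q * y i) ∈ A).card : ℝ) ≤ cnt x Q A y := by
  unfold cnt
  have h1 : ((Om x Q).filter fun N => ∀ i, N + (b + Q * y i) ∈ A).card ≤
      ((Icc 1 ⌊x⌋₊).filter fun N => ∀ i, N + Q * y i ∈ A).card := by
    apply card_le_card_of_injOn (fun N => N + b)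
    · intro N hN
      rw [mem_coe, mem_filter] at hN
      rw [mem_coe, mem_filter, mem_Icc]
      dsimp only
      refine ⟨⟨by omega, ?_⟩, fun i => ?_⟩
      · have h2 := hA _ (hN.2 ⟨0, hm⟩)
        apply Nat.le_floor
        refine le_trans ?_ h2
        have : N + b ≤ N + (b + Q * y ⟨0, hm⟩) := by omega
        exact_mod_cast this
      · have h2 := hN.2 i
        rwa [← add_assoc] at h2
    · intro N _ N' _ h2
      have : N + b = N' + b := h2
      omega
  exact_mod_cast h1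

private theorem p1_lam (Q : ℕ) (hQ : 0 < Q) (x : ℝ) (hx : 1 < x) : 1 / Real.log x ≤ lam x Q := by
  have hl := Real.log_pos hx
  have hphi : (0 : ℝ) < (Nat.totient Q : ℝ) := by exact_mod_cast Nat.totient_pos.2 hQ
  have hle : (Nat.totient Q : ℝ) ≤ Q := by exact_mod_cast Nat.totient_le Q
  unfold lam
  rw [div_le_div_iff₀ hl (by positivity)]
  nlinarith

/-- the choice of `N` -/
private theorem p1_choice (Om : Finset ℕ) (hOm : Om.Nonempty) (f : ℕ → ℕ) (v : ℕ) (hv : 0 < v)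
    (hf : ∀ N, f N ≤ v) (P : ℕ → Prop) [DecidablePred P] (t e1 : ℝ) (he1 : 0 < e1) (ht : 0 ≤ t - 4 * e1)
    (h1 : (t - 2 * e1) * v * Om.card ≤ ∑ N ∈ Om, (f N : ℝ))
    (h2 : ((Om.filter P).card : ℝ) ≤ e1 * Om.card) : ∃ N ∈ Om, ¬ P N ∧ (t - 4 * e1) * v ≤ f N := by
  by_contra hcon
  push Not at hcon
  have hOm0 : (0 : ℝ) < Om.card := by exact_mod_cast card_pos.2 hOm
  have hv0 : (0 : ℝ) < v := by exact_mod_cast hv
  have h3 : ∀ N ∈ Om, (f N : ℝ) ≤ (if P N then (v : ℝ) else 0) + (t - 4 * e1) * v := by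
    intro N hN
    by_cases hP : P N
    · rw [if_pos hP]
      have h4 : (f N : ℝ) ≤ v := by exact_mod_cast hf N
      have : 0 ≤ (t - 4 * e1) * v := by positivity
      linarith
    · rw [if_neg hP, zero_add]
      exact (hcon N hN hP).le
  have h4 := sum_le_sum h3
  rw [sum_add_distrib, ← sum_filter, sum_const, sum_const, nsmul_eq_mul, nsmul_eq_mul] at h4
  have h5 : ((Om.filter P).card : ℝ) * v ≤ e1 * Om.card * v := mul_le_mul_of_nonneg_right h2 hv0.le
  have h6 : 0 < e1 * Om.card * v := by positivity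
  nlinarith

open Classical in
theorem part1 (m : ℕ) (hm : 1 ≤ m) (al e : ℝ) (hal : 0 < al) (hal1 : al ≤ 1) (he : 0 < e) :
    ∃ q : ℕ, 0 < q ∧ ∀ Q : ℕ, 0 < Q → q ∣ Q → ∃ c C c' x0 : ℝ, 0 < c ∧ 0 < C ∧ 0 < c' ∧ ∀ x : ℝ, x0 ≤ x →
      ∀ A : Finset ℕ, (∀ p ∈ A, p.Prime ∧ (p : ℝ) ≤ x) → al * x / Real.log x ≤ A.card →
      ∀ L : ℕ, C * Real.log x ≤ L → (L : ℝ) ≤ x ^ c' → ∀ U : Finset ℕ, U ⊆ Icc 1 L → e * L ≤ U.card →
      ∃ S : Finset ℕ, S ⊆ U ∧ (13 * al / 50 - e) * (U.card : ℝ) ≤ S.card ∧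
        (((Fintype.piFinset fun _ : Fin m => S).filter fun y =>
          cnt x Q A y < c * x / Real.log x ^ m).card : ℝ) ≤ e * (L : ℝ) ^ m := by
  by_cases htriv : 13 * al / 50 ≤ e
  · refine ⟨1, one_pos, fun Q _ _ => ⟨1, 1, 1, 0, one_pos, one_pos, one_pos,
      fun x _ A _ _ L _ _ U _ _ => ⟨∅, empty_subset _, ?_, ?_⟩⟩⟩
    · have : (0 : ℝ) ≤ U.card := Nat.cast_nonneg _
      rw [card_empty, Nat.cast_zero]
      exact mul_nonpos_of_nonpos_of_nonneg (by linarith) this
    · have h0 : (Fintype.piFinset fun _ : Fin m => (∅ : Finset ℕ)) = ∅ := by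
        rw [Finset.eq_empty_iff_forall_notMem]
        intro y hy
        exact absurd (Fintype.mem_piFinset.1 hy ⟨0, hm⟩) (notMem_empty _)
      rw [h0, filter_empty, card_empty, Nat.cast_zero]
      positivity
  push Not at htriv
  set e1 : ℝ := e / 8 with he1d
  have he1 : 0 < e1 := by positivity
  have he8 : e = 8 * e1 := by rw [he1d]; ring
  obtain ⟨q, hq, H⟩ := prime_clique m hm (al - e1) e1 (e / 2) (by linarith) (by linarith) he1
    (by positivity) 1
  refine ⟨q, hq, fun Q hQ hqQ => ?_⟩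
  obtain ⟨c0, C, c', x0, hc0, hC, hc', H⟩ := H Q hQ hqQ
  obtain ⟨x1, H1⟩ := fst_set Q hQ al e1 hal he1
  have hQ0 : (0 : ℝ) < Q := by exact_mod_cast hQ
  have hQ1 : (1 : ℝ) ≤ Q := by exact_mod_cast hQ
  -- the size of `x`
  have hev : ∃ x2 : ℝ, ∀ x : ℝ, x2 ≤ x → 2 * Q * x ^ (c' / 2) ≤ x ^ c' ∧
      2 * Q * x ^ (1 / 4 : ℝ) ≤ x ^ (1 / 2 : ℝ) ∧ 3 ≤ x ∧ 2 * Q ≤ x ∧ 1 ≤ C * Real.log x := by
    have e1 := (tendsto_rpow_atTop (show 0 < c' / 2 by positivity)).eventually_ge_atTop (2 * (Q : ℝ))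
    have e2 := (tendsto_rpow_atTop (show (0 : ℝ) < 1 / 4 by norm_num)).eventually_ge_atTop
      (2 * (Q : ℝ))
    have e3 := Real.tendsto_log_atTop.eventually_ge_atTop (1 / C)
    have e4 : ∀ᶠ x : ℝ in Filter.atTop, 2 * Q * x ^ (c' / 2) ≤ x ^ c' ∧
        2 * Q * x ^ (1 / 4 : ℝ) ≤ x ^ (1 / 2 : ℝ) ∧ 3 ≤ x ∧ 2 * Q ≤ x ∧ 1 ≤ C * Real.log x := by
      filter_upwards [e1, e2, e3, Filter.eventually_ge_atTop (3 : ℝ),
        Filter.eventually_ge_atTop (2 * (Q : ℝ))] with x k1 k2 k3 k4 k5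
      have hx0 : 0 < x := by linarith
      refine ⟨?_, ?_, k4, k5, ?_⟩
      · have h1 : x ^ c' = x ^ (c' / 2) * x ^ (c' / 2) := by
          rw [← Real.rpow_add hx0]
          congr 1
          ring
        rw [h1]
        exact mul_le_mul_of_nonneg_right k1 (by positivity)
      · have h1 : x ^ (1 / 2 : ℝ) = x ^ (1 / 4 : ℝ) * x ^ (1 / 4 : ℝ) := by
          rw [← Real.rpow_add hx0]
          norm_num
        rw [h1]
        exact mul_le_mul_of_nonneg_right k2 (by positivity)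
      · rw [div_le_iff₀ hC] at k3
        linarith
    exact Filter.eventually_atTop.1 e4
  obtain ⟨x2, hx2⟩ := hev
  refine ⟨c0 / (2 * Q), C, min (c' / 2) (1 / 4), max x0 (max x1 x2), by positivity, hC,
    lt_min (by positivity) (by norm_num), ?_⟩
  intro x hx A hA hAc L hL1 hL2 U hU hUc
  have hx0 : x0 ≤ x := (le_max_left _ _).trans hx
  have hx1 : x1 ≤ x := ((le_max_left _ _).trans (le_max_right _ _)).trans hx
  obtain ⟨g1, g2, g3, g4, g5⟩ := hx2 x (((le_max_right _ _).trans (le_max_right _ _)).trans hx)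
  have hxp : 0 < x := by linarith
  have hxone : 1 ≤ x := by linarith
  have hl : 0 < Real.log x := Real.log_pos (by linarith)
  obtain ⟨b, hb1, hb2, hb3, hb4⟩ := H1 x hx1 A hA hAc
  have hLr : (1 : ℝ) ≤ L := g5.trans hL1
  have hL : 1 ≤ L := by exact_mod_cast hLr
  have hLc : (L : ℝ) ≤ x ^ (c' / 2) := hL2.trans
    (Real.rpow_le_rpow_of_exponent_le hxone (min_le_left _ _))
  have hL4 : (L : ℝ) ≤ x ^ (1 / 4 : ℝ) := hL2.trans
    (Real.rpow_le_rpow_of_exponent_le hxone (min_le_right _ _))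
  -- the sites
  have hinj : Function.Injective (fun y : ℕ => b + Q * y) := by
    intro y z hyz
    have h1 : b + Q * y = b + Q * z := hyz
    exact Nat.eq_of_mul_eq_mul_left hQ (by omega)
  obtain ⟨V, hV⟩ : ∃ V : Finset ℕ, V = U.image (fun y => b + Q * y) := ⟨_, rfl⟩
  have hVc : V.card = U.card := by
    rw [hV]
    exact card_image_of_injective _ hinj
  have hmemV : ∀ v, v ∈ V ↔ ∃ y ∈ U, b + Q * y = v := by
    intro v
    rw [hV, mem_image]
  have hUL : ∀ y ∈ U, 1 ≤ y ∧ y ≤ L := fun y hy => mem_Icc.1 (hU hy)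
  have hVle : ∀ v ∈ V, v ≤ Q * (L + 1) := by
    intro v hv
    obtain ⟨y, hy, rfl⟩ := (hmemV v).1 hv
    have h1 := (hUL y hy).2
    have h2 : Q * y ≤ Q * L := Nat.mul_le_mul_left Q h1
    have h3 : Q * (L + 1) = Q * L + Q := by ring
    omega
  have hn : ((Q * (L + 1) : ℕ) : ℝ) ≤ 2 * Q * L := by
    push_cast
    nlinarith
  have hUcard : (0 : ℝ) < U.card := lt_of_lt_of_le (by positivity) hUc
  have hVcard : 0 < V.card := by
    rw [hVc]
    exact_mod_cast hUcard
  obtain ⟨S, hS1, hS2, hS3⟩ := H x hx0 (Q * (L + 1)) (by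
      refine hL1.trans ?_
      have : L ≤ Q * (L + 1) := by nlinarith
      exact_mod_cast this) (by
      refine hn.trans (le_trans ?_ g1)
      exact mul_le_mul_of_nonneg_left hLc (by positivity)) V (by
      intro v hv
      refine ⟨?_, hVle v hv, ?_⟩
      · obtain ⟨y, hy, rfl⟩ := (hmemV v).1 hv
        omega
      · obtain ⟨y, hy, rfl⟩ := (hmemV v).1 hv
        rw [Nat.coprime_add_mul_left_left]
        exact hb3) (fun _ => b) (fun _ => 0) (by
      intro v hv
      obtain ⟨y, hy, rfl⟩ := (hmemV v).1 hv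
      simp) (by
      rw [hVc]
      push_cast
      have h1 : e / 2 * ((L : ℝ) + 1) ≤ U.card := by nlinarith
      nlinarith) A (fun p hp => (hA p hp).1) (by
      intro v hv
      apply hb4
      · have h1 : (v : ℝ) ≤ ((Q * (L + 1) : ℕ) : ℝ) := by exact_mod_cast hVle v hv
        refine h1.trans (hn.trans (le_trans ?_ g2))
        exact mul_le_mul_of_nonneg_left hL4 (by positivity)
      · obtain ⟨y, hy, rfl⟩ := (hmemV v).1 hv
        simp)
  have hOmc := p1_om Q hQ x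
  have hOmge : x / (2 * Q) ≤ ((Om x Q).card : ℝ) := by
    refine le_trans ?_ hOmc
    have h1 : (1 : ℝ) ≤ x / (2 * Q) := by
      rw [le_div_iff₀ (by positivity)]
      linarith
    have h2 : x / Q = x / (2 * Q) + x / (2 * Q) := by
      field_simp
      ring
    linarith
  have hOmpos : (0 : ℝ) < ((Om x Q).card : ℝ) := lt_of_lt_of_le (by positivity) hOmge
  have hOmne : (Om x Q).Nonempty := card_pos.1 (by exact_mod_cast hOmpos)
  have h1 := hS2 0
  simp only [filter_true] at h1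
  obtain ⟨N, hN, hN1, hN2⟩ := p1_choice (Om x Q) hOmne (fun N => (S N).card) V.card hVcard
    (fun N => card_le_card (hS1 N)) (fun N => e1 * (V.card : ℝ) ^ m ≤
          (((Fintype.piFinset fun _ : Fin m => S N).filter
            fun y => ¬ PopA x Q A c0 y).card : ℝ)) (13 / 50 * (al - e1)) e1 he1 (by linarith)
    (by
      refine le_trans (le_of_eq ?_) h1
      ring) hS3
  push Not at hN1
  refine ⟨U.filter (fun y => b + Q * y ∈ S N), filter_subset _ _, ?_, ?_⟩
  · have h2 : (S N).card = (U.filter (fun y => b + Q * y ∈ S N)).card := by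
      rw [← card_image_of_injective (U.filter (fun y => b + Q * y ∈ S N)) hinj]
      congr 1
      ext v
      rw [mem_image]
      constructor
      · intro hv
        obtain ⟨y, hy, hyv⟩ := (hmemV v).1 (hS1 N hv)
        exact ⟨y, mem_filter.2 ⟨hy, by rw [hyv]; exact hv⟩, hyv⟩
      · rintro ⟨y, hy, rfl⟩
        exact (mem_filter.1 hy).2
    rw [← h2, ← hVc]
    refine le_trans ?_ hN2
    have h3 : (0 : ℝ) ≤ V.card := Nat.cast_nonneg _
    apply mul_le_mul_of_nonneg_right _ h3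
    linarith
  · have h2 : ((Fintype.piFinset fun _ : Fin m => U.filter (fun y => b + Q * y ∈ S N)).filter fun y =>
          cnt x Q A y < c0 / (2 * Q) * x / Real.log x ^ m).card ≤
        ((Fintype.piFinset fun _ : Fin m => S N).filter fun y => ¬ PopA x Q A c0 y).card := by
      apply card_le_card_of_injOn (fun y i => b + Q * y i)
      · intro y hy
        rw [mem_coe, mem_filter, Fintype.mem_piFinset] at hy
        rw [mem_coe, mem_filter, Fintype.mem_piFinset]
        refine ⟨fun i => (mem_filter.1 (hy.1 i)).2, fun hpop => ?_⟩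
        have h3 := p1_cnt hm x Q b hb2 A (fun p hp => (hA p hp).2) y
        unfold PopA at hpop
        have h4 : c0 / (2 * Q) * x / Real.log x ^ m ≤ c0 * lam x Q ^ m * (Om x Q).card := by
          have h5 : (1 / Real.log x) ^ m ≤ lam x Q ^ m :=
            pow_le_pow_left₀ (by positivity) (p1_lam Q hQ x (by linarith)) m
          calc c0 / (2 * Q) * x / Real.log x ^ m = c0 * (1 / Real.log x) ^ m * (x / (2 * Q)) := by
                rw [div_pow, one_pow]
                ring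
            _ ≤ c0 * lam x Q ^ m * (Om x Q).card := by
                apply mul_le_mul (mul_le_mul_of_nonneg_left h5 hc0.le) hOmge (by positivity)
                have h6 : 0 ≤ lam x Q := le_trans (by positivity) (p1_lam Q hQ x (by linarith))
                positivity
        exact absurd hy.2 (not_lt.2 (h4.trans (hpop.trans h3)))
      · intro y _ z _ hyz
        funext i
        exact hinj (congrFun hyz i)
    have h3 : (((Fintype.piFinset fun _ : Fin m => U.filter (fun y => b + Q * y ∈ S N)).filter fun y =>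
          cnt x Q A y < c0 / (2 * Q) * x / Real.log x ^ m).card : ℝ) ≤
        (((Fintype.piFinset fun _ : Fin m => S N).filter fun y => ¬ PopA x Q A c0 y).card : ℝ) := by
      exact_mod_cast h2
    refine h3.trans (hN1.le.trans ?_)
    have h4 : (V.card : ℝ) ≤ L := by
      rw [hVc]
      have h5 := card_le_card hU
      rw [Nat.card_Icc, Nat.add_sub_cancel] at h5
      exact_mod_cast h5
    have h5 : (V.card : ℝ) ^ m ≤ (L : ℝ) ^ m := pow_le_pow_left₀ (Nat.cast_nonneg _) h4 m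
    have h6 : (0 : ℝ) ≤ (L : ℝ) ^ m := by positivity
    nlinarith

end Pool.Agent.H99.RO
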