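import Pool.Agent.H99.RO.PhS

/-!
[H99 RO PHR]  Mean values of the singular factors over pairs and tuples of sites.

`V ⊆ [1, n]` is contained in the classes `cl i`, `i < t0`, modulo `Q`, and `th n ≤ Q |V|`.
* `phi_pair`: `w0` from `phi_sum s (ta th/(2 t0 + 1))`.  For `u ∈ V` the `v ∈ V`, `v > u` in the class `cl i` have `dist u v = v - u ∈ [1, n]` in a fixed class modulo `Q`
  (`r ≡ cl i - u`; take `r = cl i + Q u - u` or so), and `v ↦ v - u` is injective: so `∑_{v > u} (Ph - 1) ≤ t0 e' n/Q`; the same for `v < u`.  Total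
  `≤ |V| 2 t0 e' n/Q ≤ |V| ta th n/Q ≤ ta |V|^2`.
* `phi_tuple`: let `r = |I| ≥ 2` (for `r ≤ 1` the product is `1`), `k = r (r-1)` the number of the ordered pairs `i ≠ j`.  AM-GM
  (`Real.inner_le_nnorm_mul_nnorm`-free: `Real.geom_mean_le_arith_mean_weighted` with weights `1/k` and `z = (Ph Q r ..)^k`): `PhI Q r y ≤ (1/k) ∑_{i ≠ j} Ph Q r (dist (y i) (y j))^k
  = (1/k) ∑_{i ≠ j} Ph Q (r k) (..)` (`Ph_pow`), so `PhI Q r y - 1 ≤ (1/k) ∑_{i ≠ j} (Ph Q (r k) (..) - 1)`.  Sum over `y ∈ F`; for fixed `i ≠ j` the `y ∈ F` with given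
  `(y i, y j) = (u, v)`, `u ≠ v`, are at most `|V|^(r-2)` in number: the sum is `≤ |V|^(r-2) ∑_{u ≠ v} (Ph Q (r k) (dist u v) - 1) ≤ ta |V|^r` by `phi_pair`.
  `w0` = that of `phi_pair` for `s = r k` (and `r ≤ 1`: anything).
-/

namespace Pool.Agent.H99.RO

open Finset

private theorem pr_cls {n Q s t0 : ℕ} {B : ℝ}
    (hB : ∀ r : ℕ, ∑ h ∈ (Icc 1 n).filter (fun h => h ≡ r [MOD Q]), (Ph Q s h - 1) ≤ B)
    (V' : Finset ℕ) (g : ℕ → ℕ) (co : ℕ → Fin t0) (r : Fin t0 → ℕ) (hinj : Set.InjOn g V')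
    (hg : ∀ v ∈ V', g v ∈ Icc 1 n ∧ g v ≡ r (co v) [MOD Q]) :
    ∑ v ∈ V', (Ph Q s (g v) - 1) ≤ t0 * B := by
  classical
  rw [← sum_fiberwise V' co]
  have h1 : ∀ i ∈ (univ : Finset (Fin t0)), ∑ v ∈ V' with co v = i, (Ph Q s (g v) - 1) ≤ B := by
    intro i _
    refine le_trans ?_ (hB (r i))
    have hinj' : Set.InjOn g ((V'.filter fun v => co v = i : Finset ℕ) : Set ℕ) := by
      intro a ha b hb hab
      rw [mem_coe, mem_filter] at ha hb
      exact hinj ha.1 hb.1 hab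
    rw [← sum_image (f := fun h : ℕ => Ph Q s h - 1) (g := g) hinj']
    refine sum_le_sum_of_subset_of_nonneg ?_ (fun h _ _ => sub_nonneg.2 (Ph_one_le Q s h))
    intro h hh
    rw [mem_image] at hh
    obtain ⟨v, hv, rfl⟩ := hh
    rw [mem_filter] at hv
    have := hg v hv.1
    rw [hv.2] at this
    rw [mem_filter]
    exact this
  have h2 := sum_le_sum h1
  rw [sum_const, card_univ, Fintype.card_fin, nsmul_eq_mul] at h2
  exact h2

private theorem pr_one {n Q s t0 : ℕ} {B : ℝ} (hQ : 0 < Q)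
    (hB : ∀ r : ℕ, ∑ h ∈ (Icc 1 n).filter (fun h => h ≡ r [MOD Q]), (Ph Q s h - 1) ≤ B)
    {V : Finset ℕ} (hV : V ⊆ Icc 1 n) {cl : Fin t0 → ℕ} {co : ℕ → Fin t0}
    (hco : ∀ v ∈ V, v ≡ cl (co v) [MOD Q]) {u : ℕ} (hu : u ∈ V) :
    ∑ v ∈ V.erase u, (Ph Q s (Nat.dist u v) - 1) ≤ 2 * t0 * B := by
  have hun : u ≤ n := (mem_Icc.1 (hV hu)).2
  have hsplit : V.erase u = (V.filter fun v => u < v) ∪ (V.filter fun v => v < u) := by
    ext v
    rw [mem_erase, mem_union, mem_filter, mem_filter]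
    constructor
    · rintro ⟨h1, h2⟩
      rcases lt_or_gt_of_ne h1 with h3 | h3
      · exact Or.inr ⟨h2, h3⟩
      · exact Or.inl ⟨h2, h3⟩
    · rintro (⟨h1, h2⟩ | ⟨h1, h2⟩)
      · exact ⟨by omega, h1⟩
      · exact ⟨by omega, h1⟩
  have hdisj : Disjoint (V.filter fun v => u < v) (V.filter fun v => v < u) := by
    rw [disjoint_left]
    intro v hv hv'
    rw [mem_filter] at hv hv'
    omega
  rw [hsplit, sum_union hdisj]
  have hA : ∑ v ∈ V.filter (fun v => u < v), (Ph Q s (Nat.dist u v) - 1) ≤ t0 * B := by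
    refine pr_cls hB (V.filter fun v => u < v) (fun v => Nat.dist u v) co (fun i => cl i + (Q * u - u)) ?_ ?_
    · intro a ha b hb hab
      rw [mem_coe, mem_filter] at ha hb
      simp only [Nat.dist] at hab
      omega
    · intro v hv
      rw [mem_filter] at hv
      obtain ⟨hv1, hv2⟩ := hv
      have hvn := mem_Icc.1 (hV hv1)
      have hd : Nat.dist u v = v - u := by
        rw [Nat.dist_eq_sub_of_le hv2.le]
      rw [hd]
      refine ⟨mem_Icc.2 ⟨by omega, by omega⟩, ?_⟩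
      have hQu : u ≤ Q * u := Nat.le_mul_of_pos_left u hQ
      have h1 : v - u + u ≡ cl (co v) + (Q * u - u) + u [MOD Q] := by
        have e1 : v - u + u = v := by omega
        have e2 : cl (co v) + (Q * u - u) + u = cl (co v) + Q * u := by omega
        rw [e1, e2]
        have h2 : cl (co v) + Q * u ≡ cl (co v) [MOD Q] := by
          simp [Nat.ModEq]
        exact (hco v hv1).trans h2.symm
      exact Nat.ModEq.add_right_cancel' u h1
  have hC : ∑ v ∈ V.filter (fun v => v < u), (Ph Q s (Nat.dist u v) - 1) ≤ t0 * B := by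
    refine pr_cls hB (V.filter fun v => v < u) (fun v => Nat.dist u v) co (fun i => u + (Q * cl i - cl i)) ?_ ?_
    · intro a ha b hb hab
      rw [mem_coe, mem_filter] at ha hb
      simp only [Nat.dist] at hab
      omega
    · intro v hv
      rw [mem_filter] at hv
      obtain ⟨hv1, hv2⟩ := hv
      have hvn := mem_Icc.1 (hV hv1)
      have hd : Nat.dist u v = u - v := by
        rw [Nat.dist_comm, Nat.dist_eq_sub_of_le hv2.le]
      rw [hd]
      refine ⟨mem_Icc.2 ⟨by omega, by omega⟩, ?_⟩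
      have hQu : cl (co v) ≤ Q * cl (co v) := Nat.le_mul_of_pos_left _ hQ
      have h1 : u - v + v ≡ u + (Q * cl (co v) - cl (co v)) + v [MOD Q] := by
        have e1 : u - v + v = u := by omega
        rw [e1]
        have h2 : u + (Q * cl (co v) - cl (co v)) + v ≡ u + (Q * cl (co v) - cl (co v)) + cl (co v) [MOD Q] :=
          Nat.ModEq.add_left _ (hco v hv1)
        have e2 : u + (Q * cl (co v) - cl (co v)) + cl (co v) = u + Q * cl (co v) := by omega
        rw [e2] at h2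
        have h3 : u + Q * cl (co v) ≡ u [MOD Q] := by
          simp [Nat.ModEq]
        exact (h2.trans h3).symm
      exact Nat.ModEq.add_right_cancel' v h1
  linarith

theorem phi_pair (s t0 : ℕ) (th ta : ℝ) (hth : 0 < th) (hta : 0 < ta) : ∃ w0 : ℕ, ∀ Q : ℕ, 0 < Q →
    primorial w0 ∣ Q → ∃ n0 : ℕ, ∀ n : ℕ, n0 ≤ n → ∀ V : Finset ℕ, V ⊆ Icc 1 n →
      ∀ (cl : Fin t0 → ℕ) (co : ℕ → Fin t0), (∀ v ∈ V, v ≡ cl (co v) [MOD Q]) →
      th * n ≤ Q * (V.card : ℝ) →
      ∑ u ∈ V, ∑ v ∈ V.erase u, (Ph Q s (Nat.dist u v) - 1) ≤ ta * (V.card : ℝ) ^ 2 := by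
  obtain ⟨w0, hw0⟩ := phi_sum s (ta * th / (2 * t0 + 1)) (by positivity)
  refine ⟨w0, fun Q hQ hdvd => ?_⟩
  obtain ⟨n0, hn0⟩ := hw0 Q hQ hdvd
  refine ⟨n0, fun n hn V hV cl co hco hcard => ?_⟩
  have hB := hn0 n hn
  have h1 : ∑ u ∈ V, ∑ v ∈ V.erase u, (Ph Q s (Nat.dist u v) - 1) ≤
      ∑ _u ∈ V, 2 * (t0 : ℝ) * (ta * th / (2 * t0 + 1) * n / Q) :=
    sum_le_sum fun u hu => pr_one hQ hB hV hco hu
  refine h1.trans ?_
  rw [sum_const, nsmul_eq_mul]
  have hQr : (0 : ℝ) < Q := by exact_mod_cast hQ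
  have ht0 : (0 : ℝ) ≤ t0 := Nat.cast_nonneg _
  have hv0 : (0 : ℝ) ≤ V.card := Nat.cast_nonneg _
  have h2 : 2 * (t0 : ℝ) * (ta * th / (2 * t0 + 1) * n / Q) ≤ ta * (V.card : ℝ) := by
    have h3 : 2 * (t0 : ℝ) * (ta * th / (2 * t0 + 1) * n / Q) =
        (2 * t0 / (2 * t0 + 1)) * (ta * (th * n / Q)) := by
      field_simp
    rw [h3]
    have h4 : 2 * (t0 : ℝ) / (2 * t0 + 1) ≤ 1 := by
      rw [div_le_one (by positivity)]
      linarith
    have h5 : th * n / Q ≤ V.card := by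
      rw [div_le_iff₀ hQr]
      linarith
    have h6 : 0 ≤ ta * (th * n / Q) := by positivity
    calc (2 * (t0 : ℝ) / (2 * t0 + 1)) * (ta * (th * n / Q)) ≤ 1 * (ta * (th * n / Q)) :=
          mul_le_mul_of_nonneg_right h4 h6
      _ = ta * (th * n / Q) := one_mul _
      _ ≤ ta * (V.card : ℝ) := mul_le_mul_of_nonneg_left h5 hta.le
  calc (V.card : ℝ) * (2 * (t0 : ℝ) * (ta * th / (2 * t0 + 1) * n / Q)) ≤ V.card * (ta * (V.card : ℝ)) :=
        mul_le_mul_of_nonneg_left h2 hv0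
    _ = ta * (V.card : ℝ) ^ 2 := by ring

private theorem pr_zero (Q s : ℕ) : Ph Q s 0 = 1 := by
  unfold Ph
  simp

open Classical in
private theorem pr_fib {I : Type} [Fintype I] (F : Finset (I → ℕ)) (V : Finset ℕ)
    (hF : ∀ y ∈ F, ∀ i, y i ∈ V) {i j : I} (hij : i ≠ j) (u v : ℕ) :
    ((F.filter fun y => (y i, y j) = (u, v)).card : ℝ) ≤ (V.card : ℝ) ^ (Fintype.card I - 2) := by
  have hsub : (F.filter fun y => (y i, y j) = (u, v)) ⊆
      Fintype.piFinset (fun l : I => if l = i then {u} else if l = j then {v} else V) := by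
    intro y hy
    rw [mem_filter, Prod.mk.injEq] at hy
    rw [Fintype.mem_piFinset]
    intro l
    by_cases h1 : l = i
    · rw [if_pos h1, mem_singleton, h1]
      exact hy.2.1
    · rw [if_neg h1]
      by_cases h2 : l = j
      · rw [if_pos h2, mem_singleton, h2]
        exact hy.2.2
      · rw [if_neg h2]
        exact hF y hy.1 l
  have h1 := card_le_card hsub
  rw [Fintype.card_piFinset] at h1
  have h2 : ∏ l : I, (if l = i then ({u} : Finset ℕ) else if l = j then {v} else V).card =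
      V.card ^ (Fintype.card I - 2) := by
    have h3 : ∀ l : I, (if l = i then ({u} : Finset ℕ) else if l = j then {v} else V).card =
        if l ∈ ({i, j} : Finset I) then 1 else V.card := by
      intro l
      by_cases h1 : l = i
      · have hm : l ∈ ({i, j} : Finset I) := by
          rw [mem_insert]
          exact Or.inl h1
        rw [if_pos h1, if_pos hm, card_singleton]
      · rw [if_neg h1]
        by_cases h2 : l = j
        · have hm : l ∈ ({i, j} : Finset I) := by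
            rw [mem_insert, mem_singleton]
            exact Or.inr h2
          rw [if_pos h2, if_pos hm, card_singleton]
        · have hm : l ∉ ({i, j} : Finset I) := by
            rw [mem_insert, mem_singleton]
            rintro (h | h)
            · exact h1 h
            · exact h2 h
          rw [if_neg h2, if_neg hm]
    rw [prod_congr rfl (fun l _ => h3 l), prod_ite, prod_const_one, one_mul, prod_const]
    congr 1
    have h4 : (univ.filter fun l : I => l ∉ ({i, j} : Finset I)) = ({i, j} : Finset I)ᶜ := by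
      ext l
      simp
    rw [h4, card_compl, card_pair hij]
  rw [h2] at h1
  exact_mod_cast h1

open Classical in
private theorem pr_pair {I : Type} [Fintype I] (F : Finset (I → ℕ)) (V : Finset ℕ)
    (hF : ∀ y ∈ F, ∀ i, y i ∈ V) {i j : I} (hij : i ≠ j) (Q s : ℕ) :
    ∑ y ∈ F, (Ph Q s (Nat.dist (y i) (y j)) - 1) ≤
      (V.card : ℝ) ^ (Fintype.card I - 2) * ∑ u ∈ V, ∑ v ∈ V.erase u, (Ph Q s (Nat.dist u v) - 1) := by
  have h1 : ∑ y ∈ F, (Ph Q s (Nat.dist (y i) (y j)) - 1) =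
      ∑ p ∈ V ×ˢ V, ∑ y ∈ F with (y i, y j) = p, (Ph Q s (Nat.dist (y i) (y j)) - 1) := by
    symm
    apply sum_fiberwise_of_maps_to
    intro y hy
    rw [mem_product]
    exact ⟨hF y hy i, hF y hy j⟩
  have h2 : ∑ u ∈ V, ∑ v ∈ V.erase u, (Ph Q s (Nat.dist u v) - 1) =
      ∑ p ∈ V ×ˢ V, (Ph Q s (Nat.dist p.1 p.2) - 1) := by
    rw [sum_product]
    refine sum_congr rfl fun u _ => ?_
    refine sum_erase _ ?_
    rw [Nat.dist_self, pr_zero, sub_self]
  rw [h1, h2, mul_sum]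
  refine sum_le_sum fun p _ => ?_
  obtain ⟨u, v⟩ := p
  have h3 : ∑ y ∈ F with (y i, y j) = (u, v), (Ph Q s (Nat.dist (y i) (y j)) - 1) =
      ∑ y ∈ F with (y i, y j) = (u, v), (Ph Q s (Nat.dist u v) - 1) := by
    refine sum_congr rfl fun y hy => ?_
    rw [mem_filter, Prod.mk.injEq] at hy
    rw [hy.2.1, hy.2.2]
  rw [h3, sum_const, nsmul_eq_mul]
  exact mul_le_mul_of_nonneg_right (pr_fib F V hF hij u v) (sub_nonneg.2 (Ph_one_le _ _ _))

open Classical in
private theorem pr_phI {I : Type} [Fintype I] (Q s : ℕ) (y : I → ℕ) :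
    PhI Q s y = ∏ p ∈ (univ : Finset I).offDiag, Ph Q s (Nat.dist (y p.1) (y p.2)) := by
  have h1 : (univ : Finset I).offDiag = (univ : Finset (I × I)).filter fun p => p.1 ≠ p.2 := by
    ext p
    rw [mem_offDiag, mem_filter]
    constructor
    · rintro ⟨_, _, h⟩
      exact ⟨mem_univ _, h⟩
    · rintro ⟨_, h⟩
      exact ⟨mem_univ _, mem_univ _, h⟩
  rw [h1, prod_filter, Fintype.prod_prod_type]
  unfold PhI
  refine prod_congr rfl fun i _ => prod_congr rfl fun j _ => ?_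
  by_cases h : i = j
  · rw [if_pos h, if_neg (not_not.2 h)]
  · rw [if_neg h, if_pos h]

open Classical in
private theorem pr_amgm {I : Type} [Fintype I] (Q r k : ℕ) (hk : 0 < k)
    (hc : ((univ : Finset I).offDiag).card = k) (y : I → ℕ) :
    PhI Q r y - 1 ≤ 1 / (k : ℝ) * ∑ p ∈ (univ : Finset I).offDiag, (Ph Q (r * k) (Nat.dist (y p.1) (y p.2)) - 1) := by
  have hkr : (0 : ℝ) < k := by exact_mod_cast hk
  have hPh : ∀ h : ℕ, 0 ≤ Ph Q r h := fun h => zero_le_one.trans (Ph_one_le Q r h)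
  have h1 := Real.geom_mean_le_arith_mean_weighted ((univ : Finset I).offDiag) (fun _ => ((k : ℝ)⁻¹))
    (fun p => (Ph Q r (Nat.dist (y p.1) (y p.2))) ^ k) (fun _ _ => by positivity)
    (by rw [sum_const, hc, nsmul_eq_mul, mul_inv_cancel₀ hkr.ne'])
    (fun p _ => pow_nonneg (hPh _) _)
  have h2 : ∏ p ∈ (univ : Finset I).offDiag, ((Ph Q r (Nat.dist (y p.1) (y p.2))) ^ k) ^ ((k : ℝ)⁻¹) =
      PhI Q r y := by
    rw [pr_phI]
    refine prod_congr rfl fun p _ => ?_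
    exact Real.pow_rpow_inv_natCast (hPh _) hk.ne'
  rw [h2] at h1
  have h3 : ∑ p ∈ (univ : Finset I).offDiag, ((k : ℝ)⁻¹ * (Ph Q r (Nat.dist (y p.1) (y p.2))) ^ k) =
      1 / (k : ℝ) * ∑ p ∈ (univ : Finset I).offDiag, (Ph Q (r * k) (Nat.dist (y p.1) (y p.2)) - 1) + 1 := by
    rw [sum_sub_distrib, sum_const, hc, nsmul_eq_mul, mul_one, mul_sub, one_div, inv_mul_cancel₀ hkr.ne', mul_sum]
    rw [sub_add_cancel]
    refine sum_congr rfl fun p _ => ?_
    rw [Ph_pow]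
  rw [h3] at h1
  linarith

theorem phi_tuple (r t0 : ℕ) (th ta : ℝ) (hth : 0 < th) (hta : 0 < ta) : ∃ w0 : ℕ, ∀ Q : ℕ, 0 < Q →
    primorial w0 ∣ Q → ∃ n0 : ℕ, ∀ n : ℕ, n0 ≤ n → ∀ V : Finset ℕ, V ⊆ Icc 1 n →
      ∀ (cl : Fin t0 → ℕ) (co : ℕ → Fin t0), (∀ v ∈ V, v ≡ cl (co v) [MOD Q]) →
      th * n ≤ Q * (V.card : ℝ) →
      ∀ (I : Type) [Fintype I], Fintype.card I = r → ∀ F : Finset (I → ℕ),
        (∀ y ∈ F, Function.Injective y ∧ ∀ i, y i ∈ V) →
        ∑ y ∈ F, (PhI Q r y - 1) ≤ ta * (V.card : ℝ) ^ r := by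
  classical
  obtain ⟨w0, hw0⟩ := phi_pair (r * (r * r - r)) t0 th ta hth hta
  refine ⟨w0, fun Q hQ hdvd => ?_⟩
  obtain ⟨n0, hn0⟩ := hw0 Q hQ hdvd
  refine ⟨n0, fun n hn V hV cl co hco hcard I _ hI F hF => ?_⟩
  have hpair := hn0 n hn V hV cl co hco hcard
  have hc : ((univ : Finset I).offDiag).card = r * r - r := by
    rw [offDiag_card, card_univ, hI]
  have hv0 : (0 : ℝ) ≤ V.card := Nat.cast_nonneg _
  rcases Nat.lt_or_ge r 2 with hr | hr
  · have hc0 : ((univ : Finset I).offDiag).card = 0 := by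
      rw [hc]
      interval_cases r <;> rfl
    have h0 : ∀ y ∈ F, PhI Q r y - 1 = 0 := by
      intro y _
      rw [pr_phI, card_eq_zero.1 hc0, prod_empty, sub_self]
    rw [sum_congr rfl h0, sum_const_zero]
    positivity
  · have hk : 0 < r * r - r := by
      have : r * 2 ≤ r * r := Nat.mul_le_mul_left r hr
      omega
    have hkr : (0 : ℝ) < ((r * r - r : ℕ) : ℝ) := by exact_mod_cast hk
    have h1 : ∑ y ∈ F, (PhI Q r y - 1) ≤ ∑ y ∈ F, (1 / ((r * r - r : ℕ) : ℝ) *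
        ∑ p ∈ (univ : Finset I).offDiag, (Ph Q (r * (r * r - r)) (Nat.dist (y p.1) (y p.2)) - 1)) :=
      sum_le_sum fun y _ => pr_amgm Q r (r * r - r) hk hc y
    refine h1.trans ?_
    rw [← mul_sum, sum_comm]
    have h2 : ∀ p ∈ (univ : Finset I).offDiag,
        ∑ y ∈ F, (Ph Q (r * (r * r - r)) (Nat.dist (y p.1) (y p.2)) - 1) ≤ ta * (V.card : ℝ) ^ r := by
      intro p hp
      rw [mem_offDiag] at hp
      refine (pr_pair F V (fun y hy => (hF y hy).2) hp.2.2 Q _).trans ?_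
      rw [hI]
      calc (V.card : ℝ) ^ (r - 2) * ∑ u ∈ V, ∑ v ∈ V.erase u, (Ph Q (r * (r * r - r)) (Nat.dist u v) - 1) ≤
          (V.card : ℝ) ^ (r - 2) * (ta * (V.card : ℝ) ^ 2) := mul_le_mul_of_nonneg_left hpair (by positivity)
        _ = ta * ((V.card : ℝ) ^ (r - 2) * (V.card : ℝ) ^ 2) := by ring
        _ = ta * (V.card : ℝ) ^ r := by
            rw [← pow_add]
            congr 2
            omega
    have h3 := sum_le_sum h2
    rw [sum_const, hc, nsmul_eq_mul] at h3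
    calc 1 / ((r * r - r : ℕ) : ℝ) * ∑ p ∈ (univ : Finset I).offDiag,
        ∑ y ∈ F, (Ph Q (r * (r * r - r)) (Nat.dist (y p.1) (y p.2)) - 1) ≤
        1 / ((r * r - r : ℕ) : ℝ) * (((r * r - r : ℕ) : ℝ) * (ta * (V.card : ℝ) ^ r)) :=
          mul_le_mul_of_nonneg_left h3 (by positivity)
      _ = ta * (V.card : ℝ) ^ r := by
          field_simp

end Pool.Agent.H99.RO
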