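import Pool.Agent.H99.RO.Fls
import Pool.Agent.H99.RO.PhS
import Pool.Agent.H99.RO.Vq

/-!
[H99 RO RPT]  The `r`-point upper bound.

Proof.  `sandwich r` (`H95/FL/Main.lean`) gives `w0`; `B = 10 r`, `a = 1/(144 r)`, `η = 1/2` (`a (60 r + 12) ≤ 72 r/(144 r) = 1/2`), `P = PQ x a Q` (primes not dividing `Q` are `> w0`; `p < x^a`).
`fls` with `G = 1`, `X = ⌊x⌋₊`, `M = x/Q`, `E1 = 0`, `E2 = 2`, `Y = x^(1/2)`, `d = 2^(-10 r)`, `g p = nu p y/p ≤ 2 r/p`: a class modulo `q0 = Q ∏ S` contains `X/q0 + O(1)` of the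
`N ∈ [1, X]`, and `M/∏ S = x/q0`.
`{N ∈ Om : all N + y i prime} ⊆ {N : Q ∣ N, no p ∈ P divides any N + y i} ∪ {N ≤ x^a}` (if `p ∈ P` divides the prime `N + y i` then `N + y i = p < x^a`).  So the count is
`≤ (1 + 2^(-10)) (x/Q) ∏_{p ∈ P} (1 - nu p y/p) + 2 x^(1/2) + x^a + 1`.
POINTWISE: `1 - nu p y/p ≤ (1 - 1/p)^r ∏_{i ≠ j, p ∣ dist (y i) (y j)} (1 - 1/p)^(-r)`: if `nu = r` Bernoulli (`one_add_mul_le_pow`: `(1 - 1/p)^r ≥ 1 - r/p`); if `nu < r` some pair occurs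
(`nu_eq`), so the right side is `≥ 1`.  Product over `p ∈ P`: `∏ (1 - nu/p) ≤ VQ^r PhI Q r y` (for `i ≠ j` the factors of `Ph Q r (dist)` at the primes not in `P` are `≥ 1`;
`dist (y i) (y j) ≠ 0` by injectivity, so `p ∈ primeFactors` iff `p ∣ dist`).
`VQ ≤ lam/(1.718 a) ≤ 84 r lam` (`vq_up`).  So the main term is `≤ (1 + 2^(-10)) (84 r)^r lam^r PhI (x/Q)`, and `x/Q ≤ |Om| + 2`; the rest is `≤ 4 x^(1/2) ≤` a small part of
`lam^r |Om|` (`lam ≥ 1/log x`); `(85/84)^r ≥ 1 + 1/84 > (1 + 2^(-10))(1 + ..)`, `PhI ≥ 1`.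
-/

namespace Pool.Agent.H99.RO

open Finset

private theorem rpt_cnt (X q r : ℕ) (hq : 0 < q) (hr : r < q) :
    |(((Icc 1 X).filter (fun N => N % q = r)).card : ℝ) - X / q| ≤ 1 := by
  have h1 : (Icc 1 X).filter (fun N => N % q = r) = (Ioc 0 X).filter (fun N => N ≡ r [MOD q]) := by
    ext N
    rw [mem_filter, mem_filter, mem_Icc, mem_Ioc, Nat.ModEq, Nat.mod_eq_of_lt hr]
    constructor
    · rintro ⟨h, h'⟩
      exact ⟨⟨by omega, h.2⟩, h'⟩
    · rintro ⟨h, h'⟩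
      exact ⟨⟨by omega, h.2⟩, h'⟩
  have h2 := Nat.Ioc_filter_modEq_card 0 X hq r
  rw [← h1] at h2
  obtain ⟨n, hn⟩ : ∃ n, n = ((Icc 1 X).filter (fun N => N % q = r)).card := ⟨_, rfl⟩
  rw [← hn] at h2 ⊢
  have hqQ : (0 : ℚ) < q := by exact_mod_cast hq
  obtain ⟨u, hu⟩ : ∃ u : ℤ, u = ⌊((X : ℚ) - r) / q⌋ := ⟨_, rfl⟩
  obtain ⟨v, hv⟩ : ∃ v : ℤ, v = ⌊(((0 : ℕ) : ℚ) - r) / q⌋ := ⟨_, rfl⟩
  rw [← hu, ← hv] at h2
  have h3 : (u : ℚ) ≤ ((X : ℚ) - r) / q := by rw [hu]; exact Int.floor_le _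
  have h4 : ((X : ℚ) - r) / q < u + 1 := by rw [hu]; exact Int.lt_floor_add_one _
  have h5 : (v : ℚ) ≤ (((0 : ℕ) : ℚ) - r) / q := by rw [hv]; exact Int.floor_le _
  have h6 : (((0 : ℕ) : ℚ) - r) / q < v + 1 := by rw [hv]; exact Int.lt_floor_add_one _
  have h7 : ((X : ℚ) - r) / q - (((0 : ℕ) : ℚ) - r) / q = X / q := by
    rw [← sub_div]
    congr 1
    push_cast
    ring
  have h8 : (0 : ℚ) ≤ X / q := by positivity
  have h9 : v ≤ u := by
    have h10 : (v : ℚ) < u + 1 := by linarith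
    have h11 : v < u + 1 := by exact_mod_cast h10
    omega
  have h10 : (n : ℤ) = u - v := by omega
  have h11 : (n : ℚ) = u - v := by exact_mod_cast h10
  have h12 : |(n : ℚ) - X / q| ≤ 1 := by
    rw [abs_le]
    constructor <;> linarith
  have h13 : ((|(n : ℚ) - X / q| : ℚ) : ℝ) ≤ ((1 : ℚ) : ℝ) := by exact_mod_cast h12
  push_cast at h13
  exact h13

private theorem one_le_prod_real {ι : Type*} (s : Finset ι) (f : ι → ℝ) (h : ∀ i ∈ s, 1 ≤ f i) :
    1 ≤ ∏ i ∈ s, f i := by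
  calc (1 : ℝ) = ∏ i ∈ s, (1 : ℝ) := by simp
    _ ≤ ∏ i ∈ s, f i := prod_le_prod (fun _ _ => by norm_num) h

private theorem le_prod_real {ι : Type*} [DecidableEq ι] (s : Finset ι) (f : ι → ℝ)
    (h : ∀ i ∈ s, 1 ≤ f i) (i : ι) (hi : i ∈ s) : f i ≤ ∏ j ∈ s, f j := by
  rw [← mul_prod_erase s f hi]
  have h1 := one_le_prod_real (s.erase i) f (fun j hj => h j (mem_of_mem_erase hj))
  have h2 := h i hi
  nlinarith

private theorem prod_sub_real {ι : Type*} [DecidableEq ι] (s t : Finset ι) (f : ι → ℝ) (hst : s ⊆ t)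
    (h : ∀ i ∈ t, 1 ≤ f i) : ∏ i ∈ s, f i ≤ ∏ i ∈ t, f i := by
  rw [← prod_sdiff hst]
  have h1 := one_le_prod_real (t \ s) f (fun j hj => h j (mem_sdiff.1 hj).1)
  have h2 := one_le_prod_real s f (fun j hj => h j (hst hj))
  nlinarith

open Classical in
/-- the local factor of a pair -/
private noncomputable def gp {I : Type} (p r : ℕ) (y : I → ℕ) (i j : I) : ℝ :=
  if i = j then 1 else if p ∣ Nat.dist (y i) (y j) then ((1 - 1 / (p : ℝ))⁻¹) ^ r else 1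

private theorem inv_ge (p : ℕ) (hp : 2 ≤ p) : 1 ≤ (1 - 1 / (p : ℝ))⁻¹ ∧ 0 < 1 - 1 / (p : ℝ) := by
  have hp' : (2 : ℝ) ≤ p := by exact_mod_cast hp
  have h1 : 1 / (p : ℝ) ≤ 1 / 2 := one_div_le_one_div_of_le (by norm_num) hp'
  have h2 : 0 < 1 / (p : ℝ) := by positivity
  have h3 : 0 < 1 - 1 / (p : ℝ) := by linarith
  refine ⟨?_, h3⟩
  rw [one_le_inv₀ h3]
  linarith

private theorem gp_ge {I : Type} (p r : ℕ) (hp : 2 ≤ p) (y : I → ℕ) (i j : I) : 1 ≤ gp p r y i j := by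
  unfold gp
  split_ifs
  · exact le_rfl
  · exact one_le_pow₀ (inv_ge p hp).1
  · exact le_rfl

private theorem nu_factor {I : Type} [Fintype I] (p r : ℕ) (hp : 2 ≤ p) (hI : Fintype.card I = r)
    (y : I → ℕ) :
    1 - (nu p y : ℝ) / p ≤ (1 - 1 / (p : ℝ)) ^ r * ∏ i, ∏ j, gp p r y i j := by
  classical
  have hp0 : (0 : ℝ) < p := by
    have : 0 < p := by omega
    exact_mod_cast this
  obtain ⟨hinv, hpos⟩ := inv_ge p hp
  have hG : ∀ i, 1 ≤ ∏ j, gp p r y i j := fun i => one_le_prod_real _ _ fun j _ => gp_ge p r hp y i j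
  have hGG : 1 ≤ ∏ i, ∏ j, gp p r y i j := one_le_prod_real _ _ fun i _ => hG i
  by_cases h : nu p y = Fintype.card I
  · have h1 : 1 - (r : ℝ) / p ≤ (1 - 1 / (p : ℝ)) ^ r := by
      have h2 := one_add_mul_le_pow (a := -(1 / (p : ℝ))) (by
        have : 1 / (p : ℝ) ≤ 1 := by
          rw [div_le_one hp0]
          exact_mod_cast (by omega : 1 ≤ p)
        linarith) r
      have h3 : 1 + (r : ℝ) * -(1 / (p : ℝ)) = 1 - (r : ℝ) / p := by ring
      have h4 : 1 + -(1 / (p : ℝ)) = 1 - 1 / (p : ℝ) := by ring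
      rw [h3, h4] at h2
      exact h2
    rw [h, hI]
    have h2 : 0 < (1 - 1 / (p : ℝ)) ^ r := pow_pos hpos r
    nlinarith
  · have h1 : nu p y < Fintype.card I := lt_of_le_of_ne (nu_le p y) h
    obtain ⟨i, j, hij, hd⟩ := nu_eq p y h1
    have h2 : gp p r y i j = ((1 - 1 / (p : ℝ))⁻¹) ^ r := by
      unfold gp
      rw [if_neg hij, if_pos hd]
    have h3 : gp p r y i j ≤ ∏ j, gp p r y i j :=
      le_prod_real univ (fun j => gp p r y i j) (fun j _ => gp_ge p r hp y i j) j (mem_univ _)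
    have h4 : ∏ j, gp p r y i j ≤ ∏ i, ∏ j, gp p r y i j :=
      le_prod_real univ (fun i => ∏ j, gp p r y i j) (fun i _ => hG i) i (mem_univ _)
    have h5 : (1 - 1 / (p : ℝ)) ^ r * ((1 - 1 / (p : ℝ))⁻¹) ^ r = 1 := by
      rw [← mul_pow, mul_inv_cancel₀ hpos.ne', one_pow]
    have h6 : 0 < (1 - 1 / (p : ℝ)) ^ r := pow_pos hpos r
    have h7 : (0 : ℝ) ≤ (nu p y : ℝ) / p := by positivity
    have h9 : (1 - 1 / (p : ℝ)) ^ r * gp p r y i j ≤
        (1 - 1 / (p : ℝ)) ^ r * ∏ i, ∏ j, gp p r y i j :=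
      mul_le_mul_of_nonneg_left (h3.trans h4) h6.le
    have h8 : 1 ≤ (1 - 1 / (p : ℝ)) ^ r * ∏ i, ∏ j, gp p r y i j := by
      rw [h2, h5] at h9
      exact h9
    linarith

private theorem prod_nu {I : Type} [Fintype I] (r Q : ℕ) (hI : Fintype.card I = r) (x a : ℝ)
    (y : I → ℕ) (hy : Function.Injective y) :
    ∏ p ∈ PQ x a Q, (1 - (nu p y : ℝ) / p) ≤ VQ x a Q ^ r * PhI Q r y := by
  classical
  have hP : ∀ p ∈ PQ x a Q, p.Prime ∧ ¬ p ∣ Q := by
    intro p hp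
    unfold PQ at hp
    rw [mem_filter] at hp
    exact hp.2
  have h1 : ∏ p ∈ PQ x a Q, (1 - (nu p y : ℝ) / p) ≤
      ∏ p ∈ PQ x a Q, ((1 - 1 / (p : ℝ)) ^ r * ∏ i, ∏ j, gp p r y i j) := by
    apply prod_le_prod
    · intro p hp
      have h2 := nu_le' p (hP p hp).1.pos y
      have h3 : (0 : ℝ) < p := by exact_mod_cast (hP p hp).1.pos
      have h4 : (nu p y : ℝ) ≤ p := by exact_mod_cast h2
      have h5 : (nu p y : ℝ) / p ≤ 1 := by
        rw [div_le_one h3]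
        exact h4
      linarith
    · intro p hp
      exact nu_factor p r (hP p hp).1.two_le hI y
  refine h1.trans ?_
  rw [prod_mul_distrib, prod_pow]
  have hV : 0 ≤ VQ x a Q ^ r := by
    apply pow_nonneg
    unfold VQ
    exact prod_nonneg fun p hp => (inv_ge p (hP p hp).1.two_le).2.le
  show VQ x a Q ^ r * _ ≤ _
  apply mul_le_mul_of_nonneg_left _ hV
  rw [prod_comm]
  unfold PhI
  apply prod_le_prod
  · intro i _
    exact prod_nonneg fun p hp => prod_nonneg fun j _ =>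
      le_trans zero_le_one (gp_ge p r (hP p hp).1.two_le y i j)
  · intro i _
    rw [prod_comm]
    apply prod_le_prod
    · intro j _
      exact prod_nonneg fun p hp => le_trans zero_le_one (gp_ge p r (hP p hp).1.two_le y i j)
    · intro j _
      by_cases hij : i = j
      · rw [if_pos hij]
        have h2 : ∀ p ∈ PQ x a Q, gp p r y i j = 1 := by
          intro p _
          unfold gp
          rw [if_pos hij]
        rw [prod_congr rfl h2, prod_const_one]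
      · rw [if_neg hij]
        have h2 : ∏ p ∈ PQ x a Q, gp p r y i j =
            ∏ p ∈ (PQ x a Q).filter (fun p => p ∣ Nat.dist (y i) (y j)),
              ((1 - 1 / (p : ℝ))⁻¹) ^ r := by
          rw [prod_filter]
          refine prod_congr rfl fun p _ => ?_
          unfold gp
          rw [if_neg hij]
        rw [h2]
        unfold Ph
        apply prod_sub_real
        · intro p hp
          rw [mem_filter] at hp
          rw [mem_filter, Nat.mem_primeFactors]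
          refine ⟨⟨(hP p hp.1).1, hp.2, ?_⟩, (hP p hp.1).2⟩
          intro h0
          exact hij (hy (Nat.eq_of_dist_eq_zero h0))
        · intro p hp
          rw [mem_filter, Nat.mem_primeFactors] at hp
          exact one_le_pow₀ (inv_ge p hp.1.1.two_le).1

private theorem rpt_asy (r Q : ℕ) (hQ : 0 < Q) : ∀ᶠ x : ℝ in Filter.atTop,
    60 * Real.sqrt x * (Real.log x) ^ r ≤ x / Q - 2 ∧ 40 ≤ x / Q - 2 ∧ 1 ≤ Real.log x ∧ 1 ≤ x := by
  have hQ0 : (0 : ℝ) < Q := by exact_mod_cast hQ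
  have h3 : ∀ᶠ x : ℝ in Filter.atTop, ‖(Real.log x) ^ (r : ℝ)‖ ≤ 1 / (120 * Q) * ‖x ^ ((1 : ℝ) / 2)‖ :=
    (isLittleO_log_rpow_rpow_atTop (r : ℝ) (by norm_num : (0 : ℝ) < 1 / 2)).def (by positivity)
  filter_upwards [h3, Filter.eventually_ge_atTop (84 * (Q : ℝ)), Filter.eventually_ge_atTop (3 : ℝ)] with x
    hx1 hx2 hx3
  have hx0 : 0 < x := by linarith
  have hl : 1 ≤ Real.log x := by
    rw [Real.le_log_iff_exp_le hx0]
    linarith [Real.exp_one_lt_d9]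
  have h4 : 84 ≤ x / Q := by
    rw [le_div_iff₀ hQ0]
    exact hx2
  rw [Real.norm_of_nonneg (Real.rpow_nonneg (by linarith) _),
    Real.norm_of_nonneg (Real.rpow_nonneg hx0.le _), ← Real.sqrt_eq_rpow, Real.rpow_natCast] at hx1
  refine ⟨?_, by linarith, hl, by linarith⟩
  have h5 : Real.sqrt x * Real.sqrt x = x := Real.mul_self_sqrt hx0.le
  have h6 : 60 * Real.sqrt x * (Real.log x) ^ r ≤ x / Q / 2 := by
    have h7 : Real.sqrt x * (Real.log x) ^ r ≤ Real.sqrt x * (1 / (120 * Q) * Real.sqrt x) :=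
      mul_le_mul_of_nonneg_left hx1 (Real.sqrt_nonneg _)
    have h8 : Real.sqrt x * (1 / (120 * Q) * Real.sqrt x) = x / (120 * Q) := by
      rw [mul_left_comm, h5]
      ring
    have h9 : x / Q / 2 = 60 * (x / (120 * Q)) := by
      field_simp
      norm_num
    rw [h9]
    linarith
  linarith

open Classical in
theorem rpt (r : ℕ) (hr : 1 ≤ r) : ∃ w0 : ℕ, ∀ Q : ℕ, 0 < Q → primorial w0 ∣ Q → ∃ x0 : ℝ, ∀ x : ℝ,
    x0 ≤ x → ∀ (I : Type) [Fintype I], Fintype.card I = r → ∀ y : I → ℕ, Function.Injective y →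
      (∀ i, (y i : ℝ) ≤ x ^ (1 / 10 : ℝ)) → (∀ i, Nat.Coprime (y i) Q) →
      (((Om x Q).filter fun N => ∀ i, (N + y i).Prime).card : ℝ) ≤
        (100 * r : ℝ) ^ r * lam x Q ^ r * PhI Q r y * (Om x Q).card := by
  obtain ⟨w0, hw0, hsand⟩ := Pool.Agent.H95.FL.sandwich r hr
  refine ⟨w0, fun Q hQ hprim => ?_⟩
  have hrR : (1 : ℝ) ≤ r := by exact_mod_cast hr
  obtain ⟨a, ha⟩ : ∃ a : ℝ, a = 1 / (144 * r) := ⟨_, rfl⟩
  have ha0 : 0 < a := by rw [ha]; positivity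
  have ha1 : a ≤ 1 / 2 := by
    rw [ha]
    apply one_div_le_one_div_of_le (by norm_num)
    linarith
  have haB : a * (6 * ((10 * r : ℕ) : ℝ) + 12) ≤ 1 / 2 := by
    rw [ha]
    push_cast
    rw [div_mul_eq_mul_div, one_mul, div_le_iff₀ (by positivity)]
    linarith
  obtain ⟨x1, hx1, hs⟩ := hsand (10 * r) (1 / 2) a le_rfl ha0 (by linarith) haB
  have hev := (vq_up Q hQ a ha0).and (rpt_asy r Q hQ)
  obtain ⟨x2, hx2⟩ := Filter.eventually_atTop.1 hev
  refine ⟨max x1 x2, fun x hx I _ hI y hy _ _ => ?_⟩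
  obtain ⟨⟨hVpos, hVup⟩, has1, has2, hlog, hx1'⟩ := hx2 x ((le_max_right _ _).trans hx)
  have hx0 : 0 < x := by linarith
  have hQ0 : (0 : ℝ) < Q := by exact_mod_cast hQ
  have hP : ∀ p ∈ PQ x a Q, p.Prime ∧ ¬ p ∣ Q ∧ (p : ℝ) < x ^ a := by
    intro p hp
    unfold PQ at hp
    rw [mem_filter, mem_range, Nat.lt_ceil] at hp
    exact ⟨hp.2.1, hp.2.2, hp.1⟩
  have hPw : ∀ p ∈ PQ x a Q, p.Prime ∧ w0 < p ∧ (p : ℝ) ≤ x ^ a := by
    intro p hp
    obtain ⟨h1, h2, h3⟩ := hP p hp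
    refine ⟨h1, ?_, h3.le⟩
    by_contra h4
    exact h2 (((Nat.Prime.dvd_primorial_iff h1).2 (not_lt.1 h4)).trans hprim)
  obtain ⟨fl, fu, hF⟩ := hs x ((le_max_left _ _).trans hx) (PQ x a Q) hPw
  have hS := hF (fun p => (nu p y : ℝ) / p) (by
    intro p hp
    have hp0 : (0 : ℝ) < p := by exact_mod_cast (hP p hp).1.pos
    refine ⟨by positivity, ?_⟩
    apply div_le_div_of_nonneg_right _ hp0.le
    have h1 : (nu p y : ℝ) ≤ r := by
      rw [← hI]
      exact_mod_cast nu_le p y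
    linarith)
  have hfl := (fls r Q ⌊x⌋₊ hQ (PQ x a Q) (fun p hp => ⟨(hP p hp).1, (hP p hp).2.1⟩) hI y (fun _ => 1)
    (fun _ => zero_le_one) (x / Q) 0 2 (x ^ ((1 : ℝ) / 2)) ((1 / 2) ^ (10 * r)) (by positivity) le_rfl
    (by norm_num) fl fu hS (by
      intro S hSP _ r' hr' _
      obtain ⟨q, hq⟩ : ∃ q, q = Q * ∏ p ∈ S, p := ⟨_, rfl⟩
      rw [← hq] at hr' ⊢
      have hq0 : 0 < q := by omega
      have hqR : (0 : ℝ) < q := by exact_mod_cast hq0
      have h1 := rpt_cnt ⌊x⌋₊ q r' hq0 hr'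
      have h2 : x / Q / ∏ p ∈ S, (p : ℝ) = x / q := by
        rw [div_div, hq]
        push_cast
        rfl
      rw [sum_const, nsmul_eq_mul, mul_one, h2]
      have h3 : |(⌊x⌋₊ : ℝ) / q - x / q| ≤ 1 := by
        rw [← sub_div, abs_div, abs_of_pos hqR, div_le_one hqR]
        have h4 := Nat.floor_le hx0.le
        have h5 := Nat.lt_floor_add_one x
        have h6 : (1 : ℝ) ≤ q := by exact_mod_cast hq0
        rw [abs_le]
        constructor <;> linarith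
      calc |(((Icc 1 ⌊x⌋₊).filter (fun N => N % q = r')).card : ℝ) - x / q|
          = |((((Icc 1 ⌊x⌋₊).filter (fun N => N % q = r')).card : ℝ) - (⌊x⌋₊ : ℝ) / q) +
            ((⌊x⌋₊ : ℝ) / q - x / q)| := by
              congr 1
              ring
        _ ≤ 1 + 1 := (abs_add_le _ _).trans (add_le_add h1 h3)
        _ = 0 / (∏ p ∈ S, (p : ℝ)) + 2 := by
              rw [zero_div]
              norm_num)).1
  obtain ⟨A, hA, hAc⟩ : ∃ A : Finset ℕ, (∀ N, N ∈ A ↔ N ∈ Icc 1 ⌊x⌋₊ ∧ Q ∣ N ∧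
      ∀ p ∈ PQ x a Q, ∀ i, ¬ p ∣ N + y i) ∧ (A.card : ℝ) ≤
      (1 + (1 / 2) ^ (10 * r)) * (x / Q) * ∏ p ∈ PQ x a Q, (1 - (nu p y : ℝ) / p) +
          (0 * ∏ p ∈ PQ x a Q, (1 + (r : ℝ) / p) + 2 * x ^ ((1 : ℝ) / 2)) := by
    rw [sum_const, nsmul_eq_mul, mul_one] at hfl
    exact ⟨_, fun N => mem_filter, hfl⟩
  -- the set of prime tuples
  have hsub : ((Om x Q).filter fun N => ∀ i, (N + y i).Prime) ⊆ A ∪ range (⌊x ^ a⌋₊ + 1) := by
    intro N hN
    rw [mem_filter] at hN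
    unfold Om at hN
    rw [mem_filter] at hN
    rw [mem_union]
    by_cases h1 : ∀ p ∈ PQ x a Q, ∀ i, ¬ p ∣ N + y i
    · left
      exact (hA N).2 ⟨hN.1.1, hN.1.2, h1⟩
    · right
      simp only [not_forall, not_not] at h1
      obtain ⟨p, hp, i, hpi⟩ := h1
      have h2 : p = N + y i := ((Nat.prime_dvd_prime_iff_eq (hP p hp).1 (hN.2 i)).1 hpi)
      rw [mem_range, Nat.lt_succ_iff]
      apply Nat.le_floor
      have h3 : (N : ℝ) ≤ p := by
        have : N ≤ p := by omega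
        exact_mod_cast this
      exact h3.trans (hP p hp).2.2.le
  have hcard : (((Om x Q).filter fun N => ∀ i, (N + y i).Prime).card : ℝ) ≤ A.card + (x ^ a + 1) := by
    have h1 := (card_le_card hsub).trans (card_union_le _ _)
    rw [card_range] at h1
    have h2 : (((Om x Q).filter fun N => ∀ i, (N + y i).Prime).card : ℝ) ≤
        A.card + ((⌊x ^ a⌋₊ : ℝ) + 1) := by exact_mod_cast h1
    have h3 := Nat.floor_le (Real.rpow_nonneg hx0.le a)
    linarith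
  refine hcard.trans ?_
  have hprod := prod_nu r Q hI x a y hy
  obtain ⟨om1, om2⟩ := om_card x hx1' Q hQ
  obtain ⟨Pn, hPn⟩ : ∃ P, P = ∏ p ∈ PQ x a Q, (1 - (nu p y : ℝ) / p) := ⟨_, rfl⟩
  obtain ⟨F, hFF⟩ : ∃ F, F = PhI Q r y := ⟨_, rfl⟩
  obtain ⟨l, hll⟩ : ∃ l, l = lam x Q := ⟨_, rfl⟩
  obtain ⟨O, hO⟩ : ∃ O : ℝ, O = ((Om x Q).card : ℝ) := ⟨_, rfl⟩
  rw [← hPn] at hprod hAc
  rw [← hFF] at hprod ⊢
  rw [← hll] at hVup ⊢
  rw [← hO] at om1 om2 ⊢
  have hF1 : 1 ≤ F := by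
    rw [hFF]
    unfold PhI
    apply one_le_prod_real
    intro i _
    apply one_le_prod_real
    intro j _
    split_ifs
    · exact le_rfl
    · exact Ph_one_le _ _ _
  have hlow : 1 / Real.log x ≤ l := by
    rw [hll]
    unfold lam
    have ht : (0 : ℝ) < Q.totient := by exact_mod_cast Nat.totient_pos.2 hQ
    have ht2 : (Q.totient : ℝ) ≤ Q := by exact_mod_cast Nat.totient_le Q
    rw [div_le_div_iff₀ (by linarith) (by positivity), one_mul]
    exact mul_le_mul_of_nonneg_right ht2 (by linarith)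
  have hl0 : 0 < l := lt_of_lt_of_le (by positivity) hlow
  have hV84 : VQ x a Q ^ r ≤ (84 * r) ^ r * l ^ r := by
    rw [← mul_pow]
    apply pow_le_pow_left₀ hVpos.le
    refine hVup.trans ?_
    rw [ha, div_le_iff₀ (by positivity)]
    have h1 : 84 * (r : ℝ) * l * (1718 / 1000 * (1 / (144 * r))) = 84 * 1718 / 144000 * l := by
      field_simp
      norm_num
    rw [h1]
    nlinarith
  obtain ⟨T, hT⟩ : ∃ T, T = (100 * (r : ℝ)) ^ r * l ^ r * F := ⟨_, rfl⟩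
  have hlr : 0 < l ^ r := pow_pos hl0 r
  have hT1 : l ^ r ≤ T := by
    have h1 : 1 ≤ (100 * (r : ℝ)) ^ r := one_le_pow₀ (by linarith)
    have h2 : 1 * l ^ r ≤ (100 * (r : ℝ)) ^ r * l ^ r := mul_le_mul_of_nonneg_right h1 hlr.le
    rw [hT]
    nlinarith
  have hT0 : 0 < T := lt_of_lt_of_le hlr hT1
  have h84 : (84 * (r : ℝ)) ^ r * l ^ r * F ≤ 84 / 100 * T := by
    have h1 : (84 * (r : ℝ)) ^ r = (84 / 100) ^ r * (100 * r) ^ r := by
      rw [← mul_pow]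
      congr 1
      ring
    have h2 : ((84 : ℝ) / 100) ^ r ≤ 84 / 100 := by
      calc ((84 : ℝ) / 100) ^ r ≤ (84 / 100) ^ 1 :=
            pow_le_pow_of_le_one (by norm_num) (by norm_num) hr
        _ = 84 / 100 := pow_one _
    have h3 : (84 * (r : ℝ)) ^ r * l ^ r * F = (84 / 100) ^ r * T := by
      rw [h1, hT]
      ring
    rw [h3]
    exact mul_le_mul_of_nonneg_right h2 hT0.le
  have hPi : Pn ≤ 84 / 100 * T := by
    refine hprod.trans (le_trans ?_ h84)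
    exact mul_le_mul_of_nonneg_right hV84 (by linarith)
  have hd : ((1 : ℝ) / 2) ^ (10 * r) ≤ 1 / 1024 := by
    calc ((1 : ℝ) / 2) ^ (10 * r) ≤ (1 / 2) ^ 10 :=
          pow_le_pow_of_le_one (by norm_num) (by norm_num) (by omega)
      _ = 1 / 1024 := by norm_num
  have hd0 : (0 : ℝ) ≤ (1 / 2) ^ (10 * r) := by positivity
  have hmain : (1 + ((1 : ℝ) / 2) ^ (10 * r)) * (x / Q) * Pn ≤ 841 / 1000 * T * (O + 2) := by
    have h1 : (1 + ((1 : ℝ) / 2) ^ (10 * r)) * (x / Q) ≤ (1025 / 1024) * (O + 2) :=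
      mul_le_mul (by linarith) (by linarith) (by positivity) (by norm_num)
    have h2 : (1 + ((1 : ℝ) / 2) ^ (10 * r)) * (x / Q) * Pn ≤
        (1 + ((1 : ℝ) / 2) ^ (10 * r)) * (x / Q) * (84 / 100 * T) :=
      mul_le_mul_of_nonneg_left hPi (by positivity)
    have h3 : (1 + ((1 : ℝ) / 2) ^ (10 * r)) * (x / Q) * (84 / 100 * T) ≤
        (1025 / 1024) * (O + 2) * (84 / 100 * T) :=
      mul_le_mul_of_nonneg_right h1 (by positivity)
    have h4 : 0 ≤ T * (O + 2) := mul_nonneg hT0.le (by linarith)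
    have h5 : (1025 / 1024) * (O + 2) * (84 / 100 * T) = 1025 * 84 / 102400 * (T * (O + 2)) := by ring
    have h6 : 841 / 1000 * T * (O + 2) = 841 / 1000 * (T * (O + 2)) := by ring
    rw [h6]
    linarith
  have hsq : x ^ ((1 : ℝ) / 2) = Real.sqrt x := (Real.sqrt_eq_rpow x).symm
  have hxa : x ^ a ≤ Real.sqrt x := by
    rw [← hsq]
    exact Real.rpow_le_rpow_of_exponent_le hx1' ha1
  have hs1 : 1 ≤ Real.sqrt x := by
    rw [Real.one_le_sqrt]
    exact hx1'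
  have hTO : 60 * Real.sqrt x ≤ T * O := by
    have h1 : (1 / Real.log x) ^ r ≤ T := (pow_le_pow_left₀ (by positivity) hlow r).trans hT1
    have h2 : 60 * Real.sqrt x * (Real.log x) ^ r ≤ O := has1.trans om1
    have h3 : (1 / Real.log x) ^ r * (60 * Real.sqrt x * (Real.log x) ^ r) = 60 * Real.sqrt x := by
      rw [one_div, inv_pow]
      field_simp
    rw [← h3]
    exact mul_le_mul h1 h2 (by positivity) hT0.le
  have hO40 : 40 ≤ O := has2.trans om1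
  rw [hsq] at hAc
  have hfin : A.card + (x ^ a + 1) ≤ T * O := by
    have h1 : T * 40 ≤ T * O := mul_le_mul_of_nonneg_left hO40 hT0.le
    have h2 : 841 / 1000 * T * (O + 2) = 841 / 1000 * (T * O) + 1682 / 1000 * T := by ring
    rw [zero_mul] at hAc
    linarith
  rw [← hT]
  exact hfin

end Pool.Agent.H99.RO
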