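import Pool.Agent.H99.RO.Conc
import Pool.Agent.H99.RO.PhR
import Pool.Agent.H99.RO.Rpt
import Pool.Agent.H99.RO.Fst
import Pool.Agent.H99.RO.Abs

/-!
[H99 RO PC]  The clique theorem for the primes.

Proof.  `clique_abs m al (50/13) 100 e t0` gives `R, c, de, ta, C0`.  `conc ta` gives `w1, tb, C1, c1`.  `rpt R` gives `w2`.  `phi_pair 1 t0 th (de^2 tb)` gives `w3`,
`phi_tuple R t0 th ta` gives `w4`.  `q = primorial (max of the w's)` (`primorial` is monotone for divisibility: `primorial_dvd_primorial`-like; or take the product of the four primorials, positive).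
Given `Q`: `C` with `C th/φ(Q) ≥ max C0 (C1/de)` and `C ≥ 1`, `c' = min c1 (1/10)`, `x0` large (also `C log x ≥ n0` of `phi_pair`, `phi_tuple`).
`V` nonempty finset of sites: apply `clique_abs` to the type `↥V`, `W N v := N + v ∈ A`, `lam x Q`, `Om x Q`.  `Hyp`:
* `size`: `lam |V| ≥ (Q/(φ(Q) log x)) th n/Q ≥ th C/φ(Q) ≥ C0`.  `om`, `lam_pos`: `x` large.
* `h1`: the hypothesis.
* `h2`: `U ⊆ ↥V` with `|U| ≥ de |V|`; `U' = U.map (Embedding.subtype)`.  `occ ≤ #{u ∈ U' : N + u prime}` (elements of `A` are primes).  `conc` for `U'`: `lam |U'| ≥ de lam |V| ≥ C1`; the pair sum over `U'` is at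
  most that over `V` (all terms `Ph - 1 ≥ 0`) `≤ de^2 tb |V|^2 ≤ tb |U'|^2`.
* `h3`: for injective `x : I → ↥V`, `hit ≤ #{N : all N + x i prime} ≤ (100 R)^R lam^R PhI Q R x |Om|` (`rpt`; `R ≥ 1`), and `∑_{x ∈ F} PhI = |F| + ∑ (PhI - 1) ≤ |F| + ta |V|^R` (`phi_tuple`).
Colours: `c0 : ↥V → Fin t0 := fun v => co v`.  The result `S' : ℕ → Finset ↥V` gives `S N = (S' N).map (Embedding.subtype _)`; sums and tuples transport along the embedding
(`x ∈ piFinset (S N)` comes from a unique tuple of `S' N`).  Popularity: `Pop Om W lam c x ↔ c lam^m |Om| ≤ #{N' ∈ Om : ∀ i, N' + x i ∈ A}` by definition (`hit`).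
If `V` is empty: excluded, since `th n > 0`.
-/

namespace Pool.Agent.H99.RO

open Finset

open Classical in
/-- `x` is popular for `A`: at least `c lam^m |Om|` of the `N ∈ Om` have all `N + x i ∈ A` -/
def PopA {m : ℕ} (x : ℝ) (Q : ℕ) (A : Finset ℕ) (c : ℝ) (y : Fin m → ℕ) : Prop :=
  c * lam x Q ^ m * (Om x Q).card ≤ (((Om x Q).filter fun N => ∀ i, N + y i ∈ A).card : ℝ)

private theorem pc_prim {w w' : ℕ} (h : w ≤ w') : primorial w ∣ primorial w' := by
  unfold primorial
  refine Finset.prod_dvd_prod_of_subset _ _ _ ?_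
  intro p hp
  rw [mem_filter, mem_range] at hp ⊢
  exact ⟨by omega, hp.2⟩

private theorem pc_ph (Q s h : ℕ) : 1 ≤ Ph Q s h := by
  unfold Ph
  refine Finset.prod_induction _ (fun t : ℝ => 1 ≤ t)
    (fun a b ha hb => one_le_mul_of_one_le_of_one_le ha hb) le_rfl fun p hp => ?_
  rw [mem_filter, Nat.mem_primeFactors] at hp
  refine one_le_pow₀ ?_
  have hp2 : (2 : ℝ) ≤ p := by exact_mod_cast hp.1.1.two_le
  have h1 : (1 : ℝ) / p ≤ 1 / 2 := one_div_le_one_div_of_le (by norm_num) hp2
  have h2 : (0 : ℝ) < 1 / p := by positivity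
  rw [one_le_inv_iff₀]
  constructor <;> linarith

open Classical in
theorem prime_clique (m : ℕ) (hm : 1 ≤ m) (al e th : ℝ) (hal : 0 < al) (hal1 : al ≤ 1) (he : 0 < e)
    (hth : 0 < th) (t0 : ℕ) : ∃ q : ℕ, 0 < q ∧ ∀ Q : ℕ, 0 < Q → q ∣ Q → ∃ c C c' x0 : ℝ, 0 < c ∧ 0 < C ∧
    0 < c' ∧ ∀ x : ℝ, x0 ≤ x → ∀ n : ℕ, C * Real.log x ≤ n → (n : ℝ) ≤ x ^ c' →
      ∀ V : Finset ℕ, (∀ v ∈ V, 1 ≤ v ∧ v ≤ n ∧ Nat.Coprime v Q) →
      ∀ (cl : Fin t0 → ℕ) (co : ℕ → Fin t0), (∀ v ∈ V, v ≡ cl (co v) [MOD Q]) →
      th * n ≤ Q * (V.card : ℝ) → ∀ A : Finset ℕ, (∀ p ∈ A, p.Prime) →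
      (∀ v ∈ V, al * lam x Q * (Om x Q).card ≤ (((Om x Q).filter fun N => N + v ∈ A).card : ℝ)) →
      ∃ S : ℕ → Finset ℕ, (∀ N, S N ⊆ V) ∧
        (∀ s : Fin t0, (13 / 50 * al - e) * ((V.filter fun v => co v = s).card : ℝ) * (Om x Q).card -
            e * V.card * (Om x Q).card ≤
          ∑ N ∈ Om x Q, (((S N).filter fun v => co v = s).card : ℝ)) ∧
        (((Om x Q).filter fun N => e * (V.card : ℝ) ^ m ≤
          (((Fintype.piFinset fun _ : Fin m => S N).filter
            fun y => ¬ PopA x Q A c y).card : ℝ)).card : ℝ) ≤ e * (Om x Q).card := by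
  obtain ⟨R, c, de, ta, C0, hR, hc, hde, hta, hC0, habs⟩ :=
    clique_abs m hm al (50 / 13) 100 e hal hal1 (by norm_num) (by norm_num) he t0
  obtain ⟨w1, tb, C1, c1, htb, hC1, hc1, hconc⟩ := conc ta hta
  obtain ⟨w2, hrpt⟩ := rpt R hR
  obtain ⟨w3, hpp⟩ := phi_pair 1 t0 th (de ^ 2 * tb) hth (by positivity)
  obtain ⟨w4, hpt⟩ := phi_tuple R t0 th ta hth hta
  refine ⟨primorial (w1 + w2 + w3 + w4), primorial_pos _, ?_⟩
  intro Q hQ hqQ
  obtain ⟨xa, hxa⟩ := hconc Q hQ ((pc_prim (by omega)).trans hqQ)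
  obtain ⟨xb, hxb⟩ := hrpt Q hQ ((pc_prim (by omega)).trans hqQ)
  obtain ⟨n1, hn1⟩ := hpp Q hQ ((pc_prim (by omega)).trans hqQ)
  obtain ⟨n2, hn2⟩ := hpt Q hQ ((pc_prim (by omega)).trans hqQ)
  have hφ : (0 : ℝ) < Nat.totient Q := by exact_mod_cast Nat.totient_pos.mpr hQ
  have hQ0 : (0 : ℝ) < Q := by exact_mod_cast hQ
  obtain ⟨C, hC⟩ : ∃ C : ℝ, C = 1 + Nat.totient Q / th * (C0 + C1 / de) := ⟨_, rfl⟩
  have hC1' : 1 ≤ C := by
    have : 0 ≤ Nat.totient Q / th * (C0 + C1 / de) := by positivity
    rw [hC]; linarith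
  refine ⟨c, C, min c1 (1 / 10), max xa (max xb (max (Q : ℝ) (Real.exp (n1 + n2 + 1)))), hc,
    by linarith, by positivity, ?_⟩
  intro x hx n hn1x hn2x V hV cl co hco hthV A hA hAV
  have hx1 : xa ≤ x := (le_max_left _ _).trans hx
  have hx2 : xb ≤ x := (le_max_left _ _).trans ((le_max_right _ _).trans hx)
  have hx3 : (Q : ℝ) ≤ x := (le_max_left _ _).trans ((le_max_right _ _).trans ((le_max_right _ _).trans hx))
  have hx4 : Real.exp (n1 + n2 + 1) ≤ x :=
    (le_max_right _ _).trans ((le_max_right _ _).trans ((le_max_right _ _).trans hx))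
  have hxpos : 0 < x := lt_of_lt_of_le (Real.exp_pos _) hx4
  have hlog : (n1 : ℝ) + n2 + 1 ≤ Real.log x := by
    rw [Real.le_log_iff_exp_le hxpos]
    exact hx4
  have hlog0 : 0 < Real.log x := by
    have h1 : (0 : ℝ) ≤ n1 := Nat.cast_nonneg _
    have h2 : (0 : ℝ) ≤ n2 := Nat.cast_nonneg _
    linarith
  have hx1' : 1 ≤ x := by
    by_contra h
    push Not at h
    exact absurd (Real.log_nonpos hxpos.le h.le) (not_le.2 hlog0)
  have hnlog : Real.log x ≤ n := by
    calc Real.log x = 1 * Real.log x := (one_mul _).symm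
      _ ≤ C * Real.log x := by gcongr
      _ ≤ n := hn1x
  have hnn : (n1 : ℝ) + n2 + 1 ≤ n := hlog.trans hnlog
  have hnn' : n1 + n2 + 1 ≤ n := by exact_mod_cast hnn
  have hlam : 0 < lam x Q := by unfold lam; positivity
  have hlamV : C0 + C1 / de ≤ lam x Q * V.card := by
    have h1 : lam x Q * V.card = (Q * (V.card : ℝ)) / (Nat.totient Q * Real.log x) := by
      unfold lam
      ring
    rw [h1, le_div_iff₀ (by positivity)]
    calc (C0 + C1 / de) * (Nat.totient Q * Real.log x)
        = th * ((Nat.totient Q / th * (C0 + C1 / de)) * Real.log x) := by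
          field_simp
      _ ≤ th * (C * Real.log x) := by
          gcongr
          rw [hC]
          linarith
      _ ≤ th * n := by gcongr
      _ ≤ _ := hthV
  have hVle : ∀ v ∈ V, (v : ℝ) ≤ n := fun v hv => by exact_mod_cast (hV v hv).2.1
  have hnc1 : (n : ℝ) ≤ x ^ c1 :=
    hn2x.trans (Real.rpow_le_rpow_of_exponent_le hx1' (min_le_left _ _))
  have hnc2 : (n : ℝ) ≤ x ^ (1 / 10 : ℝ) :=
    hn2x.trans (Real.rpow_le_rpow_of_exponent_le hx1' (min_le_right _ _))
  have hVIcc : V ⊆ Icc 1 n := fun v hv => mem_Icc.2 ⟨(hV v hv).1, (hV v hv).2.1⟩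
  have hcardV : Fintype.card {v // v ∈ V} = V.card := Fintype.card_coe V
  have hHyp : Hyp {v // v ∈ V} (Om x Q) (fun N v => N + (v : ℕ) ∈ A) (lam x Q) al (50 / 13) R
      ((100 * R) ^ R) de ta C0 := by
    refine ⟨?_, hlam, ?_, ?_, ?_, ?_⟩
    · refine ⟨Q, ?_⟩
      unfold Om
      rw [mem_filter, mem_Icc]
      exact ⟨⟨hQ, Nat.le_floor hx3⟩, dvd_rfl⟩
    · rw [hcardV]
      have : 0 < C1 / de := by positivity
      linarith
    · intro v
      unfold hit
      refine (hAV v v.2).trans (le_of_eq ?_)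
      congr 2
      ext N
      simp
    · intro U hU
      rw [hcardV] at hU
      have hUc : (U.map (Function.Embedding.subtype fun v => v ∈ V)).card = U.card := card_map _
      have hmemU : ∀ u ∈ U.map (Function.Embedding.subtype fun v => v ∈ V), u ∈ V := by
        intro u hu
        rw [mem_map] at hu
        obtain ⟨v, _, rfl⟩ := hu
        exact v.2
      have h1 := hxa x hx1 (U.map (Function.Embedding.subtype fun v => v ∈ V))
        (fun u hu => ⟨(hVle u (hmemU u hu)).trans hnc1, (hV u (hmemU u hu)).2.2⟩) (by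
          rw [hUc]
          calc C1 = de * (C1 / de) := by field_simp
            _ ≤ de * (C0 + C1 / de) := by
                gcongr
                linarith
            _ ≤ de * (lam x Q * V.card) := by gcongr
            _ = lam x Q * (de * V.card) := by ring
            _ ≤ _ := by gcongr) (by
          rw [hUc]
          calc _ ≤ ∑ u ∈ V, ∑ v ∈ V.erase u, (Ph Q 1 (Nat.dist u v) - 1) := by
                refine (sum_le_sum fun u _ => ?_).trans
                  (sum_le_sum_of_subset_of_nonneg (t := V) (fun u hu => hmemU u hu) fun u _ _ =>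
                    sum_nonneg fun v _ => by have := pc_ph Q 1 (Nat.dist u v); linarith)
                refine sum_le_sum_of_subset_of_nonneg ?_ fun v _ _ => by
                  have := pc_ph Q 1 (Nat.dist u v); linarith
                exact erase_subset_erase _ fun u hu => hmemU u hu
            _ ≤ de ^ 2 * tb * (V.card : ℝ) ^ 2 :=
                hn1 n (by omega) V hVIcc cl co hco hthV
            _ = tb * (de * V.card) ^ 2 := by ring
            _ ≤ tb * (U.card : ℝ) ^ 2 := by gcongr)
      rw [hUc] at h1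
      refine (sum_le_sum fun N _ => ?_).trans h1
      refine max_le_max (sub_le_sub_right ?_ _) le_rfl
      unfold occ
      have h2 : (U.filter fun v : {v // v ∈ V} => N + (v : ℕ) ∈ A).card ≤
          ((U.map (Function.Embedding.subtype fun v => v ∈ V)).filter fun u => (N + u).Prime).card := by
        rw [filter_map, card_map]
        refine card_le_card ?_
        intro v hv
        rw [mem_filter] at hv ⊢
        exact ⟨hv.1, hA _ hv.2⟩
      refine Nat.cast_le.2 (le_trans (le_of_eq ?_) h2)
      congr 1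
      ext v
      simp only [mem_filter]
    · intro I _ hI F hF
      rw [hcardV]
      obtain ⟨Wt, hWt⟩ : ∃ Wt : ℕ → {v // v ∈ V} → Prop, Wt = fun N (v : {v // v ∈ V}) => N + (v : ℕ) ∈ A :=
        ⟨_, rfl⟩
      rw [← hWt]
      have hinjc : Function.Injective (fun (y : I → {v // v ∈ V}) (i : I) => ((y i : ℕ))) := by
        intro y y' h
        funext i
        exact Subtype.ext (congrFun h i)
      have hone : ∀ y ∈ F, hit (Om x Q) Wt y ≤
          (100 * R : ℝ) ^ R * lam x Q ^ R * PhI Q R (fun i => ((y i : ℕ))) * (Om x Q).card := by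
        intro y hy
        refine le_trans ?_ (hxb x hx2 I hI (fun i => ((y i : ℕ)))
          (fun i j h => hF y hy (Subtype.ext h))
          (fun i => (hVle _ (y i).2).trans hnc2) (fun i => (hV _ (y i).2).2.2))
        rw [hWt]
        unfold hit
        have : ((Om x Q).filter fun N => ∀ i, N + ((y i : ℕ)) ∈ A).card ≤
            ((Om x Q).filter fun N => ∀ i, (N + ((y i : ℕ))).Prime).card := by
          refine card_le_card ?_
          intro N hN
          rw [mem_filter] at hN ⊢
          exact ⟨hN.1, fun i => hA _ (hN.2 i)⟩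
        refine Nat.cast_le.2 (le_trans (le_of_eq ?_) this)
        congr 1
        ext N
        simp only [mem_filter]
      have hphi := hn2 n (by omega) V hVIcc cl co hco hthV I hI
        (F.image (fun (y : I → {v // v ∈ V}) (i : I) => ((y i : ℕ)))) (by
          intro y hy
          rw [mem_image] at hy
          obtain ⟨z, hz, rfl⟩ := hy
          exact ⟨fun i j h => hF z hz (Subtype.ext h), fun i => (z i).2⟩)
      rw [sum_image (fun y _ y' _ h => hinjc h), sum_sub_distrib, sum_const, nsmul_eq_mul,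
        mul_one] at hphi
      calc ∑ y ∈ F, hit (Om x Q) Wt y
          ≤ ∑ y ∈ F, (100 * R : ℝ) ^ R * lam x Q ^ R * PhI Q R (fun i => ((y i : ℕ))) *
              (Om x Q).card := sum_le_sum hone
        _ = (100 * R : ℝ) ^ R * lam x Q ^ R * (∑ y ∈ F, PhI Q R (fun i => ((y i : ℕ)))) *
              (Om x Q).card := by
            rw [← sum_mul, ← mul_sum]
        _ ≤ _ := by
            gcongr
            linarith
  obtain ⟨S', hS1, hS2⟩ := habs {v // v ∈ V} (Om x Q) (fun N v => N + (v : ℕ) ∈ A) (lam x Q) hHyp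
    (fun v => co v)
  refine ⟨fun N => (S' N).map (Function.Embedding.subtype fun v => v ∈ V), ?_, ?_, ?_⟩
  · intro N u hu
    rw [mem_map] at hu
    obtain ⟨v, _, rfl⟩ := hu
    exact v.2
  · intro s
    have h1 := hS1 s
    rw [hcardV] at h1
    have h2 : (cell (fun v : {v // v ∈ V} => co v) s).card = (V.filter fun v => co v = s).card := by
      unfold cell
      rw [← card_map (Function.Embedding.subtype fun v => v ∈ V)]
      congr 1
      ext v
      simp only [mem_map, mem_filter, mem_univ, true_and, Function.Embedding.subtype_apply,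
        Subtype.exists, exists_and_left, exists_prop, exists_eq_right_right]
      tauto
    rw [h2] at h1
    have h3 : al / (50 / 13) - e = 13 / 50 * al - e := by ring
    rw [h3] at h1
    refine h1.trans (le_of_eq ?_)
    refine sum_congr rfl fun N _ => ?_
    rw [filter_map, card_map]
    rfl
  · rw [hcardV] at hS2
    refine le_trans ?_ hS2
    have : ((Om x Q).filter fun N => e * (V.card : ℝ) ^ m ≤
          (((Fintype.piFinset fun _ : Fin m => (S' N).map (Function.Embedding.subtype fun v => v ∈ V)).filter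
            fun y => ¬ PopA x Q A c y).card : ℝ)).card ≤
        ((Om x Q).filter fun N => e * (V.card : ℝ) ^ m ≤
            (((Fintype.piFinset fun _ : Fin m => S' N).filter
              fun y => ¬ Pop (Om x Q) (fun N v => N + ((v : {v // v ∈ V}) : ℕ) ∈ A) (lam x Q) c y).card : ℝ)).card := by
      refine card_le_card ?_
      intro N hN
      rw [mem_filter] at hN ⊢
      refine ⟨hN.1, hN.2.trans ?_⟩
      have h4 : ((Fintype.piFinset fun _ : Fin m => (S' N).map (Function.Embedding.subtype fun v => v ∈ V)).filter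
            fun y => ¬ PopA x Q A c y).card ≤ ((Fintype.piFinset fun _ : Fin m => S' N).filter
              fun y => ¬ Pop (Om x Q) (fun N v => N + ((v : {v // v ∈ V}) : ℕ) ∈ A) (lam x Q) c y).card := by
        have h5 : ((Fintype.piFinset fun _ : Fin m => (S' N).map (Function.Embedding.subtype fun v => v ∈ V)).filter
            fun y => ¬ PopA x Q A c y) ⊆ ((Fintype.piFinset fun _ : Fin m => S' N).filter
              fun y => ¬ Pop (Om x Q) (fun N v => N + ((v : {v // v ∈ V}) : ℕ) ∈ A) (lam x Q) c y).image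
                (fun (y : Fin m → {v // v ∈ V}) (i : Fin m) => ((y i : ℕ))) := by
          intro y hy
          rw [mem_filter, Fintype.mem_piFinset] at hy
          obtain ⟨hy1, hy2⟩ := hy
          have h6 : ∀ i, ∃ v ∈ S' N, ((v : {v // v ∈ V}) : ℕ) = y i := by
            intro i
            have := hy1 i
            rw [mem_map] at this
            exact this
          choose z hz1 hz2 using h6
          rw [mem_image]
          refine ⟨z, ?_, funext hz2⟩
          rw [mem_filter, Fintype.mem_piFinset]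
          refine ⟨hz1, fun hP => hy2 ?_⟩
          unfold Pop hit at hP
          unfold PopA
          simp only [hz2] at hP
          exact hP
        exact (card_le_card h5).trans card_image_le
      exact_mod_cast h4
    exact_mod_cast this

end Pool.Agent.H99.RO
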